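import Pool.Agent.U471.DQ.Near

set_option autoImplicit false

/-!
Examples of vectors of polynomials which are not on major arcs, and counts of primes with a property.
-/

namespace Pool.Agent.U471.DQ

open Finset Polynomial

/-- finite irrationality exponent: `|q α - a| ≥ c / q ^ w` -/
def FinType (α : ℝ) : Prop := ∃ (w : ℕ) (c : ℝ), 0 < c ∧ ∀ q : ℕ, 1 ≤ q → ∀ a : ℤ, c / (q : ℝ) ^ w ≤ |q * α - a|

/-- algebraic irrational numbers (Liouville) -/
lemma finType_alg {α : ℝ} (h : Irrational α) (h' : IsAlgebraic ℚ α) : FinType α := by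
  rw [← IsFractionRing.isAlgebraic_iff ℤ ℚ ℝ] at h'
  obtain ⟨f, hf0, hfa⟩ := h'
  obtain ⟨A, hA, H⟩ := Liouville.exists_pos_real_of_irrational_root h hf0 (by
    rw [eval_map_algebraMap]
    exact hfa)
  refine ⟨f.natDegree, 1 / A, by positivity, fun q hq a => ?_⟩
  have h1 := H a (q - 1)
  have e1 : (((q - 1 : ℕ) : ℝ) + 1) = q := by
    rw [Nat.cast_sub hq]
    push_cast
    ring
  rw [e1] at h1
  have hq0 : (0 : ℝ) < q := by exact_mod_cast hq
  have hq1 : (1 : ℝ) ≤ q := by exact_mod_cast hq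
  have h2 : |(q : ℝ) * α - a| = q * |α - a / q| := by
    rw [← abs_of_pos hq0, ← abs_mul, abs_of_pos hq0]
    congr 1
    field_simp
  rw [h2, div_le_iff₀ (by positivity), div_le_iff₀ hA]
  have h3 : 0 ≤ (q : ℝ) ^ f.natDegree * (|α - a / q| * A) := by positivity
  calc (1 : ℝ) ≤ (q : ℝ) ^ f.natDegree * (|α - a / q| * A) := h1
    _ ≤ q * ((q : ℝ) ^ f.natDegree * (|α - a / q| * A)) := le_mul_of_one_le_left h3 hq1
    _ = _ := by ring

/-- the condition holds with a power of `N` -/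
theorem gen_of_type {r : ℕ} (d : ℕ) (f : Fin r → ℝ[X])
    (h : ∀ i, ∃ j, 1 ≤ j ∧ j ≤ d ∧ FinType ((f i).coeff j) ∧ ∀ i', i' ≠ i → (f i').coeff j = 0) :
    ∃ β : ℝ, 0 < β ∧ β ≤ 1 ∧ ∃ N₀ : ℕ, ∀ N : ℕ, N₀ ≤ N → Gen d N ((N : ℝ) ^ β) f := by
  choose j hj1 hj2 hj3 hj4 using h
  choose w c hc hw using hj3
  obtain ⟨W, hW⟩ : ∃ W : ℕ, W = ∑ i, w i := ⟨_, rfl⟩
  obtain ⟨c0, hc0⟩ : ∃ c0 : ℝ, c0 = ∏ i, min (c i) 1 := ⟨_, rfl⟩
  have hc00 : 0 < c0 := by
    rw [hc0]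
    exact prod_pos fun i _ => lt_min (hc i) one_pos
  have hc0i : ∀ i, c0 ≤ c i := by
    intro i
    rw [hc0, ← mul_prod_erase univ _ (mem_univ i)]
    have h1 : ∏ x ∈ univ.erase i, min (c x) 1 ≤ 1 :=
      prod_le_one (fun x _ => (lt_min (hc x) one_pos).le) fun x _ => min_le_right _ _
    have h2 : 0 ≤ min (c i) 1 := (lt_min (hc i) one_pos).le
    calc min (c i) 1 * ∏ x ∈ univ.erase i, min (c x) 1 ≤ min (c i) 1 * 1 := mul_le_mul_of_nonneg_left h1 h2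
      _ ≤ c i := by rw [mul_one]; exact min_le_left _ _
  have hWi : ∀ i, w i ≤ W := by
    intro i
    rw [hW]
    exact single_le_sum (fun _ _ => Nat.zero_le _) (mem_univ i)
  obtain ⟨β, hβ⟩ : ∃ β : ℝ, β = 1 / (2 * ((W : ℝ) + 1)) := ⟨_, rfl⟩
  have hβ0 : 0 < β := by rw [hβ]; positivity
  have hW0 : (0 : ℝ) ≤ W := Nat.cast_nonneg W
  have hβ1 : β ≤ 1 := by
    rw [hβ, div_le_one (by positivity)]
    linarith
  obtain ⟨N₀, hN₀⟩ := exists_nat_gt ((1 / c0) ^ 2)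
  refine ⟨β, hβ0, hβ1, N₀ + 1, fun N hN l hl hlR => ?_⟩
  have hN1 : (1 : ℝ) ≤ N := by exact_mod_cast (by omega : 1 ≤ N)
  have hN0 : (0 : ℝ) < N := by linarith
  obtain ⟨i, hi⟩ : ∃ i, l i ≠ 0 := by
    by_contra hcon
    push Not at hcon
    exact hl (funext hcon)
  refine ⟨j i, hj1 i, hj2 i, fun b => ?_⟩
  obtain ⟨R, hR⟩ : ∃ R : ℝ, R = (N : ℝ) ^ β := ⟨_, rfl⟩
  rw [← hR] at hlR ⊢
  have hR1 : 1 ≤ R := by rw [hR]; exact Real.one_le_rpow hN1 hβ0.le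
  have hsum : ∑ i', (l i' : ℝ) * (f i').coeff (j i) = l i * (f i).coeff (j i) := by
    rw [sum_eq_single i]
    · intro i' _ hne
      rw [hj4 i i' hne, mul_zero]
    · intro h
      exact absurd (mem_univ i) h
  rw [hsum]
  have hq1 : 1 ≤ (l i).natAbs := Int.natAbs_pos.2 hi
  have hqr : (((l i).natAbs : ℕ) : ℝ) = |(l i : ℝ)| := by rw [Nat.cast_natAbs, Int.cast_abs]
  have hlow : c0 / R ^ W ≤ |(l i : ℝ) * (f i).coeff (j i) - b| := by
    have h1 : ∀ a : ℤ, c i / (((l i).natAbs : ℕ) : ℝ) ^ w i ≤ |(((l i).natAbs : ℕ) : ℝ) * (f i).coeff (j i) - a| :=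
      fun a => hw i _ hq1 a
    have h2 : c0 / R ^ W ≤ c i / (((l i).natAbs : ℕ) : ℝ) ^ w i := by
      have hq0 : (1 : ℝ) ≤ (((l i).natAbs : ℕ) : ℝ) := by exact_mod_cast hq1
      apply div_le_div₀ (hc i).le (hc0i i) (by positivity)
      calc (((l i).natAbs : ℕ) : ℝ) ^ w i ≤ R ^ w i := pow_le_pow_left₀ (by linarith) (by rw [hqr]; exact hlR i) _
        _ ≤ R ^ W := pow_le_pow_right₀ hR1 (hWi i)
    refine h2.trans ?_
    rcases abs_choice (l i : ℝ) with h3 | h3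
    · have h4 := h1 b
      rw [hqr, h3] at h4
      rw [hqr, h3]
      exact h4
    · have h4 := h1 (-b)
      rw [hqr, h3] at h4
      rw [hqr, h3]
      refine h4.trans (le_of_eq ?_)
      rw [← abs_neg]
      congr 1
      push_cast
      ring
  refine lt_of_lt_of_le ?_ hlow
  rw [div_lt_div_iff₀ (by positivity) (by positivity)]
  have h5 : R * R ^ W = √(N : ℝ) := by
    rw [← pow_succ', hR, ← Real.rpow_natCast, ← Real.rpow_mul hN0.le, Real.sqrt_eq_rpow]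
    congr 1
    rw [hβ]
    push_cast
    field_simp
  rw [h5]
  have h6 : 1 / c0 < √(N : ℝ) := by
    apply Real.lt_sqrt_of_sq_lt
    have : (N₀ : ℝ) ≤ N := by exact_mod_cast (by omega : N₀ ≤ N)
    linarith
  rw [div_lt_iff₀ hc00] at h6
  have hs0 : 0 < √(N : ℝ) := Real.sqrt_pos.2 hN0
  calc √(N : ℝ) = √(N : ℝ) * 1 := (mul_one _).symm
    _ < √(N : ℝ) * (√(N : ℝ) * c0) := mul_lt_mul_of_pos_left h6 hs0
    _ = c0 * N := by rw [← mul_assoc, Real.mul_self_sqrt hN0.le, mul_comm]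
    _ ≤ c0 * (N : ℝ) ^ j i := by
        apply mul_le_mul_of_nonneg_left _ hc00.le
        exact le_self_pow₀ hN1 (by have := hj1 i; omega)

open Classical in
/-- the number of the primes `p ≤ x` with the property `P p z` -/
noncomputable def cnt {r : ℕ} (P : ℕ → (Fin r → ℤ) → Prop) (z : Fin r → ℤ) (x : ℕ) : ℕ := ((prs x).filter (fun p => P p z)).card

open Classical in
/-- the sum over the primes `p ≤ x` of the proportion of the residues with the property `P p` -/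
noncomputable def mdl {r : ℕ} (P : ℕ → (Fin r → ℤ) → Prop) (x : ℕ) : ℝ :=
  ∑ p ∈ prs x, (((bx r p).filter (fun ν => P p (fun i => (ν i : ℤ)))).card : ℝ) / (p : ℝ) ^ r

/-- **counts of primes** -/
theorem near_count (r d : ℕ) (hd : 1 ≤ d) (δ : ℝ) (hδ : 0 < δ) : ∃ κ C : ℝ, 0 < κ ∧ κ ≤ 1 ∧ 1 ≤ C ∧
    ∀ (N : ℕ) (R : ℝ) (f : Fin r → ℝ[X]), 1 ≤ N → 1 ≤ R → (∀ i, (f i).natDegree ≤ d) → Gen d N R f →
    ∀ P : ℕ → ℕ → (Fin r → ℤ) → Prop, (∀ t p : ℕ, p.Prime → ∀ u u' : Fin r → ℤ, (∀ i, (p : ℤ) ∣ u i - u' i) → (P t p u ↔ P t p u')) →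
    ∃ E : Finset ℕ, E ⊆ range N ∧ (E.card : ℝ) ≤ C * (N * R ^ (-κ)) ∧ ∀ n ∈ range N, n ∉ E →
      ∀ z : Fin r → ℤ, Cl (R ^ κ) (fun i => (f i).eval (n : ℝ)) z → ∀ t : ℕ, (t : ℝ) ≤ R ^ κ → ∀ x : ℕ, (x : ℝ) ≤ R ^ κ →
        |(cnt (P t) z x : ℝ) - mdl (P t) x| ≤ C * er δ R (mdl (P t) x) x := by
  classical
  obtain ⟨κ, C, h1, h2, h3, H⟩ := near_primes r d hd δ hδ
  refine ⟨κ, C, h1, h2, h3, ?_⟩
  intro N R f hN hR hf hgen P hP
  obtain ⟨E, hE1, hE2, hE3⟩ := H N R f hN hR hf hgen (fun t p u => if P t p u then 1 else 0) (by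
      intro t p hp u u' hu
      show (if P t p u then (1 : ℝ) else 0) = if P t p u' then 1 else 0
      by_cases h : P t p u
      · rw [if_pos h, if_pos ((hP t p hp u u' hu).1 h)]
      · rw [if_neg h, if_neg (fun h' => h ((hP t p hp u u' hu).2 h'))]) (by
      intro t p u
      show 0 ≤ (if P t p u then (1 : ℝ) else 0) ∧ (if P t p u then (1 : ℝ) else 0) ≤ 1
      split_ifs <;> norm_num)
  refine ⟨E, hE1, hE2, fun n hn hnE z hz t ht x hx => ?_⟩
  have h4 := hE3 n hn hnE z hz t ht x hx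
  have e1 : ∑ p ∈ prs x, (if P t p z then (1 : ℝ) else 0) = cnt (P t) z x := by
    unfold cnt
    rw [← sum_filter, sum_const, nsmul_eq_mul, mul_one]
  have e2 : ∑ p ∈ prs x, mn p (fun u => if P t p u then (1 : ℝ) else 0) = mdl (P t) x := by
    unfold mdl mn rs
    apply sum_congr rfl
    intro p _
    rw [← sum_filter, sum_const, nsmul_eq_mul, mul_one]
  simp only [e1, e2] at h4
  exact h4

/-- values of integer polynomials at congruent points -/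
lemma mv_congr {r p : ℕ} (A : MvPolynomial (Fin r) ℤ) {u u' : Fin r → ℤ} (h : ∀ i, (p : ℤ) ∣ u i - u' i) :
    (p : ℤ) ∣ MvPolynomial.eval u A - MvPolynomial.eval u' A := by
  rw [← ZMod.intCast_zmod_eq_zero_iff_dvd]
  push_cast
  rw [sub_eq_zero]
  have h1 : ∀ v : Fin r → ℤ, ((MvPolynomial.eval v A : ℤ) : ZMod p) =
      MvPolynomial.eval₂ (Int.castRingHom (ZMod p)) (fun i => ((v i : ℤ) : ZMod p)) A := by
    intro v
    have := MvPolynomial.eval₂_comp_left (Int.castRingHom (ZMod p)) (RingHom.id ℤ) v A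
    rw [MvPolynomial.eval₂_id] at this
    exact this
  rw [h1, h1]
  congr 1
  funext i
  rw [← sub_eq_zero, ← Int.cast_sub, ZMod.intCast_zmod_eq_zero_iff_dvd]
  exact h i

end Pool.Agent.U471.DQ
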