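import Pool.Agent.H304R2.EC.Points

set_option autoImplicit false

/-!
The number of the residues `D` modulo `p` for which `y² = x³ - D x` has the trace `h ≠ 0`.
-/

namespace Pool.Agent.U471.DQ.CM

open Finset Pool.Agent.H304R2.EC.Pts

/-- the number of the solutions of `y² = x³ - D x` modulo `p` -/
def points (p : ℕ) (D : ℤ) : ℕ :=
  ((range p ×ˢ range p).filter (fun xy : ℕ × ℕ => (p : ℤ) ∣ (xy.2 : ℤ) ^ 2 - ((xy.1 : ℤ) ^ 3 - D * xy.1))).card

lemma points_congr (p : ℕ) {D D' : ℤ} (h : (p : ℤ) ∣ D - D') : points p D = points p D' := by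
  unfold points
  congr 1
  apply filter_congr
  intro xy _
  have h : (p : ℤ) ∣ ((xy.2 : ℤ) ^ 2 - ((xy.1 : ℤ) ^ 3 - D * xy.1)) - ((xy.2 : ℤ) ^ 2 - ((xy.1 : ℤ) ^ 3 - D' * xy.1)) := by
    have e : ((xy.2 : ℤ) ^ 2 - ((xy.1 : ℤ) ^ 3 - D * xy.1)) - ((xy.2 : ℤ) ^ 2 - ((xy.1 : ℤ) ^ 3 - D' * xy.1)) =
      (D - D') * xy.1 := by ring
    rw [e]
    exact h.mul_right _
  exact (dvd_iff_dvd_of_dvd_sub h)

section
variable {p : ℕ} [hF : Fact p.Prime]

/-- the number of points and the Jacobsthal sum -/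
theorem points_eq (h2 : p ≠ 2) (D : ℤ) : (p : ℤ) - points p D = - SS (D : ZMod p) := by
  have hcard : (points p D : ℤ) =
      ∑ x : ZMod p, (((univ : Finset (ZMod p)).filter fun y => y ^ 2 = x ^ 3 - (D : ZMod p) * x).card : ℤ) := by
    unfold points
    rw [← Nat.cast_sum, ← Finset.card_sigma]
    congr 1
    refine Finset.card_bij' (fun xy _ => (⟨(xy.1 : ZMod p), (xy.2 : ZMod p)⟩ : Σ _ : ZMod p, ZMod p))
      (fun q _ => (q.1.val, q.2.val)) ?_ ?_ ?_ ?_
    · rintro ⟨x, y⟩ h
      simp only [mem_filter, mem_product, mem_range] at h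
      simp only [mem_sigma, mem_univ, mem_filter, true_and]
      obtain ⟨_, h⟩ := h
      rw [← ZMod.intCast_zmod_eq_zero_iff_dvd] at h
      push_cast at h
      linear_combination h
    · rintro ⟨x, y⟩ h
      simp only [mem_sigma, mem_univ, mem_filter, true_and] at h
      simp only [mem_filter, mem_product, mem_range]
      refine ⟨⟨ZMod.val_lt _, ZMod.val_lt _⟩, ?_⟩
      rw [← ZMod.intCast_zmod_eq_zero_iff_dvd]
      push_cast
      simp only [ZMod.natCast_val, ZMod.cast_id', id_eq]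
      linear_combination h
    · rintro ⟨x, y⟩ h
      simp only [mem_filter, mem_product, mem_range] at h
      simp only [Prod.mk.injEq]
      exact ⟨ZMod.val_cast_of_lt h.1.1, ZMod.val_cast_of_lt h.1.2⟩
    · rintro ⟨x, y⟩ h
      simp
  have hfib : ∀ x : ZMod p, (((univ : Finset (ZMod p)).filter fun y => y ^ 2 = x ^ 3 - (D : ZMod p) * x).card : ℤ) =
      qc p (x * (x ^ 2 - (D : ZMod p))) + 1 := by
    intro x
    have := quadraticChar_card_sqrts (rc h2) (x ^ 3 - (D : ZMod p) * x)
    have e : x * (x ^ 2 - (D : ZMod p)) = x ^ 3 - (D : ZMod p) * x := by ring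
    rw [e, ← this]
    congr 2
    ext y
    simp
  rw [hcard]
  simp_rw [hfib]
  rw [Finset.sum_add_distrib]
  simp only [sum_const, nsmul_eq_mul, mul_one, card_univ, ZMod.card]
  unfold SS
  ring

/-- supersingular primes -/
theorem SS_three (h1 : qc p (-1) = -1) (a : ZMod p) : SS a = 0 := by
  have e : SS a = - SS a := by
    conv_lhs => unfold SS
    rw [← Equiv.sum_comp (Equiv.neg (ZMod p))]
    unfold SS
    rw [← sum_neg_distrib]
    apply sum_congr rfl
    intro x _
    have : (Equiv.neg (ZMod p)) x * ((Equiv.neg (ZMod p)) x ^ 2 - a) = -1 * (x * (x ^ 2 - a)) := by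
      simp only [Equiv.neg_apply]; ring
    rw [this, map_mul, h1, neg_one_mul]
  omega

/-- the number of residues with a given value of the character -/
theorem qc_count (h2 : p ≠ 2) (v : ℤ) (hv : v = 1 ∨ v = -1) :
    2 * ((univ.filter (fun t : ZMod p => qc p t = v)).card : ℤ) = (p : ℤ) - 1 := by
  have h0 := sum_qc (p := p) h2
  have e1 : ∀ t : ZMod p, qc p t = (if qc p t = 1 then 1 else 0) - (if qc p t = -1 then 1 else 0) := by
    intro t
    by_cases ht : t = 0
    · subst ht; simp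
    · rcases quadraticChar_dichotomy ht with h | h <;> rw [h] <;> norm_num
  have e2 : ∀ t : ZMod p, (1 : ℤ) = (if qc p t = 1 then 1 else 0) + (if qc p t = -1 then 1 else 0) + (if t = 0 then 1 else 0) := by
    intro t
    by_cases ht : t = 0
    · subst ht; simp
    · rcases quadraticChar_dichotomy ht with h | h <;> rw [h] <;> simp [ht]
  have h3 : (p : ℤ) = ∑ t : ZMod p, (1 : ℤ) := by simp [ZMod.card]
  rw [sum_congr rfl (fun t _ => e1 t), sum_sub_distrib, sum_boole, sum_boole] at h0
  rw [sum_congr rfl (fun t _ => e2 t), sum_add_distrib, sum_add_distrib, sum_boole, sum_boole, sum_boole] at h3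
  have h4 : ((univ.filter (fun t : ZMod p => t = 0)).card : ℤ) = 1 := by
    rw [filter_eq' univ (0 : ZMod p), if_pos (mem_univ _), card_singleton, Nat.cast_one]
  rw [h4] at h3
  rcases hv with rfl | rfl <;> linarith

/-- the number of the `t` with `χ(t) T = v` -/
theorem scale_count (h2 : p ≠ 2) (T v : ℤ) (hT : T ≠ 0) :
    2 * ((univ.filter (fun t : ZMod p => t ≠ 0 ∧ qc p t * T = v)).card : ℤ) = if v ^ 2 = T ^ 2 then (p : ℤ) - 1 else 0 := by
  split_ifs with h
  · rcases sq_eq_sq_iff_eq_or_eq_neg.1 h with h | h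
    · rw [← qc_count h2 1 (Or.inl rfl)]
      congr 3
      ext t
      simp only [mem_filter, mem_univ, true_and]
      constructor
      · rintro ⟨h3, h4⟩
        rcases quadraticChar_dichotomy h3 with h5 | h5
        · exact h5
        · rw [h5] at h4; omega
      · intro h5
        refine ⟨?_, by rw [h5, h, one_mul]⟩
        rintro rfl
        simp at h5
    · rw [← qc_count h2 (-1) (Or.inr rfl)]
      congr 3
      ext t
      simp only [mem_filter, mem_univ, true_and]
      constructor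
      · rintro ⟨h3, h4⟩
        rcases quadraticChar_dichotomy h3 with h5 | h5
        · rw [h5] at h4; omega
        · exact h5
      · intro h5
        refine ⟨?_, by rw [h5, h]; ring⟩
        rintro rfl
        simp at h5
  · rw [filter_false_of_mem, card_empty, Nat.cast_zero, mul_zero]
    rintro t _ ⟨h3, h4⟩
    apply h
    rw [← h4, mul_pow]
    have := qc_self h3
    rw [← sq] at this
    rw [this, one_mul]

/-- the residues with a given Jacobsthal sum -/
theorem SS_count (h2 : p ≠ 2) (h1 : qc p (-1) = 1) (n : ZMod p) (hn : ¬ IsSquare n) (v : ℤ) :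
    2 * ((univ.filter (fun a : ZMod p => a ≠ 0 ∧ SS a = v)).card : ℤ) =
      (univ.filter (fun t : ZMod p => t ≠ 0 ∧ qc p t * SS (1 : ZMod p) = v)).card +
      (univ.filter (fun t : ZMod p => t ≠ 0 ∧ qc p t * SS n = v)).card := by
  classical
  have hn0 : n ≠ 0 := by rintro rfl; exact hn ⟨0, by simp⟩
  have h20 : (2 : ZMod p) ≠ 0 := two_ne h2
  have key : ∀ c : ZMod p, c ≠ 0 →
      ((univ.filter (fun t : ZMod p => t ≠ 0 ∧ qc p t * SS c = v)).card : ℤ) =
      2 * ((univ.filter (fun a : ZMod p => a ≠ 0 ∧ IsSquare (a / c) ∧ SS a = v)).card : ℤ) := by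
    intro c hc
    have hm : ∀ t ∈ univ.filter (fun t : ZMod p => t ≠ 0 ∧ qc p t * SS c = v),
        c * t ^ 2 ∈ univ.filter (fun a : ZMod p => a ≠ 0 ∧ IsSquare (a / c) ∧ SS a = v) := by
      intro t ht
      rw [mem_filter] at ht ⊢
      refine ⟨mem_univ _, mul_ne_zero hc (pow_ne_zero 2 ht.2.1), ⟨t, by field_simp⟩, ?_⟩
      rw [SS_scale _ _ ht.2.1, ht.2.2]
    rw [card_eq_sum_card_fiberwise hm]
    have h3 : ∀ a ∈ univ.filter (fun a : ZMod p => a ≠ 0 ∧ IsSquare (a / c) ∧ SS a = v),
        ((univ.filter (fun t : ZMod p => t ≠ 0 ∧ qc p t * SS c = v)).filter (fun t => c * t ^ 2 = a)).card = 2 := by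
      intro a ha
      rw [mem_filter] at ha
      obtain ⟨_, ha0, ⟨s, hs⟩, hav⟩ := ha
      have hs0 : s ≠ 0 := by
        rintro rfl
        rw [mul_zero] at hs
        exact div_ne_zero ha0 hc hs
      have hacs : a = c * s ^ 2 := by
        rw [div_eq_iff hc] at hs
        rw [hs]; ring
      have hset : (univ.filter (fun t : ZMod p => t ≠ 0 ∧ qc p t * SS c = v)).filter (fun t => c * t ^ 2 = a) = {s, -s} := by
        ext t
        simp only [mem_filter, mem_univ, true_and, mem_insert, mem_singleton]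
        constructor
        · rintro ⟨_, h⟩
          rw [hacs] at h
          have := mul_left_cancel₀ hc h
          exact sq_eq_sq_iff_eq_or_eq_neg.1 this
        · have h5 : qc p s * SS c = v := by rw [← SS_scale _ _ hs0, ← hacs, hav]
          rintro (rfl | rfl)
          · exact ⟨⟨hs0, h5⟩, hacs.symm⟩
          · refine ⟨⟨neg_ne_zero.2 hs0, ?_⟩, ?_⟩
            · have e : -s = -1 * s := by ring
              rw [e, map_mul, h1, one_mul, h5]
            · rw [neg_sq]
              exact hacs.symm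
      rw [hset, card_pair]
      intro h
      apply hs0
      have : (2 : ZMod p) * s = 0 := by linear_combination h
      rcases mul_eq_zero.1 this with h | h
      · exact absurd h h20
      · exact h
    rw [sum_congr rfl h3, sum_const, smul_eq_mul]
    push_cast
    ring
  rw [key 1 one_ne_zero, key n hn0, ← mul_add]
  congr 1
  rw [← Nat.cast_add, ← card_union_of_disjoint]
  · congr 2
    ext a
    simp only [mem_filter, mem_univ, true_and, mem_union]
    constructor
    · rintro ⟨ha, hav⟩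
      by_cases hsq : IsSquare a
      · left
        exact ⟨ha, by rw [div_one]; exact hsq, hav⟩
      · right
        refine ⟨ha, ?_, hav⟩
        rw [← quadraticChar_one_iff_isSquare (div_ne_zero ha hn0)]
        have h3 : a = a / n * n := by field_simp
        have h4 : qc p a = qc p (a / n) * qc p n := by rw [← map_mul, ← h3]
        rw [quadraticChar_neg_one_iff_not_isSquare.2 hsq, quadraticChar_neg_one_iff_not_isSquare.2 hn] at h4
        show qc p (a / n) = 1
        linarith
    · rintro (⟨ha, _, hav⟩ | ⟨ha, _, hav⟩) <;> exact ⟨ha, hav⟩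
  · rw [disjoint_filter]
    rintro a _ ⟨ha, h3, _⟩ ⟨_, h4, _⟩
    rw [div_one] at h3
    rw [← quadraticChar_one_iff_isSquare (div_ne_zero ha hn0)] at h4
    rw [← quadraticChar_one_iff_isSquare ha] at h3
    have h5 : a = a / n * n := by field_simp
    have h6 : qc p a = qc p (a / n) * qc p n := by rw [← map_mul, ← h5]
    have h7 : qc p a = 1 := h3
    have h8 : qc p (a / n) = 1 := h4
    rw [h7, h8, quadraticChar_neg_one_iff_not_isSquare.2 hn] at h6
    norm_num at h6

/-- uniqueness of the representation as a sum of two squares -/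
theorem two_squares_unique {q : ℕ} (hq : q.Prime) {a b c d : ℤ} (h1 : a ^ 2 + b ^ 2 = q) (h2 : c ^ 2 + d ^ 2 = q) :
    c ^ 2 = a ^ 2 ∨ c ^ 2 = b ^ 2 := by
  have hq' : Prime (q : ℤ) := Nat.prime_iff_prime_int.1 hq
  have hq0 : (0 : ℤ) < q := by exact_mod_cast hq.pos
  have h3 : (q : ℤ) ∣ (a * c - b * d) * (a * c + b * d) := by
    refine ⟨a ^ 2 + c ^ 2 - q, ?_⟩
    have e1 : b ^ 2 = q - a ^ 2 := by linarith
    have e2 : d ^ 2 = q - c ^ 2 := by linarith
    have e3 : (a * c - b * d) * (a * c + b * d) = a ^ 2 * c ^ 2 - b ^ 2 * d ^ 2 := by ring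
    rw [e3, e1, e2]
    ring
  have key : ∀ d : ℤ, c ^ 2 + d ^ 2 = q → (q : ℤ) ∣ a * c - b * d → c ^ 2 = a ^ 2 ∨ c ^ 2 = b ^ 2 := by
    intro d h2 h4
    have h5 : (a * c - b * d) ^ 2 + (a * d + b * c) ^ 2 = (q : ℤ) ^ 2 := by
      have : (a * c - b * d) ^ 2 + (a * d + b * c) ^ 2 = (a ^ 2 + b ^ 2) * (c ^ 2 + d ^ 2) := by ring
      rw [this, h1, h2]; ring
    obtain ⟨k, hk⟩ := h4
    have h6 : k ^ 2 ≤ 1 := by
      by_contra hcon
      push Not at hcon
      rw [hk] at h5
      have h7 : (q : ℤ) ^ 2 * 1 < (q : ℤ) ^ 2 * k ^ 2 := mul_lt_mul_of_pos_left hcon (by positivity)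
      nlinarith [sq_nonneg (a * d + b * c)]
    have h7 : k ^ 2 = 0 ∨ k ^ 2 = 1 := by
      have := sq_nonneg k
      omega
    rcases h7 with h7 | h7
    · right
      have hk0 : k = 0 := by simpa using h7
      rw [hk0, mul_zero] at hk
      have h8 : (a * c) ^ 2 = (b * d) ^ 2 := by
        have : a * c = b * d := by linarith
        rw [this]
      have e1 : b ^ 2 = q - a ^ 2 := by linarith
      have e2 : d ^ 2 = q - c ^ 2 := by linarith
      rw [mul_pow, mul_pow, e1, e2] at h8
      have h9 : (q : ℤ) * (q - (a ^ 2 + c ^ 2)) = 0 := by linarith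
      rcases mul_eq_zero.1 h9 with h | h
      · omega
      · linarith
    · left
      rw [hk, mul_pow, h7, mul_one] at h5
      have h8 : (a * d + b * c) ^ 2 = 0 := by linarith
      have h9 : a * d + b * c = 0 := by simpa using h8
      have h10 : (a * d) ^ 2 = (b * c) ^ 2 := by
        have : a * d = - (b * c) := by linarith
        rw [this, neg_sq]
      have e1 : b ^ 2 = q - a ^ 2 := by linarith
      have e2 : d ^ 2 = q - c ^ 2 := by linarith
      rw [mul_pow, mul_pow, e1, e2] at h10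
      have h11 : (q : ℤ) * (a ^ 2 - c ^ 2) = 0 := by linarith
      rcases mul_eq_zero.1 h11 with h | h
      · omega
      · linarith
  rcases hq'.dvd_or_dvd h3 with h | h
  · exact key d h2 h
  · refine key (-d) (by rw [neg_sq]; exact h2) ?_
    have : a * c - b * -d = a * c + b * d := by ring
    rw [this]
    exact h

open Classical in
/-- **the number of the residues with the trace `-v`** -/
theorem SS_count_eq (h2 : p ≠ 2) (v : ℤ) (hv : v ≠ 0) :
    4 * ((univ.filter (fun a : ZMod p => a ≠ 0 ∧ SS a = v)).card : ℤ) =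
      if (∃ b : ℕ, v ^ 2 + (2 * (b : ℤ)) ^ 2 = 4 * p) then (p : ℤ) - 1 else 0 := by
  classical
  have hp := hF.out
  have hp0 : (0 : ℤ) < p := by exact_mod_cast hp.pos
  have hp3 : (3 : ℤ) ≤ p := by
    have := hp.two_le
    omega
  rcases quadraticChar_dichotomy (F := ZMod p) (a := -1) (by simp) with h1 | h1
  · -- `p ≡ 1 mod 4`
    have h1 : qc p (-1) = 1 := h1
    obtain ⟨n, hn'⟩ := quadraticChar_exists_neg_one' (F := ZMod p) (rc h2)
    have hn : ¬ IsSquare (n : ZMod p) := by
      have h3 : quadraticChar (ZMod p) (n : ZMod p) = -1 := hn'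
      exact quadraticChar_neg_one_iff_not_isSquare.1 h3
    have hJ := jacobsthal h2 h1 (n : ZMod p) hn
    obtain ⟨T, hT⟩ : ∃ T : ℤ, T = SS (1 : ZMod p) := ⟨_, rfl⟩
    obtain ⟨U, hU⟩ : ∃ U : ℤ, U = SS (n : ZMod p) := ⟨_, rfl⟩
    rw [← hT, ← hU] at hJ
    -- parity
    have hpar : T % 2 = 0 ∧ U % 2 = 0 := by
      have h4 : (T ^ 2 + U ^ 2) % 4 = 0 := by rw [hJ]; omega
      have hT4 : T ^ 2 % 4 = (T % 4) ^ 2 % 4 := by rw [sq, sq, Int.mul_emod]
      have hU4 : U ^ 2 % 4 = (U % 4) ^ 2 % 4 := by rw [sq, sq, Int.mul_emod]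
      have a1 : T % 4 = 0 ∨ T % 4 = 1 ∨ T % 4 = 2 ∨ T % 4 = 3 := by omega
      have a2 : U % 4 = 0 ∨ U % 4 = 1 ∨ U % 4 = 2 ∨ U % 4 = 3 := by omega
      rcases a1 with a1 | a1 | a1 | a1 <;> rcases a2 with a2 | a2 | a2 | a2 <;> rw [a1] at hT4 <;> rw [a2] at hU4 <;>
        norm_num at hT4 hU4 <;> omega
    obtain ⟨T', hT'⟩ : ∃ T' : ℤ, T = 2 * T' := ⟨T / 2, by omega⟩
    obtain ⟨U', hU'⟩ : ∃ U' : ℤ, U = 2 * U' := ⟨U / 2, by omega⟩
    have hJ' : T' ^ 2 + U' ^ 2 = (p : ℤ) := by
      rw [hT', hU'] at hJ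
      have : 4 * (T' ^ 2 + U' ^ 2) = 4 * (p : ℤ) := by rw [← hJ]; ring
      linarith
    have hpp : Prime (p : ℤ) := Nat.prime_iff_prime_int.1 hp
    have hnsq : ∀ w : ℤ, w ^ 2 ≠ (p : ℤ) := by
      intro w hw
      have h5 : (p : ℤ) ∣ w := hpp.dvd_of_dvd_pow (n := 2) (by rw [hw])
      obtain ⟨k, hk⟩ := h5
      rw [hk, mul_pow] at hw
      have h6 : (p : ℤ) * (p * k ^ 2 - 1) = 0 := by linarith
      rcases mul_eq_zero.1 h6 with h | h
      · omega
      · have h7 : (p : ℤ) ∣ 1 := ⟨k ^ 2, by linarith⟩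
        have := Int.le_of_dvd one_pos h7
        omega
    have hT0 : T ≠ 0 := by
      intro h0
      have : T' = 0 := by omega
      rw [this] at hJ'
      exact hnsq U' (by linarith)
    have hU0 : U ≠ 0 := by
      intro h0
      have : U' = 0 := by omega
      rw [this] at hJ'
      exact hnsq T' (by linarith)
    have hTU : T ^ 2 ≠ U ^ 2 := by
      intro h0
      rw [hT', hU', mul_pow, mul_pow] at h0
      have h5 : T' ^ 2 = U' ^ 2 := by linarith
      have h6 : 2 * T' ^ 2 = (p : ℤ) := by linarith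
      have h7 : (p : ℤ) % 2 = 1 := by
        have := hp.eq_two_or_odd
        omega
      omega
    have hc := SS_count h2 h1 (n : ZMod p) hn v
    have hc1 := scale_count h2 T v hT0
    have hc2 := scale_count h2 U v hU0
    rw [← hT, ← hU] at hc
    have hc3 : 4 * ((univ.filter (fun a : ZMod p => a ≠ 0 ∧ SS a = v)).card : ℤ) =
        (if v ^ 2 = T ^ 2 then (p : ℤ) - 1 else 0) + (if v ^ 2 = U ^ 2 then (p : ℤ) - 1 else 0) := by
      rw [← hc1, ← hc2]
      linarith
    rw [hc3]
    by_cases hx : ∃ b : ℕ, v ^ 2 + (2 * (b : ℤ)) ^ 2 = 4 * p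
    · rw [if_pos hx]
      obtain ⟨b, hb⟩ := hx
      have hv2 : v % 2 = 0 := by
        have h5 : v ^ 2 % 2 = 0 := by
          have : v ^ 2 = 2 * (2 * (p : ℤ) - 2 * (b : ℤ) ^ 2) := by linarith
          rw [this]; omega
        rcases Int.emod_two_eq_zero_or_one v with h | h
        · exact h
        · exfalso
          rw [sq, Int.mul_emod, h] at h5
          norm_num at h5
      obtain ⟨v', hv'⟩ : ∃ v' : ℤ, v = 2 * v' := ⟨v / 2, by omega⟩
      have h6 : v' ^ 2 + (b : ℤ) ^ 2 = p := by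
        rw [hv'] at hb
        have : 4 * (v' ^ 2 + (b : ℤ) ^ 2) = 4 * (p : ℤ) := by rw [← hb]; ring
        linarith
      rcases two_squares_unique hp hJ' h6 with h7 | h7
      · have h8 : v ^ 2 = T ^ 2 := by rw [hv', hT', mul_pow, mul_pow, h7]
        have h9 : v ^ 2 ≠ U ^ 2 := by rw [h8]; exact hTU
        rw [if_pos h8, if_neg h9, add_zero]
      · have h8 : v ^ 2 = U ^ 2 := by rw [hv', hU', mul_pow, mul_pow, h7]
        have h9 : v ^ 2 ≠ T ^ 2 := by rw [h8]; exact hTU.symm
        rw [if_pos h8, if_neg h9, zero_add]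
    · rw [if_neg hx]
      have h8 : v ^ 2 ≠ T ^ 2 := by
        intro h
        apply hx
        refine ⟨U'.natAbs, ?_⟩
        rw [h, Int.natCast_natAbs, mul_pow, sq_abs, ← hJ, hU']
        ring
      have h9 : v ^ 2 ≠ U ^ 2 := by
        intro h
        apply hx
        refine ⟨T'.natAbs, ?_⟩
        rw [h, Int.natCast_natAbs, mul_pow, sq_abs, ← hJ, hT']
        ring
      rw [if_neg h8, if_neg h9, add_zero]
  · -- `p ≡ 3 mod 4`
    have h1 : qc p (-1) = -1 := h1
    have h3 : (univ.filter (fun a : ZMod p => a ≠ 0 ∧ SS a = v)) = ∅ := by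
      apply filter_false_of_mem
      rintro a _ ⟨_, h⟩
      rw [SS_three h1] at h
      exact hv h.symm
    rw [h3, card_empty, Nat.cast_zero, mul_zero, if_neg]
    rintro ⟨b, hb⟩
    -- then `-1` is a square
    have hv2 : v % 2 = 0 := by
      have h5 : v ^ 2 % 2 = 0 := by
        have : v ^ 2 = 2 * (2 * (p : ℤ) - 2 * (b : ℤ) ^ 2) := by linarith
        rw [this]; omega
      rcases Int.emod_two_eq_zero_or_one v with h | h
      · exact h
      · exfalso
        rw [sq, Int.mul_emod, h] at h5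
        norm_num at h5
    obtain ⟨v', hv'⟩ : ∃ v' : ℤ, v = 2 * v' := ⟨v / 2, by omega⟩
    have h6 : v' ^ 2 + (b : ℤ) ^ 2 = p := by
      rw [hv'] at hb
      have : 4 * (v' ^ 2 + (b : ℤ) ^ 2) = 4 * (p : ℤ) := by rw [← hb]; ring
      linarith
    have h7 : ((v' : ZMod p)) ^ 2 + ((b : ZMod p)) ^ 2 = 0 := by
      have : (((v' ^ 2 + (b : ℤ) ^ 2 : ℤ)) : ZMod p) = ((p : ℤ) : ZMod p) := by rw [h6]
      push_cast at this
      rw [this]
      simp
    by_cases hb0 : (b : ZMod p) = 0
    · -- impossible: `p ∣ b`, `b² < p`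
      have h8 : p ∣ b := (ZMod.natCast_eq_zero_iff b p).1 hb0
      have h9 : b = 0 := by
        by_contra hne
        have h10 : p ≤ b := Nat.le_of_dvd (Nat.pos_of_ne_zero hne) h8
        have h11 : (p : ℤ) ≤ b := by exact_mod_cast h10
        have h12 : (b : ℤ) ^ 2 ≤ p := by nlinarith [sq_nonneg v']
        nlinarith
      subst h9
      have hpp : Prime (p : ℤ) := Nat.prime_iff_prime_int.1 hp
      have h10 : v' ^ 2 = (p : ℤ) := by
        push_cast at h6
        linarith
      have h5 : (p : ℤ) ∣ v' := hpp.dvd_of_dvd_pow (n := 2) (by rw [h10])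
      obtain ⟨k, hk⟩ := h5
      rw [hk, mul_pow] at h10
      have h6 : (p : ℤ) * (p * k ^ 2 - 1) = 0 := by linarith
      rcases mul_eq_zero.1 h6 with h | h
      · omega
      · have h7 : (p : ℤ) ∣ 1 := ⟨k ^ 2, by linarith⟩
        have := Int.le_of_dvd one_pos h7
        omega
    · have h8 : IsSquare (-1 : ZMod p) := by
        refine ⟨(v' : ZMod p) / b, ?_⟩
        field_simp
        linear_combination -h7
      have h9 : quadraticChar (ZMod p) (-1) = 1 := (quadraticChar_one_iff_isSquare (by simp)).2 h8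
      rw [h9] at h1
      norm_num at h1

end

end Pool.Agent.U471.DQ.CM
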