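import Pool.Agent.U471.RP.Energy

set_option autoImplicit false

/-!
The inverse theorem for Weyl sums of real polynomials, for all coefficients at the same time.
-/

namespace Pool.Agent.U471.DQ

open Finset Polynomial
open Pool.Agent.Helper602.MK (ee)
open Pool.Agent.Helper602.MK.N_J5b (ee_add ee_zero norm_ee ee_int)
open Pool.Agent.H373R2.NB (Ph IW IW_all)
open Pool.Agent.U471.RP (Ph_real)

lemma sum_mul_range {β : Type*} [AddCommMonoid β] (F : ℕ → β) (m l : ℕ) :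
    ∑ n ∈ range (m * l), F n = ∑ b ∈ range l, ∑ i ∈ range m, F (m * b + i) := by
  induction l with
  | zero => simp
  | succ l ih => rw [Nat.mul_succ, sum_range_add, ih, sum_range_succ]

lemma ee_sub_one (x : ℝ) : ‖ee x - 1‖ ≤ 7 * |x| := by
  unfold ee
  have h := Real.norm_exp_I_mul_ofReal_sub_one_le (x := 2 * Real.pi * x)
  have e1 : Complex.exp (2 * Real.pi * x * Complex.I) = Complex.exp (Complex.I * ((2 * Real.pi * x : ℝ) : ℂ)) := by
    congr 1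
    push_cast
    ring
  rw [e1]
  refine h.trans ?_
  rw [Real.norm_eq_abs, abs_mul, abs_of_pos (by positivity : (0 : ℝ) < 2 * Real.pi)]
  apply mul_le_mul_of_nonneg_right _ (abs_nonneg x)
  linarith [Real.pi_lt_d2]

/-- the top coefficient -/
lemma top (d : ℕ) (hd : 1 ≤ d) : ∃ c k : ℕ, 1 ≤ c ∧ ∀ (N : ℕ) (u : ℝ) (P : ℝ[X]), 1 ≤ N → 1 ≤ u → P.natDegree ≤ d →
    (N : ℝ) ≤ u * ‖∑ n ∈ range N, ee (P.eval (n : ℝ))‖ →
    ∃ q : ℕ, 1 ≤ q ∧ (q : ℝ) ≤ c * u ^ k ∧ ∃ a : ℤ, |q * P.coeff d - a| ≤ c * u ^ k / (N : ℝ) ^ d := by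
  obtain ⟨c, k, hc, hI⟩ := IW_all d hd
  have hd1 : 1 ≤ d.factorial := Nat.factorial_pos d
  have hd1r : (1 : ℝ) ≤ d.factorial := by exact_mod_cast hd1
  refine ⟨c * d.factorial, k, Nat.mul_pos hc hd1, ?_⟩
  intro N u P hN hu hP hS
  have hcu : (0 : ℝ) ≤ c * u ^ k := by positivity
  have hph := Ph_real d P hP 1
  simp only [one_mul] at hph
  obtain ⟨q, hq1, hq2, a, ha⟩ := hI N u _ _ hN hu hph hS
  refine ⟨q * d.factorial, Nat.mul_pos hq1 hd1, ?_, a, ?_⟩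
  · push_cast
    calc (q : ℝ) * d.factorial ≤ (c * u ^ k) * d.factorial := mul_le_mul_of_nonneg_right hq2 (by positivity)
      _ = _ := by ring
  · have e : (((q * d.factorial : ℕ) : ℝ)) * P.coeff d = q * ((d.factorial : ℝ) * P.coeff d) := by
      push_cast; ring
    rw [e]
    refine ha.trans ?_
    apply div_le_div_of_nonneg_right _ (by positivity)
    push_cast
    nlinarith

/-- the inverse theorem for all coefficients -/
def IA (d : ℕ) : Prop := ∃ c k : ℕ, 1 ≤ c ∧ ∀ (N : ℕ) (u : ℝ) (P : ℝ[X]), 1 ≤ N → 1 ≤ u → P.natDegree ≤ d →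
    (N : ℝ) ≤ u * ‖∑ n ∈ range N, ee (P.eval (n : ℝ))‖ →
    ∃ q : ℕ, 1 ≤ q ∧ (q : ℝ) ≤ c * u ^ k ∧ ∀ j : ℕ, 1 ≤ j → j ≤ d → ∃ a : ℤ, |q * P.coeff j - a| ≤ c * u ^ k / (N : ℝ) ^ j

lemma IA_one : IA 1 := by
  obtain ⟨c, k, hc, H⟩ := top 1 le_rfl
  refine ⟨c, k, hc, fun N u P hN hu hP hS => ?_⟩
  obtain ⟨q, hq1, hq2, a, ha⟩ := H N u P hN hu hP hS
  refine ⟨q, hq1, hq2, fun j h1 h2 => ⟨a, ?_⟩⟩
  have : j = 1 := le_antisymm h2 h1
  subst this
  exact ha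

/-- pigeonhole for the blocks -/
lemma block_large (F : ℕ → ℂ) (hF : ∀ n, ‖F n‖ ≤ 1) (N q T : ℕ) (u : ℝ) (hu : 1 ≤ u) (hN : 1 ≤ N) (hq : 1 ≤ q) (hT : 1 ≤ T)
    (hqT : (q * T : ℝ) ≤ N / (4 * u)) (hS : (N : ℝ) ≤ u * ‖∑ n ∈ range N, F n‖) :
    ∃ r₀ : ℕ, r₀ ≤ N ∧ r₀ + q * T ≤ N + q ∧ (T : ℝ) / (2 * u) ≤ ‖∑ t ∈ range T, F (q * t + r₀)‖ := by
  by_contra hcon
  push Not at hcon
  obtain ⟨B, hB⟩ : ∃ B, B = N / (q * T) := ⟨_, rfl⟩
  have hqT1 : 1 ≤ q * T := Nat.mul_pos hq hT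
  have hBN : q * T * B ≤ N := by rw [hB]; exact Nat.mul_div_le N (q * T)
  have hBN2 : N < q * T * B + q * T := by
    have := Nat.lt_mul_div_succ N hqT1
    rw [← hB] at this
    calc N < q * T * (B + 1) := this
      _ = _ := by ring
  have hN0 : (0 : ℝ) < N := by exact_mod_cast hN
  have hu0 : 0 < u := by linarith
  obtain ⟨L, hL⟩ : ∃ L, N = q * T * B + L := ⟨N - q * T * B, by omega⟩
  have hLs : L ≤ q * T := by omega
  have h1 : ∑ n ∈ range N, F n = ∑ n ∈ range (q * T * B), F n + ∑ i ∈ range L, F (q * T * B + i) := by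
    conv_lhs => rw [hL]
    rw [sum_range_add]
  have h2 : ‖∑ i ∈ range L, F (q * T * B + i)‖ ≤ N / (4 * u) := by
    refine (norm_sum_le _ _).trans ?_
    refine (sum_le_card_nsmul _ _ 1 fun i _ => hF _).trans ?_
    rw [card_range, nsmul_eq_mul, mul_one]
    refine le_trans ?_ hqT
    exact_mod_cast hLs
  have h3 : ∑ n ∈ range (q * T * B), F n = ∑ r ∈ range q, ∑ b ∈ range B, ∑ t ∈ range T, F (q * t + (q * (T * b) + r)) := by
    rw [mul_assoc, sum_mul_range F q (T * B), sum_comm]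
    apply sum_congr rfl
    intro r _
    rw [sum_mul_range (fun s => F (q * s + r)) T B]
    apply sum_congr rfl
    intro b _
    apply sum_congr rfl
    intro t _
    congr 1
    ring
  have h4 : ‖∑ n ∈ range (q * T * B), F n‖ ≤ N / (2 * u) := by
    rw [h3]
    have h5 : ∀ r ∈ range q, ∀ b ∈ range B, ‖∑ t ∈ range T, F (q * t + (q * (T * b) + r))‖ ≤ (T : ℝ) / (2 * u) := by
      intro r hr b hb
      rw [mem_range] at hr hb
      have hb1 : q * (T * b) + q * T ≤ q * T * B := by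
        calc q * (T * b) + q * T = q * T * (b + 1) := by ring
          _ ≤ q * T * B := Nat.mul_le_mul_left _ hb
      refine (hcon (q * (T * b) + r) ?_ ?_).le
      · have : r ≤ q * T := hr.le.trans (Nat.le_mul_of_pos_right q hT)
        omega
      · omega
    calc ‖∑ r ∈ range q, ∑ b ∈ range B, ∑ t ∈ range T, F (q * t + (q * (T * b) + r))‖
        ≤ ∑ r ∈ range q, ∑ b ∈ range B, (T : ℝ) / (2 * u) := by
          refine (norm_sum_le _ _).trans (sum_le_sum fun r hr => ?_)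
          exact (norm_sum_le _ _).trans (sum_le_sum fun b hb => h5 r hr b hb)
      _ = ((q * T * B : ℕ) : ℝ) / (2 * u) := by
          rw [sum_const, sum_const, card_range, card_range, nsmul_eq_mul, nsmul_eq_mul]
          push_cast
          ring
      _ ≤ N / (2 * u) := by
          apply div_le_div_of_nonneg_right _ (by positivity)
          exact_mod_cast hBN
  have h6 : ‖∑ n ∈ range N, F n‖ ≤ N / (2 * u) + N / (4 * u) := by
    rw [h1]
    exact (norm_add_le _ _).trans (add_le_add h4 h2)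
  have h7 : (N : ℝ) ≤ u * (N / (2 * u) + N / (4 * u)) := hS.trans (mul_le_mul_of_nonneg_left h6 hu0.le)
  have h8 : u * (N / (2 * u) + N / (4 * u)) = 3 / 4 * N := by
    field_simp
    ring
  rw [h8] at h7
  linarith

/-- the coefficients after a linear substitution -/
lemma coeff_back (d : ℕ) (P : ℝ[X]) (hP : P.natDegree ≤ d) (q r₀ : ℝ) (hq : q ≠ 0) (i : ℕ) :
    q ^ d * P.coeff i = ∑ j ∈ range (d + 1), (P.comp (C q * X + C r₀)).coeff j * q ^ (d - j) * ((-r₀) ^ (j - i) * (j.choose i : ℝ)) := by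
  obtain ⟨g, hg⟩ : ∃ g : ℝ[X], g = P.comp (C q * X + C r₀) := ⟨_, rfl⟩
  have hgd : g.natDegree ≤ d := by
    rw [hg]
    refine natDegree_comp_le.trans ?_
    calc P.natDegree * (C q * X + C r₀).natDegree ≤ d * 1 := Nat.mul_le_mul hP natDegree_linear_le
      _ = d := mul_one d
  have h1 : P = g.comp (C (1 / q) * (X - C r₀)) := by
    rw [hg, comp_assoc]
    have : (C q * X + C r₀).comp (C (1 / q) * (X - C r₀)) = X := by
      simp only [add_comp, mul_comp, C_comp, X_comp]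
      rw [← mul_assoc, ← C_mul, mul_one_div_cancel hq, C_1, one_mul, sub_add_cancel]
    rw [this, comp_X]
  rw [← hg]
  conv_lhs => rw [h1]
  rw [comp_eq_sum_left, sum_over_range' g (by intro n; simp) (d + 1) (by omega), finsetSum_coeff, mul_sum]
  apply sum_congr rfl
  intro j hj
  rw [mem_range] at hj
  have hX : (X - C r₀ : ℝ[X]) = X + C (-r₀) := by rw [C_neg, sub_eq_add_neg]
  rw [mul_pow, ← C_pow, coeff_C_mul, coeff_C_mul, hX, coeff_X_add_C_pow]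
  have hd : d = (d - j) + j := by omega
  have e1 : q ^ d = q ^ (d - j) * q ^ j := by rw [← pow_add, ← hd]
  rw [e1]
  have hqj : q ^ j ≠ 0 := pow_ne_zero _ hq
  rw [one_div, inv_pow]
  field_simp

lemma pow_var (d : ℕ) (n r N : ℝ) (hr0 : 0 ≤ r) (hrn : r ≤ n) (hnN : n ≤ N) : |n ^ (d + 1) - r ^ (d + 1)| ≤ (d + 1) * N ^ d * (n - r) := by
  have h1 : r ^ (d + 1) ≤ n ^ (d + 1) := pow_le_pow_left₀ hr0 hrn _
  rw [abs_of_nonneg (by linarith)]
  have hN0 : 0 ≤ N := by linarith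
  induction d with
  | zero => simp
  | succ d ih =>
    have h2 : r ^ (d + 1) ≤ n ^ (d + 1) := pow_le_pow_left₀ hr0 hrn _
    have h3 := ih h2
    have e1 : n ^ (d + 1 + 1) - r ^ (d + 1 + 1) = n * (n ^ (d + 1) - r ^ (d + 1)) + r ^ (d + 1) * (n - r) := by ring
    rw [e1]
    have h4 : n * (n ^ (d + 1) - r ^ (d + 1)) ≤ N * ((d + 1) * N ^ d * (n - r)) := by
      apply mul_le_mul hnN h3 (by linarith) hN0
    have h5 : r ^ (d + 1) * (n - r) ≤ N ^ (d + 1) * (n - r) :=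
      mul_le_mul_of_nonneg_right (pow_le_pow_left₀ hr0 (hrn.trans hnN) _) (by linarith)
    have e2 : (((d + 1 : ℕ) : ℝ) + 1) * N ^ (d + 1) * (n - r) = N * ((d + 1) * N ^ d * (n - r)) + N ^ (d + 1) * (n - r) := by
      push_cast
      ring
    rw [e2]
    linarith

lemma IA_step (d : ℕ) (hd : 1 ≤ d) (hIA : IA d) : IA (d + 1) := by
  obtain ⟨c1, k1, hc1, H1⟩ := hIA
  obtain ⟨c0, k0, hc0, H0⟩ := top (d + 1) (by omega)
  refine ⟨(d + 1) * 2 ^ d * (c1 * 4 ^ k1) * c0 ^ d * (56 * (d + 1) * c0) ^ (d + 1), k1 + k0 * d + (k0 + 1) * (d + 1),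
    Nat.one_le_iff_ne_zero.2 (by positivity), ?_⟩
  intro N u P hN hu hP hS
  have hN0 : (0 : ℝ) < N := by exact_mod_cast hN
  have hN1 : (1 : ℝ) ≤ N := by exact_mod_cast hN
  have hu0 : 0 < u := by linarith
  have hc0r : (1 : ℝ) ≤ c0 := by exact_mod_cast hc0
  have hc1r : (1 : ℝ) ≤ c1 := by exact_mod_cast hc1
  have hdr : (0 : ℝ) ≤ d := Nat.cast_nonneg d
  obtain ⟨K0, hK0⟩ : ∃ K0 : ℝ, K0 = c0 * u ^ k0 := ⟨_, rfl⟩
  obtain ⟨K1, hK1⟩ : ∃ K1 : ℝ, K1 = c1 * (4 * u) ^ k1 := ⟨_, rfl⟩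
  obtain ⟨A2, hA2⟩ : ∃ A2 : ℝ, A2 = 56 * (d + 1) * K0 * u := ⟨_, rfl⟩
  obtain ⟨G, hG⟩ : ∃ G : ℝ, G = (d + 1) * 2 ^ d * K1 * K0 ^ d * A2 ^ (d + 1) := ⟨_, rfl⟩
  have hGe : (((d + 1) * 2 ^ d * (c1 * 4 ^ k1) * c0 ^ d * (56 * (d + 1) * c0) ^ (d + 1) : ℕ) : ℝ) *
      u ^ (k1 + k0 * d + (k0 + 1) * (d + 1)) = G := by
    rw [hG, hA2, hK1, hK0]
    push_cast
    obtain ⟨D, hD⟩ : ∃ D : ℝ, D = (d : ℝ) + 1 := ⟨_, rfl⟩
    rw [← hD]
    ring
  rw [hGe]
  have hK01 : 1 ≤ K0 := by rw [hK0]; exact one_le_mul_of_one_le_of_one_le hc0r (one_le_pow₀ hu)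
  have hK11 : 1 ≤ K1 := by rw [hK1]; exact one_le_mul_of_one_le_of_one_le hc1r (one_le_pow₀ (by linarith))
  have hA21 : 56 * (d + 1) * u ≤ A2 := by
    rw [hA2]
    have : 56 * ((d : ℝ) + 1) * 1 ≤ 56 * (d + 1) * K0 := mul_le_mul_of_nonneg_left hK01 (by positivity)
    nlinarith
  have hA22 : 1 ≤ A2 := by nlinarith
  have h2d : (1 : ℝ) ≤ 2 ^ d := one_le_pow₀ (by norm_num)
  have hK0d : 1 ≤ K0 ^ d := one_le_pow₀ hK01
  have hA2d : 1 ≤ A2 ^ (d + 1) := one_le_pow₀ hA22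
  have hF : 1 ≤ (d + 1) * 2 ^ d * K1 * K0 ^ d := by
    refine one_le_mul_of_one_le_of_one_le (one_le_mul_of_one_le_of_one_le (one_le_mul_of_one_le_of_one_le (by linarith) h2d) hK11) hK0d
  have hGA : A2 ^ (d + 1) ≤ G := by
    rw [hG]
    exact le_mul_of_one_le_left (by positivity) hF
  have hG1 : 1 ≤ G := hA2d.trans hGA
  rcases lt_or_ge (N : ℝ) A2 with hNA | hNA
  · -- few terms
    refine ⟨1, le_rfl, by push_cast; exact hG1, fun j hj1 hj2 => ⟨round (P.coeff j), ?_⟩⟩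
    rw [Nat.cast_one, one_mul]
    refine (abs_sub_round _).trans ?_
    rw [le_div_iff₀ (by positivity)]
    have h1 : (N : ℝ) ^ j ≤ A2 ^ (d + 1) := by
      calc (N : ℝ) ^ j ≤ A2 ^ j := pow_le_pow_left₀ hN0.le hNA.le _
        _ ≤ _ := pow_le_pow_right₀ hA22 (by omega)
    have h2 : (0 : ℝ) ≤ (N : ℝ) ^ j := by positivity
    linarith
  obtain ⟨q1, hq1, hq1K, a, ha⟩ := H0 N u P hN hu hP hS
  rw [← hK0] at hq1K ha
  have hq10 : (0 : ℝ) < q1 := by exact_mod_cast hq1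
  have hq11 : (1 : ℝ) ≤ q1 := by exact_mod_cast hq1
  obtain ⟨α, hα⟩ : ∃ α, α = P.coeff (d + 1) := ⟨_, rfl⟩
  rw [← hα] at ha
  -- the length of the blocks
  obtain ⟨T, hT⟩ : ∃ T : ℕ, T = ⌊(N : ℝ) / (A2 / 2)⌋₊ := ⟨_, rfl⟩
  have hA20 : 0 < A2 := by linarith
  have hT1 : (T : ℝ) ≤ N / (A2 / 2) := by rw [hT]; exact Nat.floor_le (by positivity)
  have hT2 : (N : ℝ) / A2 ≤ T := by
    have h1 : (N : ℝ) / (A2 / 2) < T + 1 := by rw [hT]; exact Nat.lt_floor_add_one _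
    have h2 : (N : ℝ) / (A2 / 2) = N / A2 + N / A2 := by field_simp; ring
    have h3 : 1 ≤ (N : ℝ) / A2 := by rw [le_div_iff₀ hA20]; linarith
    linarith
  have hT0 : (1 : ℝ) ≤ T := by
    have h3 : 1 ≤ (N : ℝ) / A2 := by rw [le_div_iff₀ hA20]; linarith
    linarith
  have hT3 : 1 ≤ T := by exact_mod_cast hT0
  have hT4 : (T : ℝ) * (28 * (d + 1) * K0 * u) ≤ N := by
    have h1 : A2 / 2 = 28 * (d + 1) * K0 * u := by rw [hA2]; ring
    rw [h1, le_div_iff₀ (by positivity)] at hT1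
    exact hT1
  have hqT : (q1 * T : ℝ) ≤ N / (4 * u) := by
    rw [le_div_iff₀ (by positivity)]
    have h1 : (q1 : ℝ) * T * (4 * u) ≤ K0 * T * (4 * u) := by
      apply mul_le_mul_of_nonneg_right _ (by positivity)
      exact mul_le_mul_of_nonneg_right hq1K (by positivity)
    have h2 : K0 * T * (4 * u) ≤ T * (28 * (d + 1) * K0 * u) := by
      have h3 : 0 ≤ K0 * T * u := by positivity
      nlinarith
    linarith
  obtain ⟨r₀, hr0N, hr0T, hblk⟩ := block_large (fun n => ee (P.eval (n : ℝ))) (fun n => (norm_ee _).le) N q1 T u hu hN hq1 hT3 hqT hS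
  -- the lower part of the polynomial
  obtain ⟨P', hP'⟩ : ∃ P' : ℝ[X], P' = P - monomial (d + 1) α := ⟨_, rfl⟩
  have hP'c : ∀ j, j ≤ d → P'.coeff j = P.coeff j := by
    intro j hj
    rw [hP', coeff_sub, coeff_monomial, if_neg (by omega), sub_zero]
  have hP'd : P'.natDegree ≤ d := by
    rw [natDegree_le_iff_coeff_eq_zero]
    intro j hj
    rw [hP', coeff_sub, coeff_monomial]
    by_cases h : d + 1 = j
    · rw [if_pos h, ← h, hα, sub_self]
    · rw [if_neg h, sub_zero]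
      exact coeff_eq_zero_of_natDegree_lt (by omega)
  obtain ⟨g, hg⟩ : ∃ g : ℝ[X], g = P'.comp (C (q1 : ℝ) * X + C (r₀ : ℝ)) := ⟨_, rfl⟩
  have hgd : g.natDegree ≤ d := by
    rw [hg]
    refine natDegree_comp_le.trans ?_
    calc P'.natDegree * (C (q1 : ℝ) * X + C (r₀ : ℝ)).natDegree ≤ d * 1 := Nat.mul_le_mul hP'd natDegree_linear_le
      _ = d := mul_one d
  have hPe : ∀ n : ℕ, P.eval (n : ℝ) = α * (n : ℝ) ^ (d + 1) + P'.eval (n : ℝ) := by
    intro n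
    rw [hP', eval_sub, eval_monomial]
    ring
  have hge : ∀ t : ℕ, g.eval (t : ℝ) = P'.eval ((q1 * t + r₀ : ℕ) : ℝ) := by
    intro t
    rw [hg, eval_comp]
    simp only [eval_add, eval_mul, eval_C, eval_X]
    push_cast
    rfl
  obtain ⟨β, hβ⟩ : ∃ β : ℝ, β = α - a / q1 := ⟨_, rfl⟩
  have hβ1 : |β| ≤ K0 / (N : ℝ) ^ (d + 1) := by
    have e1 : (q1 : ℝ) * β = q1 * α - a := by rw [hβ]; field_simp
    have e2 : |(q1 : ℝ) * β| ≤ K0 / (N : ℝ) ^ (d + 1) := by rw [e1]; exact ha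
    rw [abs_mul, abs_of_pos hq10] at e2
    refine le_trans ?_ e2
    exact le_mul_of_one_le_left (abs_nonneg _) hq11
  obtain ⟨w, hw⟩ : ∃ w : ℕ → ℝ, w = fun t => β * (((q1 * t + r₀ : ℕ) : ℝ) ^ (d + 1) - (r₀ : ℝ) ^ (d + 1)) := ⟨_, rfl⟩
  have hsplit : ∀ t : ℕ, ee (P.eval ((q1 * t + r₀ : ℕ) : ℝ)) = ee (α * (r₀ : ℝ) ^ (d + 1)) * (ee (w t) * ee (g.eval (t : ℝ))) := by
    intro t
    obtain ⟨z, hz⟩ : ∃ z : ℤ, ((q1 * t + r₀ : ℕ) : ℤ) ^ (d + 1) - (r₀ : ℤ) ^ (d + 1) = q1 * z := by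
      have h1 : ((q1 * t + r₀ : ℕ) : ℤ) - (r₀ : ℤ) ∣ ((q1 * t + r₀ : ℕ) : ℤ) ^ (d + 1) - (r₀ : ℤ) ^ (d + 1) := sub_dvd_pow_sub_pow _ _ _
      have h2 : (q1 : ℤ) ∣ ((q1 * t + r₀ : ℕ) : ℤ) - (r₀ : ℤ) := ⟨t, by push_cast; ring⟩
      exact h2.trans h1
    have hzr : ((q1 * t + r₀ : ℕ) : ℝ) ^ (d + 1) - (r₀ : ℝ) ^ (d + 1) = q1 * z := by exact_mod_cast hz
    have e1 : P.eval ((q1 * t + r₀ : ℕ) : ℝ) = α * (r₀ : ℝ) ^ (d + 1) + (w t + g.eval (t : ℝ)) + ((a * z : ℤ) : ℝ) := by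
      rw [hPe, hge, hw]
      simp only
      have e2 : α = β + a / q1 := by rw [hβ]; ring
      have e3 : ((q1 * t + r₀ : ℕ) : ℝ) ^ (d + 1) = (r₀ : ℝ) ^ (d + 1) + q1 * z := by linarith
      rw [e3, e2]
      push_cast
      field_simp
      ring
    rw [e1, ee_add, ee_int, mul_one, ee_add, ee_add]
  have hwt : ∀ t ∈ range T, ‖ee (w t) - 1‖ ≤ 1 / (4 * u) := by
    intro t ht
    rw [mem_range] at ht
    refine (ee_sub_one _).trans ?_
    have hnN : q1 * t + r₀ ≤ N := by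
      have h1 : q1 * t + q1 ≤ q1 * T := by
        calc q1 * t + q1 = q1 * (t + 1) := by ring
          _ ≤ q1 * T := Nat.mul_le_mul_left _ ht
      omega
    have h1 := pow_var d ((q1 * t + r₀ : ℕ) : ℝ) r₀ N (Nat.cast_nonneg _) (by exact_mod_cast (by omega : r₀ ≤ q1 * t + r₀))
      (by exact_mod_cast hnN)
    have h2 : ((q1 * t + r₀ : ℕ) : ℝ) - r₀ = q1 * t := by push_cast; ring
    rw [h2] at h1
    -- use the bound of `β` with `q1`
    have h5 : |w t| ≤ K0 * (d + 1) * T / N := by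
      have e1 : (q1 : ℝ) * |β| ≤ K0 / (N : ℝ) ^ (d + 1) := by
        have e1 : (q1 : ℝ) * β = q1 * α - a := by rw [hβ]; field_simp
        have e2 : |(q1 : ℝ) * β| ≤ K0 / (N : ℝ) ^ (d + 1) := by rw [e1]; exact ha
        rwa [abs_mul, abs_of_pos hq10] at e2
      rw [hw]
      simp only
      rw [abs_mul]
      have htT : (t : ℝ) ≤ T := by exact_mod_cast ht.le
      calc |β| * |((q1 * t + r₀ : ℕ) : ℝ) ^ (d + 1) - (r₀ : ℝ) ^ (d + 1)|
          ≤ |β| * ((d + 1) * (N : ℝ) ^ d * (q1 * t)) := mul_le_mul_of_nonneg_left h1 (abs_nonneg _)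
        _ = (q1 * |β|) * ((d + 1) * (N : ℝ) ^ d * t) := by ring
        _ ≤ (K0 / (N : ℝ) ^ (d + 1)) * ((d + 1) * (N : ℝ) ^ d * T) := by
            apply mul_le_mul e1 _ (by positivity) (by positivity)
            exact mul_le_mul_of_nonneg_left htT (by positivity)
        _ = _ := by
            rw [pow_succ (N : ℝ) d]
            field_simp
    have h6 : 7 * (K0 * (d + 1) * T / N) ≤ 1 / (4 * u) := by
      rw [← mul_div_assoc, div_le_div_iff₀ hN0 (by positivity)]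
      nlinarith
    linarith
  -- the lower part has a large sum
  have hlow : (T : ℝ) ≤ (4 * u) * ‖∑ t ∈ range T, ee (g.eval (t : ℝ))‖ := by
    have h1 : ∑ t ∈ range T, (fun n : ℕ => ee (P.eval (n : ℝ))) (q1 * t + r₀) =
        ee (α * (r₀ : ℝ) ^ (d + 1)) * ∑ t ∈ range T, ee (w t) * ee (g.eval (t : ℝ)) := by
      rw [mul_sum]
      exact sum_congr rfl fun t _ => hsplit t
    rw [h1, norm_mul, norm_ee, one_mul] at hblk
    have h2 : ‖∑ t ∈ range T, ee (w t) * ee (g.eval (t : ℝ))‖ ≤ ‖∑ t ∈ range T, ee (g.eval (t : ℝ))‖ + T * (1 / (4 * u)) := by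
      have e1 : ∑ t ∈ range T, ee (w t) * ee (g.eval (t : ℝ)) =
          ∑ t ∈ range T, ee (g.eval (t : ℝ)) + ∑ t ∈ range T, (ee (w t) - 1) * ee (g.eval (t : ℝ)) := by
        rw [← sum_add_distrib]
        apply sum_congr rfl
        intro t _
        ring
      rw [e1]
      refine (norm_add_le _ _).trans (add_le_add le_rfl ?_)
      refine (norm_sum_le _ _).trans ?_
      refine (sum_le_card_nsmul _ _ (1 / (4 * u)) fun t ht => ?_).trans ?_
      · rw [norm_mul, norm_ee, mul_one]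
        exact hwt t ht
      · rw [card_range, nsmul_eq_mul]
    have h3 : (T : ℝ) / (2 * u) = T * (1 / (4 * u)) + T * (1 / (4 * u)) := by field_simp; ring
    have h4 : (T : ℝ) * (1 / (4 * u)) ≤ ‖∑ t ∈ range T, ee (g.eval (t : ℝ))‖ := by linarith
    rw [mul_one_div, div_le_iff₀ (by positivity)] at h4
    linarith
  obtain ⟨q2, hq2, hq2K, hco⟩ := H1 T (4 * u) g hT3 (by linarith) hgd hlow
  rw [← hK1] at hq2K
  have hq20 : (0 : ℝ) < q2 := by exact_mod_cast hq2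
  -- the new denominator
  refine ⟨q2 * q1 ^ d, Nat.mul_pos hq2 (Nat.pow_pos hq1), ?_, ?_⟩
  · push_cast
    calc (q2 : ℝ) * q1 ^ d ≤ K1 * K0 ^ d := mul_le_mul hq2K (pow_le_pow_left₀ hq10.le hq1K _) (by positivity) (by linarith)
      _ ≤ G := by
        rw [hG]
        have h1 : K1 * K0 ^ d ≤ (d + 1) * 2 ^ d * (K1 * K0 ^ d) :=
          le_mul_of_one_le_left (by positivity) (one_le_mul_of_one_le_of_one_le (by linarith) h2d)
        have h2 : (d + 1) * 2 ^ d * (K1 * K0 ^ d) * 1 ≤ (d + 1) * 2 ^ d * (K1 * K0 ^ d) * A2 ^ (d + 1) :=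
          mul_le_mul_of_nonneg_left hA2d (by positivity)
        calc K1 * K0 ^ d ≤ (d + 1) * 2 ^ d * (K1 * K0 ^ d) * A2 ^ (d + 1) := by linarith
          _ = _ := by ring
  intro i hi1 hi2
  rcases Nat.lt_or_ge d i with hid | hid
  · -- the top coefficient
    have hi : i = d + 1 := by omega
    subst hi
    rw [← hα]
    refine ⟨q2 * q1 ^ (d - 1) * a, ?_⟩
    have e1 : ((q2 * q1 ^ d : ℕ) : ℝ) * α - ((q2 * q1 ^ (d - 1) * a : ℤ) : ℝ) = q2 * q1 ^ (d - 1) * (q1 * α - a) := by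
      have : (q1 : ℝ) ^ d = q1 ^ (d - 1) * q1 := by rw [← pow_succ, Nat.sub_add_cancel hd]
      push_cast
      rw [this]
      ring
    rw [e1, abs_mul, abs_of_nonneg (by positivity : (0 : ℝ) ≤ q2 * q1 ^ (d - 1))]
    calc (q2 : ℝ) * q1 ^ (d - 1) * |q1 * α - a| ≤ (K1 * K0 ^ (d - 1)) * (K0 / (N : ℝ) ^ (d + 1)) := by
          apply mul_le_mul _ ha (abs_nonneg _) (by positivity)
          exact mul_le_mul hq2K (pow_le_pow_left₀ hq10.le hq1K _) (by positivity) (by linarith)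
      _ = (K1 * K0 ^ d) / (N : ℝ) ^ (d + 1) := by
          have : K0 ^ d = K0 ^ (d - 1) * K0 := by rw [← pow_succ, Nat.sub_add_cancel hd]
          rw [this]
          ring
      _ ≤ G / (N : ℝ) ^ (d + 1) := by
          apply div_le_div_of_nonneg_right _ (by positivity)
          rw [hG]
          have h1 : K1 * K0 ^ d ≤ (d + 1) * 2 ^ d * (K1 * K0 ^ d) :=
            le_mul_of_one_le_left (by positivity) (one_le_mul_of_one_le_of_one_le (by linarith) h2d)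
          have h2 : (d + 1) * 2 ^ d * (K1 * K0 ^ d) * 1 ≤ (d + 1) * 2 ^ d * (K1 * K0 ^ d) * A2 ^ (d + 1) :=
            mul_le_mul_of_nonneg_left hA2d (by positivity)
          calc K1 * K0 ^ d ≤ (d + 1) * 2 ^ d * (K1 * K0 ^ d) * A2 ^ (d + 1) := by linarith
            _ = _ := by ring
  -- the other coefficients
  rw [← hP'c i hid]
  have hb : ∀ j : ℕ, ∃ b : ℤ, 1 ≤ j → j ≤ d → |q2 * g.coeff j - b| ≤ K1 / (T : ℝ) ^ j := by
    intro j
    by_cases h : 1 ≤ j ∧ j ≤ d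
    · obtain ⟨b, hb⟩ := hco j h.1 h.2
      rw [← hK1] at hb
      exact ⟨b, fun _ _ => hb⟩
    · exact ⟨0, fun h1 h2 => absurd ⟨h1, h2⟩ h⟩
  choose b hb using hb
  refine ⟨∑ j ∈ range (d + 1), b j * (q1 : ℤ) ^ (d - j) * ((-(r₀ : ℤ)) ^ (j - i) * (j.choose i : ℤ)), ?_⟩
  have hback := coeff_back d P' hP'd q1 r₀ hq10.ne' i
  rw [← hg] at hback
  have e1 : ((q2 * q1 ^ d : ℕ) : ℝ) * P'.coeff i -
      ((∑ j ∈ range (d + 1), b j * (q1 : ℤ) ^ (d - j) * ((-(r₀ : ℤ)) ^ (j - i) * (j.choose i : ℤ)) : ℤ) : ℝ) =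
      ∑ j ∈ range (d + 1), (q2 * g.coeff j - b j) * ((q1 : ℝ) ^ (d - j) * ((-(r₀ : ℝ)) ^ (j - i) * (j.choose i : ℝ))) := by
    push_cast
    rw [mul_assoc, hback, mul_sum, ← sum_sub_distrib]
    apply sum_congr rfl
    intro j _
    ring
  rw [e1]
  have hterm : ∀ j ∈ range (d + 1), |(q2 * g.coeff j - b j) * ((q1 : ℝ) ^ (d - j) * ((-(r₀ : ℝ)) ^ (j - i) * (j.choose i : ℝ)))| ≤
      K1 * K0 ^ d * 2 ^ d * A2 ^ (d + 1) / (N : ℝ) ^ i := by
    intro j hj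
    rw [mem_range] at hj
    rcases Nat.lt_or_ge j i with hji | hji
    · rw [Nat.choose_eq_zero_of_lt hji, Nat.cast_zero, mul_zero, mul_zero, mul_zero, abs_zero]
      positivity
    have h1 := hb j (by omega) (by omega)
    have h2 : |(q1 : ℝ) ^ (d - j) * ((-(r₀ : ℝ)) ^ (j - i) * (j.choose i : ℝ))| ≤ K0 ^ d * ((N : ℝ) ^ (j - i) * 2 ^ d) := by
      rw [abs_mul, abs_mul, abs_of_nonneg (by positivity : (0 : ℝ) ≤ (q1 : ℝ) ^ (d - j)), abs_pow, abs_neg, Nat.abs_cast, Nat.abs_cast]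
      apply mul_le_mul
      · calc (q1 : ℝ) ^ (d - j) ≤ K0 ^ (d - j) := pow_le_pow_left₀ hq10.le hq1K _
          _ ≤ K0 ^ d := pow_le_pow_right₀ hK01 (Nat.sub_le _ _)
      · apply mul_le_mul
        · exact pow_le_pow_left₀ (Nat.cast_nonneg _) (by exact_mod_cast hr0N) _
        · have h3 : j.choose i ≤ 2 ^ j := Nat.choose_le_two_pow j i
          have h4 : 2 ^ j ≤ 2 ^ d := Nat.pow_le_pow_right (by norm_num) (by omega)
          exact_mod_cast h3.trans h4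
        · positivity
        · positivity
      · positivity
      · positivity
    rw [abs_mul]
    have hTj : (N : ℝ) ^ j ≤ A2 ^ j * (T : ℝ) ^ j := by
      rw [← mul_pow]
      apply pow_le_pow_left₀ hN0.le
      rw [div_le_iff₀ hA20] at hT2
      linarith
    have hT5 : (0 : ℝ) < (T : ℝ) ^ j := by positivity
    calc |q2 * g.coeff j - b j| * |(q1 : ℝ) ^ (d - j) * ((-(r₀ : ℝ)) ^ (j - i) * (j.choose i : ℝ))|
        ≤ (K1 / (T : ℝ) ^ j) * (K0 ^ d * ((N : ℝ) ^ (j - i) * 2 ^ d)) := mul_le_mul h1 h2 (abs_nonneg _) (by positivity)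
      _ = K1 * K0 ^ d * 2 ^ d * ((N : ℝ) ^ j / (T : ℝ) ^ j) / (N : ℝ) ^ i := by
          have : (N : ℝ) ^ j = (N : ℝ) ^ (j - i) * (N : ℝ) ^ i := by rw [← pow_add, Nat.sub_add_cancel hji]
          rw [this]
          field_simp
      _ ≤ K1 * K0 ^ d * 2 ^ d * A2 ^ (d + 1) / (N : ℝ) ^ i := by
          apply div_le_div_of_nonneg_right _ (by positivity)
          apply mul_le_mul_of_nonneg_left _ (by positivity)
          rw [div_le_iff₀ hT5]
          refine hTj.trans ?_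
          apply mul_le_mul_of_nonneg_right _ hT5.le
          exact pow_le_pow_right₀ hA22 (by omega)
  refine (abs_sum_le_sum_abs _ _).trans ?_
  refine (sum_le_card_nsmul _ _ _ hterm).trans ?_
  rw [card_range, nsmul_eq_mul, hG]
  apply le_of_eq
  push_cast
  ring

theorem IA_all (d : ℕ) (hd : 1 ≤ d) : IA d := by
  induction d, hd using Nat.le_induction with
  | base => exact IA_one
  | succ d hd ih => exact IA_step d hd ih

end Pool.Agent.U471.DQ
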