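import Pool.Agent.U471.DQ.Type
import Pool.Agent.TH869.SQ.Cs

set_option autoImplicit false

/-!
Boxes at consecutive primes, for all the integer points close to almost all the values of real polynomials (adapted from
`Pool.Agent.TH869.SQ.Bx`, `Cs`).
-/

namespace Pool.Agent.U471.DQ

open Finset Polynomial
open Pool.Agent.TH869.SQ (ind ind_nonneg ind_le ind_congr ind1 ind_eq_prod pr pr_prime pr_inj qs qs_le qs_coprime)

lemma vs_le {r : ℕ} (q : ℕ → ℕ) (φ : ℕ → (Fin r → ℤ) → ℝ) (hle : ∀ k u, |φ k u| ≤ 1) (K : ℕ) : vs q φ K ≤ K := by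
  unfold vs
  refine (sum_le_card_nsmul _ _ 1 fun k _ => ?_).trans ?_
  · apply mn_le_one
    intro u
    rw [← sq_abs]
    exact pow_le_one₀ (abs_nonneg _) (hle k u)
  · rw [card_range, nsmul_eq_mul, mul_one]

/-- the simple form of the error -/
lemma er_simple (δ R : ℝ) (hδ : 0 < δ) (hR : 1 ≤ R) (S V C : ℝ) (K : ℕ) (hC : 1 ≤ C) (hSK : |S| ≤ K) (hV : V ≤ K)
    (hS : |S| ≤ C * er δ R V K) : |S| ≤ 2 * C * ((K : ℝ) ^ (1 / 2 + δ) * √(1 + Real.log R)) := by
  have hL := Real.log_nonneg hR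
  rcases Nat.eq_zero_or_pos K with h0 | hK
  · subst h0
    have : |S| ≤ 0 := by simpa using hSK
    have h2 : 0 ≤ 2 * C * (((0 : ℕ) : ℝ) ^ (1 / 2 + δ) * √(1 + Real.log R)) := by positivity
    linarith
  have hK0 : (0 : ℝ) < K := by exact_mod_cast hK
  have hK1 : (1 : ℝ) ≤ K := by exact_mod_cast hK
  have hKδ : 1 ≤ (K : ℝ) ^ δ := Real.one_le_rpow hK1 hδ.le
  have e1 : (K : ℝ) ^ (1 / 2 + δ) = √K * (K : ℝ) ^ δ := by rw [Real.rpow_add hK0, ← Real.sqrt_eq_rpow]
  obtain ⟨L, hLL⟩ : ∃ L, L = 1 + Real.log R := ⟨_, rfl⟩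
  rw [e1, ← hLL]
  have hL1 : 1 ≤ L := by linarith
  rcases le_total L K with h | h
  · refine hS.trans ?_
    unfold er
    rw [← hLL]
    have h1 : √(L * (L + V)) ≤ 2 * (√K * √L) := by
      rw [← Real.sqrt_mul hK0.le, show (2 : ℝ) = √4 by rw [show (4 : ℝ) = 2 ^ 2 by norm_num, Real.sqrt_sq (by norm_num)],
        ← Real.sqrt_mul (by norm_num)]
      apply Real.sqrt_le_sqrt
      have : L * (L + V) ≤ L * (K + K) := mul_le_mul_of_nonneg_left (by linarith) (by linarith)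
      nlinarith
    calc C * ((K : ℝ) ^ δ * √(L * (L + V))) ≤ C * ((K : ℝ) ^ δ * (2 * (√K * √L))) := by
          apply mul_le_mul_of_nonneg_left _ (by linarith)
          exact mul_le_mul_of_nonneg_left h1 (by positivity)
      _ = _ := by ring
  · refine hSK.trans ?_
    have h1 : (K : ℝ) ≤ √K * √L := by
      calc (K : ℝ) = √K * √K := (Real.mul_self_sqrt hK0.le).symm
        _ ≤ √K * √L := mul_le_mul_of_nonneg_left (Real.sqrt_le_sqrt h) (Real.sqrt_nonneg _)
    have h2 : √K * √L ≤ √K * (K : ℝ) ^ δ * √L := by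
      have : √(K : ℝ) ≤ √K * (K : ℝ) ^ δ := le_mul_of_one_le_right (Real.sqrt_nonneg _) hKδ
      exact mul_le_mul_of_nonneg_right this (Real.sqrt_nonneg _)
    have h3 : 0 ≤ √(K : ℝ) * (K : ℝ) ^ δ * √L := by positivity
    nlinarith

/-- **all boxes** -/
theorem near_boxes (r d s B D m : ℕ) (hd : 1 ≤ d) (hs : 1 ≤ s) (δ : ℝ) (hδ : 0 < δ) :
    ∃ κ C : ℝ, 0 < κ ∧ κ ≤ 1 ∧ 1 ≤ C ∧
    ∀ (N : ℕ) (R : ℝ) (f : Fin r → ℝ[X]), 1 ≤ N → 1 ≤ R → (∀ i, (f i).natDegree ≤ d) → Gen d N R f →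
    ∀ (q : ℕ → ℕ), (∀ k, 0 < q k ∧ q k ≤ D * (k + 1) ^ B) → (∀ j k, j + s ≤ k → Nat.Coprime (q j) (q k)) →
    ∀ x : ℕ → (Fin r → ℤ) → Fin m → ℝ, (∀ k (u u' : Fin r → ℤ), (∀ i, (q k : ℤ) ∣ u i - u' i) → x k u = x k u') →
    ∃ E : Finset ℕ, E ⊆ range N ∧ (E.card : ℝ) ≤ C * (N * R ^ (-κ)) ∧ ∀ n ∈ range N, n ∉ E →
      ∀ z : Fin r → ℤ, Cl (R ^ κ) (fun i => (f i).eval (n : ℝ)) z → ∀ K : ℕ, (K : ℝ) ≤ R ^ κ →
        ∀ I : Fin m → Set ℝ, (∀ i, (I i).OrdConnected) →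
          |∑ k ∈ range K, (ind I (x k z) - mn (q k) (fun u => ind I (x k u)))| ≤
            C * ((K : ℝ) ^ (1 / 2 + δ) * √(1 + Real.log R)) := by
  classical
  obtain ⟨κ1, C1, hκ10, hκ11, hC1, H⟩ := near_good r d s B D hd hs δ hδ
  have hB0 : (0 : ℝ) ≤ B := Nat.cast_nonneg B
  have hr0 : (0 : ℝ) ≤ r := Nat.cast_nonneg r
  have hm0 : (0 : ℝ) ≤ m := Nat.cast_nonneg m
  obtain ⟨w, hw⟩ : ∃ w : ℝ, w = 2 * m * (B * r + 1) := ⟨_, rfl⟩
  have hw0 : 0 ≤ w := by rw [hw]; positivity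
  obtain ⟨κ, hκ⟩ : ∃ κ : ℝ, κ = κ1 / (2 * (w + 1)) := ⟨_, rfl⟩
  have hκ0 : 0 < κ := by rw [hκ]; positivity
  have hκ2 : κ * (2 * (w + 1)) = κ1 := by rw [hκ]; field_simp
  have hκw : κ * w ≤ κ1 / 2 := by nlinarith
  have hκh : κ ≤ κ1 / 2 := by nlinarith
  obtain ⟨G, hG⟩ : ∃ G : ℝ, G = (((D : ℝ) + 1) ^ r) ^ (2 * m) := ⟨_, rfl⟩
  have hG1 : 1 ≤ G := by
    rw [hG]
    have : (0 : ℝ) ≤ D := Nat.cast_nonneg D
    exact one_le_pow₀ (one_le_pow₀ (by linarith))
  refine ⟨κ, 2 * C1 + G, hκ0, by linarith, by linarith, ?_⟩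
  intro N R f hN hR hf hgen q hq hcop x hx
  have hR0 : 0 < R := by linarith
  have hNr : (0 : ℝ) ≤ N := Nat.cast_nonneg _
  -- small `R`
  rcases lt_or_ge (R ^ (κ1 / 2)) G with hsmall | hbig
  · refine ⟨range N, Finset.Subset.refl _, ?_, fun n hn hnE => absurd hn hnE⟩
    rw [card_range]
    have h1 : R ^ κ ≤ G := (Real.rpow_le_rpow_of_exponent_le hR hκh).trans hsmall.le
    have h2 : 1 ≤ (2 * C1 + G) * R ^ (-κ) := by
      rw [Real.rpow_neg hR0.le, ← div_eq_mul_inv, le_div_iff₀ (Real.rpow_pos_of_pos hR0 _)]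
      linarith
    calc (N : ℝ) = N * 1 := (mul_one _).symm
      _ ≤ N * ((2 * C1 + G) * R ^ (-κ)) := mul_le_mul_of_nonneg_left h2 hNr
      _ = _ := by ring
  obtain ⟨Y, hY⟩ : ∃ Y : ℕ, Y = ⌊R ^ κ⌋₊ := ⟨_, rfl⟩
  have hYr : (Y : ℝ) ≤ R ^ κ := by rw [hY]; exact Nat.floor_le (Real.rpow_nonneg hR0.le _)
  obtain ⟨Θ, hΘ⟩ : ∃ Θ : Fin m → Finset ℝ, Θ = fun i =>
    (range Y).biUnion (fun k => (bx r (q k)).image (fun u => x k (fun l => (u l : ℤ)) i)) := ⟨_, rfl⟩
  have hΘc : ∀ i, ((Θ i).card : ℝ) ≤ ((D : ℝ) + 1) ^ r * R ^ (κ * (B * r + 1)) := by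
    intro i
    have h1 : (Θ i).card ≤ ∑ k ∈ range Y, (D * Y ^ B) ^ r := by
      rw [hΘ]
      refine card_biUnion_le.trans (sum_le_sum fun k hk => ?_)
      refine card_image_le.trans ?_
      rw [card_bx]
      apply Nat.pow_le_pow_left
      refine (hq k).2.trans (Nat.mul_le_mul_left D (Nat.pow_le_pow_left ?_ B))
      exact mem_range.mp hk
    rw [sum_const, card_range, smul_eq_mul] at h1
    have h2 : ((Θ i).card : ℝ) ≤ Y * (D * (Y : ℝ) ^ B) ^ r := by exact_mod_cast h1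
    have h3 : (Y : ℝ) ^ (B * r + 1) ≤ R ^ (κ * (B * r + 1)) := by
      calc (Y : ℝ) ^ (B * r + 1) ≤ (R ^ κ) ^ (B * r + 1) := pow_le_pow_left₀ (by positivity) hYr _
        _ = _ := by
          rw [← Real.rpow_natCast, ← Real.rpow_mul hR0.le]
          push_cast
          rfl
    calc ((Θ i).card : ℝ) ≤ Y * (D * (Y : ℝ) ^ B) ^ r := h2
      _ = (D : ℝ) ^ r * (Y : ℝ) ^ (B * r + 1) := by rw [mul_pow, pow_succ, ← pow_mul]; ring
      _ ≤ ((D : ℝ) + 1) ^ r * R ^ (κ * (B * r + 1)) := by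
          apply mul_le_mul _ h3 (by positivity) (by positivity)
          exact pow_le_pow_left₀ (Nat.cast_nonneg _) (by linarith) _
  obtain ⟨J, hJ⟩ : ∃ J : (Fin m → ℝ) → (Fin m → ℝ) → Fin m → Set ℝ, J = fun a b i => Set.Icc (a i) (b i) := ⟨_, rfl⟩
  -- the pairs of endpoints
  obtain ⟨PP, hPP⟩ : ∃ PP : Finset ((Fin m → ℝ) × (Fin m → ℝ)), PP = Fintype.piFinset Θ ×ˢ Fintype.piFinset Θ := ⟨_, rfl⟩
  have hPPc : (PP.card : ℝ) ≤ R ^ κ1 := by
    have hpi : ((Fintype.piFinset Θ).card : ℝ) ≤ (((D : ℝ) + 1) ^ r * R ^ (κ * (B * r + 1))) ^ m := by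
      rw [Fintype.card_piFinset]
      push_cast
      calc ∏ i, ((Θ i).card : ℝ) ≤ ∏ _i : Fin m, (((D : ℝ) + 1) ^ r * R ^ (κ * (B * r + 1))) :=
            prod_le_prod (fun i _ => Nat.cast_nonneg _) fun i _ => hΘc i
        _ = _ := by rw [prod_const, card_univ, Fintype.card_fin]
    rw [hPP, card_product]
    push_cast
    calc ((Fintype.piFinset Θ).card : ℝ) * ((Fintype.piFinset Θ).card : ℝ)
        ≤ (((D : ℝ) + 1) ^ r * R ^ (κ * (B * r + 1))) ^ m * (((D : ℝ) + 1) ^ r * R ^ (κ * (B * r + 1))) ^ m :=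
          mul_le_mul hpi hpi (by positivity) (by positivity)
      _ = G * R ^ (κ * w) := by
          rw [← pow_add, ← two_mul, mul_pow, hG, ← Real.rpow_natCast (R ^ (κ * (B * r + 1))), ← Real.rpow_mul hR0.le]
          congr 2
          rw [hw]
          push_cast
          ring
      _ ≤ R ^ (κ1 / 2) * R ^ (κ1 / 2) :=
          mul_le_mul hbig (Real.rpow_le_rpow_of_exponent_le hR hκw) (by positivity) (by positivity)
      _ = R ^ κ1 := by
          rw [← Real.rpow_add hR0]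
          congr 1
          ring
  obtain ⟨en, hen⟩ : ∃ en : PP ≃ Fin PP.card, en = PP.equivFin := ⟨_, rfl⟩
  obtain ⟨ab, hab⟩ : ∃ ab : ℕ → (Fin m → ℝ) × (Fin m → ℝ), ab = fun t => if h : t < PP.card then (en.symm ⟨t, h⟩ : PP).1 else (fun _ => 0, fun _ => 0) :=
    ⟨_, rfl⟩
  obtain ⟨φ, hφ⟩ : ∃ φ : ℕ → ℕ → (Fin r → ℤ) → ℝ, φ = fun t k u =>
    ind (J (ab t).1 (ab t).2) (x k u) - mn (q k) (fun u => ind (J (ab t).1 (ab t).2) (x k u)) := ⟨_, rfl⟩
  have hφ1 : ∀ t k u, |φ t k u| ≤ 1 := by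
    intro t k u
    rw [hφ]
    simp only
    have h1 := ind_nonneg (J (ab t).1 (ab t).2) (x k u)
    have h2 := ind_le (J (ab t).1 (ab t).2) (x k u)
    have h3 := mn_nonneg (M := q k) fun u => ind_nonneg (J (ab t).1 (ab t).2) (x k u)
    have h4 := mn_le_one (M := q k) fun u => ind_le (J (ab t).1 (ab t).2) (x k u)
    rw [abs_le]
    constructor <;> linarith
  obtain ⟨E, hE1, hE2, hE3⟩ := H N R f hN hR hf hgen q hq hcop φ (by
      intro t k u u' hu
      rw [hφ]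
      simp only
      rw [hx k u u' hu]) hφ1 (by
      intro t k
      rw [hφ]
      exact rs_centered (hq k).1 _)
  refine ⟨E, hE1, ?_, ?_⟩
  · refine hE2.trans ?_
    calc C1 * (N * R ^ (-κ1)) ≤ C1 * (N * R ^ (-κ)) := by
          apply mul_le_mul_of_nonneg_left _ (by linarith)
          apply mul_le_mul_of_nonneg_left _ hNr
          apply Real.rpow_le_rpow_of_exponent_le hR
          linarith
      _ ≤ _ := by
          apply mul_le_mul_of_nonneg_right _ (by positivity)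
          linarith
  · intro n hn hnE z hz K hK I hI
    have hpow : R ^ κ ≤ R ^ κ1 := Real.rpow_le_rpow_of_exponent_le hR (by linarith)
    have hKY : K ≤ Y := by rw [hY]; exact Nat.le_floor hK
    have hL := Real.log_nonneg hR
    -- residues
    have hres : ∀ k (u : Fin r → ℤ), ∃ u' ∈ bx r (q k), x k u = x k (fun l => (u' l : ℤ)) := by
      intro k u
      have hq0 : (0 : ℤ) < q k := by exact_mod_cast (hq k).1
      refine ⟨fun l => (u l % q k).toNat, ?_, ?_⟩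
      · rw [mem_bx]
        intro l
        have h1 := Int.emod_lt_of_pos (u l) hq0
        have h2 := Int.emod_nonneg (u l) hq0.ne'
        omega
      · apply hx
        intro l
        simp only
        rw [Int.toNat_of_nonneg (Int.emod_nonneg _ hq0.ne')]
        exact Int.dvd_self_sub_emod
    by_cases hne : ∃ i, ∀ θ ∈ Θ i, θ ∉ I i
    · obtain ⟨i, hi⟩ := hne
      have h0 : ∀ k, k < K → ∀ u, ind I (x k u) = 0 := by
        intro k hk u
        unfold ind
        rw [if_neg]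
        intro hall
        obtain ⟨u', hu', hxu⟩ := hres k u
        have hmem : x k (fun l => (u' l : ℤ)) i ∈ Θ i := by
          rw [hΘ]
          simp only [mem_biUnion, mem_image, mem_range]
          exact ⟨k, by omega, u', hu', rfl⟩
        apply hi _ hmem
        rw [← hxu]
        exact hall i
      have h1 : ∑ k ∈ range K, (ind I (x k z) - mn (q k) (fun u => ind I (x k u))) = 0 := by
        refine sum_eq_zero fun k hk => ?_
        rw [mem_range] at hk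
        rw [h0 k hk z]
        have : mn (q k) (fun u => ind I (x k u)) = 0 := by
          unfold mn rs
          simp only [h0 k hk, sum_const_zero, zero_div]
        rw [this, sub_zero]
      rw [h1, abs_zero]
      positivity
    · push Not at hne
      have hnon : ∀ i, ((Θ i).filter (fun θ => θ ∈ I i)).Nonempty := by
        intro i
        obtain ⟨θ, h1, h2⟩ := hne i
        exact ⟨θ, mem_filter.mpr ⟨h1, h2⟩⟩
      obtain ⟨a, ha⟩ : ∃ a : Fin m → ℝ, a = fun i => ((Θ i).filter (fun θ => θ ∈ I i)).min' (hnon i) := ⟨_, rfl⟩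
      obtain ⟨b, hb⟩ : ∃ b : Fin m → ℝ, b = fun i => ((Θ i).filter (fun θ => θ ∈ I i)).max' (hnon i) := ⟨_, rfl⟩
      have haΘ : ∀ i, a i ∈ Θ i ∧ a i ∈ I i := by
        intro i
        rw [ha]
        exact mem_filter.mp (min'_mem ((Θ i).filter (fun θ => θ ∈ I i)) (hnon i))
      have hbΘ : ∀ i, b i ∈ Θ i ∧ b i ∈ I i := by
        intro i
        rw [hb]
        exact mem_filter.mp (max'_mem ((Θ i).filter (fun θ => θ ∈ I i)) (hnon i))
      have hiff : ∀ i, ∀ θ ∈ Θ i, (θ ∈ I i ↔ θ ∈ J a b i) := by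
        intro i θ hθ
        rw [hJ, Set.mem_Icc]
        constructor
        · intro h
          have hm : θ ∈ (Θ i).filter (fun θ => θ ∈ I i) := mem_filter.mpr ⟨hθ, h⟩
          rw [ha, hb]
          exact ⟨min'_le _ _ hm, le_max' _ _ hm⟩
        · intro h
          exact (hI i).out (haΘ i).2 (hbΘ i).2 h
      have heq : ∀ k, k < K → ∀ u, ind I (x k u) = ind (J a b) (x k u) := by
        intro k hk u
        apply ind_congr
        obtain ⟨u', hu', hxu⟩ := hres k u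
        rw [hxu]
        refine forall_congr' fun i => hiff i _ ?_
        rw [hΘ]
        simp only [mem_biUnion, mem_image, mem_range]
        exact ⟨k, by omega, u', hu', rfl⟩
      have habPP : (a, b) ∈ PP := by
        rw [hPP, mem_product]
        exact ⟨Fintype.mem_piFinset.mpr fun i => (haΘ i).1, Fintype.mem_piFinset.mpr fun i => (hbΘ i).1⟩
      obtain ⟨t, ht⟩ : ∃ t : ℕ, t = (en ⟨(a, b), habPP⟩ : Fin PP.card) := ⟨_, rfl⟩
      have htlt : t < PP.card := by rw [ht]; exact (en ⟨(a, b), habPP⟩).isLt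
      have habt : ab t = (a, b) := by
        rw [hab]
        simp only
        rw [dif_pos htlt]
        have : (⟨t, htlt⟩ : Fin PP.card) = en ⟨(a, b), habPP⟩ := Fin.ext ht
        rw [this, Equiv.symm_apply_apply]
      have htR : (t : ℝ) ≤ R ^ κ1 := le_trans (by exact_mod_cast htlt.le) hPPc
      have h1 := hE3 n hn hnE z (fun i => (hz i).trans hpow) t htR K (hK.trans hpow)
      have h2 : ∑ k ∈ range K, (ind I (x k z) - mn (q k) (fun u => ind I (x k u))) = ∑ k ∈ range K, φ t k z := by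
        refine sum_congr rfl fun k hk => ?_
        rw [mem_range] at hk
        rw [hφ]
        simp only
        rw [habt]
        simp only
        rw [heq k hk z]
        congr 2
        funext u
        exact heq k hk u
      rw [h2]
      have h3 : |∑ k ∈ range K, φ t k z| ≤ K := by
        refine (abs_sum_le_sum_abs _ _).trans ?_
        calc ∑ k ∈ range K, |φ t k z| ≤ ∑ k ∈ range K, (1 : ℝ) := sum_le_sum fun k _ => hφ1 t k z
          _ = K := by simp
      have h4 := er_simple δ R hδ hR _ _ C1 K hC1 h3 (vs_le q (φ t) (hφ1 t) K) h1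
      refine h4.trans ?_
      apply mul_le_mul_of_nonneg_right _ (by positivity)
      linarith

lemma mn_prod (r s k : ℕ) (x : ℕ → (Fin r → ℤ) → ℝ) (hx : ∀ (p : ℕ) (u u' : Fin r → ℤ), (∀ i, (p : ℤ) ∣ u i - u' i) → x p u = x p u')
    (I : Fin s → Set ℝ) :
    mn (qs s k) (fun u => ind I (fun i => x (pr (k + i)) u)) = ∏ i : Fin s, mn (pr (k + i)) (fun u => ind1 (I i) (x (pr (k + i)) u)) := by
  classical
  have h := rs_prod (fun i : Fin s => pr (k + i)) (fun i u => ind1 (I i) (x (pr (k + i)) u))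
    univ (fun i _ => (pr_prime _).pos) (by
      intro i _ j _ hij
      apply (Nat.coprime_primes (pr_prime _) (pr_prime _)).mpr
      intro he
      apply hij
      have := pr_inj he
      exact Fin.ext (by omega)) (by
      intro i _ u u' hu
      simp only
      rw [hx _ u u' hu])
  unfold mn
  rw [prod_div_distrib]
  congr 1
  · rw [← h.2]
    unfold qs
    congr 1
    funext u
    exact ind_eq_prod I _
  · unfold qs
    push_cast
    rw [prod_pow]

/-- **boxes at consecutive primes** -/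
theorem near_consec (r d s : ℕ) (hd : 1 ≤ d) (hs : 1 ≤ s) (δ : ℝ) (hδ : 0 < δ) :
    ∃ κ C : ℝ, 0 < κ ∧ κ ≤ 1 ∧ 1 ≤ C ∧
    ∀ (N : ℕ) (R : ℝ) (f : Fin r → ℝ[X]), 1 ≤ N → 1 ≤ R → (∀ i, (f i).natDegree ≤ d) → Gen d N R f →
    ∀ x : ℕ → (Fin r → ℤ) → ℝ, (∀ (p : ℕ) (u u' : Fin r → ℤ), (∀ i, (p : ℤ) ∣ u i - u' i) → x p u = x p u') →
    ∃ E : Finset ℕ, E ⊆ range N ∧ (E.card : ℝ) ≤ C * (N * R ^ (-κ)) ∧ ∀ n ∈ range N, n ∉ E →
      ∀ z : Fin r → ℤ, Cl (R ^ κ) (fun i => (f i).eval (n : ℝ)) z → ∀ K : ℕ, (K : ℝ) ≤ R ^ κ →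
        ∀ I : Fin s → Set ℝ, (∀ i, (I i).OrdConnected) →
          |∑ k ∈ range K, (ind I (fun i => x (pr (k + i)) z) -
            ∏ i : Fin s, mn (pr (k + i)) (fun u => ind1 (I i) (x (pr (k + i)) u)))| ≤
            C * ((K : ℝ) ^ (1 / 2 + δ) * √(1 + Real.log R)) := by
  obtain ⟨κ, C, h1, h2, h3, H⟩ := near_boxes r d s (2 * s) ((4 * s ^ 2) ^ s) s hd hs δ hδ
  refine ⟨κ, C, h1, h2, h3, ?_⟩
  intro N R f hN hR hf hgen x hx
  obtain ⟨E, hE1, hE2, hE3⟩ := H N R f hN hR hf hgen (qs s) (qs_le s hs) (qs_coprime s)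
    (fun k u i => x (pr (k + i)) u) (by
      intro k u u' hu
      funext i
      apply hx
      intro l
      have hd : pr (k + i) ∣ qs s k := dvd_prod_of_mem (fun i : Fin s => pr (k + i)) (mem_univ i)
      exact (Int.natCast_dvd_natCast.2 hd).trans (hu l))
  refine ⟨E, hE1, hE2, ?_⟩
  intro n hn hnE z hz K hK I hI
  have h := hE3 n hn hnE z hz K hK I hI
  have e : ∑ k ∈ range K, (ind I (fun i : Fin s => x (pr (k + i)) z) -
      ∏ i : Fin s, mn (pr (k + i)) (fun u => ind1 (I i) (x (pr (k + i)) u))) =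
      ∑ k ∈ range K, (ind I (fun i : Fin s => x (pr (k + i)) z) -
        mn (qs s k) (fun u => ind I (fun i : Fin s => x (pr (k + i)) u))) := by
    refine sum_congr rfl fun k _ => ?_
    rw [mn_prod r s k x hx I]
  rw [e]
  exact h

end Pool.Agent.U471.DQ
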