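import Pool.Agent.U471.DQ.Quad2
import Pool.Agent.R459.Tor2

set_option autoImplicit false

/-!
Roots of polynomials modulo primes, for polynomials whose coefficients are polynomials in integers close to real polynomials.
-/

namespace Pool.Agent.U471.DQ

open Finset Polynomial
open Pool.Agent.R459.Tor (Hit hit mean_hit)

/-- monic polynomials -/
noncomputable def Mon {n : ℕ} (c : Fin n → ℤ) : ℤ[X] := X ^ n + ∑ i : Fin n, C (c i) * X ^ (i : ℕ)

lemma Mon_deg {n : ℕ} (c : Fin n → ℤ) : (∑ i : Fin n, C (c i) * X ^ (i : ℕ) : ℤ[X]).degree < n := by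
  refine (degree_sum_le _ _).trans_lt ?_
  rw [Finset.sup_lt_iff (by exact_mod_cast WithBot.bot_lt_coe n)]
  intro i _
  refine (degree_C_mul_X_pow_le _ _).trans_lt ?_
  exact_mod_cast i.2

lemma Mon_monic {n : ℕ} (c : Fin n → ℤ) : (Mon c).Monic := monic_X_pow_add (Mon_deg c)

lemma Mon_natDegree {n : ℕ} (c : Fin n → ℤ) : (Mon c).natDegree = n := by
  unfold Mon
  rw [natDegree_add_eq_left_of_degree_lt, natDegree_X_pow]
  rw [degree_X_pow]
  exact Mon_deg c

lemma Mon_sub {n : ℕ} (c c' : Fin n → ℤ) (p : ℤ) (h : ∀ i, p ∣ c i - c' i) : ∃ G : ℤ[X], Mon c = Mon c' + C p * G := by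
  choose g hg using h
  refine ⟨∑ i : Fin n, C (g i) * X ^ (i : ℕ), ?_⟩
  unfold Mon
  rw [mul_sum, add_assoc, ← sum_add_distrib]
  congr 1
  apply sum_congr rfl
  intro i _
  have : c i = c' i + p * g i := by
    have := hg i
    linarith
  rw [this, C_add, C_mul]
  ring

lemma Hit_congr {n : ℕ} (c c' : Fin n → ℤ) (p : ℕ) (h : ∀ i, (p : ℤ) ∣ c i - c' i) (v v' : ℤ) (hv : (p : ℤ) ∣ v - v') :
    Hit (Mon c) 1 p v → Hit (Mon c') 1 p v' := by
  rintro ⟨a, ha, ha'⟩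
  obtain ⟨G, hG⟩ := Mon_sub c c' p h
  refine ⟨a, ?_, ?_⟩
  · rw [hG, eval_add, eval_mul, eval_C] at ha
    have e : (Mon c').eval a - 1 * v' = ((Mon c').eval a + p * G.eval a - 1 * v) - p * G.eval a + (v - v') := by ring
    rw [e]
    exact dvd_add (dvd_sub ha (Dvd.intro _ rfl)) hv
  · intro hd
    apply ha'
    rw [hG, derivative_add, derivative_mul, derivative_C, zero_mul, zero_add, eval_add, eval_mul, eval_C]
    exact dvd_add hd (Dvd.intro _ rfl)

/-- the coefficients of the family -/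
noncomputable def cof {n r : ℕ} (A : Fin n → MvPolynomial (Fin r) ℤ) (g : Fin n → ℤ) (u : Fin r → ℤ) : Fin n → ℤ :=
  fun i => MvPolynomial.eval u (A i) + g i

/-- `p` has a simple root -/
def HP {n r : ℕ} (A : Fin n → MvPolynomial (Fin r) ℤ) (g : Fin n → ℤ) (p : ℕ) (z : Fin (r + 1) → ℤ) : Prop :=
  Hit (Mon (cof A g (Fin.tail z))) 1 p (z 0)

lemma HP_congr {n r : ℕ} (A : Fin n → MvPolynomial (Fin r) ℤ) (g : Fin n → ℤ) (p : ℕ) (z z' : Fin (r + 1) → ℤ)
    (h : ∀ i, (p : ℤ) ∣ z i - z' i) : HP A g p z ↔ HP A g p z' := by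
  have key : ∀ z z' : Fin (r + 1) → ℤ, (∀ i, (p : ℤ) ∣ z i - z' i) → HP A g p z → HP A g p z' := by
    intro z z' h hz
    refine Hit_congr _ _ p ?_ _ _ (h 0) hz
    intro i
    unfold cof
    have e : MvPolynomial.eval (Fin.tail z) (A i) + g i - (MvPolynomial.eval (Fin.tail z') (A i) + g i) =
      MvPolynomial.eval (Fin.tail z) (A i) - MvPolynomial.eval (Fin.tail z') (A i) := by ring
    rw [e]
    exact mv_congr (A i) (fun j => h j.succ)
  refine ⟨key z z' h, key z' z fun i => ?_⟩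
  have := h i
  rw [← dvd_neg, neg_sub]
  exact this

/-- means over the first coordinate -/
lemma mn_first {r p : ℕ} (hp : 0 < p) (F : (Fin (r + 1) → ℤ) → ℝ) (c : ℝ)
    (h : ∀ v : Fin r → ℤ, c ≤ (∑ t ∈ range p, F (Fin.cons (t : ℤ) v)) / (p : ℝ)) : c ≤ mn p F := by
  have hp0 : (0 : ℝ) < p := by exact_mod_cast hp
  have e : rs p F = ∑ v ∈ bx r p, ∑ t ∈ range p, F (Fin.cons (t : ℤ) (fun i => (v i : ℤ))) := by
    unfold rs
    rw [← sum_product']
    refine sum_bij' (fun s _ => (Fin.tail s, s 0)) (fun q _ => Fin.cons q.2 q.1) ?_ ?_ ?_ ?_ ?_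
    · intro s hs
      rw [mem_bx] at hs
      rw [mem_product, mem_bx, mem_range]
      exact ⟨fun i => hs i.succ, hs 0⟩
    · intro q hq
      rw [mem_product, mem_bx, mem_range] at hq
      rw [mem_bx]
      intro i
      refine Fin.cases ?_ (fun j => ?_) i
      · exact hq.2
      · exact hq.1 j
    · intro s _
      exact Fin.cons_self_tail s
    · intro q _
      rfl
    · intro s _
      congr 1
      funext i
      refine Fin.cases ?_ (fun j => ?_) i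
      · rfl
      · rfl
  unfold mn
  rw [e, le_div_iff₀ (by positivity)]
  have hc : ((bx r p).card : ℝ) = (p : ℝ) ^ r := by
    unfold bx
    rw [Fintype.card_piFinset, prod_const, card_univ, Fintype.card_fin, card_range]
    push_cast
    rfl
  calc c * (p : ℝ) ^ (r + 1) = ∑ _v ∈ bx r p, c * p := by
        rw [sum_const, nsmul_eq_mul, hc, pow_succ]
        ring
    _ ≤ _ := by
        apply sum_le_sum
        intro v _
        have := h (fun i => (v i : ℤ))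
        rwa [le_div_iff₀ hp0] at this

open Classical in
/-- the proportion of the residues with a simple root -/
lemma mn_HP {n r : ℕ} (hn : 1 ≤ n) (A : Fin n → MvPolynomial (Fin r) ℤ) (g : Fin n → ℤ) {p : ℕ} (hp : p.Prime) (hpn : 2 * n ≤ p) :
    1 / (2 * (n : ℝ)) ≤ mn p (fun z => if HP A g p z then (1 : ℝ) else 0) := by
  apply mn_first hp.pos
  intro v
  have h := mean_hit (Mon (cof A g v)) (Mon_monic _) n (Mon_natDegree _) hn 1 p hp hpn (by
    intro hd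
    have := Int.le_of_dvd one_pos hd
    have := hp.two_le
    omega)
  unfold Pool.Agent.R459.Eq.mean at h
  refine h.trans (le_of_eq ?_)
  congr 1

lemma mdl_HP {n r : ℕ} (hn : 1 ≤ n) (A : Fin n → MvPolynomial (Fin r) ℤ) (g : Fin n → ℤ) (x : ℕ) :
    ((prs x).card : ℝ) ≤ 2 * n * (mdl (HP A g) x + 1) := by
  classical
  obtain ⟨Q, hQ⟩ : ∃ Q : Finset ℕ, Q = (prs x).filter (fun p => 2 * n ≤ p) := ⟨_, rfl⟩
  have hn0 : (0 : ℝ) < n := by exact_mod_cast hn
  have h1 : (prs x).card ≤ Q.card + 2 * n := by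
    have : prs x ⊆ Q ∪ range (2 * n) := by
      intro p hp
      rw [mem_union, hQ, mem_filter, mem_range]
      by_cases h : 2 * n ≤ p
      · left; exact ⟨hp, h⟩
      · right; omega
    refine (card_le_card this).trans ((card_union_le _ _).trans ?_)
    rw [card_range]
  have h2 : (Q.card : ℝ) * (1 / (2 * n)) ≤ mdl (HP A g) x := by
    have hme : mdl (HP A g) x = ∑ p ∈ prs x, mn p (fun u => if HP A g p u then (1 : ℝ) else 0) := by
      unfold mdl mn rs
      apply sum_congr rfl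
      intro p _
      rw [← sum_filter, sum_const, nsmul_eq_mul, mul_one]
    rw [hme]
    calc (Q.card : ℝ) * (1 / (2 * n)) = ∑ _p ∈ Q, 1 / (2 * (n : ℝ)) := by rw [sum_const, nsmul_eq_mul]
      _ ≤ ∑ p ∈ Q, mn p (fun u => if HP A g p u then (1 : ℝ) else 0) := by
          apply sum_le_sum
          intro p hp
          rw [hQ, mem_filter] at hp
          unfold prs at hp
          rw [mem_filter] at hp
          exact mn_HP hn A g hp.1.2 hp.2
      _ ≤ _ := by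
          apply sum_le_sum_of_subset_of_nonneg (by rw [hQ]; exact filter_subset _ _)
          intro p _ _
          apply mn_nonneg
          intro u
          split_ifs <;> norm_num
  have h3 : ((prs x).card : ℝ) ≤ Q.card + 2 * n := by exact_mod_cast h1
  rw [mul_one_div, div_le_iff₀ (by positivity)] at h2
  nlinarith

/-- **many primes with a simple root** -/
theorem near_roots (r d n : ℕ) (hd : 1 ≤ d) (hn : 1 ≤ n) : ∃ κ C : ℝ, 0 < κ ∧ κ ≤ 1 ∧ 1 ≤ C ∧
    ∀ (N : ℕ) (R : ℝ) (f : Fin (r + 1) → ℝ[X]), 1 ≤ N → 1 ≤ R → (∀ i, (f i).natDegree ≤ d) → Gen d N R f →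
    ∀ A : Fin n → MvPolynomial (Fin r) ℤ,
    ∃ E : Finset ℕ, E ⊆ range N ∧ (E.card : ℝ) ≤ C * (N * R ^ (-κ)) ∧ ∀ m ∈ range N, m ∉ E →
      ∀ z : Fin (r + 1) → ℤ, Cl (R ^ κ) (fun i => (f i).eval (m : ℝ)) z →
        ∀ g : Fin n → ℤ, (∀ i, (|g i| : ℝ) ≤ R ^ κ) → ∀ x : ℕ, (x : ℝ) ≤ R ^ κ →
          (x : ℝ) ≤ C * ((1 + Real.log R) ^ 4 * (cnt (HP A g) z x + 1)) := by
  classical
  obtain ⟨κ, C0, hκ0, hκ1, hC0, H⟩ := near_count_fin (r + 1) d hd (3 ^ n) (one_le_pow₀ (by norm_num)) (1 / 8) (by norm_num)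
  have hnr : (1 : ℝ) ≤ n := by exact_mod_cast hn
  obtain ⟨κ', hκ'⟩ : ∃ κ' : ℝ, κ' = κ / n := ⟨_, rfl⟩
  have hκ'0 : 0 < κ' := by rw [hκ']; positivity
  have hκ'κ : κ' ≤ κ := by
    rw [hκ']
    exact div_le_self hκ0.le hnr
  obtain ⟨a, ha⟩ : ∃ a : ℝ, a = 4 * n * (3 + C0 ^ 2) := ⟨_, rfl⟩
  have ha1 : 1 ≤ a := by rw [ha]; nlinarith [sq_nonneg C0]
  refine ⟨κ', C0 + (2 * a + 4 * a ^ 2 + 20), hκ'0, hκ'κ.trans hκ1, by nlinarith, ?_⟩
  intro N R f hN hR hf hgen A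
  have hR0 : 0 < R := by linarith
  have hRκ' : 1 ≤ R ^ κ' := Real.one_le_rpow hR hκ'0.le
  have hRκκ : R ^ κ' ≤ R ^ κ := Real.rpow_le_rpow_of_exponent_le hR hκ'κ
  obtain ⟨K, hK⟩ : ∃ K : ℕ, K = ⌊R ^ κ'⌋₊ := ⟨_, rfl⟩
  have hKR : (K : ℝ) ≤ R ^ κ' := by rw [hK]; exact Nat.floor_le (by positivity)
  obtain ⟨S, hS⟩ : ∃ S : Finset (Fin n → ℤ), S = Fintype.piFinset (fun _ => Icc (-(K : ℤ)) K) := ⟨_, rfl⟩
  have hSc : (S.card : ℝ) ≤ 3 ^ n * R ^ κ := by
    rw [hS, Fintype.card_piFinset, prod_const, card_univ, Fintype.card_fin, Int.card_Icc]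
    have e1 : ((K : ℤ) + 1 - -(K : ℤ)).toNat = 2 * K + 1 := by omega
    rw [e1]
    push_cast
    have h5 : 2 * (K : ℝ) + 1 ≤ 3 * R ^ κ' := by linarith
    calc (2 * (K : ℝ) + 1) ^ n ≤ (3 * R ^ κ') ^ n := pow_le_pow_left₀ (by positivity) h5 n
      _ = 3 ^ n * R ^ κ := by
          rw [mul_pow, ← Real.rpow_natCast (R ^ κ') n, ← Real.rpow_mul hR0.le, hκ']
          congr 2
          field_simp
  obtain ⟨E, hE1, hE2, hE3⟩ := H N R f hN hR hf hgen _ S hSc (fun g => HP A g) (fun g p _ u u' hu => HP_congr A g p u u' hu)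
  refine ⟨E, hE1, ?_, ?_⟩
  · refine hE2.trans ?_
    have h1 : R ^ (-κ) ≤ R ^ (-κ') := Real.rpow_le_rpow_of_exponent_le hR (by linarith)
    have h2 : (N : ℝ) * R ^ (-κ) ≤ N * R ^ (-κ') := mul_le_mul_of_nonneg_left h1 (Nat.cast_nonneg _)
    have h3 : 0 ≤ (N : ℝ) * R ^ (-κ) := by positivity
    apply mul_le_mul _ h2 h3 (by positivity)
    have : 0 ≤ 2 * a + 4 * a ^ 2 + 20 := by positivity
    linarith
  intro m hm hmE z hz g hg x hx
  have hz' : Cl (R ^ κ) (fun i => (f i).eval (m : ℝ)) z := fun i => (hz i).trans hRκκ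
  have hgS : g ∈ S := by
    rw [hS, Fintype.mem_piFinset]
    intro i
    rw [mem_Icc, ← abs_le]
    have h1 : ((g i).natAbs : ℝ) ≤ R ^ κ' := by
      rw [Nat.cast_natAbs]
      push_cast
      exact hg i
    have h3 := Nat.le_floor h1
    rw [← Int.natCast_natAbs, hK]
    exact_mod_cast h3
  have hmain := hE3 m hm hmE z hz' g hgS x (hx.trans hRκκ)
  obtain ⟨c, hc⟩ : ∃ c : ℝ, c = (cnt (HP A g) z x : ℝ) := ⟨_, rfl⟩
  have hc0 : 0 ≤ c := by rw [hc]; positivity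
  have hlR : 0 ≤ Real.log R := Real.log_nonneg hR
  obtain ⟨B, hB⟩ : ∃ B : ℝ, B = 1 + Real.log R := ⟨_, rfl⟩
  have hB1 : 1 ≤ B := by rw [hB]; linarith
  have hB4 : 1 ≤ B ^ 4 := one_le_pow₀ hB1
  rw [← hB, ← hc]
  have hgoal1 : 1 ≤ B ^ 4 * (c + 1) := by nlinarith
  by_cases hx20 : 20 ≤ x
  swap
  · have h1 : (x : ℝ) ≤ 20 := by
      have : x ≤ 20 := by omega
      exact_mod_cast this
    have h2 : 20 ≤ C0 + (2 * a + 4 * a ^ 2 + 20) := by nlinarith [sq_nonneg a]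
    nlinarith
  have hxr : (20 : ℝ) ≤ x := by exact_mod_cast hx20
  have hx0 : (0 : ℝ) < x := by linarith
  obtain ⟨M, hM⟩ : ∃ M : ℝ, M = mdl (HP A g) x := ⟨_, rfl⟩
  have hM0 : 0 ≤ M := by
    rw [hM]
    unfold mdl
    exact sum_nonneg fun p _ => by positivity
  have hπ := mdl_HP hn A g x
  rw [← hM] at hπ hmain
  rw [← hc] at hmain
  obtain ⟨y, hy⟩ : ∃ y : ℝ, y = (x : ℝ) ^ (1 / 4 : ℝ) := ⟨_, rfl⟩
  have hy1 : 1 ≤ y := by rw [hy]; exact Real.one_le_rpow (by linarith) (by norm_num)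
  have hy4 : y ^ 4 = x := by
    rw [hy, ← Real.rpow_natCast, ← Real.rpow_mul hx0.le]
    norm_num
  have hy8 : ((x : ℝ) ^ (1 / 8 : ℝ)) ^ 2 = y := by
    rw [hy, ← Real.rpow_natCast, ← Real.rpow_mul hx0.le]
    norm_num
  have hMc : M ≤ 2 * c + (1 + C0 ^ 2) * y * B := by
    unfold er at hmain
    rw [← hB] at hmain
    have h1 := (abs_le.1 hmain).1
    obtain ⟨w, hw⟩ : ∃ w : ℝ, w = C0 * (x : ℝ) ^ (1 / 8 : ℝ) := ⟨_, rfl⟩
    have hw2 : w ^ 2 = C0 ^ 2 * y := by rw [hw, mul_pow, hy8]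
    obtain ⟨s, hs⟩ : ∃ s : ℝ, s = √(B * (B + M)) := ⟨_, rfl⟩
    have hs2 : s ^ 2 = B * (B + M) := by rw [hs, Real.sq_sqrt (by positivity)]
    have hs0 : 0 ≤ s := by rw [hs]; exact Real.sqrt_nonneg _
    have hw0 : 0 ≤ w := by rw [hw]; positivity
    have h2 : M ≤ c + w * s := by
      have e : C0 * ((x : ℝ) ^ (1 / 8 : ℝ) * √(B * (B + M))) = w * s := by rw [hw, hs]; ring
      rw [e] at h1
      linarith
    -- w s ≤ (B + M)/2 + w² B / 2
    have h3 : w * s ≤ (B + M) / 2 + w ^ 2 * B / 2 := by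
      have h4 : (w * s) ^ 2 = (w ^ 2 * B) * (B + M) := by rw [mul_pow, hs2]; ring
      have h5 : 0 ≤ w ^ 2 * B := by positivity
      have h6 : 0 ≤ B + M := by linarith
      have h7 : (w * s) ^ 2 ≤ ((B + M) / 2 + w ^ 2 * B / 2) ^ 2 := by
        rw [h4]
        nlinarith [sq_nonneg (w ^ 2 * B - (B + M))]
      exact le_of_sq_le_sq h7 (by positivity)
    rw [hw2] at h3
    have h8 : B ≤ y * B := by nlinarith
    nlinarith
  have hxπ : (x : ℝ) ≤ 2 * B * (prs x).card := by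
    have h1 := prs_lower x hx20
    have hl0 : 0 < Real.log x := Real.log_pos (by linarith)
    have hl : Real.log x ≤ B := by
      have h2 : Real.log x ≤ Real.log R := by
        refine Real.log_le_log hx0 (hx.trans ?_)
        calc R ^ κ' ≤ R ^ (1 : ℝ) := Real.rpow_le_rpow_of_exponent_le hR (hκ'κ.trans hκ1)
          _ = R := Real.rpow_one R
      rw [hB]
      linarith
    rw [div_le_iff₀ (by positivity)] at h1
    have h3 : (0 : ℝ) ≤ (prs x).card := Nat.cast_nonneg _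
    nlinarith [mul_le_mul_of_nonneg_left hl h3]
  have hxall : y ^ 4 ≤ a * B * (c + 1) + a * B ^ 2 * y := by
    rw [hy4]
    have h1 : (x : ℝ) ≤ 2 * B * (2 * n * (2 * c + (1 + C0 ^ 2) * y * B + 1)) :=
      hxπ.trans (mul_le_mul_of_nonneg_left (hπ.trans (mul_le_mul_of_nonneg_left (by linarith) (by positivity))) (by positivity))
    refine h1.trans ?_
    have h2 : 2 * B * (2 * n * (2 * c + (1 + C0 ^ 2) * y * B + 1)) = (4 * n) * (B * (2 * c + 1)) + (4 * n) * (1 + C0 ^ 2) * (B ^ 2 * y) := by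
      ring
    rw [h2, ha]
    have h3 : (4 * (n : ℝ)) * (B * (2 * c + 1)) ≤ 4 * n * (3 + C0 ^ 2) * B * (c + 1) := by
      have h4 : 0 ≤ (4 * (n : ℝ)) * B := by positivity
      have h5 : 2 * c + 1 ≤ (3 + C0 ^ 2) * (c + 1) := by nlinarith [sq_nonneg C0]
      calc _ = (4 * (n : ℝ)) * B * (2 * c + 1) := by ring
        _ ≤ (4 * (n : ℝ)) * B * ((3 + C0 ^ 2) * (c + 1)) := mul_le_mul_of_nonneg_left h5 h4
        _ = _ := by ring
    have h6 : (4 * (n : ℝ)) * (1 + C0 ^ 2) * (B ^ 2 * y) ≤ 4 * n * (3 + C0 ^ 2) * B ^ 2 * y := by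
      have h7 : 0 ≤ (4 * (n : ℝ)) * (B ^ 2 * y) := by positivity
      nlinarith
    linarith
  have hfin : y ^ 4 ≤ (2 * a + 4 * a ^ 2) * (B ^ 4 * (c + 1)) := by
    have hB2 : 1 ≤ B ^ 2 := one_le_pow₀ hB1
    have hBB : B ≤ B ^ 4 := by
      calc B = B ^ 1 := (pow_one B).symm
        _ ≤ B ^ 4 := pow_le_pow_right₀ hB1 (by norm_num)
    have hy3 : y ≤ y ^ 3 := by
      calc y = y ^ 1 := (pow_one y).symm
        _ ≤ y ^ 3 := pow_le_pow_right₀ hy1 (by norm_num)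
    have hy0 : 0 < y := by linarith
    by_cases hcase : 2 * a * B ^ 2 ≤ y ^ 3
    · have h1 : 2 * (a * B ^ 2 * y) ≤ y ^ 4 := by
        calc 2 * (a * B ^ 2 * y) = (2 * a * B ^ 2) * y := by ring
          _ ≤ y ^ 3 * y := mul_le_mul_of_nonneg_right hcase hy0.le
          _ = y ^ 4 := by ring
      have h2 : y ^ 4 ≤ 2 * (a * B * (c + 1)) := by linarith
      refine h2.trans ?_
      have h3 : a * B * (c + 1) ≤ a * (B ^ 4 * (c + 1)) := by
        calc a * B * (c + 1) = a * (B * (c + 1)) := by ring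
          _ ≤ _ := mul_le_mul_of_nonneg_left (mul_le_mul_of_nonneg_right hBB (by linarith)) (by linarith)
      have h4 : 0 ≤ 4 * a ^ 2 * (B ^ 4 * (c + 1)) := by positivity
      linarith
    · push Not at hcase
      have h1 : y ^ 4 ≤ (2 * a * B ^ 2) * (2 * a * B ^ 2) := by
        calc y ^ 4 = y ^ 3 * y := by ring
          _ ≤ y ^ 3 * y ^ 3 := mul_le_mul_of_nonneg_left hy3 (by positivity)
          _ ≤ _ := mul_le_mul hcase.le hcase.le (by positivity) (by positivity)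
      calc y ^ 4 ≤ (2 * a * B ^ 2) * (2 * a * B ^ 2) := h1
        _ = 4 * a ^ 2 * B ^ 4 * 1 := by ring
        _ ≤ 4 * a ^ 2 * B ^ 4 * (c + 1) := mul_le_mul_of_nonneg_left (by linarith) (by positivity)
        _ = 4 * a ^ 2 * (B ^ 4 * (c + 1)) := by ring
        _ ≤ _ := mul_le_mul_of_nonneg_right (by linarith) (by positivity)
  rw [hy4] at hfin
  refine hfin.trans (mul_le_mul_of_nonneg_right (by linarith) (by positivity))

end Pool.Agent.U471.DQ
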