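import Pool.Agent.U471.DQ.Cls1
import Pool.Agent.R459.Tor5

set_option autoImplicit false

/-!
Torsion in class groups, for families of number fields.
-/

namespace Pool.Agent.U471.DQ

open Finset Polynomial NumberField
open Pool.Agent.R459.Tor (Hit hit mean_hit norm_of_root primes_dvd)
open Pool.Agent.Results.MP_695920_nt.LogSavingAllDegrees (smallNorms)

/-- the number of the ideal classes killed by `ℓ` -/
noncomputable def tor (K : Type) [Field K] [NumberField K] (ℓ : ℕ) : ℕ := Nat.card {x : ClassGroup (𝓞 K) // x ^ ℓ = 1}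

/-- the absolute value of the discriminant -/
noncomputable def dsc (K : Type) [Field K] [NumberField K] : ℝ := |(discr K : ℝ)|

lemma dsc_eq (K : Type) [Field K] [NumberField K] : dsc K = ((discr K).natAbs : ℝ) := by
  unfold dsc
  rw [Nat.cast_natAbs]
  push_cast
  rfl

lemma dsc_gt (K : Type) [Field K] [NumberField K] (h : 1 < Module.finrank ℚ K) : 2 < dsc K := by
  have := NumberField.abs_discr_gt_two (K := K) h
  unfold dsc
  exact_mod_cast this

/-- the field is generated by a root of a polynomial of the family -/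
def Gens {n r : ℕ} (A : Fin n → MvPolynomial (Fin r) ℤ) (g : Fin n → ℤ) (z : Fin (r + 1) → ℤ) (K : Type) [Field K] [NumberField K] :
    Prop :=
  Module.finrank ℚ K = n ∧ ∃ α : K, IntermediateField.adjoin ℚ {α} = ⊤ ∧
    aeval α (Mon (cof A g (Fin.tail z))) = ((z 0 : ℤ) : K)

/-- from the primes to the class group, for one field -/
lemma tor_of_cnt (n : ℕ) (hn : 2 ≤ n) : ∃ C : ℝ, 1 ≤ C ∧ ∀ (r : ℕ) (A : Fin n → MvPolynomial (Fin r) ℤ) (g : Fin n → ℤ)
    (z : Fin (r + 1) → ℤ) (K : Type) [Field K] [NumberField K], Gens A g z K → ∀ ℓ : ℕ, 1 ≤ ℓ → ∀ G T : ℝ, 1 ≤ G → 1 ≤ T →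
    (∀ x : ℕ, (x : ℝ) ≤ T → (x : ℝ) ≤ G * (cnt (HP A g) z x + 1)) →
    (tor K ℓ : ℝ) ≤ C * ℓ ^ n * G * (1 + Real.log (dsc K)) ^ (2 * n + 1) * (√(dsc K) * (dsc K ^ (-(1 / ((n * (n - 1) * ℓ : ℕ) : ℝ))) + T⁻¹)) := by
  classical
  obtain ⟨C0, hC0, hLS⟩ := Pool.Agent.Results.MP_695920_nt.LogSavingAllDegrees.result n hn
  refine ⟨C0 * 2 ^ n * 3600 + 1, by nlinarith [show (0 : ℝ) < C0 * 2 ^ n by positivity], ?_⟩
  intro r A g z K _ _ hK ℓ hℓ G T hG hT hcnt
  obtain ⟨hfin, α, hα1, hα2⟩ := hK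
  obtain ⟨_, _, h4⟩ := hLS ℓ hℓ K hfin
  have hD2 : 2 < dsc K := dsc_gt K (by rw [hfin]; omega)
  obtain ⟨D, hD⟩ : ∃ D : ℕ, D = (discr K).natAbs := ⟨_, rfl⟩
  have hDd : dsc K = (D : ℝ) := by rw [dsc_eq, hD]
  have hdd : |(discr K : ℝ)| = (D : ℝ) := by rw [← hDd]; rfl
  rw [hdd, ← hD] at h4
  rw [hDd] at hD2 ⊢
  have hD3 : 3 ≤ D := by
    have : 2 < D := by exact_mod_cast hD2
    omega
  have hDr : (3 : ℝ) ≤ D := by exact_mod_cast hD3
  have hl1 : 1 ≤ Real.log D := by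
    rw [Real.le_log_iff_exp_le (by linarith)]
    have := Real.exp_one_lt_d9
    linarith
  obtain ⟨S, hS⟩ : ∃ S : Set ℕ, S = {p ∈ smallNorms K n ℓ | ¬ p ∣ D} := ⟨_, rfl⟩
  rw [← hS] at h4
  have hSfin : S.Finite := by
    apply Set.Finite.subset (Finset.finite_toSet (range D))
    intro p hp
    rw [hS] at hp
    have h5 := hp.1.2.1
    have h6 := Pool.Agent.TH847.LG.le_Phi hn hℓ p
    rw [← hD] at h5
    rw [mem_coe, mem_range]
    exact lt_of_le_of_lt h6 h5
  have hSD : S.ncard ≤ D := by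
    have : S ⊆ (range D : Set ℕ) := by
      intro p hp
      rw [hS] at hp
      have h5 := hp.1.2.1
      have h6 := Pool.Agent.TH847.LG.le_Phi hn hℓ p
      rw [← hD] at h5
      rw [mem_coe, mem_range]
      exact lt_of_le_of_lt h6 h5
    have h7 := Set.ncard_le_ncard this (Finset.finite_toSet _)
    rwa [Set.ncard_coe_finset, card_range] at h7
  obtain ⟨k, hk⟩ : ∃ k : ℕ, k = S.ncard := ⟨_, rfl⟩
  rw [← hk] at h4 hSD
  obtain ⟨L, hL⟩ : ∃ L : ℝ, L = 1 + Real.log D := ⟨_, rfl⟩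
  have hL1 : 2 ≤ L := by rw [hL]; linarith
  have hkr : (k : ℝ) ≤ D := by exact_mod_cast hSD
  have hk0 : (0 : ℝ) ≤ k := Nat.cast_nonneg k
  have hsD : 0 < √(D : ℝ) := Real.sqrt_pos.2 (by linarith)
  have hℓr : (1 : ℝ) ≤ ℓ := by exact_mod_cast hℓ
  -- the bound with k
  have hb1 : Real.log (Real.log D + 2) ≤ L := by
    have := Real.log_le_sub_one_of_pos (x := Real.log D + 2) (by linarith)
    rw [hL]
    linarith
  have hb10 : 0 ≤ Real.log (Real.log D + 2) := Real.log_nonneg (by linarith)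
  have hb2 : Real.log ((k : ℝ) + 2) ≤ 2 * L := by
    have h5 : Real.log ((k : ℝ) + 2) ≤ Real.log ((D : ℝ) ^ 2) := Real.log_le_log (by linarith) (by nlinarith)
    rw [Real.log_pow] at h5
    push_cast at h5
    rw [hL]
    linarith
  have hb20 : 0 ≤ Real.log ((k : ℝ) + 2) := Real.log_nonneg (by linarith)
  have htor : (tor K ℓ : ℝ) ≤ C0 * 2 ^ n * ℓ ^ n * L ^ (2 * n) * (√(D : ℝ) / (k + 1)) := by
    refine h4.trans ?_
    have e1 : √(D : ℝ) / Real.log D ≤ √(D : ℝ) := div_le_self hsD.le hl1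
    calc C0 * ℓ ^ n * (Real.log (Real.log D + 2)) ^ n * ((Real.log (k + 2)) ^ n / (k + 1)) * (√(D : ℝ) / Real.log D)
        ≤ C0 * ℓ ^ n * L ^ n * ((2 * L) ^ n / (k + 1)) * √(D : ℝ) := by
          gcongr
      _ = C0 * 2 ^ n * ℓ ^ n * L ^ (2 * n) * (√(D : ℝ) / (k + 1)) := by
          rw [mul_pow, two_mul n, pow_add]
          ring
  -- the exponent
  obtain ⟨m, hm⟩ : ∃ m : ℕ, m = n * (n - 1) * ℓ := ⟨_, rfl⟩
  have hm1 : 1 ≤ m := by
    rw [hm]
    have h5 : 1 ≤ n * (n - 1) := Nat.mul_pos (by omega) (by omega)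
    exact Nat.mul_pos h5 hℓ
  have hmr : (1 : ℝ) ≤ m := by exact_mod_cast hm1
  obtain ⟨E1, hE1⟩ : ∃ E1 : ℝ, E1 = (D : ℝ) ^ (1 / (m : ℝ)) := ⟨_, rfl⟩
  have hE11 : 1 ≤ E1 := by rw [hE1]; exact Real.one_le_rpow (by linarith) (by positivity)
  have hE1m : E1 ^ m = D := by
    rw [hE1, ← Real.rpow_natCast, ← Real.rpow_mul (by linarith)]
    have : 1 / (m : ℝ) * m = 1 := by field_simp
    rw [this, Real.rpow_one]
  have hE1i : (D : ℝ) ^ (-(1 / (m : ℝ))) = E1⁻¹ := by rw [hE1, Real.rpow_neg (by linarith)]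
  rw [← hm, hE1i, ← hL]
  obtain ⟨X, hX⟩ : ∃ X : ℝ, X = min (E1 / 300) T := ⟨_, rfl⟩
  have hXpos : 0 < X := by rw [hX]; positivity
  have hXinv : X⁻¹ ≤ 300 * (E1⁻¹ + T⁻¹) := by
    have hE0 : 0 < E1⁻¹ := by positivity
    have hT0 : 0 < T⁻¹ := by positivity
    rw [hX]
    rcases le_total (E1 / 300) T with h | h
    · rw [min_eq_left h, inv_div]
      have : 300 / E1 = 300 * E1⁻¹ := by rw [div_eq_mul_inv]
      rw [this]
      linarith
    · rw [min_eq_right h]
      linarith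
  -- it suffices to bound 1 / (k + 1) by 4 G L / X
  have hkey : 1 / ((k : ℝ) + 1) ≤ 12 * G * L * X⁻¹ := by
    by_cases hX2 : X ≤ 2
    · have h5 : 1 / ((k : ℝ) + 1) ≤ 1 := by
        rw [div_le_one (by linarith)]
        linarith
      have h6 : 1 ≤ 2 * X⁻¹ := by
        rw [← div_eq_mul_inv, le_div_iff₀ hXpos]
        linarith
      have h7 : 2 ≤ G * L := by nlinarith
      have h8 : 0 < X⁻¹ := by positivity
      calc 1 / ((k : ℝ) + 1) ≤ 2 * X⁻¹ := h5.trans h6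
        _ ≤ (12 * (G * L)) * X⁻¹ := mul_le_mul_of_nonneg_right (by linarith) h8.le
        _ = _ := by ring
    · push Not at hX2
      obtain ⟨x, hx⟩ : ∃ x : ℕ, x = ⌊X / 2⌋₊ := ⟨_, rfl⟩
      have hxle : (x : ℝ) ≤ X / 2 := by rw [hx]; exact Nat.floor_le (by positivity)
      have hxge : X / 4 ≤ x := by
        have h5 : X / 2 < x + 1 := by rw [hx]; exact Nat.lt_floor_add_one _
        have h6 : 1 ≤ x := by
          rw [hx]
          exact Nat.le_floor (by push_cast; linarith)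
        have h7 : (1 : ℝ) ≤ x := by exact_mod_cast h6
        linarith
      have hxT : (x : ℝ) ≤ T := by
        have : X ≤ T := by rw [hX]; exact min_le_right _ _
        linarith
      have hxE : 300 * (x : ℝ) < E1 := by
        have : X ≤ E1 / 300 := by rw [hX]; exact min_le_left _ _
        linarith
      have hxD : (2 * (150 * x) ^ ℓ) ^ (n * (n - 1)) < D := by
        have h5 : (300 * (x : ℝ)) ^ m < D := by
          rw [← hE1m]
          exact pow_lt_pow_left₀ hxE (by positivity) (by omega)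
        have h6 : (300 * x) ^ m < D := by exact_mod_cast h5
        refine lt_of_le_of_lt ?_ h6
        have e300 : (300 * x) ^ m = ((300 * x) ^ ℓ) ^ (n * (n - 1)) := by rw [hm, mul_comm (n * (n - 1)) ℓ, pow_mul]
        rw [e300]
        refine Nat.pow_le_pow_left ?_ _
        calc 2 * (150 * x) ^ ℓ ≤ 2 ^ ℓ * (150 * x) ^ ℓ := Nat.mul_le_mul_right _ (by
              calc 2 = 2 ^ 1 := (pow_one 2).symm
                _ ≤ 2 ^ ℓ := Nat.pow_le_pow_right (by norm_num) hℓ)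
          _ = (300 * x) ^ ℓ := by rw [← mul_pow]; ring
      -- the primes
      have hcard : cnt (HP A g) z x ≤ k + ((prs x).filter (fun p => p ∣ D)).card := by
        have h5 : ((prs x).filter (fun p => HP A g p z)) ⊆
            ((prs x).filter (fun p => HP A g p z ∧ ¬ p ∣ D)) ∪ (prs x).filter (fun p => p ∣ D) := by
          intro p hp
          rw [mem_filter] at hp
          rw [mem_union, mem_filter, mem_filter]
          tauto
        have h6 : ((prs x).filter (fun p => HP A g p z ∧ ¬ p ∣ D)).card ≤ k := by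
          rw [hk, ← Set.ncard_coe_finset]
          apply Set.ncard_le_ncard _ hSfin
          intro p hp
          rw [mem_coe, mem_filter] at hp
          obtain ⟨hp1, ⟨a, ha, ha'⟩, hp3⟩ := hp
          unfold prs at hp1
          rw [mem_filter, mem_range] at hp1
          rw [hS]
          refine ⟨⟨hp1.2, ?_, ?_⟩, hp3⟩
          · rw [← hD]
            refine lt_of_le_of_lt ?_ hxD
            refine Nat.pow_le_pow_left ?_ _
            apply Nat.mul_le_mul_left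
            refine Nat.pow_le_pow_left ?_ _
            apply Nat.mul_le_mul_left
            omega
          · haveI : Fact p.Prime := ⟨hp1.2⟩
            rw [one_mul] at ha
            exact norm_of_root K (Mon (cof A g (Fin.tail z))) (Mon_monic _) (by rw [Mon_natDegree]; omega) α (z 0) hα1
              (by rw [Mon_natDegree]; exact hfin) hα2 p a ha ha'
        unfold cnt
        refine (card_le_card h5).trans ((card_union_le _ _).trans ?_)
        omega
      have hdiv : (((prs x).filter (fun p => p ∣ D)).card : ℝ) ≤ 2 * Real.log D := by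
        have h5 := primes_dvd D (by omega) ((prs x).filter (fun p => p ∣ D)) (by
          intro p hp
          unfold prs at hp
          rw [mem_filter, mem_filter] at hp
          exact ⟨hp.1.2, hp.2⟩)
        obtain ⟨j, hj⟩ : ∃ j : ℕ, j = ((prs x).filter (fun p => p ∣ D)).card := ⟨_, rfl⟩
        rw [← hj] at h5 ⊢
        have h6 : (2 : ℝ) ^ j ≤ D := by exact_mod_cast h5
        have h7 := Real.log_le_log (by positivity) h6
        rw [Real.log_pow] at h7
        have h8 := Real.log_two_gt_d9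
        have h9 : (0 : ℝ) ≤ j := Nat.cast_nonneg j
        nlinarith
      have h5 := hcnt x hxT
      have h6 : (cnt (HP A g) z x : ℝ) ≤ k + ((prs x).filter (fun p => p ∣ D)).card := by exact_mod_cast hcard
      have h7 : (x : ℝ) ≤ G * (3 * L * (k + 1)) := by
        refine h5.trans (mul_le_mul_of_nonneg_left ?_ (by linarith))
        have h8 : (cnt (HP A g) z x : ℝ) + 1 ≤ k + 2 * Real.log D + 1 := by linarith
        refine h8.trans ?_
        rw [hL]
        nlinarith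
      rw [div_le_iff₀ (by linarith)]
      have h9 : X / 4 ≤ G * (3 * L * (k + 1)) := hxge.trans h7
      have h10 : 12 * G * L * X⁻¹ * ((k : ℝ) + 1) = 4 * (G * (3 * L * (k + 1))) * X⁻¹ := by ring
      rw [h10]
      calc (1 : ℝ) = 4 * (X / 4) * X⁻¹ := by field_simp
        _ ≤ _ := mul_le_mul_of_nonneg_right (by linarith) (by positivity)
  have hpos : 0 < C0 * 2 ^ n * ℓ ^ n * L ^ (2 * n) * √(D : ℝ) := by positivity
  refine htor.trans ?_
  have h11 : C0 * 2 ^ n * ℓ ^ n * L ^ (2 * n) * (√(D : ℝ) / (k + 1)) =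
    C0 * 2 ^ n * ℓ ^ n * L ^ (2 * n) * √(D : ℝ) * (1 / ((k : ℝ) + 1)) := by ring
  rw [h11]
  have h12 : 1 / ((k : ℝ) + 1) ≤ 12 * G * L * (300 * (E1⁻¹ + T⁻¹)) :=
    hkey.trans (mul_le_mul_of_nonneg_left hXinv (by positivity))
  refine (mul_le_mul_of_nonneg_left h12 hpos.le).trans ?_
  have h13 : C0 * 2 ^ n * ℓ ^ n * L ^ (2 * n) * √(D : ℝ) * (12 * G * L * (300 * (E1⁻¹ + T⁻¹))) =
    (C0 * 2 ^ n * 3600) * (ℓ ^ n * G * L ^ (2 * n + 1) * (√(D : ℝ) * (E1⁻¹ + T⁻¹))) := by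
    rw [pow_succ L (2 * n)]
    ring
  rw [h13]
  have h14 : 0 ≤ (ℓ : ℝ) ^ n * G * L ^ (2 * n + 1) * (√(D : ℝ) * (E1⁻¹ + T⁻¹)) := by positivity
  calc _ ≤ (C0 * 2 ^ n * 3600 + 1) * ((ℓ : ℝ) ^ n * G * L ^ (2 * n + 1) * (√(D : ℝ) * (E1⁻¹ + T⁻¹))) :=
        mul_le_mul_of_nonneg_right (by linarith) h14
    _ = _ := by ring

/-- **torsion in class groups**, almost all members of the families, all fields -/
theorem near_tor (r d n : ℕ) (hd : 1 ≤ d) (hn : 2 ≤ n) : ∃ κ C : ℝ, 0 < κ ∧ κ ≤ 1 ∧ 1 ≤ C ∧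
    ∀ (N : ℕ) (R : ℝ) (f : Fin (r + 1) → ℝ[X]), 1 ≤ N → 1 ≤ R → (∀ i, (f i).natDegree ≤ d) → Gen d N R f →
    ∀ A : Fin n → MvPolynomial (Fin r) ℤ,
    ∃ E : Finset ℕ, E ⊆ range N ∧ (E.card : ℝ) ≤ C * (N * R ^ (-κ)) ∧ ∀ m ∈ range N, m ∉ E →
      ∀ z : Fin (r + 1) → ℤ, Cl (R ^ κ) (fun i => (f i).eval (m : ℝ)) z →
        ∀ g : Fin n → ℤ, (∀ i, (|g i| : ℝ) ≤ R ^ κ) →
        ∀ (K : Type) [Field K] [NumberField K], Gens A g z K → ∀ ℓ : ℕ, 1 ≤ ℓ →
          (tor K ℓ : ℝ) ≤ C * ℓ ^ n * (1 + Real.log R) ^ 4 * (1 + Real.log (dsc K)) ^ (2 * n + 1) *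
            (√(dsc K) * (dsc K ^ (-(1 / ((n * (n - 1) * ℓ : ℕ) : ℝ))) + R ^ (-κ))) := by
  obtain ⟨κ, C1, hκ0, hκ1, hC1, H⟩ := near_roots r d n hd (by omega)
  obtain ⟨C2, hC2, H2⟩ := tor_of_cnt n hn
  refine ⟨κ, C1 * C2, hκ0, hκ1, by nlinarith, ?_⟩
  intro N R f hN hR hf hgen A
  have hR0 : 0 < R := by linarith
  obtain ⟨E, hE1, hE2, hE3⟩ := H N R f hN hR hf hgen A
  have hlR : 0 ≤ Real.log R := Real.log_nonneg hR
  refine ⟨E, hE1, ?_, ?_⟩
  · refine hE2.trans (mul_le_mul_of_nonneg_right ?_ (by positivity))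
    nlinarith
  intro m hm hmE z hz g hg K _ _ hK ℓ hℓ
  have hB : 1 ≤ (1 + Real.log R) ^ 4 := one_le_pow₀ (by linarith)
  have h := H2 r A g z K hK ℓ hℓ (C1 * (1 + Real.log R) ^ 4) (R ^ κ) (by nlinarith) (Real.one_le_rpow hR hκ0.le) (by
    intro x hx
    have := hE3 m hm hmE z hz g hg x hx
    linarith [this, mul_assoc C1 ((1 + Real.log R) ^ 4) ((cnt (HP A g) z x : ℝ) + 1)])
  rw [← Real.rpow_neg hR0.le] at h
  refine h.trans (le_of_eq ?_)
  ring

end Pool.Agent.U471.DQ
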