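import Pool.Agent.U471.DQ.Cls2

set_option autoImplicit false

/-!
Mean values of the torsion in class groups, for families of number fields.
-/

namespace Pool.Agent.U471.DQ

open Finset Polynomial NumberField

lemma sqrt_div_mono (M : ℕ) (hM : 2 ≤ M) (D Y : ℝ) (hD : 0 < D) (hDY : D ≤ Y) :
    √D * D ^ (-(1 / (M : ℝ))) ≤ √Y * Y ^ (-(1 / (M : ℝ))) := by
  have hY : 0 < Y := by linarith
  have hMr : (2 : ℝ) ≤ M := by exact_mod_cast hM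
  rw [Real.sqrt_eq_rpow, Real.sqrt_eq_rpow, ← Real.rpow_add hD, ← Real.rpow_add hY]
  apply Real.rpow_le_rpow hD.le hDY
  have : 1 / (M : ℝ) ≤ 1 / 2 := one_div_le_one_div_of_le (by norm_num) hMr
  linarith

/-- the trivial bound -/
lemma tor_triv (n : ℕ) (hn : 2 ≤ n) : ∃ C : ℝ, 1 ≤ C ∧ ∀ (r : ℕ) (A : Fin n → MvPolynomial (Fin r) ℤ) (g : Fin n → ℤ)
    (z : Fin (r + 1) → ℤ) (K : Type) [Field K] [NumberField K], Gens A g z K → ∀ ℓ : ℕ, 1 ≤ ℓ →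
    (tor K ℓ : ℝ) ≤ C * ℓ ^ n * (1 + Real.log (dsc K)) ^ (2 * n + 1) * √(dsc K) := by
  obtain ⟨C, hC, H⟩ := tor_of_cnt n hn
  refine ⟨2 * C, by linarith, ?_⟩
  intro r A g z K _ _ hK ℓ hℓ
  have h := H r A g z K hK ℓ hℓ 1 1 le_rfl le_rfl (by
    intro x hx
    have : (0 : ℝ) ≤ cnt (HP A g) z x := Nat.cast_nonneg _
    linarith)
  have hD2 : 2 < dsc K := dsc_gt K (by rw [hK.1]; omega)
  have h1 : dsc K ^ (-(1 / ((n * (n - 1) * ℓ : ℕ) : ℝ))) ≤ 1 := by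
    apply Real.rpow_le_one_of_one_le_of_nonpos (by linarith)
    have : (0 : ℝ) ≤ 1 / ((n * (n - 1) * ℓ : ℕ) : ℝ) := by positivity
    linarith
  have hl : 0 ≤ Real.log (dsc K) := Real.log_nonneg (by linarith)
  refine h.trans ?_
  rw [inv_one, mul_one]
  calc C * ℓ ^ n * (1 + Real.log (dsc K)) ^ (2 * n + 1) * (√(dsc K) * (dsc K ^ (-(1 / ((n * (n - 1) * ℓ : ℕ) : ℝ))) + 1))
      ≤ C * ℓ ^ n * (1 + Real.log (dsc K)) ^ (2 * n + 1) * (√(dsc K) * (1 + 1)) := by gcongr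
    _ = _ := by ring

/-- **mean values of powers of the torsion** -/
theorem near_moment (r d n s : ℕ) (hd : 1 ≤ d) (hn : 2 ≤ n) (hs : 1 ≤ s) : ∃ κ C : ℝ, 0 < κ ∧ κ ≤ 1 ∧ 1 ≤ C ∧
    ∀ (N : ℕ) (R : ℝ) (f : Fin (r + 1) → ℝ[X]), 1 ≤ N → 1 ≤ R → (∀ i, (f i).natDegree ≤ d) → Gen d N R f →
    ∀ A : Fin n → MvPolynomial (Fin r) ℤ, ∀ ℓ : ℕ, 1 ≤ ℓ → ∀ Y : ℝ, 1 ≤ Y → ∀ S : Finset ℕ, S ⊆ range N →
    ∀ (z : ℕ → Fin (r + 1) → ℤ) (g : ℕ → Fin n → ℤ) (K : ℕ → Type) [∀ m, Field (K m)] [∀ m, NumberField (K m)],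
    (∀ m ∈ S, Cl (R ^ κ) (fun i => (f i).eval (m : ℝ)) (z m) ∧ (∀ i, (|g m i| : ℝ) ≤ R ^ κ) ∧ Gens A (g m) (z m) (K m) ∧
      dsc (K m) ≤ Y) →
    ∑ m ∈ S, (tor (K m) ℓ : ℝ) ^ s ≤ N * (C * ℓ ^ n * (1 + Real.log R) ^ 4 * (1 + Real.log Y) ^ (2 * n + 1) *
      (√Y * (Y ^ (-(1 / ((n * (n - 1) * ℓ : ℕ) : ℝ))) + R ^ (-κ)))) ^ s := by
  classical
  obtain ⟨κ₀, C1, hκ₀, hκ₀1, hC1, H⟩ := near_tor r d n hd hn
  obtain ⟨C2, hC2, H2⟩ := tor_triv n hn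
  have hsr : (1 : ℝ) ≤ s := by exact_mod_cast hs
  obtain ⟨κ, hκ⟩ : ∃ κ : ℝ, κ = κ₀ / s := ⟨_, rfl⟩
  have hκ0 : 0 < κ := by rw [hκ]; positivity
  have hκκ : κ ≤ κ₀ := by rw [hκ]; exact div_le_self hκ₀.le hsr
  obtain ⟨C3, hC3⟩ : ∃ C3 : ℝ, C3 = max C1 C2 := ⟨_, rfl⟩
  have hC31 : C1 ≤ C3 := by rw [hC3]; exact le_max_left _ _
  have hC32 : C2 ≤ C3 := by rw [hC3]; exact le_max_right _ _
  have hC30 : 0 < C3 := by linarith
  refine ⟨κ, (1 + C1) * C3, hκ0, hκκ.trans hκ₀1, by nlinarith, ?_⟩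
  intro N R f hN hR hf hgen A ℓ hℓ Y hY S hS z g K _ _ hK
  have hR0 : 0 < R := by linarith
  have hRpow : R ^ κ ≤ R ^ κ₀ := Real.rpow_le_rpow_of_exponent_le hR hκκ
  obtain ⟨E, hE1, hE2, hE3⟩ := H N R f hN hR hf hgen A
  have hlR : 0 ≤ Real.log R := Real.log_nonneg hR
  have hlY : 0 ≤ Real.log Y := Real.log_nonneg hY
  have hB : 1 ≤ (1 + Real.log R) ^ 4 := one_le_pow₀ (by linarith)
  have hM2 : 2 ≤ n * (n - 1) * ℓ := by
    have h1 : 2 ≤ n * (n - 1) := by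
      calc 2 = 2 * 1 := by norm_num
        _ ≤ n * (n - 1) := Nat.mul_le_mul hn (by omega)
    calc 2 = 2 * 1 := by norm_num
      _ ≤ _ := Nat.mul_le_mul h1 hℓ
  have hneg : R ^ (-κ₀) ≤ R ^ (-κ) := Real.rpow_le_rpow_of_exponent_le hR (by linarith)
  obtain ⟨W, hW⟩ : ∃ W : ℝ, W = C3 * ℓ ^ n * (1 + Real.log R) ^ 4 * (1 + Real.log Y) ^ (2 * n + 1) *
      (√Y * (Y ^ (-(1 / ((n * (n - 1) * ℓ : ℕ) : ℝ))) + R ^ (-κ))) := ⟨_, rfl⟩
  have hW0 : 0 ≤ W := by rw [hW]; positivity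
  obtain ⟨V, hV⟩ : ∃ V : ℝ, V = C3 * ℓ ^ n * (1 + Real.log Y) ^ (2 * n + 1) * √Y := ⟨_, rfl⟩
  have hV0 : 0 ≤ V := by rw [hV]; positivity
  have hVW : R ^ (-κ) * V ≤ W := by
    rw [hV, hW]
    have h1 : (0 : ℝ) ≤ Y ^ (-(1 / ((n * (n - 1) * ℓ : ℕ) : ℝ))) := by positivity
    have h2 : 0 ≤ C3 * ℓ ^ n * (1 + Real.log Y) ^ (2 * n + 1) * √Y := by positivity
    have h3 : 0 ≤ R ^ (-κ) := by positivity
    calc R ^ (-κ) * (C3 * ℓ ^ n * (1 + Real.log Y) ^ (2 * n + 1) * √Y)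
        = 1 * ((C3 * ℓ ^ n * (1 + Real.log Y) ^ (2 * n + 1) * √Y) * R ^ (-κ)) := by ring
      _ ≤ (1 + Real.log R) ^ 4 * ((C3 * ℓ ^ n * (1 + Real.log Y) ^ (2 * n + 1) * √Y) *
          (Y ^ (-(1 / ((n * (n - 1) * ℓ : ℕ) : ℝ))) + R ^ (-κ))) :=
          mul_le_mul hB (mul_le_mul_of_nonneg_left (by linarith) h2) (by positivity) (by positivity)
      _ = _ := by ring
  -- all members
  have hall : ∀ m ∈ S, (tor (K m) ℓ : ℝ) ≤ V := by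
    intro m hm
    obtain ⟨_, _, h3, h4⟩ := hK m hm
    have hD2 : 2 < dsc (K m) := dsc_gt (K m) (by rw [h3.1]; omega)
    have hl : 0 ≤ Real.log (dsc (K m)) := Real.log_nonneg (by linarith)
    refine (H2 r A (g m) (z m) (K m) h3 ℓ hℓ).trans ?_
    rw [hV]
    gcongr
  have hgood : ∀ m ∈ S, m ∉ E → (tor (K m) ℓ : ℝ) ≤ W := by
    intro m hm hmE
    obtain ⟨h1, h2, h3, h4⟩ := hK m hm
    have hD2 : 2 < dsc (K m) := dsc_gt (K m) (by rw [h3.1]; omega)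
    have hl : 0 ≤ Real.log (dsc (K m)) := Real.log_nonneg (by linarith)
    refine (hE3 m (hS hm) hmE (z m) (fun i => (h1 i).trans hRpow) (g m) (fun i => (h2 i).trans hRpow) (K m) h3 ℓ hℓ).trans ?_
    have h5 : √(dsc (K m)) * (dsc (K m) ^ (-(1 / ((n * (n - 1) * ℓ : ℕ) : ℝ))) + R ^ (-κ₀)) ≤
        √Y * (Y ^ (-(1 / ((n * (n - 1) * ℓ : ℕ) : ℝ))) + R ^ (-κ)) := by
      rw [mul_add, mul_add]
      apply add_le_add (sqrt_div_mono _ hM2 _ _ (by linarith) h4)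
      exact mul_le_mul (Real.sqrt_le_sqrt h4) hneg (by positivity) (by positivity)
    rw [hW]
    gcongr
  have hsum : ∑ m ∈ S, (tor (K m) ℓ : ℝ) ^ s ≤ N * W ^ s + E.card * V ^ s := by
    have h1 : ∀ m ∈ S, (tor (K m) ℓ : ℝ) ^ s ≤ W ^ s + (if m ∈ E then V ^ s else 0) := by
      intro m hm
      by_cases hmE : m ∈ E
      · rw [if_pos hmE]
        have := pow_le_pow_left₀ (Nat.cast_nonneg _) (hall m hm) s
        have : 0 ≤ W ^ s := by positivity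
        linarith
      · rw [if_neg hmE, add_zero]
        exact pow_le_pow_left₀ (Nat.cast_nonneg _) (hgood m hm hmE) s
    refine (sum_le_sum h1).trans ?_
    rw [sum_add_distrib]
    have hcard : (S.card : ℝ) ≤ N := by
      have := card_le_card hS
      rw [card_range] at this
      exact_mod_cast this
    apply add_le_add
    · rw [sum_const, nsmul_eq_mul]
      exact mul_le_mul_of_nonneg_right hcard (by positivity)
    · rw [← sum_filter, sum_const, nsmul_eq_mul]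
      apply mul_le_mul_of_nonneg_right _ (by positivity)
      have : (S.filter (fun m => m ∈ E)).card ≤ E.card := card_le_card (by
        intro m hm
        exact (mem_filter.1 hm).2)
      exact_mod_cast this
  refine hsum.trans ?_
  have hRs : R ^ (-κ₀) = (R ^ (-κ)) ^ s := by
    rw [← Real.rpow_natCast, ← Real.rpow_mul hR0.le, hκ]
    congr 1
    field_simp
  have h2 : (E.card : ℝ) * V ^ s ≤ C1 * (N * W ^ s) := by
    calc (E.card : ℝ) * V ^ s ≤ C1 * (N * R ^ (-κ₀)) * V ^ s := mul_le_mul_of_nonneg_right hE2 (by positivity)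
      _ = C1 * (N * (R ^ (-κ) * V) ^ s) := by rw [hRs, mul_pow]; ring
      _ ≤ C1 * (N * W ^ s) := by
          apply mul_le_mul_of_nonneg_left _ (by linarith)
          apply mul_le_mul_of_nonneg_left _ (Nat.cast_nonneg _)
          exact pow_le_pow_left₀ (by positivity) hVW s
  have h3 : N * W ^ s + C1 * (N * W ^ s) = (1 + C1) * (N * W ^ s) := by ring
  have h4 : (1 + C1) ≤ (1 + C1) ^ s := by
    calc 1 + C1 = (1 + C1) ^ 1 := (pow_one _).symm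
      _ ≤ (1 + C1) ^ s := pow_le_pow_right₀ (by linarith) hs
  calc N * W ^ s + E.card * V ^ s ≤ (1 + C1) * (N * W ^ s) := by linarith
    _ ≤ (1 + C1) ^ s * (N * W ^ s) := mul_le_mul_of_nonneg_right h4 (by positivity)
    _ = N * ((1 + C1) * W) ^ s := by rw [mul_pow]; ring
    _ = _ := by rw [hW]; congr 2; ring

end Pool.Agent.U471.DQ
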