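import Pool.Agent.U471.DQ.Fam
import Pool.Agent.U471.DQ.Boxes

set_option autoImplicit false

/-!
Sums over primes of arbitrary real functions of residues.
-/

namespace Pool.Agent.U471.DQ

open Finset Polynomial

lemma mn_scale {r : ℕ} {p : ℕ} (hp : 0 < p) (g : (Fin r → ℤ) → ℝ) (b : ℝ) :
    mn p (fun u => (1 + g u / b) / 2) = (1 + mn p g / b) / 2 := by
  have hp0 : (p : ℝ) ^ r ≠ 0 := by positivity
  unfold mn rs
  rw [← sum_div, sum_add_distrib, ← sum_div, sum_const, card_bx, nsmul_eq_mul, mul_one]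
  push_cast
  field_simp

/-- **sums of arbitrary functions of residues over primes** -/
theorem near_sum_fin (r d : ℕ) (hd : 1 ≤ d) (G : ℝ) (hG : 1 ≤ G) (δ : ℝ) (hδ : 0 < δ) : ∃ κ C : ℝ, 0 < κ ∧ κ ≤ 1 ∧ 1 ≤ C ∧
    ∀ (N : ℕ) (R : ℝ) (f : Fin r → ℝ[X]), 1 ≤ N → 1 ≤ R → (∀ i, (f i).natDegree ≤ d) → Gen d N R f →
    ∀ (ι : Type) (S : Finset ι), (S.card : ℝ) ≤ G * R ^ κ →
    ∀ (g : ι → ℕ → (Fin r → ℤ) → ℝ) (B : ι → ℕ → ℝ), (∀ t p, p.Prime → Per (g t p) p) → (∀ t X, 0 ≤ B t X) →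
    (∀ t X p u, p.Prime → p ≤ X → |g t p u| ≤ B t X) →
    ∃ E : Finset ℕ, E ⊆ range N ∧ (E.card : ℝ) ≤ C * (N * R ^ (-κ)) ∧ ∀ n ∈ range N, n ∉ E →
      ∀ z : Fin r → ℤ, Cl (R ^ κ) (fun i => (f i).eval (n : ℝ)) z → ∀ t ∈ S, ∀ x : ℕ, (x : ℝ) ≤ R ^ κ →
        |∑ p ∈ prs x, g t p z - ∑ p ∈ prs x, mn p (g t p)| ≤ C * (B t x * ((x : ℝ) ^ (1 / 2 + δ) * √(1 + Real.log R))) := by
  classical
  obtain ⟨κ1, C1, hκ10, hκ11, hC1, H⟩ := near_primes_fin r d hd (2 * G) (by linarith) δ hδ
  obtain ⟨κ, hκ⟩ : ∃ κ : ℝ, κ = κ1 / 2 := ⟨_, rfl⟩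
  have hκ0 : 0 < κ := by rw [hκ]; positivity
  have hκκ : κ + κ = κ1 := by rw [hκ]; ring
  refine ⟨κ, 4 * C1, hκ0, by linarith, by linarith, ?_⟩
  intro N R f hN hR hf hgen ι S hS g B hper hB0 hB
  have hR0 : 0 < R := by linarith
  have hNr : (0 : ℝ) ≤ N := Nat.cast_nonneg _
  have hRκ : 1 ≤ R ^ κ := Real.one_le_rpow hR hκ0.le
  obtain ⟨T, hT⟩ : ∃ T : ℕ, T = ⌊R ^ κ⌋₊ := ⟨_, rfl⟩
  have hTr : (T : ℝ) ≤ R ^ κ := by rw [hT]; exact Nat.floor_le (by positivity)
  obtain ⟨S', hS'⟩ : ∃ S' : Finset (ι × ℕ), S' = S ×ˢ range (T + 1) := ⟨_, rfl⟩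
  have hSc : (S'.card : ℝ) ≤ 2 * G * R ^ κ1 := by
    rw [hS', card_product, card_range]
    push_cast
    calc (S.card : ℝ) * (T + 1) ≤ (G * R ^ κ) * (2 * R ^ κ) := mul_le_mul hS (by linarith) (by positivity) (by positivity)
      _ = 2 * G * (R ^ κ * R ^ κ) := by ring
      _ = _ := by rw [← Real.rpow_add hR0, hκκ]
  obtain ⟨F, hF⟩ : ∃ F : ι × ℕ → ℕ → (Fin r → ℤ) → ℝ, F = fun q p u =>
      if p.Prime ∧ p ≤ q.2 ∧ 0 < B q.1 q.2 then (1 + g q.1 p u / B q.1 q.2) / 2 else 0 := ⟨_, rfl⟩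
  obtain ⟨E, hE1, hE2, hE3⟩ := H N R f hN hR hf hgen (ι × ℕ) S' hSc F (by
      intro q p hp u u' hu
      rw [hF]
      simp only
      rw [hper q.1 p hp u u' hu]) (by
      intro q p u
      rw [hF]
      simp only
      split_ifs with hc
      · obtain ⟨h1, h2, h3⟩ := hc
        have h4 := hB q.1 q.2 p u h1 h2
        have h5 : |g q.1 p u / B q.1 q.2| ≤ 1 := by
          rw [abs_div, abs_of_pos h3, div_le_one h3]
          exact h4
        have h6 := abs_le.1 h5
        constructor <;> linarith [h6.1, h6.2]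
      · norm_num)
  have hpow : R ^ κ ≤ R ^ κ1 := Real.rpow_le_rpow_of_exponent_le hR (by linarith)
  refine ⟨E, hE1, ?_, ?_⟩
  · refine hE2.trans ?_
    calc C1 * (N * R ^ (-κ1)) ≤ C1 * (N * R ^ (-κ)) := by
          apply mul_le_mul_of_nonneg_left _ (by linarith)
          apply mul_le_mul_of_nonneg_left _ hNr
          apply Real.rpow_le_rpow_of_exponent_le hR
          linarith
      _ ≤ _ := by
          apply mul_le_mul_of_nonneg_right _ (by positivity)
          linarith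
  · intro n hn hnE z hz t ht x hx
    have hprs : ∀ p ∈ prs x, p.Prime ∧ p ≤ x := by
      intro p hp
      unfold prs at hp
      rw [mem_filter, mem_range] at hp
      exact ⟨hp.2, by omega⟩
    rcases (hB0 t x).eq_or_lt with hb | hb
    · -- all values are zero
      have h0 : ∀ p ∈ prs x, ∀ u, g t p u = 0 := by
        intro p hp u
        have := hB t x p u (hprs p hp).1 (hprs p hp).2
        rw [← hb] at this
        exact abs_nonpos_iff.1 this
      have e1 : ∑ p ∈ prs x, g t p z = 0 := sum_eq_zero fun p hp => h0 p hp z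
      have e2 : ∑ p ∈ prs x, mn p (g t p) = 0 := by
        apply sum_eq_zero
        intro p hp
        unfold mn rs
        rw [sum_eq_zero (fun u _ => h0 p hp _), zero_div]
      rw [e1, e2, sub_zero, abs_zero, ← hb]
      positivity
    · have hqS : (t, x) ∈ S' := by
        rw [hS', mem_product, mem_range]
        refine ⟨ht, ?_⟩
        have : x ≤ T := by rw [hT]; exact Nat.le_floor hx
        show x < T + 1
        omega
      have h1 := hE3 n hn hnE z (fun i => (hz i).trans hpow) (t, x) hqS x (hx.trans hpow)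
      have hcard : ((prs x).card : ℝ) ≤ x := by
        have : (prs x).card ≤ x := by
          have h2 : prs x ⊆ Icc 1 x := by
            intro p hp
            rw [mem_Icc]
            exact ⟨(hprs p hp).1.one_le, (hprs p hp).2⟩
          have h3 := card_le_card h2
          rw [Nat.card_Icc] at h3
          omega
        exact_mod_cast this
      have e1 : ∀ p ∈ prs x, ∀ u, F (t, x) p u = (1 + g t p u / B t x) / 2 := by
        intro p hp u
        rw [hF]
        simp only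
        rw [if_pos ⟨(hprs p hp).1, (hprs p hp).2, hb⟩]
      have e2 : ∑ p ∈ prs x, F (t, x) p z = ((prs x).card + (∑ p ∈ prs x, g t p z) / B t x) / 2 := by
        rw [sum_congr rfl (fun p hp => e1 p hp z), ← sum_div, sum_add_distrib, ← sum_div, sum_const, nsmul_eq_mul, mul_one]
      have e3 : ∑ p ∈ prs x, mn p (F (t, x) p) = ((prs x).card + (∑ p ∈ prs x, mn p (g t p)) / B t x) / 2 := by
        have : ∀ p ∈ prs x, mn p (F (t, x) p) = (1 + mn p (g t p) / B t x) / 2 := by
          intro p hp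
          rw [← mn_scale (hprs p hp).1.pos]
          congr 1
          funext u
          exact e1 p hp u
        rw [sum_congr rfl this, ← sum_div, sum_add_distrib, ← sum_div, sum_const, nsmul_eq_mul, mul_one]
      have hF01 : ∀ p u, 0 ≤ F (t, x) p u ∧ F (t, x) p u ≤ 1 := by
        intro p u
        rw [hF]
        simp only
        split_ifs with hc
        · obtain ⟨h1, h2, h3⟩ := hc
          have h4 := hB t x p u h1 h2
          have h5 : |g t p u / B t x| ≤ 1 := by
            rw [abs_div, abs_of_pos h3, div_le_one h3]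
            exact h4
          have h6 := abs_le.1 h5
          constructor <;> linarith [h6.1, h6.2]
        · norm_num
      have hm01 : ∀ p ∈ prs x, 0 ≤ mn p (F (t, x) p) ∧ mn p (F (t, x) p) ≤ 1 := by
        intro p hp
        refine ⟨?_, mn_le_one (fun u => (hF01 p u).2)⟩
        unfold mn rs
        have := (hprs p hp).1.pos
        exact div_nonneg (sum_nonneg fun u _ => (hF01 p _).1) (by positivity)
      have hS0 : 0 ≤ ∑ p ∈ prs x, F (t, x) p z ∧ ∑ p ∈ prs x, F (t, x) p z ≤ x := by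
        refine ⟨sum_nonneg fun p _ => (hF01 p z).1, ?_⟩
        refine (sum_le_card_nsmul _ _ 1 fun p _ => (hF01 p z).2).trans ?_
        rw [nsmul_eq_mul, mul_one]
        exact hcard
      have hM0 : 0 ≤ ∑ p ∈ prs x, mn p (F (t, x) p) ∧ ∑ p ∈ prs x, mn p (F (t, x) p) ≤ x := by
        refine ⟨sum_nonneg fun p hp => (hm01 p hp).1, ?_⟩
        refine (sum_le_card_nsmul _ _ 1 fun p hp => (hm01 p hp).2).trans ?_
        rw [nsmul_eq_mul, mul_one]
        exact hcard
      have h2 := er_simple δ R hδ hR (∑ p ∈ prs x, F (t, x) p z - ∑ p ∈ prs x, mn p (F (t, x) p))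
        (∑ p ∈ prs x, mn p (F (t, x) p)) C1 x hC1 (by
          rw [abs_le]
          constructor <;> linarith [hS0.1, hS0.2, hM0.1, hM0.2]) hM0.2 h1
      have e4 : ∑ p ∈ prs x, g t p z - ∑ p ∈ prs x, mn p (g t p) =
          2 * B t x * (∑ p ∈ prs x, F (t, x) p z - ∑ p ∈ prs x, mn p (F (t, x) p)) := by
        rw [e2, e3]
        field_simp
        ring
      rw [e4, abs_mul, abs_of_pos (by positivity : 0 < 2 * B t x)]
      calc 2 * B t x * |∑ p ∈ prs x, F (t, x) p z - ∑ p ∈ prs x, mn p (F (t, x) p)| ≤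
            2 * B t x * (2 * C1 * ((x : ℝ) ^ (1 / 2 + δ) * √(1 + Real.log R))) :=
            mul_le_mul_of_nonneg_left h2 (by positivity)
        _ = _ := by ring

end Pool.Agent.U471.DQ
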