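import Pool.Agent.R459.Bsd2
import Pool.Agent.U471.DQ.Sum

set_option autoImplicit false

/-!
Traces of Frobenius of `y² = x³ + a x + b`: Hasse's bound, power sums, quadratic twists, mean values.
-/

namespace Pool.Agent.U471.DQ.EC

open Finset Pool.Agent.R459.Bsd

/-- the number of the solutions of `y² = x³ + a x + b` modulo `p` -/
def points (p : ℕ) (a b : ℤ) : ℕ :=
  ((range p ×ˢ range p).filter (fun xy : ℕ × ℕ => (p : ℤ) ∣ (xy.2 : ℤ) ^ 2 - ((xy.1 : ℤ) ^ 3 + a * xy.1 + b))).card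

lemma points_congr (p : ℕ) {A A' B B' : ℤ} (hA : (p : ℤ) ∣ A - A') (hB : (p : ℤ) ∣ B - B') :
    points p A B = points p A' B' := by
  unfold points
  congr 1
  apply filter_congr
  intro xy _
  have h : (p : ℤ) ∣ ((xy.2 : ℤ) ^ 2 - ((xy.1 : ℤ) ^ 3 + A * xy.1 + B)) -
      ((xy.2 : ℤ) ^ 2 - ((xy.1 : ℤ) ^ 3 + A' * xy.1 + B')) := by
    have e : ((xy.2 : ℤ) ^ 2 - ((xy.1 : ℤ) ^ 3 + A * xy.1 + B)) -
      ((xy.2 : ℤ) ^ 2 - ((xy.1 : ℤ) ^ 3 + A' * xy.1 + B')) = -((A - A') * xy.1 + (B - B')) := by ring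
    rw [e]
    exact (dvd_add (hA.mul_right _) hB).neg_right
  exact (dvd_iff_dvd_of_dvd_sub h)

lemma bad_congr (p : ℕ) {A A' B B' : ℤ} (hA : (p : ℤ) ∣ A - A') (hB : (p : ℤ) ∣ B - B') :
    (p : ℤ) ∣ 2 * (4 * A ^ 3 + 27 * B ^ 2) ↔ (p : ℤ) ∣ 2 * (4 * A' ^ 3 + 27 * B' ^ 2) := by
  have h : (p : ℤ) ∣ 2 * (4 * A ^ 3 + 27 * B ^ 2) - 2 * (4 * A' ^ 3 + 27 * B' ^ 2) := by
    have e : 2 * (4 * A ^ 3 + 27 * B ^ 2) - 2 * (4 * A' ^ 3 + 27 * B' ^ 2) =
      (A - A') * (8 * (A ^ 2 + A * A' + A' ^ 2)) + (B - B') * (54 * (B + B')) := by ring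
    rw [e]
    exact dvd_add (hA.mul_right _) (hB.mul_right _)
  exact dvd_iff_dvd_of_dvd_sub h

/-- the trace of Frobenius, `0` at the bad primes -/
noncomputable def ap (a b : ℤ) (p : ℕ) : ℝ :=
  if (p : ℤ) ∣ 2 * (4 * a ^ 3 + 27 * b ^ 2) then 0 else (p : ℝ) - points p a b

lemma ap_congr (p : ℕ) {A A' B B' : ℤ} (hA : (p : ℤ) ∣ A - A') (hB : (p : ℤ) ∣ B - B') : ap A B p = ap A' B' p := by
  unfold ap
  rw [points_congr p hA hB]
  have h := bad_congr p hA hB
  by_cases h1 : (p : ℤ) ∣ 2 * (4 * A ^ 3 + 27 * B ^ 2)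
  · rw [if_pos h1, if_pos (h.1 h1)]
  · rw [if_neg h1, if_neg (fun h' => h1 (h.2 h'))]

section
variable {p : ℕ} [hF : Fact p.Prime]

theorem points_tr (h2 : p ≠ 2) (a b : ℤ) : (p : ℝ) - points p a b = tr p a b := by
  have hcard : (points p a b : ℝ) =
      ∑ x : ZMod p, (((univ : Finset (ZMod p)).filter fun y => y ^ 2 = (x ^ 3 + (a : ZMod p) * x) + (b : ZMod p)).card : ℝ) := by
    unfold points
    rw [← Nat.cast_sum, ← Finset.card_sigma]
    congr 1
    refine Finset.card_bij' (fun xy _ => (⟨(xy.1 : ZMod p), (xy.2 : ZMod p)⟩ : Σ _ : ZMod p, ZMod p))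
      (fun q _ => (q.1.val, q.2.val)) ?_ ?_ ?_ ?_
    · rintro ⟨x, y⟩ h
      simp only [mem_filter, mem_product, mem_range] at h
      simp only [mem_sigma, mem_univ, mem_filter, true_and]
      obtain ⟨_, h⟩ := h
      rw [← ZMod.intCast_zmod_eq_zero_iff_dvd] at h
      push_cast at h
      linear_combination h
    · rintro ⟨x, y⟩ h
      simp only [mem_sigma, mem_univ, mem_filter, true_and] at h
      simp only [mem_filter, mem_product, mem_range]
      refine ⟨⟨ZMod.val_lt _, ZMod.val_lt _⟩, ?_⟩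
      rw [← ZMod.intCast_zmod_eq_zero_iff_dvd]
      push_cast
      simp only [ZMod.natCast_val, ZMod.cast_id', id_eq]
      linear_combination h
    · rintro ⟨x, y⟩ h
      simp only [mem_filter, mem_product, mem_range] at h
      simp only [Prod.mk.injEq]
      exact ⟨ZMod.val_cast_of_lt h.1.1, ZMod.val_cast_of_lt h.1.2⟩
    · rintro ⟨x, y⟩ h
      simp
  rw [hcard]
  have hfib : ∀ x : ZMod p, (((univ : Finset (ZMod p)).filter fun y => y ^ 2 = (x ^ 3 + (a : ZMod p) * x) + (b : ZMod p)).card : ℝ) =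
      ch p ((x ^ 3 + (a : ZMod p) * x) + (b : ZMod p)) + 1 := fun x => ch_sqrts h2 _
  simp_rw [hfib]
  rw [sum_add_distrib]
  simp only [sum_const, card_univ, ZMod.card, nsmul_eq_mul, mul_one]
  unfold tr
  ring

/-- twists -/
lemma tr_twist (h2 : p ≠ 2) (a b D : ZMod p) : tr p (a * D ^ 2) (b * D ^ 3) = ch p D * tr p a b := by
  by_cases hD : D = 0
  · subst hD
    rw [ch_zero, zero_mul]
    unfold tr
    rw [neg_eq_zero, ← ch_sum h2]
    apply sum_congr rfl
    intro x _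
    have e : x ^ 3 + a * 0 ^ 2 * x + b * 0 ^ 3 = x ^ 3 := by ring
    rw [e]
    have e2 : x ^ 3 = x * x * x := by ring
    rw [e2, ch_mul, ch_mul]
    by_cases hx : x = 0
    · subst hx
      rw [ch_zero, mul_zero]
    · rw [ch_sq hx, one_mul]
  · unfold tr
    rw [mul_neg, neg_inj, mul_sum, ← Equiv.sum_comp (Equiv.mulLeft₀ D hD)]
    apply sum_congr rfl
    intro x _
    have e : (Equiv.mulLeft₀ D hD) x ^ 3 + a * D ^ 2 * (Equiv.mulLeft₀ D hD) x + b * D ^ 3 = D * D * (D * ((x ^ 3 + a * x) + b)) := by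
      simp only [Equiv.mulLeft₀_apply]
      ring
    rw [e, ch_mul, ch_mul D D, ch_sq hD, one_mul, ch_mul]

end

/-- Hasse's bound -/
lemma ap_abs {p : ℕ} (hp : p.Prime) (a b : ℤ) : |ap a b p| ≤ 2 * √p := by
  have : Fact p.Prime := ⟨hp⟩
  unfold ap
  split_ifs with h
  · rw [abs_zero]
    positivity
  · have h2 : p ≠ 2 := by
      rintro rfl
      exact h (Dvd.intro _ rfl)
    rw [points_tr h2]
    exact tr_abs h2 _ _

/-- the mean over the quadratic twists is zero -/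
lemma twist_sum {p : ℕ} (hp : p.Prime) (a b : ℤ) :
    ∑ t ∈ range p, ap (a * (t : ℤ) ^ 2) (b * (t : ℤ) ^ 3) p = 0 := by
  have : Fact p.Prime := ⟨hp⟩
  by_cases h2 : p = 2
  · apply sum_eq_zero
    intro t _
    unfold ap
    rw [if_pos]
    subst h2
    exact Dvd.intro _ rfl
  have key : ∀ t ∈ range p, ap (a * (t : ℤ) ^ 2) (b * (t : ℤ) ^ 3) p = ap a b p * ch p ((t : ℤ) : ZMod p) := by
    intro t _
    have h1 : (p : ℤ) ∣ 2 * (4 * (a * (t : ℤ) ^ 2) ^ 3 + 27 * (b * (t : ℤ) ^ 3) ^ 2) ↔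
        (p : ℤ) ∣ (t : ℤ) ∨ (p : ℤ) ∣ 2 * (4 * a ^ 3 + 27 * b ^ 2) := by
      have e : 2 * (4 * (a * (t : ℤ) ^ 2) ^ 3 + 27 * (b * (t : ℤ) ^ 3) ^ 2) = (t : ℤ) ^ 6 * (2 * (4 * a ^ 3 + 27 * b ^ 2)) := by ring
      rw [e, (Nat.prime_iff_prime_int.1 hp).dvd_mul]
      constructor
      · rintro (h | h)
        · exact Or.inl ((Nat.prime_iff_prime_int.1 hp).dvd_of_dvd_pow h)
        · exact Or.inr h
      · rintro (h | h)
        · exact Or.inl (dvd_pow h (by norm_num))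
        · exact Or.inr h
    unfold ap
    by_cases ht : (p : ℤ) ∣ (t : ℤ)
    · rw [if_pos (h1.2 (Or.inl ht))]
      have : ((t : ℤ) : ZMod p) = 0 := (ZMod.intCast_zmod_eq_zero_iff_dvd _ _).2 ht
      rw [this, ch_zero, mul_zero]
    · by_cases hb : (p : ℤ) ∣ 2 * (4 * a ^ 3 + 27 * b ^ 2)
      · rw [if_pos (h1.2 (Or.inr hb)), if_pos hb, zero_mul]
      · rw [if_neg (fun h => (h1.1 h).elim ht hb), if_neg hb, points_tr h2, points_tr h2]
        push_cast
        rw [tr_twist h2, mul_comm]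
  rw [sum_congr rfl key, ← mul_sum, sum_zmod (fun z => ch p z), ch_sum h2, mul_zero]

/-- the mean over all the curves is small -/
lemma pair_sum {p : ℕ} (hp : p.Prime) : |∑ s ∈ range p, ∑ t ∈ range p, ap (s : ℤ) (t : ℤ) p| ≤ 6 * (p * √p) := by
  have : Fact p.Prime := ⟨hp⟩
  have hp0 : (0 : ℝ) < p := by exact_mod_cast hp.pos
  have hs0 : 0 ≤ √(p : ℝ) := Real.sqrt_nonneg _
  by_cases hp5 : 5 ≤ p
  · have h2 : p ≠ 2 := by omega
    have key : ∀ s ∈ range p, |∑ t ∈ range p, ap (s : ℤ) (t : ℤ) p| ≤ 4 * √p := by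
      intro s _
      classical
      have e1 : ∑ t ∈ range p, ap (s : ℤ) (t : ℤ) p =
          ∑ z : ZMod p, (if (-4 * ((s : ℤ) : ZMod p) ^ 3 - 27 * z ^ 2) ≠ 0 then tr p ((s : ℤ) : ZMod p) z else 0) := by
        rw [← sum_zmod (fun z => if (-4 * ((s : ℤ) : ZMod p) ^ 3 - 27 * z ^ 2) ≠ 0 then tr p ((s : ℤ) : ZMod p) z else 0)]
        apply sum_congr rfl
        intro t _
        unfold ap
        have h3 : (p : ℤ) ∣ 2 * (4 * (s : ℤ) ^ 3 + 27 * (t : ℤ) ^ 2) ↔
            (-4 * ((s : ℤ) : ZMod p) ^ 3 - 27 * ((t : ℤ) : ZMod p) ^ 2) = 0 := by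
          have h4 : ((2 : ℤ) : ZMod p) ≠ 0 := by
            intro h0
            rw [ZMod.intCast_zmod_eq_zero_iff_dvd] at h0
            have := Int.le_of_dvd (by norm_num) h0
            omega
          rw [← ZMod.intCast_zmod_eq_zero_iff_dvd]
          constructor
          · intro h
            rw [Int.cast_mul, mul_eq_zero] at h
            rcases h with h | h
            · exact absurd h h4
            · push_cast at h ⊢
              linear_combination -h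
          · intro h
            rw [Int.cast_mul, mul_eq_zero]
            right
            push_cast at h ⊢
            linear_combination -h
        by_cases hb : (p : ℤ) ∣ 2 * (4 * (s : ℤ) ^ 3 + 27 * (t : ℤ) ^ 2)
        · rw [if_pos hb, if_neg (fun h => h (h3.1 hb))]
        · rw [if_neg hb, if_pos (fun h => hb (h3.2 h)), points_tr h2]
      have e2 : ∑ z : ZMod p, (if (-4 * ((s : ℤ) : ZMod p) ^ 3 - 27 * z ^ 2) ≠ 0 then tr p ((s : ℤ) : ZMod p) z else 0) =
          - ∑ z ∈ (univ : Finset (ZMod p)).filter (fun z => ¬ (-4 * ((s : ℤ) : ZMod p) ^ 3 - 27 * z ^ 2) ≠ 0),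
            tr p ((s : ℤ) : ZMod p) z := by
        have h3 := tr_mean h2 ((s : ℤ) : ZMod p)
        rw [← sum_filter_add_sum_filter_not univ (fun z => (-4 * ((s : ℤ) : ZMod p) ^ 3 - 27 * z ^ 2) ≠ 0)] at h3
        rw [← sum_filter]
        linarith
      rw [e1, e2, abs_neg]
      refine (abs_sum_le_sum_abs _ _).trans ?_
      have h4 := bad_card hp hp5 ((s : ℤ) : ZMod p)
      have h4' : ((((univ : Finset (ZMod p)).filter (fun z => ¬ (-4 * ((s : ℤ) : ZMod p) ^ 3 - 27 * z ^ 2) ≠ 0)).card : ℕ) : ℝ) ≤ 2 := by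
        have h5 : ((univ : Finset (ZMod p)).filter (fun z => ¬ (-4 * ((s : ℤ) : ZMod p) ^ 3 - 27 * z ^ 2) ≠ 0)).card ≤ 2 := by
          convert h4
        exact_mod_cast h5
      refine (sum_le_card_nsmul _ _ (2 * √p) fun z _ => tr_abs h2 _ _).trans ?_
      rw [nsmul_eq_mul]
      nlinarith
    refine (abs_sum_le_sum_abs _ _).trans ?_
    refine (sum_le_card_nsmul _ _ _ key).trans ?_
    rw [card_range, nsmul_eq_mul]
    nlinarith [mul_nonneg hp0.le hs0]
  · -- trivial bound for small primes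
    have h1 : |∑ s ∈ range p, ∑ t ∈ range p, ap (s : ℤ) (t : ℤ) p| ≤ p * (p * (2 * √p)) := by
      refine (abs_sum_le_sum_abs _ _).trans ?_
      refine (sum_le_card_nsmul _ _ (p * (2 * √p)) fun s _ => ?_).trans ?_
      · refine (abs_sum_le_sum_abs _ _).trans ?_
        refine (sum_le_card_nsmul _ _ (2 * √p) fun t _ => ap_abs hp _ _).trans ?_
        rw [card_range, nsmul_eq_mul]
      · rw [card_range, nsmul_eq_mul]
    have h3 : p ≤ 3 := by
      have h4 : p ≠ 4 := by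
        rintro rfl
        exact absurd hp (by norm_num)
      omega
    have h3' : (p : ℝ) ≤ 3 := by exact_mod_cast h3
    have h4 : 0 ≤ (p : ℝ) * √p := by positivity
    nlinarith

/-- the power sums of the eigenvalues of Frobenius with the trace `a` -/
noncomputable def power (a : ℝ) (p : ℕ) : ℕ → ℝ
  | 0 => 2
  | 1 => a
  | (k + 2) => a * power a p (k + 1) - p * power a p k

lemma power_abs {a : ℝ} {p : ℕ} (hp : 0 < p) (ha : |a| ≤ 2 * √p) (k : ℕ) : |power a p k| ≤ 2 * √p ^ k := by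
  have hp0 : (0 : ℝ) < p := by exact_mod_cast hp
  have hs0 : 0 < √(p : ℝ) := Real.sqrt_pos.2 hp0
  have hsq : √(p : ℝ) ^ 2 = p := Real.sq_sqrt hp0.le
  obtain ⟨θ, hθ⟩ : ∃ θ : ℝ, θ = Real.arccos (a / (2 * √p)) := ⟨_, rfl⟩
  have h1 := abs_le.1 ha
  have hcos : a = 2 * √p * Real.cos θ := by
    rw [hθ, Real.cos_arccos]
    · field_simp
    · rw [le_div_iff₀ (by positivity)]
      linarith [h1.1]
    · rw [div_le_one (by positivity)]
      exact h1.2
  have key : ∀ k : ℕ, power a p k = 2 * √p ^ k * Real.cos (k * θ) ∧ power a p (k + 1) = 2 * √p ^ (k + 1) * Real.cos ((k + 1 : ℕ) * θ) := by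
    intro k
    induction k with
    | zero =>
      constructor
      · simp [power]
      · simp [power]
        rw [hcos]
    | succ k ih =>
      refine ⟨ih.2, ?_⟩
      show a * power a p (k + 1) - p * power a p k = _
      rw [ih.1, ih.2]
      have e : Real.cos ((k + 1 + 1 : ℕ) * θ) = 2 * Real.cos θ * Real.cos ((k + 1 : ℕ) * θ) - Real.cos (k * θ) := by
        have e1 : ((k + 1 + 1 : ℕ) : ℝ) * θ = (k + 1 : ℕ) * θ + θ := by push_cast; ring
        have e2 : (k : ℝ) * θ = (k + 1 : ℕ) * θ - θ := by push_cast; ring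
        rw [e1, e2, Real.cos_add, Real.cos_sub]
        ring
      rw [e]
      have e3 : √(p : ℝ) ^ (k + 1 + 1) = p * √(p : ℝ) ^ k := by rw [pow_succ, pow_succ, mul_assoc, ← sq, hsq]; ring
      have e4 : √(p : ℝ) ^ (k + 1) = √(p : ℝ) ^ k * √p := pow_succ _ _
      rw [e3, e4]
      have e5 : a * (2 * (√(p : ℝ) ^ k * √p) * Real.cos ((k + 1 : ℕ) * θ)) =
          2 * (√(p : ℝ) ^ 2) * √(p : ℝ) ^ k * (2 * Real.cos θ * Real.cos ((k + 1 : ℕ) * θ)) := by
        rw [hcos]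
        ring
      rw [e5, hsq]
      ring
  rw [(key k).1, abs_mul, abs_of_nonneg (by positivity)]
  exact mul_le_of_le_one_right (by positivity) (Real.abs_cos_le_one _)

end Pool.Agent.U471.DQ.EC
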