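import Pool.Agent.U471.DQ.Type

set_option autoImplicit false

/-!
Families of functions which are indexed by arbitrary finite sets.
-/

namespace Pool.Agent.U471.DQ

open Finset Polynomial

/-- functions with values in `[0, 1]`, indexed by a finite set -/
theorem near_primes_fin (r d : ℕ) (hd : 1 ≤ d) (G : ℝ) (hG : 1 ≤ G) (δ : ℝ) (hδ : 0 < δ) : ∃ κ C : ℝ, 0 < κ ∧ κ ≤ 1 ∧ 1 ≤ C ∧
    ∀ (N : ℕ) (R : ℝ) (f : Fin r → ℝ[X]), 1 ≤ N → 1 ≤ R → (∀ i, (f i).natDegree ≤ d) → Gen d N R f →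
    ∀ (ι : Type) (S : Finset ι), (S.card : ℝ) ≤ G * R ^ κ →
    ∀ F : ι → ℕ → (Fin r → ℤ) → ℝ, (∀ t p, p.Prime → Per (F t p) p) → (∀ t p u, 0 ≤ F t p u ∧ F t p u ≤ 1) →
    ∃ E : Finset ℕ, E ⊆ range N ∧ (E.card : ℝ) ≤ C * (N * R ^ (-κ)) ∧ ∀ n ∈ range N, n ∉ E →
      ∀ z : Fin r → ℤ, Cl (R ^ κ) (fun i => (f i).eval (n : ℝ)) z → ∀ t ∈ S, ∀ x : ℕ, (x : ℝ) ≤ R ^ κ →
        |∑ p ∈ prs x, F t p z - ∑ p ∈ prs x, mn p (F t p)| ≤ C * er δ R (∑ p ∈ prs x, mn p (F t p)) x := by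
  classical
  obtain ⟨κ1, C1, hκ10, hκ11, hC1, H⟩ := near_primes r d hd δ hδ
  obtain ⟨κ, hκ⟩ : ∃ κ : ℝ, κ = κ1 / 2 := ⟨_, rfl⟩
  have hκ0 : 0 < κ := by rw [hκ]; positivity
  have hκκ : κ + κ = κ1 := by rw [hκ]; ring
  refine ⟨κ, C1 + G, hκ0, by linarith, by linarith, ?_⟩
  intro N R f hN hR hf hgen ι S hS F hper hF
  have hR0 : 0 < R := by linarith
  have hNr : (0 : ℝ) ≤ N := Nat.cast_nonneg _
  rcases lt_or_ge (R ^ κ) G with hsmall | hbig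
  · refine ⟨range N, Finset.Subset.refl _, ?_, fun n hn hnE => absurd hn hnE⟩
    rw [card_range]
    have h2 : 1 ≤ (C1 + G) * R ^ (-κ) := by
      rw [Real.rpow_neg hR0.le, ← div_eq_mul_inv, le_div_iff₀ (Real.rpow_pos_of_pos hR0 _)]
      linarith
    calc (N : ℝ) = N * 1 := (mul_one _).symm
      _ ≤ N * ((C1 + G) * R ^ (-κ)) := mul_le_mul_of_nonneg_left h2 hNr
      _ = _ := by ring
  have hSc : (S.card : ℝ) ≤ R ^ κ1 := by
    refine hS.trans ?_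
    rw [← hκκ, Real.rpow_add hR0]
    exact mul_le_mul_of_nonneg_right hbig (by positivity)
  rcases S.eq_empty_or_nonempty with hS0 | ⟨t₀, ht₀⟩
  · subst hS0
    refine ⟨∅, empty_subset _, ?_, fun n _ _ z _ t ht => absurd ht (notMem_empty _)⟩
    rw [card_empty, Nat.cast_zero]
    positivity
  obtain ⟨en, hen⟩ : ∃ en : S ≃ Fin S.card, en = S.equivFin := ⟨_, rfl⟩
  obtain ⟨ix, hix⟩ : ∃ ix : ℕ → ι, ix = fun t => if h : t < S.card then (en.symm ⟨t, h⟩ : S).1 else t₀ := ⟨_, rfl⟩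
  obtain ⟨E, hE1, hE2, hE3⟩ := H N R f hN hR hf hgen (fun t => F (ix t)) (fun t => hper (ix t)) (fun t => hF (ix t))
  have hpow : R ^ κ ≤ R ^ κ1 := Real.rpow_le_rpow_of_exponent_le hR (by linarith)
  refine ⟨E, hE1, ?_, ?_⟩
  · refine hE2.trans ?_
    calc C1 * (N * R ^ (-κ1)) ≤ C1 * (N * R ^ (-κ)) := by
          apply mul_le_mul_of_nonneg_left _ (by linarith)
          apply mul_le_mul_of_nonneg_left _ hNr
          apply Real.rpow_le_rpow_of_exponent_le hR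
          linarith
      _ ≤ _ := by
          apply mul_le_mul_of_nonneg_right _ (by positivity)
          linarith
  · intro n hn hnE z hz t ht x hx
    obtain ⟨k, hk⟩ : ∃ k : ℕ, k = (en ⟨t, ht⟩ : Fin S.card) := ⟨_, rfl⟩
    have hklt : k < S.card := by rw [hk]; exact (en ⟨t, ht⟩).isLt
    have hixk : ix k = t := by
      rw [hix]
      simp only
      rw [dif_pos hklt]
      have : (⟨k, hklt⟩ : Fin S.card) = en ⟨t, ht⟩ := Fin.ext hk
      rw [this, Equiv.symm_apply_apply]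
    have hkR : (k : ℝ) ≤ R ^ κ1 := le_trans (by exact_mod_cast hklt.le) hSc
    have h1 := hE3 n hn hnE z (fun i => (hz i).trans hpow) k hkR x (hx.trans hpow)
    simp only [hixk] at h1
    refine h1.trans ?_
    apply mul_le_mul_of_nonneg_right _ (er_nonneg _ _ _ _)
    linarith

/-- **counts of primes**, properties indexed by a finite set -/
theorem near_count_fin (r d : ℕ) (hd : 1 ≤ d) (G : ℝ) (hG : 1 ≤ G) (δ : ℝ) (hδ : 0 < δ) : ∃ κ C : ℝ, 0 < κ ∧ κ ≤ 1 ∧ 1 ≤ C ∧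
    ∀ (N : ℕ) (R : ℝ) (f : Fin r → ℝ[X]), 1 ≤ N → 1 ≤ R → (∀ i, (f i).natDegree ≤ d) → Gen d N R f →
    ∀ (ι : Type) (S : Finset ι), (S.card : ℝ) ≤ G * R ^ κ →
    ∀ P : ι → ℕ → (Fin r → ℤ) → Prop, (∀ t, ∀ p : ℕ, p.Prime → ∀ u u' : Fin r → ℤ, (∀ i, (p : ℤ) ∣ u i - u' i) → (P t p u ↔ P t p u')) →
    ∃ E : Finset ℕ, E ⊆ range N ∧ (E.card : ℝ) ≤ C * (N * R ^ (-κ)) ∧ ∀ n ∈ range N, n ∉ E →
      ∀ z : Fin r → ℤ, Cl (R ^ κ) (fun i => (f i).eval (n : ℝ)) z → ∀ t ∈ S, ∀ x : ℕ, (x : ℝ) ≤ R ^ κ →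
        |(cnt (P t) z x : ℝ) - mdl (P t) x| ≤ C * er δ R (mdl (P t) x) x := by
  classical
  obtain ⟨κ, C, h1, h2, h3, H⟩ := near_primes_fin r d hd G hG δ hδ
  refine ⟨κ, C, h1, h2, h3, ?_⟩
  intro N R f hN hR hf hgen ι S hS P hP
  obtain ⟨E, hE1, hE2, hE3⟩ := H N R f hN hR hf hgen ι S hS (fun t p u => if P t p u then 1 else 0) (by
      intro t p hp u u' hu
      show (if P t p u then (1 : ℝ) else 0) = if P t p u' then 1 else 0
      by_cases h : P t p u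
      · rw [if_pos h, if_pos ((hP t p hp u u' hu).1 h)]
      · rw [if_neg h, if_neg (fun h' => h ((hP t p hp u u' hu).2 h'))]) (by
      intro t p u
      show 0 ≤ (if P t p u then (1 : ℝ) else 0) ∧ (if P t p u then (1 : ℝ) else 0) ≤ 1
      split_ifs <;> norm_num)
  refine ⟨E, hE1, hE2, fun n hn hnE z hz t ht x hx => ?_⟩
  have h4 := hE3 n hn hnE z hz t ht x hx
  have e1 : ∑ p ∈ prs x, (if P t p z then (1 : ℝ) else 0) = cnt (P t) z x := by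
    unfold cnt
    rw [← sum_filter, sum_const, nsmul_eq_mul, mul_one]
  have e2 : ∑ p ∈ prs x, mn p (fun u => if P t p u then (1 : ℝ) else 0) = mdl (P t) x := by
    unfold mdl mn rs
    apply sum_congr rfl
    intro p _
    rw [← sum_filter, sum_const, nsmul_eq_mul, mul_one]
  simp only [e1, e2] at h4
  exact h4

end Pool.Agent.U471.DQ
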