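import Pool.Agent.N193.PS.Frac

set_option autoImplicit false

/-!
Exponential sums over the integer parts of several real functions, with weights.
-/

namespace Pool.Agent.U471.DQ

open Finset
open Pool.Agent.H469R2.NK (e norm_e e_add)
open Pool.Agent.N193.PS (DK DK_sq near_int fejer_avg approx)

/-- exponential sums over integer parts, with weights (adapted from `Pool.Agent.N193.PS.floor_sum`) -/
theorem floor_sum_w {ι : Type} (s : Finset ι) (w : ι → ℂ) (hw : ∀ n, ‖w n‖ ≤ 1) (f : ι → ℝ) (Q : ℕ) (hQ : 1 ≤ Q) (θ : ℝ)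
    (hθ : |θ| ≤ 1) (E E' : ℝ) (hE'0 : 0 ≤ E')
    (h1 : ∀ m : ℤ, |m| < (128 * Q ^ 3 : ℕ) → ‖∑ n ∈ s, w n * e ((θ + m) * f n)‖ ≤ E)
    (h2 : ∀ m : ℤ, m ≠ 0 → |m| < Q → ‖∑ n ∈ s, e (m * f n)‖ ≤ E') :
    ‖∑ n ∈ s, w n * e (θ * ⌊f n⌋)‖ ≤ 128 * (Q : ℝ) ^ 3 * E + 8 * E' + 10 * (s.card / Q) := by
  classical
  have hQ0 : (0 : ℝ) < Q := by exact_mod_cast hQ
  obtain ⟨M, hM⟩ : ∃ M : ℕ, M = 128 * Q ^ 3 := ⟨_, rfl⟩
  have hM1 : 1 ≤ M := by
    rw [hM]
    have : 1 ≤ Q ^ 3 := Nat.one_le_pow _ _ hQ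
    omega
  have hMr : (M : ℝ) = 128 * (Q : ℝ) ^ 3 := by rw [hM]; push_cast; ring
  have hM0 : (0 : ℝ) < M := by exact_mod_cast hM1
  have hMc : (M : ℂ) ≠ 0 := by exact_mod_cast hM0.ne'
  rw [← hM] at h1
  obtain ⟨r, hr⟩ : ∃ r : ℝ, r = 1 / (8 * Q) := ⟨_, rfl⟩
  have hr0 : 0 < r := by rw [hr]; positivity
  have hQr : 8 * (Q * r) ≤ 1 := by
    rw [hr]
    apply le_of_eq
    field_simp
  set G : ℝ → ℂ := fun u => (1 / (M : ℂ) ^ 2) * ∑ j ∈ range M, e (-(θ * (j / M))) * ((‖DK M (u - j / M)‖ ^ 2 : ℝ) : ℂ) with hG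
  set Z := s.filter (fun n => Int.fract (f n) < r ∨ 1 - r < Int.fract (f n)) with hZ
  have hZle := near_int s f Q hQ E' h2 r hQr
  rw [← hZ, abs_of_nonneg hE'0] at hZle
  -- `G` is bounded by one
  have hG1 : ∀ u, ‖G u‖ ≤ 1 := by
    intro u
    rw [hG]
    simp only
    rw [norm_mul]
    have h4 : ‖(1 / (M : ℂ) ^ 2)‖ = 1 / (M : ℝ) ^ 2 := by
      rw [norm_div, norm_one, norm_pow, Complex.norm_natCast]
    rw [h4]
    have h5 : ‖∑ j ∈ range M, e (-(θ * (j / M))) * ((‖DK M (u - j / M)‖ ^ 2 : ℝ) : ℂ)‖ ≤ (M : ℝ) ^ 2 := by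
      refine (norm_sum_le _ _).trans (le_of_eq ?_)
      rw [← fejer_avg M hM1 u]
      refine sum_congr rfl fun j _ => ?_
      rw [norm_mul, norm_e, one_mul, Complex.norm_real, Real.norm_of_nonneg (sq_nonneg _)]
    calc 1 / (M : ℝ) ^ 2 * _ ≤ 1 / (M : ℝ) ^ 2 * (M : ℝ) ^ 2 := mul_le_mul_of_nonneg_left h5 (by positivity)
      _ = 1 := by field_simp
  -- the main term
  have hmain : ‖∑ n ∈ s, w n * (e (θ * f n) * G (f n))‖ ≤ M * E := by
    have h3 : ∑ n ∈ s, w n * (e (θ * f n) * G (f n)) = (1 / (M : ℂ) ^ 2) * ∑ j ∈ range M, ∑ a ∈ range M, ∑ b ∈ range M,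
        e (-(θ * (j / M))) * e (-(((a : ℝ) - b) * (j / M))) * ∑ n ∈ s, w n * e ((θ + ((a : ℤ) - b : ℤ)) * f n) := by
      simp only [hG, DK_sq, mul_sum]
      rw [sum_comm]
      refine sum_congr rfl fun j _ => ?_
      rw [sum_comm]
      refine sum_congr rfl fun a _ => ?_
      rw [sum_comm]
      refine sum_congr rfl fun b _ => ?_
      refine sum_congr rfl fun n _ => ?_
      have h4 : e (((a : ℝ) - b) * (f n - j / M)) = e (-(((a : ℝ) - b) * (j / M))) * e (((a : ℝ) - b) * f n) := by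
        rw [← e_add]
        congr 1
        ring
      have h5 : e ((θ + (((a : ℤ) - b : ℤ) : ℝ)) * f n) = e (θ * f n) * e (((a : ℝ) - b) * f n) := by
        rw [← e_add]
        congr 1
        push_cast
        ring
      rw [h4, h5]
      ring
    rw [h3, norm_mul]
    have h4 : ‖(1 / (M : ℂ) ^ 2)‖ = 1 / (M : ℝ) ^ 2 := by
      rw [norm_div, norm_one, norm_pow, Complex.norm_natCast]
    rw [h4]
    have h5 : ‖∑ j ∈ range M, ∑ a ∈ range M, ∑ b ∈ range M,
        e (-(θ * (j / M))) * e (-(((a : ℝ) - b) * (j / M))) * ∑ n ∈ s, w n * e ((θ + ((a : ℤ) - b : ℤ)) * f n)‖ ≤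
        ∑ _j ∈ range M, ∑ _a ∈ range M, ∑ _b ∈ range M, E := by
      refine (norm_sum_le _ _).trans (sum_le_sum fun j _ => ?_)
      refine (norm_sum_le _ _).trans (sum_le_sum fun a ha => ?_)
      refine (norm_sum_le _ _).trans (sum_le_sum fun b hb => ?_)
      rw [mem_range] at ha hb
      rw [norm_mul, norm_mul, norm_e, norm_e, one_mul, one_mul]
      apply h1
      rw [abs_lt]
      constructor <;> omega
    calc _ ≤ 1 / (M : ℝ) ^ 2 * ∑ _j ∈ range M, ∑ _a ∈ range M, ∑ _b ∈ range M, E :=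
          mul_le_mul_of_nonneg_left h5 (by positivity)
      _ = M * E := by
          simp only [sum_const, card_range, nsmul_eq_mul]
          field_simp
  -- the error
  have herr : ‖∑ n ∈ s, w n * (e (θ * f n) * (e (-(θ * Int.fract (f n))) - G (f n)))‖ ≤
      s.card * (2 / Q) + 2 * Z.card := by
    refine (norm_sum_le _ _).trans ?_
    calc ∑ n ∈ s, ‖w n * (e (θ * f n) * (e (-(θ * Int.fract (f n))) - G (f n)))‖ ≤
        ∑ n ∈ s, ((2 / Q : ℝ) + 2 * (if Int.fract (f n) < r ∨ 1 - r < Int.fract (f n) then 1 else 0)) := by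
          refine sum_le_sum fun n _ => ?_
          rw [norm_mul, norm_mul, norm_e, one_mul]
          refine (mul_le_of_le_one_left (norm_nonneg _) (hw n)).trans ?_
          split_ifs with h3
          · have h4 : ‖e (-(θ * Int.fract (f n))) - G (f n)‖ ≤ 2 := by
              refine (norm_sub_le _ _).trans ?_
              rw [norm_e]
              linarith [hG1 (f n)]
            have : (0 : ℝ) < 2 / Q := by positivity
            linarith
          · push Not at h3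
            have h4 := approx M hM1 θ hθ (f n) r hr0 h3.1 h3.2
            have h5 : 7 * r + 2 / (M * r ^ 2) ≤ 2 / (Q : ℝ) := by
              have h6 : 7 * r + 2 / (M * r ^ 2) = (7 / 8 + 1) / (Q : ℝ) := by
                rw [hr, hMr]
                field_simp
                ring
              rw [h6]
              exact div_le_div_of_nonneg_right (by norm_num) hQ0.le
            linarith
      _ = s.card * (2 / Q) + 2 * Z.card := by
          rw [sum_add_distrib, sum_const, nsmul_eq_mul, ← mul_sum, ← sum_filter, sum_const, nsmul_eq_mul, mul_one]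
  have hdec : ∑ n ∈ s, w n * e (θ * ⌊f n⌋) = ∑ n ∈ s, w n * (e (θ * f n) * G (f n)) +
      ∑ n ∈ s, w n * (e (θ * f n) * (e (-(θ * Int.fract (f n))) - G (f n))) := by
    rw [← sum_add_distrib]
    refine sum_congr rfl fun n _ => ?_
    have h3 : e (θ * ⌊f n⌋) = e (θ * f n) * e (-(θ * Int.fract (f n))) := by
      rw [← e_add]
      congr 1
      rw [← Int.self_sub_floor]
      ring
    rw [h3]
    ring
  rw [hdec]
  refine (norm_add_le _ _).trans ?_
  have h10 : (s.card : ℝ) * (2 / Q) = 2 * (s.card / Q) := by ring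
  rw [← hMr]
  nlinarith

/-- several functions -/
theorem floor_vec (r : ℕ) : ∃ c k : ℕ, 1 ≤ c ∧ ∀ (ι : Type) (s : Finset ι) (w : ι → ℂ), (∀ n, ‖w n‖ ≤ 1) →
    ∀ (f : ι → Fin r → ℝ) (θ : Fin r → ℝ), (∀ i, |θ i| ≤ 1) → ∀ Q : ℕ, 1 ≤ Q → ∀ E : ℝ, 0 ≤ E →
    (∀ m : Fin r → ℤ, (∀ i, |m i| ≤ ((c * Q ^ k : ℕ) : ℤ)) → ‖∑ n ∈ s, w n * e (∑ i, (θ i + m i) * f n i)‖ ≤ E) →
    (∀ i, ∀ m : ℤ, m ≠ 0 → |m| ≤ ((c * Q ^ k : ℕ) : ℤ) → ‖∑ n ∈ s, e (m * f n i)‖ ≤ E) →
    ‖∑ n ∈ s, w n * e (∑ i, θ i * ⌊f n i⌋)‖ ≤ c * (Q : ℝ) ^ k * E + c * (s.card / Q) := by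
  induction r with
  | zero =>
    refine ⟨1, 0, le_rfl, ?_⟩
    intro ι s w hw f θ hθ Q hQ E hE h1 h2
    have h3 := h1 (fun _ => 0) (fun i => i.elim0)
    simp only [univ_eq_empty, sum_empty] at h3 ⊢
    have h4 : (0 : ℝ) ≤ (s.card : ℝ) / Q := by positivity
    rw [pow_zero, Nat.cast_one]
    linarith
  | succ r ih =>
    obtain ⟨c, k, hc, H⟩ := ih
    refine ⟨128 * c + 18, 4 * k + 3, by omega, ?_⟩
    intro ι s w hw f θ hθ Q hQ E hE h1 h2
    have hcr : (1 : ℝ) ≤ c := by exact_mod_cast hc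
    have hQr : (1 : ℝ) ≤ Q := by exact_mod_cast hQ
    have hQ0 : (0 : ℝ) < Q := by linarith
    have hcard : (0 : ℝ) ≤ s.card := Nat.cast_nonneg _
    have hB1 : c * (Q ^ 4) ^ k ≤ (128 * c + 18) * Q ^ (4 * k + 3) := by
      rw [← pow_mul]
      apply Nat.mul_le_mul (by omega) (Nat.pow_le_pow_right hQ (by omega))
    have hB2 : 128 * Q ^ 3 ≤ (128 * c + 18) * Q ^ (4 * k + 3) :=
      Nat.mul_le_mul (by omega) (Nat.pow_le_pow_right hQ (by omega))
    have hB3 : Q ≤ (128 * c + 18) * Q ^ (4 * k + 3) := by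
      calc Q = 1 * Q ^ 1 := by ring
        _ ≤ _ := Nat.mul_le_mul (by omega) (Nat.pow_le_pow_right hQ (by omega))
    -- the sums with the first coordinate replaced
    have key : ∀ m₀ : ℤ, |m₀| < ((128 * Q ^ 3 : ℕ) : ℤ) →
        ‖∑ n ∈ s, (w n * e (∑ i : Fin r, θ i.succ * ⌊f n i.succ⌋)) * e ((θ 0 + m₀) * f n 0)‖ ≤
          c * ((Q ^ 4 : ℕ) : ℝ) ^ k * E + c * (s.card / ((Q ^ 4 : ℕ) : ℝ)) := by
      intro m₀ hm₀
      have h3 := H ι s (fun n => w n * e ((θ 0 + m₀) * f n 0)) (by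
          intro n
          rw [norm_mul, norm_e, mul_one]
          exact hw n) (fun n i => f n i.succ) (fun i => θ i.succ) (fun i => hθ _) (Q ^ 4) (Nat.one_le_pow _ _ hQ) E hE (by
          intro m hm
          have h4 := h1 (Fin.cons m₀ m) (by
            intro i
            refine Fin.cases ?_ (fun j => ?_) i
            · rw [Fin.cons_zero]
              exact hm₀.le.trans (by exact_mod_cast hB2)
            · rw [Fin.cons_succ]
              exact (hm j).trans (by exact_mod_cast hB1))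
          refine le_trans (le_of_eq ?_) h4
          congr 1
          apply sum_congr rfl
          intro n _
          rw [Fin.sum_univ_succ, e_add]
          simp only [Fin.cons_zero, Fin.cons_succ]
          ring) (fun i m hm0 hm => h2 i.succ m hm0 (hm.trans (by exact_mod_cast hB1)))
      refine le_trans (le_of_eq ?_) h3
      congr 1
      apply sum_congr rfl
      intro n _
      ring
    have h5 := floor_sum_w s (fun n => w n * e (∑ i : Fin r, θ i.succ * ⌊f n i.succ⌋)) (by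
        intro n
        rw [norm_mul, norm_e, mul_one]
        exact hw n) (fun n => f n 0) Q hQ (θ 0) (hθ 0) _ E hE key (by
        intro m hm0 hm
        exact h2 0 m hm0 (hm.le.trans (by exact_mod_cast hB3)))
    have e1 : ∑ n ∈ s, w n * e (∑ i, θ i * ⌊f n i⌋) =
        ∑ n ∈ s, (w n * e (∑ i : Fin r, θ i.succ * ⌊f n i.succ⌋)) * e (θ 0 * ⌊f n 0⌋) := by
      apply sum_congr rfl
      intro n _
      rw [Fin.sum_univ_succ, e_add]
      ring
    rw [e1]
    refine h5.trans ?_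
    push_cast
    have e2 : (c : ℝ) * ((Q : ℝ) ^ 4) ^ k = c * (Q : ℝ) ^ (4 * k) := by rw [← pow_mul]
    have e3 : 128 * (Q : ℝ) ^ 3 * (c * (Q : ℝ) ^ (4 * k) * E + c * (s.card / (Q : ℝ) ^ 4)) =
        128 * c * (Q : ℝ) ^ (4 * k + 3) * E + 128 * c * (s.card / Q) := by
      rw [pow_add]
      field_simp
    rw [e2, e3]
    have h6 : (1 : ℝ) ≤ (Q : ℝ) ^ (4 * k + 3) := one_le_pow₀ hQr
    have h7 : E ≤ (Q : ℝ) ^ (4 * k + 3) * E := le_mul_of_one_le_left hE h6
    have h8 : (0 : ℝ) ≤ s.card / Q := by positivity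
    nlinarith

end Pool.Agent.U471.DQ
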