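import Pool.Agent.U471.DQ.Moment

set_option autoImplicit false

/-!
Samples which are uniformly distributed in residue classes: square root cancellation for almost all members, in terms
of the variances (adapted from `Pool.Agent.N193.PS.Pe2`).
-/

namespace Pool.Agent.U471.DQ

open Finset

/-- the indices below `z` in a residue class modulo `s` -/
def Pj (s z j : ℕ) : Finset ℕ := (range z).filter (fun k => k % s = j)

lemma card_Pj (s z j : ℕ) : (Pj s z j).card ≤ z := by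
  unfold Pj
  exact (card_filter_le _ _).trans (by rw [card_range])

/-- the size of the error -/
noncomputable def er (δ Q V : ℝ) (z : ℕ) : ℝ := (z : ℝ) ^ δ * √((1 + Real.log Q) * (1 + Real.log Q + V))

lemma er_nonneg (δ Q V : ℝ) (z : ℕ) : 0 ≤ er δ Q V z := by unfold er; positivity

lemma er_mono (δ Q : ℝ) (hQ : 1 ≤ Q) {V V' : ℝ} (h : V ≤ V') (z : ℕ) : er δ Q V z ≤ er δ Q V' z := by
  unfold er
  apply mul_le_mul_of_nonneg_left _ (by positivity)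
  apply Real.sqrt_le_sqrt
  have := Real.log_nonneg hQ
  apply mul_le_mul_of_nonneg_left (by linarith) (by linarith)

lemma er_ge_one (δ Q V : ℝ) (hδ : 0 ≤ δ) (hQ : 1 ≤ Q) (hV : 0 ≤ V) (z : ℕ) (hz : 1 ≤ z) : 1 ≤ er δ Q V z := by
  unfold er
  have h1 := Real.log_nonneg hQ
  have h2 : (1 : ℝ) ≤ z := by exact_mod_cast hz
  apply one_le_mul_of_one_le_of_one_le (Real.one_le_rpow h2 hδ)
  rw [Real.one_le_sqrt]
  exact one_le_mul_of_one_le_of_one_le (by linarith) (by linarith)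

/-- one range -/
theorem one (r s B D : ℕ) (δ ρ σ C : ℝ) (hδ : 0 < δ) (hρ : 0 < ρ) (hρ1 : ρ ≤ 1) (hσ : 0 < σ) (hσ1 : σ ≤ 1) (hC : 0 ≤ C) :
    ∃ (Z0 : ℕ) (κ : ℝ), 1 ≤ Z0 ∧ 0 < κ ∧ κ ≤ 1 ∧ ∀ (τ : Type) (Ω : Finset τ) (v : τ → Fin r → ℤ) (Q : ℝ), 1 ≤ Q →
      PED Ω v Q ρ σ C → ∀ (q : ℕ → ℕ), (∀ k, 0 < q k ∧ q k ≤ D * (k + 1) ^ B) →
      (∀ j k, j + s ≤ k → Nat.Coprime (q j) (q k)) → ∀ φ : ℕ → (Fin r → ℤ) → ℝ, (∀ k, Per (φ k) (q k)) →
      (∀ k u, |φ k u| ≤ 1) → (∀ k, rs (q k) (φ k) = 0) →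
      ∀ z j : ℕ, Z0 ≤ z → (z : ℝ) ≤ Q ^ κ → ∀ V : ℝ, ∑ k ∈ Pj s z j, mn (q k) (fun u => φ k u ^ 2) ≤ V →
      ((Ω.filter (fun ω => er δ Q V z < |∑ k ∈ Pj s z j, φ k (v ω)|)).card : ℝ) ≤ (1 + 2 * C) * (Ω.card * Q ^ (-(2 * κ))) := by
  classical
  obtain ⟨ρ', hρ'⟩ : ∃ ρ', ρ' = min ρ σ := ⟨_, rfl⟩
  have hρ'0 : 0 < ρ' := by rw [hρ']; exact lt_min hρ hσ
  have hρ'ρ : ρ' ≤ ρ := by rw [hρ']; exact min_le_left _ _
  have hρ'σ : ρ' ≤ σ := by rw [hρ']; exact min_le_right _ _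
  have hB0 : (0 : ℝ) ≤ B := Nat.cast_nonneg B
  have hr0 : (0 : ℝ) ≤ r := Nat.cast_nonneg r
  obtain ⟨R, hR⟩ : ∃ R : ℝ, R = ((B : ℝ) + 2) * (r + 1) + 1 := ⟨_, rfl⟩
  have hR0 : 1 ≤ R := by rw [hR]; nlinarith
  obtain ⟨b0, hb0⟩ : ∃ b0 : ℝ, b0 = 8 * R / ρ' := ⟨_, rfl⟩
  have hb08 : 8 ≤ b0 := by rw [hb0, le_div_iff₀ hρ'0]; nlinarith
  have hb0p : 0 < b0 := by linarith
  obtain ⟨κ, hκ⟩ : ∃ κ : ℝ, κ = min (1 / (2 * b0)) (min (δ / (2 * b0)) (min (σ / 4) (1 / 4))) := ⟨_, rfl⟩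
  have hκ0 : 0 < κ := by
    rw [hκ]
    refine lt_min (by positivity) (lt_min (by positivity) (lt_min (by positivity) (by norm_num)))
  have hκ1 : κ ≤ 1 / (2 * b0) := by rw [hκ]; exact min_le_left _ _
  have hκ2 : κ ≤ δ / (2 * b0) := by rw [hκ]; exact (min_le_right _ _).trans (min_le_left _ _)
  have hκσ : κ ≤ σ / 4 := by rw [hκ]; exact (min_le_right _ _).trans ((min_le_right _ _).trans (min_le_left _ _))
  have hκ3 : κ ≤ 1 / 4 := by rw [hκ]; exact (min_le_right _ _).trans ((min_le_right _ _).trans (min_le_right _ _))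
  refine ⟨max D 3, κ, by omega, hκ0, by linarith, ?_⟩
  intro τ Ω v Q hQ hv q hq hcop φ hper hle hsum z j hz hzQ V hV
  have hQ0 : 0 < Q := by linarith
  have hz3 : 3 ≤ z := le_trans (le_max_right _ _) hz
  have hzD : D ≤ z := le_trans (le_max_left _ _) hz
  have hz3r : (3 : ℝ) ≤ z := by exact_mod_cast hz3
  have hz0 : (0 : ℝ) < z := by linarith
  obtain ⟨L, hL⟩ : ∃ L : ℝ, L = Real.log Q := ⟨_, rfl⟩
  obtain ⟨lz, hlz⟩ : ∃ lz : ℝ, lz = Real.log z := ⟨_, rfl⟩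
  have hL0 : 0 ≤ L := by rw [hL]; exact Real.log_nonneg hQ
  have hlz1 : 1 ≤ lz := by
    rw [hlz, Real.le_log_iff_exp_le hz0]
    have := Real.exp_one_lt_d9
    linarith
  have hlz0 : 0 < lz := by linarith
  have hlzL : 2 * b0 * lz ≤ L := by
    have h1 : lz ≤ Real.log (Q ^ κ) := by rw [hlz]; exact Real.log_le_log hz0 hzQ
    rw [Real.log_rpow hQ0, ← hL] at h1
    have h2 : κ * L ≤ 1 / (2 * b0) * L := mul_le_mul_of_nonneg_right hκ1 hL0
    have h3 : lz ≤ 1 / (2 * b0) * L := h1.trans h2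
    calc 2 * b0 * lz ≤ 2 * b0 * (1 / (2 * b0) * L) := mul_le_mul_of_nonneg_left h3 (by positivity)
      _ = L := by field_simp
  obtain ⟨m, hm⟩ : ∃ m : ℕ, m = ⌊L / (b0 * lz)⌋₊ := ⟨_, rfl⟩
  have hm1 : (m : ℝ) ≤ L / (b0 * lz) := by rw [hm]; exact Nat.floor_le (by positivity)
  have hm2 : L / (2 * b0 * lz) ≤ m := by
    have h1 : L / (b0 * lz) < m + 1 := by rw [hm]; exact Nat.lt_floor_add_one _
    have h2 : 1 ≤ L / (2 * b0 * lz) := by rw [le_div_iff₀ (by positivity)]; linarith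
    have h3 : L / (b0 * lz) = L / (2 * b0 * lz) + L / (2 * b0 * lz) := by field_simp; ring
    linarith
  have hm8 : (m : ℝ) ≤ L / 8 := by
    refine hm1.trans ?_
    apply div_le_div_of_nonneg_left hL0 (by norm_num)
    nlinarith
  have hmlz1 : m * lz ≤ L / b0 := by
    calc m * lz ≤ L / (b0 * lz) * lz := mul_le_mul_of_nonneg_right hm1 hlz0.le
      _ = L / b0 := by field_simp
  have hmlz2 : L / (2 * b0) ≤ m * lz := by
    calc L / (2 * b0) = L / (2 * b0 * lz) * lz := by field_simp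
      _ ≤ m * lz := mul_le_mul_of_nonneg_right hm2 hlz0.le
  have hV0 : 0 ≤ V := le_trans (sum_nonneg fun k _ => mn_nonneg fun u => sq_nonneg _) hV
  obtain ⟨W, hW⟩ : ∃ W : ℝ, W = 1 + L + V := ⟨_, rfl⟩
  have hW1 : 1 ≤ W := by rw [hW]; linarith
  obtain ⟨b, hb⟩ : ∃ b : ℝ, b = er δ Q V z := ⟨_, rfl⟩
  have hb1 : 1 ≤ b := by rw [hb]; exact er_ge_one δ Q V hδ.le hQ hV0 z (by omega)
  have hbp : 0 < b := by linarith
  have hb2 : b ^ 2 = (z : ℝ) ^ (2 * δ) * ((1 + L) * W) := by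
    rw [hb, er, mul_pow, Real.sq_sqrt (by rw [← hL]; positivity), ← hL, ← hW, ← Real.rpow_natCast ((z : ℝ) ^ δ) 2,
      ← Real.rpow_mul hz0.le]
    congr 2
    push_cast
    ring
  have hzpow : ∀ a : ℝ, (z : ℝ) ^ a = Real.exp (a * lz) := by
    intro a
    rw [Real.rpow_def_of_pos hz0, hlz]; ring_nf
  have hQpow : ∀ a : ℝ, Q ^ a = Real.exp (a * L) := by
    intro a
    rw [Real.rpow_def_of_pos hQ0, hL]; ring_nf
  -- the moduli
  obtain ⟨Y, hY⟩ : ∃ Y : ℕ, Y = D * z ^ B + 1 := ⟨_, rfl⟩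
  have hYz : (Y : ℝ) ≤ (z : ℝ) ^ ((B : ℝ) + 2) := by
    rw [hY]
    push_cast
    have hDz : (D : ℝ) ≤ z := by exact_mod_cast hzD
    have h2 : (z : ℝ) ^ ((B : ℝ) + 2) = z * (z : ℝ) ^ B * z := by
      rw [show (B : ℝ) + 2 = 1 + B + 1 by ring, Real.rpow_add hz0, Real.rpow_add hz0, Real.rpow_one, Real.rpow_natCast]
    rw [h2]
    have h3 : (1 : ℝ) ≤ (z : ℝ) ^ B := one_le_pow₀ (by linarith)
    have h5 : (D : ℝ) * (z : ℝ) ^ B ≤ z * (z : ℝ) ^ B := mul_le_mul_of_nonneg_right hDz (by positivity)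
    have h6 : (1 : ℝ) ≤ z * (z : ℝ) ^ B := one_le_mul_of_one_le_of_one_le (by linarith) h3
    have h7 : (z : ℝ) * (z : ℝ) ^ B * 2 ≤ z * (z : ℝ) ^ B * z := mul_le_mul_of_nonneg_left (by linarith) (by linarith)
    linarith
  have hY1 : (1 : ℝ) ≤ Y := by
    have : 1 ≤ Y := by omega
    exact_mod_cast this
  have hYQ : (Y : ℝ) ^ (2 * m) ≤ Q ^ ρ := by
    calc (Y : ℝ) ^ (2 * m) ≤ ((z : ℝ) ^ ((B : ℝ) + 2)) ^ (2 * m) := pow_le_pow_left₀ (by positivity) hYz _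
      _ = Real.exp (2 * ((B : ℝ) + 2) * (m * lz)) := by
          rw [hzpow, ← Real.exp_nat_mul]; congr 1; push_cast; ring
      _ ≤ Real.exp (ρ * L) := by
          apply Real.exp_le_exp.mpr
          have h2 : 2 * ((B : ℝ) + 2) * (m * lz) ≤ 2 * ((B : ℝ) + 2) * (L / b0) := mul_le_mul_of_nonneg_left hmlz1 (by positivity)
          have h4 : 2 * ((B : ℝ) + 2) ≤ ρ * b0 := by
            have h5 : ρ' * b0 = 8 * R := by rw [hb0]; field_simp
            have h6 : ρ' * b0 ≤ ρ * b0 := mul_le_mul_of_nonneg_right hρ'ρ hb0p.le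
            have h7 : (B : ℝ) + 2 ≤ R := by rw [hR]; nlinarith
            linarith
          have h3 : 2 * ((B : ℝ) + 2) * (L / b0) ≤ ρ * b0 * (L / b0) := mul_le_mul_of_nonneg_right h4 (by positivity)
          have h8 : ρ * b0 * (L / b0) = ρ * L := by field_simp
          linarith
      _ = _ := (hQpow ρ).symm
  have hmem : ∀ k ∈ Pj s z j, k < z ∧ k % s = j := by
    intro k hk
    rw [Pj, mem_filter, mem_range] at hk
    exact hk
  have hmom := moment hv hC hQ0.le (Pj s z j) q φ Y (by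
      intro k hk
      refine ⟨(hq k).1, ?_⟩
      have h1 := (hq k).2
      have h2 : (k + 1) ^ B ≤ z ^ B := Nat.pow_le_pow_left (hmem k hk).1 B
      have h3 : D * (k + 1) ^ B ≤ D * z ^ B := Nat.mul_le_mul_left D h2
      omega) (by omega) (by
      intro i hi k hk hik
      obtain ⟨_, hi2⟩ := hmem i hi
      obtain ⟨_, hk2⟩ := hmem k hk
      have hmod : i ≡ k [MOD s] := by rw [Nat.ModEq, hi2, hk2]
      rcases lt_or_gt_of_ne hik with hlt | hlt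
      · apply hcop
        obtain ⟨c, hc⟩ := (Nat.modEq_iff_dvd' hlt.le).mp hmod
        have hc0 : c ≠ 0 := by rintro rfl; omega
        have : s ≤ s * c := Nat.le_mul_of_pos_right s (Nat.pos_of_ne_zero hc0)
        omega
      · apply Nat.Coprime.symm
        apply hcop
        obtain ⟨c, hc⟩ := (Nat.modEq_iff_dvd' hlt.le).mp hmod.symm
        have hc0 : c ≠ 0 := by rintro rfl; omega
        have : s ≤ s * c := Nat.le_mul_of_pos_right s (Nat.pos_of_ne_zero hc0)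
        omega) (fun k _ => hper k) hle (fun k _ => hsum k) m hYQ W (by rw [hW]; linarith) (by rw [hW]; linarith)
  obtain ⟨Bd, hBd⟩ : ∃ Bd, Bd = Ω.filter (fun ω => er δ Q V z < |∑ k ∈ Pj s z j, φ k (v ω)|) := ⟨_, rfl⟩
  rw [← hBd]
  have h1 : (Bd.card : ℝ) * b ^ (2 * m) ≤ ∑ ω ∈ Ω, (∑ k ∈ Pj s z j, φ k (v ω)) ^ (2 * m) := by
    calc (Bd.card : ℝ) * b ^ (2 * m) = ∑ ω ∈ Bd, b ^ (2 * m) := by rw [sum_const, nsmul_eq_mul]
      _ ≤ ∑ ω ∈ Bd, (∑ k ∈ Pj s z j, φ k (v ω)) ^ (2 * m) := by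
          refine sum_le_sum fun ω hω => ?_
          rw [hBd, mem_filter, ← hb] at hω
          rw [← (even_two_mul m).pow_abs (∑ k ∈ Pj s z j, φ k (v ω))]
          exact pow_le_pow_left₀ hbp.le hω.2.le _
      _ ≤ _ := sum_le_sum_of_subset_of_nonneg (by rw [hBd]; exact filter_subset _ _) fun ω _ _ =>
          (even_two_mul m).pow_nonneg _
  have hb2m : 0 < b ^ (2 * m) := by positivity
  have hΩ0 : (0 : ℝ) ≤ Ω.card := Nat.cast_nonneg _
  -- the first term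
  have hX : Real.exp 1 ^ 2 * m * W ≤ (z : ℝ) ^ (-(2 * δ)) * b ^ 2 := by
    have e1 : (z : ℝ) ^ (-(2 * δ)) * b ^ 2 = (1 + L) * W := by
      rw [hb2, ← mul_assoc, ← Real.rpow_add hz0, neg_add_cancel, Real.rpow_zero, one_mul]
    rw [e1]
    apply mul_le_mul_of_nonneg_right _ (by linarith)
    have h3 : Real.exp 1 ^ 2 ≤ 8 := by
      have := Real.exp_one_lt_d9
      have h4 := Real.exp_pos 1
      nlinarith
    have h5 : (0 : ℝ) ≤ m := Nat.cast_nonneg m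
    nlinarith
  have hXm : (Real.exp 1 ^ 2 * m * W) ^ m ≤ Q ^ (-(2 * κ)) * b ^ (2 * m) := by
    calc (Real.exp 1 ^ 2 * m * W) ^ m ≤ ((z : ℝ) ^ (-(2 * δ)) * b ^ 2) ^ m := pow_le_pow_left₀ (by positivity) hX m
      _ = Real.exp (-(2 * δ) * (m * lz)) * b ^ (2 * m) := by
          rw [mul_pow, hzpow, ← Real.exp_nat_mul, ← pow_mul]
          congr 2
          ring
      _ ≤ Q ^ (-(2 * κ)) * b ^ (2 * m) := by
          apply mul_le_mul_of_nonneg_right _ hb2m.le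
          rw [hQpow]
          apply Real.exp_le_exp.mpr
          have h2 : κ * L ≤ δ * (m * lz) := by
            calc κ * L ≤ δ / (2 * b0) * L := mul_le_mul_of_nonneg_right hκ2 hL0
              _ = δ * (L / (2 * b0)) := by ring
              _ ≤ δ * (m * lz) := mul_le_mul_of_nonneg_left hmlz2 hδ.le
          linarith
  -- the second term
  have hPY : ((Pj s z j).card : ℝ) * (Y : ℝ) ^ r ≤ (z : ℝ) ^ R := by
    have hPz : ((Pj s z j).card : ℝ) ≤ z := by exact_mod_cast card_Pj s z j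
    calc ((Pj s z j).card : ℝ) * (Y : ℝ) ^ r ≤ z * ((z : ℝ) ^ ((B : ℝ) + 2)) ^ r :=
          mul_le_mul hPz (pow_le_pow_left₀ (by positivity) hYz _) (by positivity) hz0.le
      _ = (z : ℝ) ^ (1 + ((B : ℝ) + 2) * r) := by
          rw [← Real.rpow_natCast ((z : ℝ) ^ ((B : ℝ) + 2)) r, ← Real.rpow_mul hz0.le, Real.rpow_add hz0, Real.rpow_one]
      _ ≤ (z : ℝ) ^ R := by
          apply Real.rpow_le_rpow_of_exponent_le (by linarith)
          rw [hR]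
          nlinarith
  have hPYm : (((Pj s z j).card : ℝ) * (Y : ℝ) ^ r) ^ (2 * m) ≤ Q ^ (σ / 2) := by
    calc _ ≤ ((z : ℝ) ^ R) ^ (2 * m) := pow_le_pow_left₀ (by positivity) hPY _
      _ = Real.exp (2 * R * (m * lz)) := by
          rw [hzpow, ← Real.exp_nat_mul]; congr 1; push_cast; ring
      _ ≤ Real.exp (σ / 2 * L) := by
          apply Real.exp_le_exp.mpr
          have h2 : 2 * R * (m * lz) ≤ 2 * R * (L / b0) := mul_le_mul_of_nonneg_left hmlz1 (by positivity)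
          have h4 : 2 * R ≤ σ / 2 * b0 := by
            have h5 : ρ' * b0 = 8 * R := by rw [hb0]; field_simp
            have h6 : ρ' * b0 ≤ σ * b0 := mul_le_mul_of_nonneg_right hρ'σ hb0p.le
            linarith
          have h3 : 2 * R * (L / b0) ≤ σ / 2 * b0 * (L / b0) := mul_le_mul_of_nonneg_right h4 (by positivity)
          have h8 : σ / 2 * b0 * (L / b0) = σ / 2 * L := by field_simp
          linarith
      _ = _ := (hQpow _).symm
  have hsecond : (((Pj s z j).card : ℝ) * (Y : ℝ) ^ r) ^ (2 * m) * (2 * (C * (Ω.card * Q ^ (-σ)))) ≤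
      2 * C * (Ω.card * Q ^ (-(2 * κ))) * b ^ (2 * m) := by
    have hbm : 1 ≤ b ^ (2 * m) := one_le_pow₀ hb1
    calc _ ≤ Q ^ (σ / 2) * (2 * (C * (Ω.card * Q ^ (-σ)))) := mul_le_mul_of_nonneg_right hPYm (by positivity)
      _ = 2 * C * (Ω.card * Q ^ (-(σ / 2))) := by
          have : Q ^ (-(σ / 2)) = Q ^ (σ / 2) * Q ^ (-σ) := by
            rw [← Real.rpow_add hQ0]
            congr 1
            ring
          rw [this]
          ring
      _ ≤ 2 * C * (Ω.card * Q ^ (-(2 * κ))) := by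
          apply mul_le_mul_of_nonneg_left _ (by positivity)
          apply mul_le_mul_of_nonneg_left _ hΩ0
          apply Real.rpow_le_rpow_of_exponent_le hQ
          linarith
      _ = 2 * C * (Ω.card * Q ^ (-(2 * κ))) * 1 := (mul_one _).symm
      _ ≤ _ := mul_le_mul_of_nonneg_left hbm (by positivity)
  have hfirst : (Ω.card : ℝ) * (Real.exp 1 ^ 2 * m * W) ^ m ≤ Ω.card * Q ^ (-(2 * κ)) * b ^ (2 * m) := by
    refine (mul_le_mul_of_nonneg_left hXm hΩ0).trans (le_of_eq ?_)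
    ring
  have hall : (Bd.card : ℝ) * b ^ (2 * m) ≤ ((1 + 2 * C) * (Ω.card * Q ^ (-(2 * κ)))) * b ^ (2 * m) := by
    refine h1.trans (hmom.trans ?_)
    calc _ ≤ Ω.card * Q ^ (-(2 * κ)) * b ^ (2 * m) + 2 * C * (Ω.card * Q ^ (-(2 * κ))) * b ^ (2 * m) := add_le_add hfirst hsecond
      _ = _ := by ring
  exact le_of_mul_le_mul_right hall hb2m

/-- the sum of the variances -/
noncomputable def vs {r : ℕ} (q : ℕ → ℕ) (φ : ℕ → (Fin r → ℤ) → ℝ) (K : ℕ) : ℝ := ∑ k ∈ range K, mn (q k) (fun u => φ k u ^ 2)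

lemma vs_nonneg {r : ℕ} (q : ℕ → ℕ) (φ : ℕ → (Fin r → ℤ) → ℝ) (K : ℕ) : 0 ≤ vs q φ K :=
  sum_nonneg fun k _ => mn_nonneg fun u => sq_nonneg _

/-- **square root cancellation for almost all members** -/
theorem good (r s B D : ℕ) (hs : 1 ≤ s) (δ ρ σ C : ℝ) (hδ : 0 < δ) (hρ : 0 < ρ) (hρ1 : ρ ≤ 1) (hσ : 0 < σ) (hσ1 : σ ≤ 1)
    (hC : 0 ≤ C) :
    ∃ κ C' : ℝ, 0 < κ ∧ κ ≤ 1 ∧ 1 ≤ C' ∧ ∀ (τ : Type) (Ω : Finset τ) (v : τ → Fin r → ℤ) (Q : ℝ), 1 ≤ Q →
      PED Ω v Q ρ σ C → ∀ (q : ℕ → ℕ), (∀ k, 0 < q k ∧ q k ≤ D * (k + 1) ^ B) →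
      (∀ j k, j + s ≤ k → Nat.Coprime (q j) (q k)) → ∀ φ : ℕ → (Fin r → ℤ) → ℝ, (∀ k, Per (φ k) (q k)) →
      (∀ k u, |φ k u| ≤ 1) → (∀ k, rs (q k) (φ k) = 0) →
      ∃ E : Finset τ, E ⊆ Ω ∧ (E.card : ℝ) ≤ C' * (Ω.card * Q ^ (-κ)) ∧ ∀ ω ∈ Ω, ω ∉ E → ∀ K : ℕ, (K : ℝ) ≤ Q ^ κ →
        |∑ k ∈ range K, φ k (v ω)| ≤ C' * er δ Q (vs q φ K) K := by
  classical
  obtain ⟨Z0, κ, hZ0, hκ0, hκ1, H⟩ := one r s B D δ ρ σ C hδ hρ hρ1 hσ hσ1 hC
  have hsr : (1 : ℝ) ≤ s := by exact_mod_cast hs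
  have hZr : (1 : ℝ) ≤ Z0 := by exact_mod_cast hZ0
  refine ⟨κ, 2 * s * Z0 * (1 + 2 * C), hκ0, hκ1, ?_, ?_⟩
  · have h1 : (1 : ℝ) ≤ s * Z0 := one_le_mul_of_one_le_of_one_le hsr hZr
    have h2 : (1 : ℝ) ≤ 1 + 2 * C := by linarith
    have h3 := one_le_mul_of_one_le_of_one_le h1 h2
    nlinarith
  intro τ Ω v Q hQ hv q hq hcop φ hper hle hsum
  have hQ0 : 0 < Q := by linarith
  obtain ⟨Vs, hVs⟩ : ∃ Vs, Vs = (Icc 1 ⌊Q ^ κ⌋₊).filter (fun z : ℕ => Z0 ≤ z) := ⟨_, rfl⟩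
  obtain ⟨Bd, hBd⟩ : ∃ Bd : ℕ → ℕ → Finset τ, Bd = fun z j => Ω.filter
    (fun ω => er δ Q (vs q φ z) z < |∑ k ∈ Pj s z j, φ k (v ω)|) := ⟨_, rfl⟩
  have hvar : ∀ z j, ∑ k ∈ Pj s z j, mn (q k) (fun u => φ k u ^ 2) ≤ vs q φ z := by
    intro z j
    apply sum_le_sum_of_subset_of_nonneg
    · unfold Pj
      exact filter_subset _ _
    · intro k _ _
      exact mn_nonneg fun u => sq_nonneg _
  refine ⟨Vs.biUnion (fun z => (range s).biUnion (Bd z)), ?_, ?_, ?_⟩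
  · intro ω hω
    rw [mem_biUnion] at hω
    obtain ⟨z, _, hω⟩ := hω
    rw [mem_biUnion] at hω
    obtain ⟨j, _, hω⟩ := hω
    rw [hBd] at hω
    exact (mem_filter.1 hω).1
  · have h1 : ∀ z ∈ Vs, ∀ j, ((Bd z j).card : ℝ) ≤ (1 + 2 * C) * (Ω.card * Q ^ (-(2 * κ))) := by
      intro z hz j
      rw [hVs, mem_filter, mem_Icc] at hz
      have hzκ : (z : ℝ) ≤ Q ^ κ :=
        (Nat.cast_le.mpr hz.1.2).trans (Nat.floor_le (Real.rpow_nonneg hQ0.le _))
      rw [hBd]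
      exact H τ Ω v Q hQ hv q hq hcop φ hper hle hsum z j hz.2 hzκ _ (hvar z j)
    have h2 : ((Vs.biUnion (fun z => (range s).biUnion (Bd z))).card : ℝ) ≤
        ∑ z ∈ Vs, ∑ j ∈ range s, ((Bd z j).card : ℝ) := by
      have h3 : (Vs.biUnion (fun z => (range s).biUnion (Bd z))).card ≤
          ∑ z ∈ Vs, ∑ j ∈ range s, (Bd z j).card :=
        card_biUnion_le.trans (sum_le_sum fun z _ => card_biUnion_le)
      exact_mod_cast h3
    have h3 : (Vs.card : ℝ) ≤ Q ^ κ := by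
      have h4 : Vs.card ≤ ⌊Q ^ κ⌋₊ := by
        rw [hVs]
        calc _ ≤ (Icc 1 ⌊Q ^ κ⌋₊).card := card_filter_le _ _
          _ = _ := by rw [Nat.card_Icc, Nat.add_sub_cancel]
      exact (Nat.cast_le.mpr h4).trans (Nat.floor_le (Real.rpow_nonneg hQ0.le _))
    have hQp : 0 ≤ Q ^ (-(2 * κ)) := Real.rpow_nonneg hQ0.le _
    have hΩ0 : (0 : ℝ) ≤ Ω.card := Nat.cast_nonneg _
    calc _ ≤ ∑ z ∈ Vs, ∑ j ∈ range s, ((Bd z j).card : ℝ) := h2
      _ ≤ ∑ z ∈ Vs, ∑ j ∈ range s, (1 + 2 * C) * (Ω.card * Q ^ (-(2 * κ))) :=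
          sum_le_sum fun z hz => sum_le_sum fun j _ => h1 z hz j
      _ = Vs.card * (s * ((1 + 2 * C) * (Ω.card * Q ^ (-(2 * κ))))) := by
          rw [sum_const, sum_const, card_range, nsmul_eq_mul, nsmul_eq_mul]
      _ ≤ Q ^ κ * (s * ((1 + 2 * C) * (Ω.card * Q ^ (-(2 * κ))))) := mul_le_mul_of_nonneg_right h3 (by positivity)
      _ = (1 + 2 * C) * s * (Ω.card * Q ^ (-κ)) := by
          have : Q ^ (-κ) = Q ^ κ * Q ^ (-(2 * κ)) := by
            rw [← Real.rpow_add hQ0]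
            congr 1
            ring
          rw [this]
          ring
      _ ≤ 2 * s * Z0 * (1 + 2 * C) * (Ω.card * Q ^ (-κ)) := by
          apply mul_le_mul_of_nonneg_right _ (by positivity)
          have h6 : (0 : ℝ) ≤ (1 + 2 * C) * s := by positivity
          nlinarith
  · intro ω hω hωE K hK
    have her := er_nonneg δ Q (vs q φ K) K
    rcases Nat.eq_zero_or_pos K with h0 | hK0
    · subst h0
      rw [range_zero, sum_empty, abs_zero]
      have : (0 : ℝ) ≤ 2 * s * Z0 * (1 + 2 * C) := by positivity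
      exact mul_nonneg this her
    by_cases hKZ : Z0 ≤ K
    · have hKV : K ∈ Vs := by
        rw [hVs, mem_filter, mem_Icc]
        exact ⟨⟨by omega, Nat.le_floor hK⟩, hKZ⟩
      have hsplit : ∑ k ∈ range K, φ k (v ω) = ∑ j ∈ range s, ∑ k ∈ Pj s K j, φ k (v ω) := by
        unfold Pj
        rw [sum_fiberwise_of_maps_to]
        intro k _
        rw [mem_range]
        exact Nat.mod_lt _ hs
      rw [hsplit]
      refine (abs_sum_le_sum_abs _ _).trans ?_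
      calc ∑ j ∈ range s, |∑ k ∈ Pj s K j, φ k (v ω)| ≤ ∑ j ∈ range s, er δ Q (vs q φ K) K := by
            refine sum_le_sum fun j hj => ?_
            by_contra hlt
            push Not at hlt
            apply hωE
            rw [mem_biUnion]
            refine ⟨K, hKV, ?_⟩
            rw [mem_biUnion]
            refine ⟨j, hj, ?_⟩
            rw [hBd, mem_filter]
            exact ⟨hω, hlt⟩
        _ = s * er δ Q (vs q φ K) K := by rw [sum_const, card_range, nsmul_eq_mul]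
        _ ≤ _ := by
            apply mul_le_mul_of_nonneg_right _ her
            have h1 : (s : ℝ) * 1 ≤ s * Z0 := mul_le_mul_of_nonneg_left hZr (by linarith)
            have h2 : (s : ℝ) * Z0 * 1 ≤ s * Z0 * (1 + 2 * C) := mul_le_mul_of_nonneg_left (by linarith) (by positivity)
            have h3 : (0 : ℝ) ≤ s * Z0 * (1 + 2 * C) := by positivity
            linarith
    · push Not at hKZ
      have h1 := er_ge_one δ Q (vs q φ K) hδ.le hQ (vs_nonneg q φ K) K hK0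
      have h2 : |∑ k ∈ range K, φ k (v ω)| ≤ K := by
        refine (abs_sum_le_sum_abs _ _).trans ?_
        calc ∑ k ∈ range K, |φ k (v ω)| ≤ ∑ k ∈ range K, (1 : ℝ) := sum_le_sum fun k _ => hle k _
          _ = K := by simp
      have h3 : (K : ℝ) ≤ Z0 := by exact_mod_cast hKZ.le
      have h4 : (Z0 : ℝ) ≤ 2 * s * Z0 * (1 + 2 * C) := by
        have h5 : (1 : ℝ) ≤ 2 * s * (1 + 2 * C) := by
          have := one_le_mul_of_one_le_of_one_le hsr (show (1 : ℝ) ≤ 1 + 2 * C by linarith)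
          nlinarith
        nlinarith
      calc |∑ k ∈ range K, φ k (v ω)| ≤ (2 * s * Z0 * (1 + 2 * C)) * 1 := by linarith
        _ ≤ _ := mul_le_mul_of_nonneg_left h1 (by positivity)

end Pool.Agent.U471.DQ
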