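import Pool.Agent.U471.DQ.Boxes

set_option autoImplicit false

/-!
Joint distribution of the values of a function of residues at several integers and at several consecutive primes.
-/

namespace Pool.Agent.U471.DQ

open Finset Polynomial Pool.Agent.TH869.SQ

/-- products over the coordinates -/
lemma mn_coord {r : ℕ} (p : ℕ) (g : Fin r → ℤ → ℝ) :
    mn p (fun u : Fin r → ℤ => ∏ i, g i (u i)) = ∏ i, ((∑ t ∈ range p, g i (t : ℤ)) / (p : ℝ)) := by
  unfold mn rs bx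
  rw [prod_div_distrib, prod_const, card_univ, Fintype.card_fin]
  congr 1
  rw [Finset.prod_univ_sum]

/-- products over consecutive primes -/
lemma mn_qs {r : ℕ} (s k : ℕ) (F : Fin s → (Fin r → ℤ) → ℝ) (hF : ∀ j : Fin s, Per (F j) (pr (k + j))) :
    mn (qs s k) (fun u => ∏ j, F j u) = ∏ j : Fin s, mn (pr (k + j)) (F j) := by
  classical
  have h := rs_prod (fun i : Fin s => pr (k + i)) F
    univ (fun i _ => (pr_prime _).pos) (by
      intro i _ j _ hij
      apply (Nat.coprime_primes (pr_prime _) (pr_prime _)).mpr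
      intro he
      apply hij
      have := pr_inj he
      exact Fin.ext (by omega)) (fun i _ => hF i)
  unfold mn
  rw [prod_div_distrib]
  congr 1
  · rw [← h.2]
    unfold qs
    rfl
  · unfold qs
    push_cast
    rw [prod_pow]

open Classical in
/-- **joint boxes for several integers at consecutive primes** -/
theorem near_joint (r d s : ℕ) (hd : 1 ≤ d) (hs : 1 ≤ s) (δ : ℝ) (hδ : 0 < δ) :
    ∃ κ C : ℝ, 0 < κ ∧ κ ≤ 1 ∧ 1 ≤ C ∧
    ∀ (N : ℕ) (R : ℝ) (f : Fin r → ℝ[X]), 1 ≤ N → 1 ≤ R → (∀ i, (f i).natDegree ≤ d) → Gen d N R f →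
    ∀ y : ℕ → ℤ → ℝ, (∀ (p : ℕ) (a a' : ℤ), (p : ℤ) ∣ a - a' → y p a = y p a') →
    ∃ E : Finset ℕ, E ⊆ range N ∧ (E.card : ℝ) ≤ C * (N * R ^ (-κ)) ∧ ∀ n ∈ range N, n ∉ E →
      ∀ z : Fin r → ℤ, Cl (R ^ κ) (fun i => (f i).eval (n : ℝ)) z → ∀ K : ℕ, (K : ℝ) ≤ R ^ κ →
        ∀ I : Fin r → Fin s → Set ℝ, (∀ i j, (I i j).OrdConnected) →
          |∑ k ∈ range K, ((if ∀ (i : Fin r) (j : Fin s), y (pr (k + j)) (z i) ∈ I i j then 1 else 0) -
            ∏ j : Fin s, ∏ i : Fin r, ((∑ t ∈ range (pr (k + j)), ind1 (I i j) (y (pr (k + j)) (t : ℤ))) / (pr (k + j) : ℝ)))| ≤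
            C * ((K : ℝ) ^ (1 / 2 + δ) * √(1 + Real.log R)) := by
  obtain ⟨κ, C, h1, h2, h3, H⟩ := near_boxes r d s (2 * s) ((4 * s ^ 2) ^ s) (r * s) hd hs δ hδ
  refine ⟨κ, C, h1, h2, h3, ?_⟩
  intro N R f hN hR hf hgen y hy
  obtain ⟨fe, hfe⟩ : ∃ fe : Fin (r * s) ≃ Fin r × Fin s, fe = finProdFinEquiv.symm := ⟨_, rfl⟩
  have hdv : ∀ (k : ℕ) (j : Fin s), pr (k + j) ∣ qs s k :=
    fun k j => dvd_prod_of_mem (fun i : Fin s => pr (k + i)) (mem_univ j)
  obtain ⟨E, hE1, hE2, hE3⟩ := H N R f hN hR hf hgen (qs s) (qs_le s hs) (qs_coprime s)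
    (fun k u e => y (pr (k + (fe e).2)) (u (fe e).1)) (by
      intro k u u' hu
      funext e
      apply hy
      exact (Int.natCast_dvd_natCast.2 (hdv k _)).trans (hu _))
  refine ⟨E, hE1, hE2, ?_⟩
  intro n hn hnE z hz K hK I hI
  have h := hE3 n hn hnE z hz K hK (fun e => I (fe e).1 (fe e).2) (fun e => hI _ _)
  have e1 : ∀ (k : ℕ) (u : Fin r → ℤ), ind (fun e => I (fe e).1 (fe e).2) (fun e => y (pr (k + (fe e).2)) (u (fe e).1)) =
      ∏ j : Fin s, ∏ i : Fin r, ind1 (I i j) (y (pr (k + j)) (u i)) := by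
    intro k u
    rw [ind_eq_prod]
    rw [Fintype.prod_equiv fe (fun e => ind1 (I (fe e).1 (fe e).2) (y (pr (k + (fe e).2)) (u (fe e).1)))
      (fun q => ind1 (I q.1 q.2) (y (pr (k + q.2)) (u q.1))) (fun e => rfl)]
    rw [Fintype.prod_prod_type, prod_comm]
  have e2 : ∀ (k : ℕ) (u : Fin r → ℤ), (if ∀ (i : Fin r) (j : Fin s), y (pr (k + j)) (u i) ∈ I i j then (1 : ℝ) else 0) =
      ind (fun e => I (fe e).1 (fe e).2) (fun e => y (pr (k + (fe e).2)) (u (fe e).1)) := by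
    intro k u
    unfold ind
    have : (∀ (i : Fin r) (j : Fin s), y (pr (k + j)) (u i) ∈ I i j) ↔
        (∀ e, y (pr (k + (fe e).2)) (u (fe e).1) ∈ I (fe e).1 (fe e).2) := by
      constructor
      · intro h e
        exact h _ _
      · intro h i j
        have := h (fe.symm (i, j))
        rwa [Equiv.apply_symm_apply] at this
    by_cases hc : ∀ (i : Fin r) (j : Fin s), y (pr (k + j)) (u i) ∈ I i j
    · rw [if_pos hc, if_pos (this.1 hc)]
    · rw [if_neg hc, if_neg (fun h' => hc (this.2 h'))]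
  have e3 : ∀ k, mn (qs s k) (fun u => ind (fun e => I (fe e).1 (fe e).2) (fun e => y (pr (k + (fe e).2)) (u (fe e).1))) =
      ∏ j : Fin s, ∏ i : Fin r, ((∑ t ∈ range (pr (k + j)), ind1 (I i j) (y (pr (k + j)) (t : ℤ))) / (pr (k + j) : ℝ)) := by
    intro k
    have : (fun u : Fin r → ℤ => ind (fun e => I (fe e).1 (fe e).2) (fun e => y (pr (k + (fe e).2)) (u (fe e).1))) =
        fun u => ∏ j : Fin s, (fun (j : Fin s) (u : Fin r → ℤ) => ∏ i : Fin r, ind1 (I i j) (y (pr (k + j)) (u i))) j u := by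
      funext u
      exact e1 k u
    rw [this, mn_qs s k]
    · apply prod_congr rfl
      intro j _
      exact mn_coord (pr (k + j)) (fun i a => ind1 (I i j) (y (pr (k + j)) a))
    · intro j u u' hu
      apply prod_congr rfl
      intro i _
      rw [hy _ _ _ (hu i)]
  have e : ∑ k ∈ range K, ((if ∀ (i : Fin r) (j : Fin s), y (pr (k + j)) (z i) ∈ I i j then (1 : ℝ) else 0) -
      ∏ j : Fin s, ∏ i : Fin r, ((∑ t ∈ range (pr (k + j)), ind1 (I i j) (y (pr (k + j)) (t : ℤ))) / (pr (k + j) : ℝ))) =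
      ∑ k ∈ range K, (ind (fun e => I (fe e).1 (fe e).2) (fun e => y (pr (k + (fe e).2)) (z (fe e).1)) -
        mn (qs s k) (fun u => ind (fun e => I (fe e).1 (fe e).2) (fun e => y (pr (k + (fe e).2)) (u (fe e).1)))) := by
    refine sum_congr rfl fun k _ => ?_
    rw [e2, e3]
  rw [e]
  exact h

end Pool.Agent.U471.DQ
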