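import Pool.Agent.U471.DQ.Ped
import Pool.Agent.TH869.SQ.Mo

set_option autoImplicit false

/-!
Even moments of sums of functions with coprime periods, in terms of the variances.
-/

namespace Pool.Agent.U471.DQ

open Finset
open Pool.Agent.TH869.SQ (TT mem_TT)

lemma pow_add_ge (V a : ℝ) (hV : 0 ≤ V) (ha : 0 ≤ a) (n : ℕ) : V ^ (n + 1) + (n + 1) * a * V ^ n ≤ (V + a) ^ (n + 1) := by
  induction n with
  | zero => simp
  | succ n ih =>
    have h1 : (V + a) ^ (n + 1 + 1) = (V + a) * (V + a) ^ (n + 1) := by ring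
    rw [h1]
    have h2 : (V + a) * (V ^ (n + 1) + (n + 1) * a * V ^ n) ≤ (V + a) * (V + a) ^ (n + 1) :=
      mul_le_mul_of_nonneg_left ih (by linarith)
    refine le_trans ?_ h2
    have h3 : 0 ≤ (n + 1) * a * a * V ^ n := by positivity
    push_cast
    have e : (V + a) * (V ^ (n + 1) + (n + 1) * a * V ^ n) =
        V ^ (n + 1 + 1) + (n + 1 + 1) * a * V ^ (n + 1) + (n + 1) * a * a * V ^ n := by ring
    rw [e]
    linarith

/-- elementary symmetric functions -/
lemma esym {ι : Type*} [DecidableEq ι] (v : ι → ℝ) (hv : ∀ i, 0 ≤ v i) (P : Finset ι) : ∀ j : ℕ,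
    ∑ J ∈ powersetCard j P, ∏ i ∈ J, v i ≤ (∑ i ∈ P, v i) ^ j / (j.factorial : ℝ) := by
  induction P using Finset.induction_on with
  | empty =>
    intro j
    rcases Nat.eq_zero_or_pos j with h | h
    · subst h
      simp
    · rw [powersetCard_eq_empty.2 (by rw [card_empty]; exact h), sum_empty, sum_empty, zero_pow h.ne', zero_div]
  | insert a P ha ih =>
    intro j
    rcases j with _ | j
    · simp
    · rw [powersetCard_succ_insert ha, sum_union, sum_insert ha]
      · have h1 : ∑ J ∈ (powersetCard j P).image (insert a), ∏ i ∈ J, v i = v a * ∑ J ∈ powersetCard j P, ∏ i ∈ J, v i := by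
          rw [sum_image, mul_sum]
          · apply sum_congr rfl
            intro J hJ
            rw [mem_powersetCard] at hJ
            rw [prod_insert (fun h => ha (hJ.1 h))]
          · intro J hJ J' hJ' h
            rw [mem_coe, mem_powersetCard] at hJ hJ'
            have e1 : J = (insert a J).erase a := (erase_insert (fun h => ha (hJ.1 h))).symm
            have e2 : J' = (insert a J').erase a := (erase_insert (fun h => ha (hJ'.1 h))).symm
            rw [e1, h, ← e2]
        rw [h1]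
        have hV : 0 ≤ ∑ i ∈ P, v i := sum_nonneg fun i _ => hv i
        have h2 := ih (j + 1)
        have h3 := mul_le_mul_of_nonneg_left (ih j) (hv a)
        have h4 := pow_add_ge (∑ i ∈ P, v i) (v a) hV (hv a) j
        have hf : (0 : ℝ) < ((j + 1).factorial : ℝ) := by positivity
        have hf' : ((j + 1).factorial : ℝ) = (j + 1) * (j.factorial : ℝ) := by
          rw [Nat.factorial_succ]
          push_cast
          ring
        have hj : (0 : ℝ) < (j.factorial : ℝ) := by positivity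
        calc _ ≤ (∑ i ∈ P, v i) ^ (j + 1) / ((j + 1).factorial : ℝ) + v a * ((∑ i ∈ P, v i) ^ j / (j.factorial : ℝ)) :=
              add_le_add h2 h3
          _ = ((∑ i ∈ P, v i) ^ (j + 1) + (j + 1) * v a * (∑ i ∈ P, v i) ^ j) / ((j + 1).factorial : ℝ) := by
              rw [hf']
              field_simp
          _ ≤ ((∑ i ∈ P, v i) + v a) ^ (j + 1) / ((j + 1).factorial : ℝ) := div_le_div_of_nonneg_right h4 hf.le
          _ = _ := by rw [add_comm]
      · rw [disjoint_left]
        intro J hJ hJ'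
        rw [mem_powersetCard] at hJ
        rw [mem_image] at hJ'
        obtain ⟨J', _, rfl⟩ := hJ'
        exact ha (hJ.1 (mem_insert_self _ _))

/-- the tuples in which every value is repeated -/
lemma comb {ι : Type*} [DecidableEq ι] (v : ι → ℝ) (hv : ∀ i, 0 ≤ v i) (P : Finset ι) (m : ℕ) :
    ∑ t ∈ TT P m, ∏ i ∈ univ.image t, v i ≤ ∑ j ∈ range (m + 1), (j : ℝ) ^ (2 * m) * ((∑ i ∈ P, v i) ^ j / (j.factorial : ℝ)) := by
  classical
  obtain ⟨JJ, hJJ⟩ : ∃ JJ : Finset (Finset ι), JJ = (range (m + 1)).biUnion (fun j => powersetCard j P) := ⟨_, rfl⟩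
  have hmap : ∀ t ∈ TT P m, univ.image t ∈ JJ := by
    intro t ht
    rw [mem_TT, Fintype.mem_piFinset] at ht
    obtain ⟨h1, h2⟩ := ht
    have himg : univ.image t ⊆ P := by
      intro i hi
      rw [mem_image] at hi
      obtain ⟨j, _, rfl⟩ := hi
      exact h1 j
    have hfib : ∀ i ∈ univ.image t, 2 ≤ (univ.filter (fun j => t j = i)).card := by
      intro i hi
      rw [mem_image] at hi
      obtain ⟨j, _, rfl⟩ := hi
      obtain ⟨j', hj', hj''⟩ := h2 j
      have h5 : ({j', j} : Finset (Fin (2 * m))) ⊆ univ.filter (fun k => t k = t j) := by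
        intro k hk
        rw [mem_insert, mem_singleton] at hk
        rw [mem_filter]
        rcases hk with rfl | rfl
        · exact ⟨mem_univ _, hj''⟩
        · exact ⟨mem_univ _, rfl⟩
      have h6 := card_le_card h5
      rwa [card_pair hj'] at h6
    have hcard : (univ.image t).card ≤ m := by
      have h3 : (univ : Finset (Fin (2 * m))).card =
          ∑ i ∈ univ.image t, (univ.filter (fun j => t j = i)).card :=
        card_eq_sum_card_fiberwise (fun x hx => mem_coe.mpr (mem_image_of_mem t (mem_univ x)))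
      have h4 : ∑ i ∈ univ.image t, 2 ≤ ∑ i ∈ univ.image t, (univ.filter (fun j => t j = i)).card :=
        sum_le_sum hfib
      rw [← h3, card_univ, Fintype.card_fin, sum_const, smul_eq_mul] at h4
      omega
    rw [hJJ, mem_biUnion]
    exact ⟨(univ.image t).card, mem_range.2 (by omega), mem_powersetCard.2 ⟨himg, rfl⟩⟩
  rw [← sum_fiberwise_of_maps_to hmap]
  have h1 : ∀ J ∈ JJ, ∑ t ∈ (TT P m).filter (fun t => univ.image t = J), ∏ i ∈ univ.image t, v i ≤
      (J.card : ℝ) ^ (2 * m) * ∏ i ∈ J, v i := by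
    intro J _
    have h2 : ∑ t ∈ (TT P m).filter (fun t => univ.image t = J), ∏ i ∈ univ.image t, v i =
        ∑ t ∈ (TT P m).filter (fun t => univ.image t = J), ∏ i ∈ J, v i := by
      apply sum_congr rfl
      intro t ht
      rw [(mem_filter.1 ht).2]
    rw [h2, sum_const, nsmul_eq_mul]
    apply mul_le_mul_of_nonneg_right _ (prod_nonneg fun i _ => hv i)
    have h3 : (TT P m).filter (fun t => univ.image t = J) ⊆ Fintype.piFinset (fun _ : Fin (2 * m) => J) := by
      intro t ht
      rw [mem_filter] at ht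
      rw [Fintype.mem_piFinset]
      intro j
      rw [← ht.2]
      exact mem_image_of_mem t (mem_univ j)
    have h4 := card_le_card h3
    rw [Fintype.card_piFinset] at h4
    simp only [prod_const, card_univ, Fintype.card_fin] at h4
    exact_mod_cast h4
  refine (sum_le_sum h1).trans ?_
  rw [hJJ, sum_biUnion]
  · apply sum_le_sum
    intro j _
    have h2 : ∑ J ∈ powersetCard j P, (J.card : ℝ) ^ (2 * m) * ∏ i ∈ J, v i = (j : ℝ) ^ (2 * m) * ∑ J ∈ powersetCard j P, ∏ i ∈ J, v i := by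
      rw [mul_sum]
      apply sum_congr rfl
      intro J hJ
      rw [(mem_powersetCard.1 hJ).2]
    rw [h2]
    exact mul_le_mul_of_nonneg_left (esym v hv P j) (by positivity)
  · intro j _ j' _ hne
    simp only [Function.onFun]
    rw [disjoint_left]
    intro J hJ hJ'
    exact hne ((mem_powersetCard.1 hJ).2.symm.trans (mem_powersetCard.1 hJ').2)

lemma comb_bd (V W : ℝ) (hV : 0 ≤ V) (m : ℕ) (hVW : V ≤ W) (hmW : (m : ℝ) ≤ W) :
    ∑ j ∈ range (m + 1), (j : ℝ) ^ (2 * m) * (V ^ j / (j.factorial : ℝ)) ≤ (Real.exp 1 ^ 2 * m * W) ^ m := by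
  have he1 : (1 : ℝ) ≤ Real.exp 1 := Real.one_le_exp zero_le_one
  have hW : 0 ≤ W := hV.trans hVW
  have hmeW : (m : ℝ) ≤ Real.exp 1 * W := hmW.trans (le_mul_of_one_le_left hW he1)
  have hterm : ∀ j ∈ range (m + 1), (j : ℝ) ^ (2 * m) * (V ^ j / (j.factorial : ℝ)) ≤ (Real.exp 1 * m * W) ^ m := by
    intro j hj
    rw [mem_range] at hj
    have hjm : (j : ℝ) ≤ m := by exact_mod_cast (by omega : j ≤ m)
    have h4 : (j : ℝ) ^ j / (j.factorial : ℝ) ≤ Real.exp 1 ^ j := by
      have := Real.pow_div_factorial_le_exp (j : ℝ) (Nat.cast_nonneg j) j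
      rwa [← mul_one (j : ℝ), Real.exp_nat_mul, mul_one] at this
    have e1 : (j : ℝ) ^ (2 * m) = (j : ℝ) ^ (2 * m - j) * (j : ℝ) ^ j := by
      rw [← pow_add, Nat.sub_add_cancel (by omega)]
    calc (j : ℝ) ^ (2 * m) * (V ^ j / (j.factorial : ℝ))
        = (j : ℝ) ^ (2 * m - j) * ((j : ℝ) ^ j / (j.factorial : ℝ)) * V ^ j := by rw [e1]; ring
      _ ≤ (m : ℝ) ^ (2 * m - j) * Real.exp 1 ^ j * W ^ j := by
          apply mul_le_mul _ (pow_le_pow_left₀ hV hVW j) (by positivity) (by positivity)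
          exact mul_le_mul (pow_le_pow_left₀ (Nat.cast_nonneg _) hjm _) h4 (by positivity) (by positivity)
      _ = (m : ℝ) ^ m * (m : ℝ) ^ (m - j) * (Real.exp 1 * W) ^ j := by
          have : 2 * m - j = m + (m - j) := by omega
          rw [this, pow_add, mul_pow]
          ring
      _ ≤ (m : ℝ) ^ m * (Real.exp 1 * W) ^ (m - j) * (Real.exp 1 * W) ^ j := by
          apply mul_le_mul_of_nonneg_right _ (by positivity)
          apply mul_le_mul_of_nonneg_left _ (by positivity)
          exact pow_le_pow_left₀ (Nat.cast_nonneg _) hmeW _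
      _ = (m : ℝ) ^ m * (Real.exp 1 * W) ^ m := by
          rw [mul_assoc, ← pow_add, Nat.sub_add_cancel (by omega)]
      _ = _ := by rw [← mul_pow]; congr 1; ring
  refine (sum_le_card_nsmul _ _ _ hterm).trans ?_
  rw [card_range, nsmul_eq_mul]
  have h5 : ((m + 1 : ℕ) : ℝ) ≤ Real.exp 1 ^ m := by
    have := Real.add_one_le_exp (m : ℝ)
    rw [← mul_one (m : ℝ), Real.exp_nat_mul, mul_one] at this
    push_cast
    exact this
  calc ((m + 1 : ℕ) : ℝ) * (Real.exp 1 * m * W) ^ m ≤ Real.exp 1 ^ m * (Real.exp 1 * m * W) ^ m :=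
        mul_le_mul_of_nonneg_right h5 (by positivity)
    _ = _ := by rw [← mul_pow]; congr 1; ring

/-- **even moments** -/
theorem moment {τ : Type} {r : ℕ} {Ω : Finset τ} {v : τ → Fin r → ℤ} {Q ρ σ C : ℝ} (hv : PED Ω v Q ρ σ C) (hC : 0 ≤ C)
    (hQ : 0 ≤ Q) {ι : Type} [DecidableEq ι] (P : Finset ι) (q : ι → ℕ) (φ : ι → (Fin r → ℤ) → ℝ) (Y : ℕ)
    (hq : ∀ i ∈ P, 0 < q i ∧ q i ≤ Y) (hY : 1 ≤ Y)
    (hcop : ∀ i ∈ P, ∀ j ∈ P, i ≠ j → Nat.Coprime (q i) (q j))
    (hper : ∀ i ∈ P, Per (φ i) (q i)) (hle : ∀ i u, |φ i u| ≤ 1)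
    (hsum : ∀ i ∈ P, rs (q i) (φ i) = 0) (m : ℕ) (hYQ : (Y : ℝ) ^ (2 * m) ≤ Q ^ ρ) (W : ℝ)
    (hVW : ∑ i ∈ P, mn (q i) (fun u => φ i u ^ 2) ≤ W) (hmW : (m : ℝ) ≤ W) :
    ∑ ω ∈ Ω, (∑ i ∈ P, φ i (v ω)) ^ (2 * m) ≤
      Ω.card * (Real.exp 1 ^ 2 * m * W) ^ m + ((P.card : ℝ) * (Y : ℝ) ^ r) ^ (2 * m) * (2 * (C * (Ω.card * Q ^ (-σ)))) := by
  classical
  have hCN : 0 ≤ C * (Ω.card * Q ^ (-σ)) := mul_nonneg hC (mul_nonneg (Nat.cast_nonneg _) (Real.rpow_nonneg hQ _))
  set T := Fintype.piFinset (fun _ : Fin (2 * m) => P) with hT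
  have hexp : ∀ u, (∑ i ∈ P, φ i u) ^ (2 * m) = ∑ t ∈ T, ∏ j, φ (t j) u := by
    intro n
    have h1 := (prod_univ_sum (fun _ : Fin (2 * m) => P) (fun _ i => φ i n)).symm
    rw [prod_const, card_univ, Fintype.card_fin] at h1
    exact h1.symm
  have hYr : (1 : ℝ) ≤ Y := by exact_mod_cast hY
  have hprod1 : ∀ (t : Fin (2 * m) → ι) u, |∏ j, φ (t j) u| ≤ 1 := by
    intro t u
    rw [abs_prod]
    exact prod_le_one (fun _ _ => abs_nonneg _) fun j _ => hle _ _
  obtain ⟨vr, hvr⟩ : ∃ vr : ι → ℝ, vr = fun i => mn (q i) (fun u => φ i u ^ 2) := ⟨_, rfl⟩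
  have hvr0 : ∀ i, 0 ≤ vr i := by
    intro i
    rw [hvr]
    exact mn_nonneg fun u => sq_nonneg _
  have hterm : ∀ t ∈ T, ∑ ω ∈ Ω, ∏ j, φ (t j) (v ω) ≤
      (if t ∈ TT P m then (Ω.card : ℝ) * ∏ i ∈ univ.image t, vr i else 0) +
        ((Y : ℝ) ^ r) ^ (2 * m) * (2 * (C * (Ω.card * Q ^ (-σ)))) := by
    intro t ht
    have ht' := ht
    rw [hT, Fintype.mem_piFinset] at ht'
    obtain ⟨I, hI⟩ : ∃ I, I = univ.image t := ⟨_, rfl⟩
    have himg : ∀ i ∈ I, i ∈ P := by
      intro i hi
      rw [hI, mem_image] at hi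
      obtain ⟨j, _, rfl⟩ := hi
      exact ht' j
    obtain ⟨ex, hex⟩ : ∃ ex : ι → ℕ, ex = fun i => (univ.filter (fun j => t j = i)).card := ⟨_, rfl⟩
    obtain ⟨F, hF⟩ : ∃ F : ι → (Fin r → ℤ) → ℝ, F = fun i u => φ i u ^ ex i := ⟨_, rfl⟩
    have he : ∀ u, ∏ j, φ (t j) u = ∏ i ∈ I, F i u := by
      intro u
      rw [hF, hI, hex]
      exact prod_comp (fun i => φ i u) t
    have hFper : ∀ i ∈ I, Per (F i) (q i) := by
      intro i hi u u' hu
      rw [hF]
      simp only
      rw [hper i (himg i hi) u u' hu]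
    obtain ⟨g1, g2⟩ := rs_prod q F I (fun i hi => (hq i (himg i hi)).1)
      (fun i hi j hj => hcop i (himg i hi) j (himg j hj)) hFper
    obtain ⟨M, hM⟩ : ∃ M, M = ∏ i ∈ I, q i := ⟨_, rfl⟩
    have hMpos : 0 < M := by rw [hM]; exact prod_pos fun i hi => (hq i (himg i hi)).1
    have h4 : (M : ℝ) ≤ (Y : ℝ) ^ (2 * m) := by
      have h5 : ∏ i ∈ I, q i ≤ Y ^ I.card :=
        prod_le_pow_card _ _ _ fun i hi => (hq i (himg i hi)).2
      have h6 : I.card ≤ 2 * m := by
        have := card_image_le (s := (univ : Finset (Fin (2 * m)))) (f := t)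
        rw [card_univ, Fintype.card_fin] at this
        rw [hI]
        exact this
      have h7 : Y ^ I.card ≤ Y ^ (2 * m) := Nat.pow_le_pow_right hY h6
      rw [hM]
      exact_mod_cast h5.trans h7
    rw [← hM] at g1 g2
    -- the mean of the product
    obtain ⟨μ, hμ⟩ : ∃ μ : ℝ, μ = mn M (fun u => ∏ i ∈ I, F i u) := ⟨_, rfl⟩
    have hμe : μ = ∏ i ∈ I, mn (q i) (F i) := by
      rw [hμ]
      unfold mn
      rw [g2, prod_div_distrib, hM]
      congr 1
      push_cast
      rw [prod_pow]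
    have hF1 : ∀ u, |∏ i ∈ I, F i u| ≤ 1 := by
      intro u
      rw [← he u]
      exact hprod1 t u
    have hμ1 : |μ| ≤ 1 := by
      have hMr : (0 : ℝ) < (M : ℝ) ^ r := by positivity
      rw [hμ]
      unfold mn rs
      rw [abs_div, abs_of_pos hMr, div_le_one hMr]
      refine (abs_sum_le_sum_abs _ _).trans ?_
      refine (sum_le_card_nsmul _ _ 1 fun z _ => hF1 _).trans ?_
      rw [card_bx, nsmul_eq_mul, mul_one]
      push_cast
      exact le_rfl
    -- the centered function
    have hest := hv.est M hMpos (h4.trans hYQ) (fun u => (∏ i ∈ I, F i u - μ) / 2) (by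
        intro u u' hu
        simp only
        have := g1 u u' hu
        simp only at this
        rw [this]) (by
        intro u
        have h5 := hF1 u
        rw [abs_div, abs_two, div_le_one (by norm_num)]
        calc |∏ i ∈ I, F i u - μ| ≤ |∏ i ∈ I, F i u| + |μ| := abs_sub _ _
          _ ≤ 2 := by linarith) (by
        unfold rs
        rw [← sum_div, sum_sub_distrib, sum_const, card_bx, nsmul_eq_mul, hμ]
        unfold mn rs
        have hMr : ((M : ℝ)) ^ r ≠ 0 := by positivity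
        push_cast
        rw [mul_div_cancel₀ _ hMr, sub_self, zero_div])
    have h5 : ∑ ω ∈ Ω, ∏ j, φ (t j) (v ω) = Ω.card * μ + 2 * ∑ ω ∈ Ω, (∏ i ∈ I, F i (v ω) - μ) / 2 := by
      rw [← sum_div, sum_sub_distrib, sum_const, nsmul_eq_mul]
      simp only [he]
      ring
    have h6 : ∑ ω ∈ Ω, (∏ i ∈ I, F i (v ω) - μ) / 2 ≤ ((Y : ℝ) ^ r) ^ (2 * m) * (C * (Ω.card * Q ^ (-σ))) := by
      refine (le_abs_self _).trans (hest.trans ?_)
      apply mul_le_mul_of_nonneg_right _ hCN
      rw [← pow_mul, mul_comm r, pow_mul]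
      exact pow_le_pow_left₀ (Nat.cast_nonneg _) h4 r
    have h7 : (Ω.card : ℝ) * μ ≤ if t ∈ TT P m then (Ω.card : ℝ) * ∏ i ∈ univ.image t, vr i else 0 := by
      by_cases hc : t ∈ TT P m
      · rw [if_pos hc]
        apply mul_le_mul_of_nonneg_left _ (Nat.cast_nonneg _)
        rw [hμe, ← hI]
        refine (le_abs_self _).trans ?_
        rw [abs_prod]
        apply prod_le_prod (fun i _ => abs_nonneg _)
        intro i hi
        -- the exponents are at least two
        have hex2 : 2 ≤ ex i := by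
          rw [hI, mem_image] at hi
          obtain ⟨j, _, rfl⟩ := hi
          obtain ⟨j', hj', hj''⟩ := (mem_TT.1 hc).2 j
          have h5 : ({j', j} : Finset (Fin (2 * m))) ⊆ univ.filter (fun k => t k = t j) := by
            intro k hk
            rw [mem_insert, mem_singleton] at hk
            rw [mem_filter]
            rcases hk with rfl | rfl
            · exact ⟨mem_univ _, hj''⟩
            · exact ⟨mem_univ _, rfl⟩
          have h6 := card_le_card h5
          rw [hex]
          rwa [card_pair hj'] at h6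
        rw [hvr, hF]
        simp only
        unfold mn rs
        rw [abs_div, abs_of_nonneg (by positivity : (0 : ℝ) ≤ (q i : ℝ) ^ r)]
        apply div_le_div_of_nonneg_right _ (by positivity)
        refine (abs_sum_le_sum_abs _ _).trans (sum_le_sum fun z _ => ?_)
        rw [abs_pow]
        simp only
        rw [← sq_abs (φ i _)]
        exact pow_le_pow_of_le_one (abs_nonneg _) (hle _ _) hex2
      · rw [if_neg hc]
        have hc' : ∃ j0, ∀ j', j' ≠ j0 → t j' ≠ t j0 := by
          by_contra h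
          push Not at h
          exact hc (mem_TT.mpr ⟨ht, h⟩)
        obtain ⟨j0, hj0⟩ := hc'
        have hi0 : t j0 ∈ I := by rw [hI]; exact mem_image_of_mem t (mem_univ j0)
        have hc1 : ex (t j0) = 1 := by
          rw [hex]
          simp only
          rw [card_eq_one]
          refine ⟨j0, ?_⟩
          ext j
          rw [mem_filter, mem_singleton]
          constructor
          · intro h
            by_contra hne
            exact hj0 j hne h.2
          · rintro rfl
            exact ⟨mem_univ _, rfl⟩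
        have hz : μ = 0 := by
          rw [hμe]
          apply prod_eq_zero hi0
          unfold mn
          rw [hF]
          simp only [hc1, pow_one]
          rw [hsum _ (himg _ hi0), zero_div]
        rw [hz, mul_zero]
    rw [h5]
    linarith
  have hTc : (T.card : ℝ) = (P.card : ℝ) ^ (2 * m) := by
    rw [hT, Fintype.card_piFinset]
    simp
  have hcomb := comb vr hvr0 P m
  have hcb := comb_bd (∑ i ∈ P, vr i) W (sum_nonneg fun i _ => hvr0 i) m (by rw [hvr]; exact hVW) hmW
  calc ∑ ω ∈ Ω, (∑ i ∈ P, φ i (v ω)) ^ (2 * m)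
      = ∑ t ∈ T, ∑ ω ∈ Ω, ∏ j, φ (t j) (v ω) := by
        rw [sum_comm]
        exact sum_congr rfl fun ω _ => hexp (v ω)
    _ ≤ ∑ t ∈ T, ((if t ∈ TT P m then (Ω.card : ℝ) * ∏ i ∈ univ.image t, vr i else 0) +
        ((Y : ℝ) ^ r) ^ (2 * m) * (2 * (C * (Ω.card * Q ^ (-σ))))) := sum_le_sum hterm
    _ = Ω.card * ∑ t ∈ TT P m, ∏ i ∈ univ.image t, vr i +
        T.card * (((Y : ℝ) ^ r) ^ (2 * m) * (2 * (C * (Ω.card * Q ^ (-σ))))) := by
        rw [sum_add_distrib, sum_const, nsmul_eq_mul, ← sum_filter]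
        have : T.filter (fun t => t ∈ TT P m) = TT P m := by
          ext t
          rw [mem_filter]
          constructor
          · exact fun h => h.2
          · intro h
            refine ⟨?_, h⟩
            rw [mem_TT] at h
            exact h.1
        rw [this, mul_sum]
    _ ≤ Ω.card * (Real.exp 1 ^ 2 * m * W) ^ m + (P.card : ℝ) ^ (2 * m) * (((Y : ℝ) ^ r) ^ (2 * m) * (2 * (C * (Ω.card * Q ^ (-σ))))) := by
        rw [hTc]
        apply add_le_add _ le_rfl
        exact mul_le_mul_of_nonneg_left (hcomb.trans hcb) (Nat.cast_nonneg _)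
    _ = _ := by rw [mul_pow (P.card : ℝ)]; ring

end Pool.Agent.U471.DQ
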