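import Pool.Agent.U471.DQ.Floor
import Pool.Agent.R459.Eq2

set_option autoImplicit false

/-!
Functions of several integers which are periodic in every variable; samples of integer vectors which are uniformly
distributed in residue classes.
-/

namespace Pool.Agent.U471.DQ

open Finset
open Pool.Agent.H469R2.NK (e norm_e e_add)

lemma dav_eq (x : ℝ) : Pool.Agent.H807R2.Dav.ee x = e x := by
  unfold Pool.Agent.H807R2.Dav.ee e
  congr 1
  try push_cast
  try ring

/-- periodic in every variable -/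
def Per {r : ℕ} (F : (Fin r → ℤ) → ℝ) (M : ℕ) : Prop :=
  ∀ u u' : Fin r → ℤ, (∀ i, (M : ℤ) ∣ u i - u' i) → F u = F u'

/-- the residues -/
def bx (r M : ℕ) : Finset (Fin r → ℕ) := Fintype.piFinset (fun _ => range M)

lemma mem_bx {r M : ℕ} {t : Fin r → ℕ} : t ∈ bx r M ↔ ∀ i, t i < M := by
  unfold bx
  rw [Fintype.mem_piFinset]
  simp only [mem_range]

lemma card_bx (r M : ℕ) : (bx r M).card = M ^ r := by
  unfold bx
  rw [Fintype.card_piFinset]
  simp

/-- the sum over the residues -/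
def rs {r : ℕ} (M : ℕ) (F : (Fin r → ℤ) → ℝ) : ℝ := ∑ t ∈ bx r M, F (fun i => (t i : ℤ))

/-- the mean over the residues -/
noncomputable def mn {r : ℕ} (M : ℕ) (F : (Fin r → ℤ) → ℝ) : ℝ := rs M F / (M : ℝ) ^ r

lemma mn_nonneg {r M : ℕ} {F : (Fin r → ℤ) → ℝ} (h : ∀ u, 0 ≤ F u) : 0 ≤ mn M F := by
  unfold mn rs
  exact div_nonneg (sum_nonneg fun t _ => h _) (by positivity)

lemma mn_le_one {r M : ℕ} {F : (Fin r → ℤ) → ℝ} (h : ∀ u, F u ≤ 1) : mn M F ≤ 1 := by
  unfold mn rs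
  rcases Nat.eq_zero_or_pos (M ^ r) with h0 | h0
  · have : ((M : ℝ) ^ r) = 0 := by exact_mod_cast h0
    rw [this, div_zero]
    exact zero_le_one
  · rw [div_le_one (by exact_mod_cast h0)]
    refine (sum_le_card_nsmul _ _ 1 fun t _ => h _).trans ?_
    rw [card_bx, nsmul_eq_mul, mul_one]
    push_cast
    exact le_rfl

/-- orthogonality -/
lemma orth (r M : ℕ) (hM : 1 ≤ M) (u : Fin r → ℤ) :
    ∑ a ∈ bx r M, e (∑ i, (a i : ℝ) * ((u i : ℝ) / M)) = if ∀ i, (M : ℤ) ∣ u i then ((M : ℂ)) ^ r else 0 := by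
  have h1 : ∀ a : Fin r → ℕ, e (∑ i, (a i : ℝ) * ((u i : ℝ) / M)) = ∏ i, e ((a i : ℝ) * ((u i : ℝ) / M)) := by
    intro a
    have : ∀ s : Finset (Fin r), e (∑ i ∈ s, (a i : ℝ) * ((u i : ℝ) / M)) = ∏ i ∈ s, e ((a i : ℝ) * ((u i : ℝ) / M)) := by
      intro s
      induction s using Finset.induction_on with
      | empty => simp [e]
      | insert i s hi ih => rw [sum_insert hi, prod_insert hi, e_add, ih]
    exact this univ
  simp only [h1]
  unfold bx
  rw [← prod_univ_sum (fun _ : Fin r => range M) (fun i (a : ℕ) => e ((a : ℝ) * ((u i : ℝ) / M)))]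
  have h2 : ∀ i, ∑ a ∈ range M, e ((a : ℝ) * ((u i : ℝ) / M)) = if (M : ℤ) ∣ u i then (M : ℂ) else 0 := by
    intro i
    have := Pool.Agent.R459.Eq.ee_sum_range M hM (u i)
    simp only [dav_eq] at this
    exact this
  simp only [h2]
  by_cases h : ∀ i, (M : ℤ) ∣ u i
  · rw [if_pos h, prod_congr rfl (fun i _ => if_pos (h i)), prod_const, card_univ, Fintype.card_fin]
  · rw [if_neg h]
    push Not at h
    obtain ⟨i, hi⟩ := h
    exact prod_eq_zero (mem_univ i) (if_neg hi)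

/-- the Fourier coefficients -/
noncomputable def co {r : ℕ} (M : ℕ) (F : (Fin r → ℤ) → ℝ) (a : Fin r → ℕ) : ℂ :=
  (1 / (M : ℂ) ^ r) * ∑ t ∈ bx r M, (F (fun i => (t i : ℤ)) : ℂ) * e (-(∑ i, (a i : ℝ) * ((t i : ℝ) / M)))

lemma co_zero {r : ℕ} (M : ℕ) (F : (Fin r → ℤ) → ℝ) (h : rs M F = 0) : co M F (fun _ => 0) = 0 := by
  unfold co
  have h1 : ∀ t ∈ bx r M, (F (fun i => (t i : ℤ)) : ℂ) * e (-(∑ i : Fin r, (((0 : ℕ) : ℝ)) * ((t i : ℝ) / M))) =
      (F (fun i => (t i : ℤ)) : ℂ) := by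
    intro t _
    simp [e]
  rw [sum_congr rfl h1, ← Complex.ofReal_sum]
  unfold rs at h
  rw [h]
  simp

lemma norm_co {r : ℕ} (M : ℕ) (hM : 1 ≤ M) (F : (Fin r → ℤ) → ℝ) (hF : ∀ u, |F u| ≤ 1) (a : Fin r → ℕ) : ‖co M F a‖ ≤ 1 := by
  have hM0 : (0 : ℝ) < (M : ℝ) ^ r := by positivity
  unfold co
  rw [norm_mul, norm_div, norm_one, norm_pow, Complex.norm_natCast, one_div, inv_mul_le_iff₀ hM0, mul_one]
  refine (norm_sum_le _ _).trans ?_
  refine (sum_le_card_nsmul _ _ 1 fun t _ => ?_).trans ?_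
  · rw [norm_mul, norm_e, mul_one, Complex.norm_real]
    exact hF _
  · rw [card_bx, nsmul_eq_mul, mul_one]
    push_cast
    exact le_rfl

lemma inversion {r : ℕ} (M : ℕ) (hM : 1 ≤ M) (F : (Fin r → ℤ) → ℝ) (hper : Per F M) (v : Fin r → ℤ) :
    (F v : ℂ) = ∑ a ∈ bx r M, co M F a * e (∑ i, (a i : ℝ) * ((v i : ℝ) / M)) := by
  have hM0 : ((M : ℂ)) ^ r ≠ 0 := pow_ne_zero _ (by exact_mod_cast (by omega : M ≠ 0))
  have h1 : ∑ a ∈ bx r M, co M F a * e (∑ i, (a i : ℝ) * ((v i : ℝ) / M)) =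
      ∑ t ∈ bx r M, (1 / (M : ℂ) ^ r) * (F (fun i => (t i : ℤ)) : ℂ) *
        ∑ a ∈ bx r M, e (∑ i, (a i : ℝ) * (((v i - t i : ℤ) : ℝ) / M)) := by
    unfold co
    simp only [mul_sum, sum_mul]
    rw [sum_comm]
    apply sum_congr rfl
    intro t _
    apply sum_congr rfl
    intro a _
    have e1 : e (∑ i, (a i : ℝ) * (((v i - t i : ℤ) : ℝ) / M)) =
        e (-(∑ i, (a i : ℝ) * ((t i : ℝ) / M))) * e (∑ i, (a i : ℝ) * ((v i : ℝ) / M)) := by
      rw [← e_add]
      congr 1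
      rw [← sum_neg_distrib, ← sum_add_distrib]
      apply sum_congr rfl
      intro i _
      push_cast
      ring
    rw [e1]
    ring
  rw [h1]
  -- the residue of `v`
  obtain ⟨t0, ht0⟩ : ∃ t0 : Fin r → ℕ, ∀ i, (t0 i : ℤ) = v i % M := ⟨fun i => (v i % M).toNat, fun i => by
    rw [Int.toNat_of_nonneg (Int.emod_nonneg _ (by omega))]⟩
  have ht0p : t0 ∈ bx r M := by
    rw [mem_bx]
    intro i
    have h2 := Int.emod_lt_of_pos (v i) (by omega : (0 : ℤ) < M)
    have h3 := ht0 i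
    omega
  have hdvd : ∀ i, (M : ℤ) ∣ v i - t0 i := by
    intro i
    rw [ht0 i]
    exact Int.dvd_self_sub_emod
  rw [sum_eq_single t0]
  · rw [orth r M hM, if_pos hdvd, hper v (fun i => (t0 i : ℤ)) hdvd]
    field_simp
  · intro t ht hne
    rw [orth r M hM, if_neg, mul_zero]
    intro h
    apply hne
    funext i
    rw [mem_bx] at ht ht0p
    have h2 : (M : ℤ) ∣ (t i : ℤ) - t0 i := by
      have := dvd_sub (hdvd i) (h i)
      rwa [show v i - (t0 i : ℤ) - (v i - t i) = t i - t0 i by ring] at this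
    have ha := ht i
    have hb := ht0p i
    have h3 := Int.eq_zero_of_abs_lt_dvd h2 (by rw [abs_lt]; omega)
    omega
  · intro h
    exact absurd ht0p h

/-- from exponential sums to functions of residues -/
lemma from_exp {τ : Type} {r : ℕ} (Ω : Finset τ) (v : τ → Fin r → ℤ) (M : ℕ) (hM : 1 ≤ M) (T : ℝ) (hT0 : 0 ≤ T)
    (hT : ∀ a ∈ bx r M, a ≠ (fun _ => 0) → ‖∑ ω ∈ Ω, e (∑ i, (a i : ℝ) * ((v ω i : ℝ) / M))‖ ≤ T)
    (F : (Fin r → ℤ) → ℝ) (hper : Per F M) (hF : ∀ u, |F u| ≤ 1) (h0 : rs M F = 0) :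
    |∑ ω ∈ Ω, F (v ω)| ≤ (M : ℝ) ^ r * T := by
  have e1 : ((∑ ω ∈ Ω, F (v ω) : ℝ) : ℂ) = ∑ a ∈ bx r M, co M F a * ∑ ω ∈ Ω, e (∑ i, (a i : ℝ) * ((v ω i : ℝ) / M)) := by
    rw [Complex.ofReal_sum]
    rw [sum_congr rfl (fun ω _ => inversion M hM F hper (v ω)), sum_comm]
    apply sum_congr rfl
    intro a _
    rw [mul_sum]
  rw [← Real.norm_eq_abs, ← Complex.norm_real, e1]
  refine (norm_sum_le _ _).trans ?_
  refine (sum_le_card_nsmul _ _ T fun a ha => ?_).trans ?_
  · rw [norm_mul]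
    by_cases h : a = (fun _ => 0)
    · rw [h, co_zero M F h0, norm_zero, zero_mul]
      exact hT0
    · calc _ ≤ 1 * T := mul_le_mul (norm_co M hM F hF a) (hT a ha h) (norm_nonneg _) zero_le_one
        _ = T := one_mul _
  · rw [card_bx, nsmul_eq_mul]
    push_cast
    exact le_rfl

/-- the product formula for two moduli -/
lemma rs_two {r : ℕ} (q q' : ℕ) (hq : 0 < q) (hq' : 0 < q') (h : Nat.Coprime q q') (F G : (Fin r → ℤ) → ℝ)
    (hF : Per F q) (hG : Per G q') : rs (q * q') (fun u => F u * G u) = rs q F * rs q' G := by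
  unfold rs
  rw [sum_mul_sum, ← sum_product']
  refine sum_nbij' (fun t => ((fun i => t i % q), (fun i => t i % q')))
    (fun z i => ((Nat.chineseRemainder h (z.1 i) (z.2 i) : ℕ))) ?_ ?_ ?_ ?_ ?_
  · intro t _
    rw [mem_product, mem_bx, mem_bx]
    exact ⟨fun i => Nat.mod_lt _ hq, fun i => Nat.mod_lt _ hq'⟩
  · intro z _
    rw [mem_bx]
    intro i
    exact Nat.chineseRemainder_lt_mul h _ _ hq.ne' hq'.ne'
  · intro t ht
    rw [mem_bx] at ht
    funext i
    simp only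
    have hlt : ((Nat.chineseRemainder h (t i % q) (t i % q') : ℕ)) < q * q' := Nat.chineseRemainder_lt_mul h _ _ hq.ne' hq'.ne'
    have h1 := (Nat.chineseRemainder h (t i % q) (t i % q')).2
    have h2 : ((Nat.chineseRemainder h (t i % q) (t i % q') : ℕ)) ≡ t i [MOD q * q'] := by
      rw [← Nat.modEq_and_modEq_iff_modEq_mul h]
      exact ⟨h1.1.trans (Nat.mod_modEq _ _), h1.2.trans (Nat.mod_modEq _ _)⟩
    exact Nat.ModEq.eq_of_lt_of_lt h2 hlt (ht i)
  · intro z hz
    rw [mem_product, mem_bx, mem_bx] at hz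
    have h1 : ∀ i, ((Nat.chineseRemainder h (z.1 i) (z.2 i) : ℕ)) % q = z.1 i := by
      intro i
      have h2 := (Nat.chineseRemainder h (z.1 i) (z.2 i)).2.1
      unfold Nat.ModEq at h2
      rw [h2, Nat.mod_eq_of_lt (hz.1 i)]
    have h2 : ∀ i, ((Nat.chineseRemainder h (z.1 i) (z.2 i) : ℕ)) % q' = z.2 i := by
      intro i
      have h2 := (Nat.chineseRemainder h (z.1 i) (z.2 i)).2.2
      unfold Nat.ModEq at h2
      rw [h2, Nat.mod_eq_of_lt (hz.2 i)]
    simp only [h1, h2]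
  · intro t _
    simp only
    have h1 : F (fun i => (t i : ℤ)) = F (fun i => ((t i % q : ℕ) : ℤ)) := by
      apply hF
      intro i
      push_cast
      exact Int.dvd_self_sub_emod
    have h2 : G (fun i => (t i : ℤ)) = G (fun i => ((t i % q' : ℕ) : ℤ)) := by
      apply hG
      intro i
      push_cast
      exact Int.dvd_self_sub_emod
    rw [h1, h2]

lemma Per.mul_left {r : ℕ} {F : (Fin r → ℤ) → ℝ} {q : ℕ} (h : Per F q) (q' : ℕ) : Per F (q * q') := by
  intro u u' hu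
  apply h
  intro i
  refine dvd_trans ?_ (hu i)
  push_cast
  exact Dvd.intro _ rfl

lemma Per.mul_right {r : ℕ} {F : (Fin r → ℤ) → ℝ} {q : ℕ} (h : Per F q) (q' : ℕ) : Per F (q' * q) := by
  rw [mul_comm]
  exact h.mul_left q'

/-- the product formula -/
lemma rs_prod {r : ℕ} {ι : Type*} [DecidableEq ι] (q : ι → ℕ) (F : ι → (Fin r → ℤ) → ℝ) (I : Finset ι) (hq : ∀ i ∈ I, 0 < q i)
    (hcop : ∀ i ∈ I, ∀ j ∈ I, i ≠ j → Nat.Coprime (q i) (q j)) (hper : ∀ i ∈ I, Per (F i) (q i)) :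
    Per (fun u => ∏ i ∈ I, F i u) (∏ i ∈ I, q i) ∧ rs (∏ i ∈ I, q i) (fun u => ∏ i ∈ I, F i u) = ∏ i ∈ I, rs (q i) (F i) := by
  induction I using Finset.induction_on with
  | empty =>
    refine ⟨fun u u' _ => by simp, ?_⟩
    unfold rs
    rw [prod_empty, prod_empty]
    simp only [prod_empty, sum_const, card_bx]
    simp
  | insert a I ha ih =>
    obtain ⟨h1, h2⟩ := ih (fun i hi => hq i (mem_insert_of_mem hi))
      (fun i hi j hj => hcop i (mem_insert_of_mem hi) j (mem_insert_of_mem hj)) (fun i hi => hper i (mem_insert_of_mem hi))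
    have h3 : Nat.Coprime (q a) (∏ i ∈ I, q i) := by
      apply Nat.Coprime.prod_right
      intro i hi
      exact hcop a (mem_insert_self _ _) i (mem_insert_of_mem hi) (fun h => ha (h ▸ hi))
    have hpa := hper a (mem_insert_self _ _)
    have hqa := hq a (mem_insert_self _ _)
    have hqI : 0 < ∏ i ∈ I, q i := prod_pos fun i hi => hq i (mem_insert_of_mem hi)
    simp only [prod_insert ha]
    constructor
    · intro u u' hu
      simp only
      rw [hpa.mul_left (∏ i ∈ I, q i) u u' hu]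
      have := h1.mul_right (q a) u u' hu
      simp only at this
      rw [this]
    · rw [rs_two (q a) (∏ i ∈ I, q i) hqa hqI h3 (F a) (fun u => ∏ i ∈ I, F i u) hpa h1, h2]

/-- a sample of integer vectors which is uniformly distributed in residue classes, with the saving `Q` -/
structure PED {τ : Type} {r : ℕ} (Ω : Finset τ) (v : τ → Fin r → ℤ) (Q ρ σ C : ℝ) : Prop where
  est : ∀ M : ℕ, 1 ≤ M → (M : ℝ) ≤ Q ^ ρ → ∀ F : (Fin r → ℤ) → ℝ, Per F M → (∀ u, |F u| ≤ 1) →
    rs M F = 0 → |∑ ω ∈ Ω, F (v ω)| ≤ (M : ℝ) ^ r * (C * (Ω.card * Q ^ (-σ)))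

lemma PED.shift {τ : Type} {r : ℕ} {Ω : Finset τ} {v : τ → Fin r → ℤ} {Q ρ σ C : ℝ} (h : PED Ω v Q ρ σ C) (z : Fin r → ℤ) :
    PED Ω (fun ω i => v ω i + z i) Q ρ σ C := by
  constructor
  intro M hM hMQ F hF hF1 h0
  have h1 : Per (fun u : Fin r → ℤ => F (fun i => u i + z i)) M := by
    intro u u' hu
    apply hF
    intro i
    have e1 : u i + z i - (u' i + z i) = u i - u' i := by ring
    rw [e1]
    exact hu i
  have h2 : rs M (fun u : Fin r → ℤ => F (fun i => u i + z i)) = 0 := by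
    rw [← h0]
    unfold rs
    have hM0 : (0 : ℤ) < M := by omega
    refine sum_nbij' (fun t i => (((t i : ℤ) + z i) % M).toNat) (fun t i => (((t i : ℤ) - z i) % M).toNat) ?_ ?_ ?_ ?_ ?_
    · intro t _
      rw [mem_bx]
      intro i
      have h3 := Int.emod_lt_of_pos ((t i : ℤ) + z i) hM0
      have h4 := Int.emod_nonneg ((t i : ℤ) + z i) hM0.ne'
      omega
    · intro t _
      rw [mem_bx]
      intro i
      have h3 := Int.emod_lt_of_pos ((t i : ℤ) - z i) hM0
      have h4 := Int.emod_nonneg ((t i : ℤ) - z i) hM0.ne'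
      omega
    · intro t ht
      rw [mem_bx] at ht
      funext i
      simp only
      rw [Int.toNat_of_nonneg (Int.emod_nonneg _ hM0.ne')]
      have h3 : ((t i : ℤ) + z i) % M - z i ≡ t i [ZMOD M] := by
        have := (Int.mod_modEq ((t i : ℤ) + z i) M).sub_right (z i)
        rwa [add_sub_cancel_right] at this
      have h4 : (((t i : ℤ) + z i) % M - z i) % M = t i := by
        rw [h3]
        exact Int.emod_eq_of_lt (by positivity) (by exact_mod_cast ht i)
      rw [h4]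
      simp
    · intro t ht
      rw [mem_bx] at ht
      funext i
      simp only
      rw [Int.toNat_of_nonneg (Int.emod_nonneg _ hM0.ne')]
      have h3 : ((t i : ℤ) - z i) % M + z i ≡ t i [ZMOD M] := by
        have := (Int.mod_modEq ((t i : ℤ) - z i) M).add_right (z i)
        rwa [sub_add_cancel] at this
      have h4 : (((t i : ℤ) - z i) % M + z i) % M = t i := by
        rw [h3]
        exact Int.emod_eq_of_lt (by positivity) (by exact_mod_cast ht i)
      rw [h4]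
      simp
    · intro t _
      apply hF
      intro i
      simp only
      rw [Int.toNat_of_nonneg (Int.emod_nonneg _ hM0.ne')]
      exact Int.dvd_self_sub_emod
  exact h.est M hM hMQ _ h1 (fun u => hF1 _) h2

end Pool.Agent.U471.DQ
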