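import Pool.Agent.U471.DQ.Weyl
import Pool.Agent.U471.DQ.Ped

set_option autoImplicit false

/-!
The integer parts of the values of real polynomials with a coefficient which is not close to a rational number with a
small denominator are uniformly distributed in residue classes.
-/

namespace Pool.Agent.U471.DQ

open Finset Polynomial
open Pool.Agent.H469R2.NK (e norm_e e_add)

/-- the integer combinations of the polynomials with small coefficients are not on major arcs: for every integer vector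
`l ≠ 0` with `|l i| ≤ R` there is `1 ≤ j ≤ d` such that the distance of `∑ l i (coefficient of f i at X ^ j)` to the
integers is more than `R / N ^ j` -/
def Gen {r : ℕ} (d N : ℕ) (R : ℝ) (f : Fin r → ℝ[X]) : Prop :=
  ∀ l : Fin r → ℤ, l ≠ 0 → (∀ i, (|l i| : ℝ) ≤ R) → ∃ j : ℕ, 1 ≤ j ∧ j ≤ d ∧
    ∀ b : ℤ, R / (N : ℝ) ^ j < |∑ i, (l i : ℝ) * (f i).coeff j - b|

/-- the integer parts of the values are uniformly distributed in residue classes -/
theorem real_ped (r d : ℕ) (hd : 1 ≤ d) : ∃ ρ σ C : ℝ, 0 < ρ ∧ ρ ≤ 1 ∧ 0 < σ ∧ σ ≤ 1 ∧ 1 ≤ C ∧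
    ∀ (N : ℕ) (R : ℝ) (f : Fin r → ℝ[X]), 1 ≤ N → 1 ≤ R → (∀ i, (f i).natDegree ≤ d) → Gen d N R f →
      PED (range N) (fun (n : ℕ) i => ⌊(f i).eval (n : ℝ)⌋) R ρ σ C := by
  obtain ⟨c1, k1, hc1, HW⟩ := IA_all d hd
  obtain ⟨c2, k2, hc2, HF⟩ := floor_vec r
  have hc1r : (1 : ℝ) ≤ c1 := by exact_mod_cast hc1
  have hc2r : (1 : ℝ) ≤ c2 := by exact_mod_cast hc2
  -- exponents
  obtain ⟨η, hη⟩ : ∃ η : ℝ, η = 1 / (4 * ((k1 : ℝ) + 1) * (k2 + 2)) := ⟨_, rfl⟩
  have hη0 : 0 < η := by rw [hη]; positivity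
  have hk10 : (0 : ℝ) ≤ k1 := Nat.cast_nonneg _
  have hk20 : (0 : ℝ) ≤ k2 := Nat.cast_nonneg _
  have hηe : 4 * ((k1 : ℝ) + 1) * (k2 + 2) * η = 1 := by rw [hη]; field_simp
  have hη8 : η ≤ 1 / 8 := by
    have h1 : (8 : ℝ) ≤ 4 * ((k1 : ℝ) + 1) * (k2 + 2) := by nlinarith
    rw [hη]
    exact one_div_le_one_div_of_le (by norm_num) h1
  have hη1 : ((k1 : ℝ) + 1) * (k2 + 2) * η ≤ 1 / 4 := by linarith
  obtain ⟨C, hC⟩ : ∃ C : ℝ, C = 2 * c2 * 2 ^ k2 + c2 + 8 * (c1 * (c2 * 2 ^ k2 + 2) * 4) ^ 4 := ⟨_, rfl⟩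
  have hCbig : 8 * (c1 * (c2 * 2 ^ k2 + 2) * 4) ^ 4 ≤ C := by
    rw [hC]
    have : (0 : ℝ) ≤ 2 * c2 * 2 ^ k2 + c2 := by positivity
    linarith
  have hG1 : (1 : ℝ) ≤ c1 * (c2 * 2 ^ k2 + 2) * 4 := by
    have h1 : (1 : ℝ) ≤ c2 * 2 ^ k2 + 2 := by
      have : (0 : ℝ) ≤ c2 * 2 ^ k2 := by positivity
      linarith
    nlinarith [one_le_mul_of_one_le_of_one_le hc1r h1]
  have hC1 : 1 ≤ C := by
    have h2 : (1 : ℝ) ≤ (c1 * (c2 * 2 ^ k2 + 2) * 4) ^ 4 := one_le_pow₀ hG1
    linarith
  refine ⟨η, η, C, hη0, by linarith, hη0, by linarith, hC1, ?_⟩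
  intro N R f hN hR hf hgen
  have hR0 : 0 < R := by linarith
  have hN0 : (0 : ℝ) < N := by exact_mod_cast hN
  constructor
  intro M hM hMR F hF hF1 h0
  have hM0 : (0 : ℝ) < M := by exact_mod_cast hM
  have hM1 : (1 : ℝ) ≤ M := by exact_mod_cast hM
  have hM1r : (1 : ℝ) ≤ (M : ℝ) ^ r := one_le_pow₀ hM1
  rw [card_range]
  -- small `R` is trivial
  rcases lt_or_ge (R ^ η) (C / 8 : ℝ) with hsmall | hbig
  · have h1 : |∑ ω ∈ range N, F (fun i => ⌊(f i).eval ((ω : ℕ) : ℝ)⌋)| ≤ N := by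
      refine (abs_sum_le_sum_abs _ _).trans ?_
      refine (sum_le_card_nsmul _ _ 1 fun n _ => hF1 _).trans ?_
      rw [card_range, nsmul_eq_mul, mul_one]
    refine h1.trans ?_
    have h2 : 1 ≤ C * R ^ (-η) := by
      rw [Real.rpow_neg hR0.le, ← div_eq_mul_inv, le_div_iff₀ (Real.rpow_pos_of_pos hR0 _)]
      linarith
    calc (N : ℝ) = 1 * (N * 1) := by ring
      _ ≤ (M : ℝ) ^ r * (N * (C * R ^ (-η))) := mul_le_mul hM1r (mul_le_mul_of_nonneg_left h2 hN0.le) (by positivity) (by positivity)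
      _ = _ := by ring
  -- the main case
  have hRη1 : 1 ≤ R ^ η := Real.one_le_rpow hR hη0.le
  obtain ⟨Q, hQ⟩ : ∃ Q : ℕ, Q = ⌈R ^ η⌉₊ := ⟨_, rfl⟩
  have hQ1 : R ^ η ≤ Q := by rw [hQ]; exact Nat.le_ceil _
  have hQ2 : (Q : ℝ) ≤ 2 * R ^ η := by
    have : (Q : ℝ) < R ^ η + 1 := by rw [hQ]; exact Nat.ceil_lt_add_one (by positivity)
    linarith
  have hQ3 : 1 ≤ Q := by
    have : (1 : ℝ) ≤ Q := hRη1.trans hQ1
    exact_mod_cast this
  have hQ0 : (0 : ℝ) < Q := by exact_mod_cast hQ3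
  -- the bound for the sums without integer parts
  obtain ⟨u, hu⟩ : ∃ u : ℝ, u = R ^ ((k2 + 1) * η) := ⟨_, rfl⟩
  have hu1 : 1 ≤ u := by rw [hu]; exact Real.one_le_rpow hR (by positivity)
  have hu0 : 0 < u := by linarith
  obtain ⟨Bm, hBm⟩ : ∃ Bm : ℝ, Bm = ((c2 * Q ^ k2 : ℕ) : ℝ) := ⟨_, rfl⟩
  have hBm1 : Bm ≤ c2 * 2 ^ k2 * R ^ (k2 * η) := by
    rw [hBm]
    push_cast
    calc (c2 : ℝ) * (Q : ℝ) ^ k2 ≤ c2 * (2 * R ^ η) ^ k2 :=
          mul_le_mul_of_nonneg_left (pow_le_pow_left₀ hQ0.le hQ2 _) (by positivity)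
      _ = c2 * 2 ^ k2 * R ^ (k2 * η) := by
          rw [mul_pow, ← Real.rpow_natCast (R ^ η) k2, ← Real.rpow_mul hR0.le, mul_comm η]
          ring
  -- the total size of the frequencies
  have hkey : ∀ l : Fin r → ℤ, l ≠ 0 → (∀ i, (|l i| : ℝ) ≤ M * (Bm + 1)) →
      ‖∑ n ∈ range N, e (∑ i, ((l i : ℝ) / M) * (f i).eval ((n : ℕ) : ℝ))‖ ≤ N / u := by
    intro l hl hlb
    by_contra hcon
    push Not at hcon
    obtain ⟨P, hP⟩ : ∃ P : ℝ[X], P = ∑ i, Polynomial.C ((l i : ℝ) / M) * f i := ⟨_, rfl⟩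
    have hPd : P.natDegree ≤ d := by
      rw [hP]
      apply natDegree_sum_le_of_forall_le
      intro i _
      exact (natDegree_C_mul_le _ _).trans (hf i)
    have hPe : ∀ n : ℕ, P.eval (n : ℝ) = ∑ i, ((l i : ℝ) / M) * (f i).eval (n : ℝ) := by
      intro n
      rw [hP, eval_finsetSum]
      apply sum_congr rfl
      intro i _
      rw [eval_mul, eval_C]
    have hPc : ∀ j, P.coeff j = ∑ i, ((l i : ℝ) / M) * (f i).coeff j := by
      intro j
      rw [hP, finsetSum_coeff]
      apply sum_congr rfl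
      intro i _
      rw [coeff_C_mul]
    have hS : (N : ℝ) ≤ u * ‖∑ n ∈ range N, Pool.Agent.Helper602.MK.ee (P.eval (n : ℝ))‖ := by
      have h1 : ∑ n ∈ range N, Pool.Agent.Helper602.MK.ee (P.eval (n : ℝ)) =
          ∑ n ∈ range N, e (∑ i, ((l i : ℝ) / M) * (f i).eval ((n : ℕ) : ℝ)) := by
        apply sum_congr rfl
        intro n _
        rw [← hPe, Pool.Agent.U471.RP.e_eq]
      rw [h1]
      rw [div_lt_iff₀ hu0] at hcon
      linarith
    obtain ⟨q, hq1, hq2, hq3⟩ := HW N u P hN hu1 hPd hS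
    have hq0 : (0 : ℝ) < q := by exact_mod_cast hq1
    -- the total size
    have hη2 : (k1 : ℝ) * ((k2 + 1) * η) + η + k2 * η ≤ 1 / 4 := by
      have e1 : ((k1 : ℝ) + 1) * (k2 + 2) * η = k1 * ((k2 + 1) * η) + η + k2 * η + (k1 * η + η) := by ring
      rw [e1] at hη1
      have : 0 ≤ k1 * η + η := by positivity
      linarith
    have huk : u ^ k1 = R ^ (k1 * ((k2 + 1) * η)) := by
      rw [hu, ← Real.rpow_natCast, ← Real.rpow_mul hR0.le]
      congr 1
      ring
    have hcast : c1 * (c2 * 2 ^ k2 + 2) * 4 ≤ R ^ (1 / 4 : ℝ) := by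
      -- from `hbig`
      have h1 : (c1 * (c2 * 2 ^ k2 + 2) * 4 : ℝ) ^ 4 ≤ R ^ η := by linarith
      have h2 : (c1 * (c2 * 2 ^ k2 + 2) * 4 : ℝ) ≤ (c1 * (c2 * 2 ^ k2 + 2) * 4 : ℝ) ^ 4 := le_self_pow₀ hG1 (by norm_num)
      have h3 : R ^ η ≤ R ^ (1 / 4 : ℝ) := Real.rpow_le_rpow_of_exponent_le hR (by linarith)
      linarith
    have hRk : 1 ≤ R ^ (k2 * η) := Real.one_le_rpow hR (by positivity)
    have htot : c1 * u ^ k1 * (M * (Bm + 1)) ≤ R := by
      have h1 : (Bm + 1) ≤ (c2 * 2 ^ k2 + 2) * R ^ (k2 * η) := by nlinarith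
      calc c1 * u ^ k1 * (M * (Bm + 1)) ≤ c1 * R ^ (k1 * ((k2 + 1) * η)) * (R ^ η * ((c2 * 2 ^ k2 + 2) * R ^ (k2 * η))) := by
            rw [huk]
            apply mul_le_mul_of_nonneg_left _ (by positivity)
            apply mul_le_mul hMR h1 _ (by positivity)
            have : 0 ≤ Bm := by rw [hBm]; positivity
            linarith
        _ = (c1 * (c2 * 2 ^ k2 + 2)) * R ^ (k1 * ((k2 + 1) * η) + η + k2 * η) := by
            rw [Real.rpow_add hR0, Real.rpow_add hR0]
            ring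
        _ ≤ R ^ (1 / 4 : ℝ) * R ^ (1 / 4 : ℝ) := by
            apply mul_le_mul _ (Real.rpow_le_rpow_of_exponent_le hR hη2) (by positivity) (by positivity)
            have : (0 : ℝ) ≤ c1 * (c2 * 2 ^ k2 + 2) := by positivity
            linarith
        _ = R ^ (1 / 2 : ℝ) := by
            rw [← Real.rpow_add hR0]
            norm_num
        _ ≤ R := by
            calc R ^ (1 / 2 : ℝ) ≤ R ^ (1 : ℝ) := Real.rpow_le_rpow_of_exponent_le hR (by norm_num)
              _ = R := Real.rpow_one R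
    have hBm0 : 0 ≤ Bm := by rw [hBm]; positivity
    obtain ⟨j, hj1, hj2, hj3⟩ := hgen (fun i => q * l i) (by
        intro h
        apply hl
        funext i
        have h1 := congrFun h i
        simp only [Pi.zero_apply, mul_eq_zero] at h1
        rcases h1 with h1 | h1
        · exfalso
          have : q = 0 := by exact_mod_cast h1
          omega
        · exact h1) (by
        intro i
        push_cast
        rw [abs_mul, abs_of_pos hq0]
        calc (q : ℝ) * |(l i : ℝ)| ≤ (c1 * u ^ k1) * (M * (Bm + 1)) := mul_le_mul hq2 (hlb i) (abs_nonneg _) (by positivity)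
          _ ≤ R := htot)
    obtain ⟨a, ha⟩ := hq3 j hj1 hj2
    have h2 := hj3 (M * a)
    have e2 : ∑ i, (((q : ℤ) * l i : ℤ) : ℝ) * (f i).coeff j - ((M * a : ℤ) : ℝ) = M * (q * P.coeff j - a) := by
      rw [hPc, mul_sub, mul_sum, mul_sum]
      push_cast
      congr 1
      apply sum_congr rfl
      intro i _
      field_simp
    rw [e2, abs_mul, abs_of_pos hM0] at h2
    have h3 : (M : ℝ) * |q * P.coeff j - a| ≤ R / (N : ℝ) ^ j := by
      calc (M : ℝ) * |q * P.coeff j - a| ≤ M * (c1 * u ^ k1 / (N : ℝ) ^ j) := mul_le_mul_of_nonneg_left ha hM0.le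
        _ = (c1 * u ^ k1 * M) / (N : ℝ) ^ j := by ring
        _ ≤ R / (N : ℝ) ^ j := by
            apply div_le_div_of_nonneg_right _ (by positivity)
            refine le_trans ?_ htot
            apply mul_le_mul_of_nonneg_left _ (by positivity)
            nlinarith
    linarith
  -- the exponential sums
  have hexp : ∀ a ∈ bx r M, a ≠ (fun _ => 0) →
      ‖∑ n ∈ range N, e (∑ i, (a i : ℝ) * (((⌊(f i).eval ((n : ℕ) : ℝ)⌋ : ℤ) : ℝ) / M))‖ ≤ C * (N * R ^ (-η)) := by
    intro a ha ha0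
    rw [mem_bx] at ha
    have h1 := HF ℕ (range N) (fun _ => 1) (fun _ => by simp) (fun n i => (f i).eval (n : ℝ)) (fun i => (a i : ℝ) / M) (by
        intro i
        rw [abs_of_nonneg (by positivity), div_le_one hM0]
        exact_mod_cast (ha i).le) Q hQ3 (N / u) (by positivity) (by
        intro m hm
        have h2 := hkey (fun i => a i + m i * M) (by
            intro h
            apply ha0
            funext i
            have h3 := congrFun h i
            simp only [Pi.zero_apply] at h3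
            have h4 : (M : ℤ) ∣ a i := by
              refine ⟨-m i, ?_⟩
              linarith
            have h5 := ha i
            have h6 : (a i : ℤ) = 0 := Int.eq_zero_of_abs_lt_dvd h4 (by rw [abs_lt]; omega)
            exact_mod_cast h6) (by
            intro i
            have h3 : (|m i| : ℝ) ≤ Bm := by
              rw [hBm]
              exact_mod_cast hm i
            have h4 : (a i : ℝ) ≤ M := by exact_mod_cast (ha i).le
            push_cast
            calc |(a i : ℝ) + m i * M| ≤ |(a i : ℝ)| + |(m i : ℝ) * M| := abs_add_le _ _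
              _ ≤ M + Bm * M := by
                rw [abs_mul, abs_of_pos hM0, Nat.abs_cast]
                exact add_le_add h4 (mul_le_mul_of_nonneg_right h3 hM0.le)
              _ = M * (Bm + 1) := by ring)
        refine le_trans (le_of_eq ?_) h2
        congr 1
        apply sum_congr rfl
        intro n _
        rw [one_mul]
        congr 1
        apply sum_congr rfl
        intro i _
        push_cast
        field_simp) (by
        intro i m hm0 hm
        have h2 := hkey (fun i' => if i' = i then m * M else 0) (by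
            intro h
            have h3 := congrFun h i
            simp only [if_true, Pi.zero_apply] at h3
            rcases mul_eq_zero.1 h3 with h3 | h3
            · exact hm0 h3
            · have : M = 0 := by exact_mod_cast h3
              omega) (by
            intro i'
            have h3 : (|m| : ℝ) ≤ Bm := by
              rw [hBm]
              exact_mod_cast hm
            have hBm0 : 0 ≤ Bm := (abs_nonneg _).trans h3
            by_cases h : i' = i
            · rw [if_pos h]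
              push_cast
              rw [abs_mul, abs_of_pos hM0]
              calc |(m : ℝ)| * M ≤ Bm * M := mul_le_mul_of_nonneg_right h3 hM0.le
                _ ≤ M * (Bm + 1) := by nlinarith
            · rw [if_neg h]
              rw [Int.cast_zero, abs_zero]
              positivity)
        refine le_trans (le_of_eq ?_) h2
        congr 1
        apply sum_congr rfl
        intro n _
        congr 1
        rw [sum_eq_single i]
        · rw [if_pos rfl]
          push_cast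
          field_simp
        · intro i' _ hne
          rw [if_neg hne]
          simp
        · intro h
          exact absurd (mem_univ i) h)
    have e1 : ∑ n ∈ range N, (fun _ : ℕ => (1 : ℂ)) n * e (∑ i, (a i : ℝ) / M * ⌊(f i).eval ((n : ℕ) : ℝ)⌋) =
        ∑ n ∈ range N, e (∑ i, (a i : ℝ) * (((⌊(f i).eval ((n : ℕ) : ℝ)⌋ : ℤ) : ℝ) / M)) := by
      apply sum_congr rfl
      intro n _
      rw [one_mul]
      congr 1
      apply sum_congr rfl
      intro i _
      ring
    rw [e1] at h1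
    refine h1.trans ?_
    rw [card_range]
    have h5 : (c2 : ℝ) * (Q : ℝ) ^ k2 * (N / u) ≤ c2 * 2 ^ k2 * (N * R ^ (-η)) := by
      have h6 : (c2 : ℝ) * (Q : ℝ) ^ k2 ≤ c2 * 2 ^ k2 * R ^ (k2 * η) := by
        have := hBm1
        rw [hBm] at this
        push_cast at this
        exact this
      calc (c2 : ℝ) * (Q : ℝ) ^ k2 * (N / u) ≤ c2 * 2 ^ k2 * R ^ (k2 * η) * (N / u) := mul_le_mul_of_nonneg_right h6 (by positivity)
        _ = c2 * 2 ^ k2 * (N * R ^ (-η)) := by
          have : R ^ (k2 * η) / u = R ^ (-η) := by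
            rw [hu, ← Real.rpow_sub hR0]
            congr 1
            ring
          rw [← this]
          ring
    have h7 : (c2 : ℝ) * ((N : ℝ) / Q) ≤ c2 * (N * R ^ (-η)) := by
      apply mul_le_mul_of_nonneg_left _ (by positivity)
      rw [Real.rpow_neg hR0.le, ← div_eq_mul_inv]
      exact div_le_div_of_nonneg_left hN0.le (by positivity) hQ1
    have h8 : (0 : ℝ) ≤ N * R ^ (-η) := by positivity
    have h9 : (c2 : ℝ) * 2 ^ k2 + c2 ≤ C := by
      rw [hC]
      have h10 : (0 : ℝ) ≤ c2 * 2 ^ k2 := by positivity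
      have h11 : (0 : ℝ) ≤ 8 * (c1 * (c2 * 2 ^ k2 + 2) * 4) ^ 4 := by positivity
      linarith
    calc (c2 : ℝ) * (Q : ℝ) ^ k2 * (N / u) + c2 * ((N : ℝ) / Q) ≤ c2 * 2 ^ k2 * (N * R ^ (-η)) + c2 * (N * R ^ (-η)) :=
          add_le_add h5 h7
      _ = (c2 * 2 ^ k2 + c2) * (N * R ^ (-η)) := by ring
      _ ≤ _ := mul_le_mul_of_nonneg_right h9 h8
  exact from_exp (range N) (fun (n : ℕ) i => ⌊(f i).eval (n : ℝ)⌋) M hM (C * (N * R ^ (-η))) (by positivity) hexp F hF hF1 h0

end Pool.Agent.U471.DQ
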