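import Pool.Agent.U471.DQ.Good
import Pool.Agent.U471.DQ.Real

set_option autoImplicit false

/-!
Sums over primes of functions of residues, for all the integer points close to almost all the values of real polynomials.
-/

namespace Pool.Agent.U471.DQ

open Finset Polynomial

/-- an integer point close to a real point -/
def Cl {r : ℕ} (T : ℝ) (y : Fin r → ℝ) (z : Fin r → ℤ) : Prop := ∀ i, |(z i : ℝ) - y i| ≤ T

theorem near_good (r d s B D : ℕ) (hd : 1 ≤ d) (hs : 1 ≤ s) (δ : ℝ) (hδ : 0 < δ) : ∃ κ C : ℝ, 0 < κ ∧ κ ≤ 1 ∧ 1 ≤ C ∧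
    ∀ (N : ℕ) (R : ℝ) (f : Fin r → ℝ[X]), 1 ≤ N → 1 ≤ R → (∀ i, (f i).natDegree ≤ d) → Gen d N R f →
    ∀ (q : ℕ → ℕ), (∀ k, 0 < q k ∧ q k ≤ D * (k + 1) ^ B) → (∀ j k, j + s ≤ k → Nat.Coprime (q j) (q k)) →
    ∀ φ : ℕ → ℕ → (Fin r → ℤ) → ℝ, (∀ t k, Per (φ t k) (q k)) → (∀ t k u, |φ t k u| ≤ 1) → (∀ t k, rs (q k) (φ t k) = 0) →
    ∃ E : Finset ℕ, E ⊆ range N ∧ (E.card : ℝ) ≤ C * (N * R ^ (-κ)) ∧ ∀ n ∈ range N, n ∉ E →
      ∀ z : Fin r → ℤ, Cl (R ^ κ) (fun i => (f i).eval (n : ℝ)) z → ∀ t : ℕ, (t : ℝ) ≤ R ^ κ → ∀ K : ℕ, (K : ℝ) ≤ R ^ κ →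
        |∑ k ∈ range K, φ t k z| ≤ C * er δ R (vs q (φ t) K) K := by
  classical
  obtain ⟨ρ, σ, C0, hρ, hρ1, hσ, hσ1, hC0, HP⟩ := real_ped r d hd
  obtain ⟨κ1, C1, hκ10, hκ11, hC1, HG⟩ := good r s B D hs δ ρ σ C0 hδ hρ hρ1 hσ hσ1 (by linarith)
  have hr0 : (0 : ℝ) ≤ r := Nat.cast_nonneg r
  obtain ⟨κ, hκ⟩ : ∃ κ : ℝ, κ = κ1 / (r + 2) := ⟨_, rfl⟩
  have hκ0 : 0 < κ := by rw [hκ]; positivity
  have hκe : κ * (r + 2) = κ1 := by rw [hκ]; field_simp
  have hκκ : κ ≤ κ1 := by nlinarith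
  refine ⟨κ, 2 * 7 ^ r * C1, hκ0, by linarith, ?_, ?_⟩
  · have : (1 : ℝ) ≤ 7 ^ r := one_le_pow₀ (by norm_num)
    nlinarith
  intro N R f hN hR hf hgen q hq hcop φ hper hle hsum
  have hR0 : 0 < R := by linarith
  have hN0 : (0 : ℝ) < N := by exact_mod_cast hN
  have hped := HP N R f hN hR hf hgen
  have hRκ : 1 ≤ R ^ κ := Real.one_le_rpow hR hκ0.le
  have hex : ∀ (h : Fin r → ℤ) (t : ℕ), ∃ E : Finset ℕ, E ⊆ range N ∧ (E.card : ℝ) ≤ C1 * ((range N).card * R ^ (-κ1)) ∧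
      ∀ n ∈ range N, n ∉ E → ∀ K : ℕ, (K : ℝ) ≤ R ^ κ1 →
        |∑ k ∈ range K, φ t k (fun i => ⌊(f i).eval (n : ℝ)⌋ + h i)| ≤ C1 * er δ R (vs q (φ t) K) K := by
    intro h t
    exact HG ℕ (range N) _ R hR (hped.shift h) q hq hcop (φ t) (hper t) (hle t) (hsum t)
  choose Ex hEx1 hEx2 hEx3 using hex
  obtain ⟨T, hT⟩ : ∃ T : ℕ, T = ⌈R ^ κ⌉₊ + 1 := ⟨_, rfl⟩
  have hT1 : R ^ κ + 1 ≤ T := by
    rw [hT]
    push_cast
    linarith [Nat.le_ceil (R ^ κ)]
  have hT2 : (T : ℝ) ≤ R ^ κ + 2 := by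
    rw [hT]
    push_cast
    have := Nat.ceil_lt_add_one (by positivity : 0 ≤ R ^ κ)
    linarith
  obtain ⟨H, hH⟩ : ∃ H : Finset (Fin r → ℤ), H = Fintype.piFinset (fun _ => Icc (-(T : ℤ)) T) := ⟨_, rfl⟩
  have hHc : (H.card : ℝ) ≤ 7 ^ r * (R ^ κ) ^ r := by
    rw [hH, Fintype.card_piFinset]
    simp only [prod_const, card_univ, Fintype.card_fin, Int.card_Icc]
    push_cast
    rw [← mul_pow]
    apply pow_le_pow_left₀ (by positivity)
    have : (((T : ℤ) + 1 - -(T : ℤ)).toNat : ℝ) = 2 * T + 1 := by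
      have h1 : ((T : ℤ) + 1 - -(T : ℤ)).toNat = 2 * T + 1 := by omega
      rw [h1]
      push_cast
      ring
    rw [this]
    linarith
  obtain ⟨S, hS⟩ : ∃ S : ℕ, S = ⌊R ^ κ⌋₊ + 1 := ⟨_, rfl⟩
  have hS1 : (S : ℝ) ≤ 2 * R ^ κ := by
    rw [hS]
    push_cast
    have := Nat.floor_le (by positivity : 0 ≤ R ^ κ)
    linarith
  refine ⟨H.biUnion (fun h => (range S).biUnion (fun t => Ex h t)), ?_, ?_, ?_⟩
  · intro n hn
    rw [mem_biUnion] at hn
    obtain ⟨h, _, hn⟩ := hn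
    rw [mem_biUnion] at hn
    obtain ⟨t, _, hn⟩ := hn
    exact hEx1 h t hn
  · have h2 : ((H.biUnion (fun h => (range S).biUnion (fun t => Ex h t))).card : ℝ) ≤
        ∑ h ∈ H, ∑ t ∈ range S, ((Ex h t).card : ℝ) := by
      have h3 : (H.biUnion (fun h => (range S).biUnion (fun t => Ex h t))).card ≤
          ∑ h ∈ H, ∑ t ∈ range S, (Ex h t).card :=
        card_biUnion_le.trans (sum_le_sum fun z _ => card_biUnion_le)
      exact_mod_cast h3
    refine h2.trans ?_
    calc ∑ h ∈ H, ∑ t ∈ range S, ((Ex h t).card : ℝ) ≤ ∑ h ∈ H, ∑ t ∈ range S, C1 * (N * R ^ (-κ1)) := by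
          refine sum_le_sum fun h _ => sum_le_sum fun t _ => ?_
          have := hEx2 h t
          rwa [card_range] at this
      _ = H.card * (S * (C1 * (N * R ^ (-κ1)))) := by
          rw [sum_const, sum_const, card_range, nsmul_eq_mul, nsmul_eq_mul]
      _ ≤ (7 ^ r * (R ^ κ) ^ r) * ((2 * R ^ κ) * (C1 * (N * R ^ (-κ1)))) := by
          apply mul_le_mul hHc _ (by positivity) (by positivity)
          exact mul_le_mul_of_nonneg_right hS1 (by positivity)
      _ = 2 * 7 ^ r * C1 * (N * (R ^ (κ * r) * R ^ κ * R ^ (-κ1))) := by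
          rw [← Real.rpow_natCast (R ^ κ) r, ← Real.rpow_mul hR0.le]
          ring
      _ = 2 * 7 ^ r * C1 * (N * R ^ (-κ)) := by
          rw [← Real.rpow_add hR0, ← Real.rpow_add hR0]
          congr 3
          rw [← hκe]
          ring
  · intro n hn hnE z hz t ht K hK
    have htS : t ∈ range S := by
      rw [mem_range, hS]
      have := Nat.le_floor ht
      omega
    obtain ⟨h, hh⟩ : ∃ h : Fin r → ℤ, h = fun i => z i - ⌊(f i).eval (n : ℝ)⌋ := ⟨_, rfl⟩
    have hhH : h ∈ H := by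
      rw [hH, Fintype.mem_piFinset]
      intro i
      rw [mem_Icc, ← abs_le]
      have h1 := hz i
      have h2 := Int.floor_le ((f i).eval (n : ℝ))
      have h3 := Int.lt_floor_add_one ((f i).eval (n : ℝ))
      have h4 : |(h i : ℝ)| ≤ T := by
        rw [hh]
        push_cast
        have h5 : ((z i : ℤ) : ℝ) - ⌊(f i).eval (n : ℝ)⌋ = (z i - (f i).eval (n : ℝ)) + ((f i).eval (n : ℝ) - ⌊(f i).eval (n : ℝ)⌋) := by ring
        rw [h5]
        refine (abs_add_le _ _).trans ?_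
        have h6 : |(f i).eval (n : ℝ) - ⌊(f i).eval (n : ℝ)⌋| ≤ 1 := by
          rw [abs_le]
          constructor <;> linarith
        simp only at h1
        linarith
      exact_mod_cast h4
    have hz2 : (fun i => ⌊(f i).eval (n : ℝ)⌋ + h i) = z := by
      funext i
      rw [hh]
      ring
    have h1 := hEx3 h t n hn (by
      intro hcon
      apply hnE
      rw [mem_biUnion]
      refine ⟨h, hhH, ?_⟩
      rw [mem_biUnion]
      exact ⟨t, htS, hcon⟩) K (hK.trans (Real.rpow_le_rpow_of_exponent_le hR hκκ))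
    rw [hz2] at h1
    refine h1.trans ?_
    apply mul_le_mul_of_nonneg_right _ (er_nonneg _ _ _ _)
    have : (1 : ℝ) ≤ 2 * 7 ^ r := by
      have : (1 : ℝ) ≤ 7 ^ r := one_le_pow₀ (by norm_num)
      linarith
    nlinarith

lemma mn_const {r M : ℕ} (hM : 0 < M) (c : ℝ) : mn (r := r) M (fun _ => c) = c := by
  unfold mn rs
  rw [sum_const, card_bx, nsmul_eq_mul]
  push_cast
  have : ((M : ℝ)) ^ r ≠ 0 := by positivity
  field_simp

lemma rs_centered {r M : ℕ} (hM : 0 < M) (F : (Fin r → ℤ) → ℝ) : rs M (fun u => F u - mn M F) = 0 := by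
  unfold rs mn rs
  rw [sum_sub_distrib, sum_const, card_bx, nsmul_eq_mul]
  push_cast
  have : ((M : ℝ)) ^ r ≠ 0 := by positivity
  rw [mul_div_cancel₀ _ this, sub_self]

lemma var_le {r M : ℕ} (hM : 0 < M) (F : (Fin r → ℤ) → ℝ) (hF : ∀ u, 0 ≤ F u ∧ F u ≤ 1) :
    mn M (fun u => (F u - mn M F) ^ 2) ≤ mn M F := by
  have h1 : mn M (fun u => (F u - mn M F) ^ 2) = mn M (fun u => F u ^ 2) - mn M F ^ 2 := by
    have hM0 : ((M : ℝ)) ^ r ≠ 0 := by positivity
    obtain ⟨μ, hμ⟩ : ∃ μ, μ = mn M F := ⟨_, rfl⟩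
    rw [← hμ]
    have hs : rs M F = μ * (M : ℝ) ^ r := by
      rw [hμ]
      unfold mn
      field_simp
    have e1 : rs M (fun u => (F u - μ) ^ 2) = rs M (fun u => F u ^ 2) - μ ^ 2 * (M : ℝ) ^ r := by
      have e2 : rs M (fun u => (F u - μ) ^ 2) = rs M (fun u => F u ^ 2) - 2 * μ * rs M F + (bx r M).card * μ ^ 2 := by
        unfold rs
        rw [mul_sum, ← sum_sub_distrib, ← nsmul_eq_mul, ← sum_const, ← sum_add_distrib]
        apply sum_congr rfl
        intro t _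
        ring
      rw [e2, hs, card_bx]
      push_cast
      ring
    unfold mn
    rw [e1]
    field_simp
  rw [h1]
  have h2 : mn M (fun u => F u ^ 2) ≤ mn M F := by
    unfold mn rs
    apply div_le_div_of_nonneg_right _ (by positivity)
    apply sum_le_sum
    intro t _
    have := hF (fun i => (t i : ℤ))
    nlinarith
  have := sq_nonneg (mn M F)
  linarith

/-- the primes up to `x` -/
def prs (x : ℕ) : Finset ℕ := (range (x + 1)).filter Nat.Prime

/-- **sums over primes**: functions with values in `[0, 1]` -/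
theorem near_primes (r d : ℕ) (hd : 1 ≤ d) (δ : ℝ) (hδ : 0 < δ) : ∃ κ C : ℝ, 0 < κ ∧ κ ≤ 1 ∧ 1 ≤ C ∧
    ∀ (N : ℕ) (R : ℝ) (f : Fin r → ℝ[X]), 1 ≤ N → 1 ≤ R → (∀ i, (f i).natDegree ≤ d) → Gen d N R f →
    ∀ F : ℕ → ℕ → (Fin r → ℤ) → ℝ, (∀ t p, p.Prime → Per (F t p) p) → (∀ t p u, 0 ≤ F t p u ∧ F t p u ≤ 1) →
    ∃ E : Finset ℕ, E ⊆ range N ∧ (E.card : ℝ) ≤ C * (N * R ^ (-κ)) ∧ ∀ n ∈ range N, n ∉ E →
      ∀ z : Fin r → ℤ, Cl (R ^ κ) (fun i => (f i).eval (n : ℝ)) z → ∀ t : ℕ, (t : ℝ) ≤ R ^ κ → ∀ x : ℕ, (x : ℝ) ≤ R ^ κ →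
        |∑ p ∈ prs x, F t p z - ∑ p ∈ prs x, mn p (F t p)| ≤ C * er δ R (∑ p ∈ prs x, mn p (F t p)) x := by
  classical
  obtain ⟨κ1, C1, hκ10, hκ11, hC1, H⟩ := near_good r d 1 1 1 hd le_rfl δ hδ
  refine ⟨κ1 / 2, 2 ^ δ * C1 * 2, by positivity, by linarith, ?_, ?_⟩
  · have : (1 : ℝ) ≤ 2 ^ δ := Real.one_le_rpow (by norm_num) hδ.le
    nlinarith
  intro N R f hN hR hf hgen F hper hF
  have hR0 : 0 < R := by linarith
  have h2δ : (1 : ℝ) ≤ 2 ^ δ := Real.one_le_rpow (by norm_num) hδ.le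
  obtain ⟨q, hq⟩ : ∃ q : ℕ → ℕ, q = fun k => if k.Prime then k else 1 := ⟨_, rfl⟩
  obtain ⟨φ, hφ⟩ : ∃ φ : ℕ → ℕ → (Fin r → ℤ) → ℝ, φ = fun t k u => if k.Prime then F t k u - mn k (F t k) else 0 := ⟨_, rfl⟩
  have hqpos : ∀ k, 0 < q k := by
    intro k
    rw [hq]
    simp only
    split_ifs with h
    · exact h.pos
    · exact one_pos
  obtain ⟨E, hE1, hE2, hE3⟩ := H N R f hN hR hf hgen q (by
      intro k
      refine ⟨hqpos k, ?_⟩
      rw [hq, pow_one, one_mul]
      simp only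
      split_ifs <;> omega) (by
      intro j k hjk
      rw [hq]
      simp only
      split_ifs with h1 h2 h2
      · exact (Nat.coprime_primes h1 h2).2 (by omega)
      · exact Nat.coprime_one_right _
      · exact Nat.coprime_one_left _
      · exact Nat.coprime_one_left _) φ (by
      intro t k u u' hu
      rw [hφ, hq] at *
      simp only at hu ⊢
      by_cases h : k.Prime
      · rw [if_pos h, if_pos h]
        simp only [if_pos h] at hu
        rw [hper t k h u u' hu]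
      · rw [if_neg h, if_neg h]) (by
      intro t k u
      rw [hφ]
      simp only
      split_ifs
      · have h1 := hF t k u
        have h2 := mn_nonneg (M := k) fun u => (hF t k u).1
        have h3 := mn_le_one (M := k) fun u => (hF t k u).2
        rw [abs_le]
        constructor <;> linarith [h1.1, h1.2]
      · rw [abs_zero]
        exact zero_le_one) (by
      intro t k
      rw [hφ, hq]
      simp only
      by_cases h : k.Prime
      · simp only [if_pos h]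
        exact rs_centered h.pos _
      · simp only [if_neg h]
        unfold rs
        simp)
  refine ⟨E, hE1, ?_, ?_⟩
  · refine hE2.trans ?_
    have h1 : (0 : ℝ) ≤ N := Nat.cast_nonneg _
    calc C1 * (N * R ^ (-κ1)) ≤ C1 * (N * R ^ (-(κ1 / 2))) := by
          apply mul_le_mul_of_nonneg_left _ (by linarith)
          apply mul_le_mul_of_nonneg_left _ h1
          apply Real.rpow_le_rpow_of_exponent_le hR
          linarith
      _ ≤ 2 ^ δ * C1 * 2 * (N * R ^ (-(κ1 / 2))) := by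
          apply mul_le_mul_of_nonneg_right _ (by positivity)
          nlinarith
  · intro n hn hnE z hz t ht x hx
    have hpow : R ^ (κ1 / 2) ≤ R ^ κ1 := Real.rpow_le_rpow_of_exponent_le hR (by linarith)
    have hvnn : 0 ≤ ∑ p ∈ prs x, mn p (F t p) := sum_nonneg fun p _ => mn_nonneg fun u => (hF t p u).1
    rcases lt_or_ge x 2 with hx2 | hx2
    · have : prs x = ∅ := by
        unfold prs
        apply filter_false_of_mem
        intro p hp h
        rw [mem_range] at hp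
        have := h.two_le
        omega
      rw [this, sum_empty, sum_empty, sub_zero, abs_zero]
      have := er_nonneg δ R 0 x
      positivity
    have hx2r : (2 : ℝ) ≤ x := by exact_mod_cast hx2
    by_cases hxR : ((x + 1 : ℕ) : ℝ) ≤ R ^ κ1
    · have h1 := hE3 n hn hnE z (fun i => (hz i).trans hpow) t (ht.trans hpow) (x + 1) hxR
      have e1 : ∑ k ∈ range (x + 1), φ t k z = ∑ p ∈ prs x, F t p z - ∑ p ∈ prs x, mn p (F t p) := by
        unfold prs
        rw [← sum_sub_distrib, sum_filter]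
        apply sum_congr rfl
        intro k _
        rw [hφ]
      have e2 : vs q (φ t) (x + 1) ≤ ∑ p ∈ prs x, mn p (F t p) := by
        unfold vs prs
        rw [sum_filter]
        apply sum_le_sum
        intro k _
        rw [hφ, hq]
        simp only
        by_cases h : k.Prime
        · simp only [if_pos h]
          exact var_le h.pos _ (hF t k)
        · simp only [if_neg h]
          unfold mn rs
          simp
      rw [e1] at h1
      refine h1.trans ?_
      have h2 := er_mono δ R hR e2 (x + 1)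
      have h3 : er δ R (∑ p ∈ prs x, mn p (F t p)) (x + 1) ≤ 2 ^ δ * er δ R (∑ p ∈ prs x, mn p (F t p)) x := by
        unfold er
        rw [← mul_assoc]
        apply mul_le_mul_of_nonneg_right _ (Real.sqrt_nonneg _)
        rw [← Real.mul_rpow (by norm_num) (by linarith)]
        apply Real.rpow_le_rpow (by positivity) _ hδ.le
        push_cast
        linarith
      have h4 := er_nonneg δ R (∑ p ∈ prs x, mn p (F t p)) x
      calc C1 * er δ R (vs q (φ t) (x + 1)) (x + 1) ≤ C1 * (2 ^ δ * er δ R (∑ p ∈ prs x, mn p (F t p)) x) :=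
            mul_le_mul_of_nonneg_left (h2.trans h3) (by linarith)
        _ ≤ 2 ^ δ * C1 * 2 * er δ R (∑ p ∈ prs x, mn p (F t p)) x := by
            have : 0 ≤ 2 ^ δ * C1 * er δ R (∑ p ∈ prs x, mn p (F t p)) x := by positivity
            linarith
    · -- `x` is bounded
      push Not at hxR
      exfalso
      have h1 : ((x + 1 : ℕ) : ℝ) ≤ x * x := by
        push_cast
        nlinarith
      have h2 : (x : ℝ) * x ≤ R ^ (κ1 / 2) * R ^ (κ1 / 2) := mul_le_mul hx hx (by positivity) (by positivity)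
      rw [← Real.rpow_add hR0] at h2
      have e : κ1 / 2 + κ1 / 2 = κ1 := by ring
      rw [e] at h2
      linarith

end Pool.Agent.U471.DQ
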