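import Pool.Agent.U471.DQ.Joint
import Pool.Agent.U471.DQ.EC

set_option autoImplicit false

/-!
Splitting of the primes in the fields generated by the square roots of the integers close to real polynomials.
-/

namespace Pool.Agent.U471.DQ

open Finset Polynomial
open Pool.Agent.R459.Bsd (ch ch_zero ch_mul ch_sq ch_abs ch_sum sum_zmod)

/-- `p` splits in the field generated by the square root of `a` -/
def Sp (p : ℕ) (a : ℤ) : Prop := p ≠ 2 ∧ ¬ (p : ℤ) ∣ a ∧ IsSquare (a : ZMod p)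

/-- `p` is inert in the field generated by the square root of `a` -/
def Ne (p : ℕ) (a : ℤ) : Prop := p ≠ 2 ∧ ¬ IsSquare (a : ZMod p)

lemma cast_congr {p : ℕ} {a a' : ℤ} (h : (p : ℤ) ∣ a - a') : (a : ZMod p) = (a' : ZMod p) := by
  rw [← sub_eq_zero, ← Int.cast_sub, ZMod.intCast_zmod_eq_zero_iff_dvd]
  exact h

lemma Sp_congr {p : ℕ} {a a' : ℤ} (h : (p : ℤ) ∣ a - a') : Sp p a ↔ Sp p a' := by
  unfold Sp
  rw [← ZMod.intCast_zmod_eq_zero_iff_dvd, ← ZMod.intCast_zmod_eq_zero_iff_dvd, cast_congr h]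

lemma Ne_congr {p : ℕ} {a a' : ℤ} (h : (p : ℤ) ∣ a - a') : Ne p a ↔ Ne p a' := by
  unfold Ne
  rw [cast_congr h]

section
variable {p : ℕ} [hF : Fact p.Prime]

lemma ch_one_iff {x : ZMod p} (hx : x ≠ 0) : ch p x = 1 ↔ IsSquare x := by
  unfold ch
  rw [← quadraticChar_one_iff_isSquare hx]
  constructor
  · intro h
    exact_mod_cast h
  · intro h
    rw [h]
    simp

lemma ch_neg_iff (x : ZMod p) : ch p x = -1 ↔ ¬ IsSquare x := by
  unfold ch
  rw [← quadraticChar_neg_one_iff_not_isSquare]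
  constructor
  · intro h
    have h1 : ((quadraticChar (ZMod p) x : ℤ) : ℝ) = ((-1 : ℤ) : ℝ) := by rw [h]; norm_num
    exact_mod_cast h1
  · intro h
    rw [h]
    norm_num

open Classical in
lemma ind_sp (h2 : p ≠ 2) (a : ℤ) : (if Sp p a then (1 : ℝ) else 0) = (ch p (a : ZMod p) * ch p (a : ZMod p) + ch p (a : ZMod p)) / 2 := by
  by_cases h0 : (a : ZMod p) = 0
  · have : (p : ℤ) ∣ a := (ZMod.intCast_zmod_eq_zero_iff_dvd _ _).1 h0
    rw [if_neg (fun h => h.2.1 this), h0, ch_zero]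
    norm_num
  · have h1 : ¬ (p : ℤ) ∣ a := fun h => h0 ((ZMod.intCast_zmod_eq_zero_iff_dvd _ _).2 h)
    rw [ch_sq h0]
    by_cases hs : IsSquare (a : ZMod p)
    · rw [if_pos ⟨h2, h1, hs⟩, (ch_one_iff h0).2 hs]
      norm_num
    · rw [if_neg (fun h => hs h.2.2), (ch_neg_iff _).2 hs]
      norm_num

open Classical in
lemma ind_ne (h2 : p ≠ 2) (a : ℤ) : (if Ne p a then (1 : ℝ) else 0) = (ch p (a : ZMod p) * ch p (a : ZMod p) - ch p (a : ZMod p)) / 2 := by
  by_cases h0 : (a : ZMod p) = 0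
  · rw [if_neg (fun h => h.2 (by rw [h0]; exact IsSquare.zero)), h0, ch_zero]
    norm_num
  · rw [ch_sq h0]
    by_cases hs : IsSquare (a : ZMod p)
    · rw [if_neg (fun h => h.2 hs), (ch_one_iff h0).2 hs]
      norm_num
    · rw [if_pos ⟨h2, hs⟩, (ch_neg_iff _).2 hs]
      norm_num

lemma sum_ch (h2 : p ≠ 2) : ∑ t ∈ range p, ch p ((t : ℤ) : ZMod p) = 0 := by
  rw [sum_zmod (fun z => ch p z), ch_sum h2]

lemma sum_ch2 : ∑ t ∈ range p, ch p ((t : ℤ) : ZMod p) * ch p ((t : ℤ) : ZMod p) = (p : ℝ) - 1 := by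
  rw [sum_zmod (fun z => ch p z * ch p z)]
  have h : ∀ z : ZMod p, ch p z * ch p z = 1 - (if z = 0 then 1 else 0) := by
    intro z
    by_cases hz : z = 0
    · rw [hz, ch_zero]
      simp
    · rw [ch_sq hz, if_neg hz, sub_zero]
  simp only [h]
  rw [sum_sub_distrib, sum_const, card_univ, ZMod.card, nsmul_eq_mul, mul_one, sum_ite_eq' univ (0 : ZMod p)]
  simp

open Classical in
lemma sum_sp (h2 : p ≠ 2) : ∑ t ∈ range p, (if Sp p (t : ℤ) then (1 : ℝ) else 0) = ((p : ℝ) - 1) / 2 := by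
  have h : ∀ t ∈ range p, (if Sp p (t : ℤ) then (1 : ℝ) else 0) =
      (ch p ((t : ℤ) : ZMod p) * ch p ((t : ℤ) : ZMod p) + ch p ((t : ℤ) : ZMod p)) / 2 := fun t _ => ind_sp h2 (t : ℤ)
  rw [sum_congr rfl h, ← sum_div, sum_add_distrib, sum_ch2, sum_ch h2, add_zero]

open Classical in
lemma sum_ne (h2 : p ≠ 2) : ∑ t ∈ range p, (if Ne p (t : ℤ) then (1 : ℝ) else 0) = ((p : ℝ) - 1) / 2 := by
  have h : ∀ t ∈ range p, (if Ne p (t : ℤ) then (1 : ℝ) else 0) =
      (ch p ((t : ℤ) : ZMod p) * ch p ((t : ℤ) : ZMod p) - ch p ((t : ℤ) : ZMod p)) / 2 := fun t _ => ind_ne h2 (t : ℤ)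
  rw [sum_congr rfl h, ← sum_div, sum_sub_distrib, sum_ch2, sum_ch h2, sub_zero]

end

open Classical in
/-- the pattern of splitting -/
def Pat {r : ℕ} (S : Finset (Fin r)) (p : ℕ) (u : Fin r → ℤ) : Prop := ∀ i, if i ∈ S then Sp p (u i) else Ne p (u i)

lemma Pat_congr {r p : ℕ} (S : Finset (Fin r)) {u u' : Fin r → ℤ} (h : ∀ i, (p : ℤ) ∣ u i - u' i) : Pat S p u ↔ Pat S p u' := by
  unfold Pat
  apply forall_congr'
  intro i
  split_ifs
  · exact Sp_congr (h i)
  · exact Ne_congr (h i)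

open Classical in
lemma mn_pat {r p : ℕ} (hp : p.Prime) (h2 : p ≠ 2) (S : Finset (Fin r)) :
    mn p (fun u => if Pat S p u then (1 : ℝ) else 0) = (((p : ℝ) - 1) / (2 * p)) ^ r := by
  have : Fact p.Prime := ⟨hp⟩
  obtain ⟨g, hg⟩ : ∃ g : Fin r → ℤ → ℝ, g = fun i a => if i ∈ S then (if Sp p a then (1 : ℝ) else 0) else
    (if Ne p a then (1 : ℝ) else 0) := ⟨_, rfl⟩
  have e : (fun u : Fin r → ℤ => if Pat S p u then (1 : ℝ) else 0) = fun u => ∏ i, g i (u i) := by
    funext u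
    by_cases h : Pat S p u
    · rw [if_pos h, eq_comm]
      apply prod_eq_one
      intro i _
      have hi := h i
      rw [hg]
      simp only
      by_cases h1 : i ∈ S
      · rw [if_pos h1] at hi ⊢
        rw [if_pos hi]
      · rw [if_neg h1] at hi ⊢
        rw [if_pos hi]
    · rw [if_neg h, eq_comm]
      unfold Pat at h
      rw [not_forall] at h
      obtain ⟨i, hi⟩ := h
      apply prod_eq_zero (mem_univ i)
      rw [hg]
      simp only
      by_cases h1 : i ∈ S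
      · rw [if_pos h1] at hi ⊢
        rw [if_neg hi]
      · rw [if_neg h1] at hi ⊢
        rw [if_neg hi]
  rw [e, mn_coord]
  have h1 : ∀ i : Fin r, (∑ t ∈ range p, g i (t : ℤ)) / (p : ℝ) = ((p : ℝ) - 1) / (2 * p) := by
    intro i
    have hp0 : (p : ℝ) ≠ 0 := by exact_mod_cast hp.ne_zero
    rw [hg]
    by_cases hi : i ∈ S
    · simp only [if_pos hi]
      rw [sum_sp h2]
      field_simp
    · simp only [if_neg hi]
      rw [sum_ne h2]
      field_simp
  rw [prod_congr rfl (fun i _ => h1 i), prod_const, card_univ, Fintype.card_fin]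

/-- no simple relation -/
lemma Pat_two {r : ℕ} (hr : 1 ≤ r) (S : Finset (Fin r)) (u : Fin r → ℤ) : ¬ Pat S 2 u := by
  intro h
  have := h ⟨0, hr⟩
  split_ifs at this with h1
  · exact this.1 rfl
  · exact this.1 rfl

end Pool.Agent.U471.DQ
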