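import Pool.Agent.U471.DQ.Quad

set_option autoImplicit false

/-!
Patterns of splitting, and no small relations between the quadratic fields.
-/

namespace Pool.Agent.U471.DQ

open Finset Polynomial
open Pool.Agent.R459.Bsd (ch ch_zero ch_mul ch_sq ch_abs ch_sum sum_zmod)

lemma ch_prod {p : ℕ} [Fact p.Prime] {ι : Type*} (T : Finset ι) (u : ι → ZMod p) : ch p (∏ i ∈ T, u i) = ∏ i ∈ T, ch p (u i) := by
  classical
  induction T using Finset.induction_on with
  | empty =>
    rw [prod_empty, prod_empty]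
    exact Pool.Agent.R459.Bsd.ch_one
  | insert a T ha ih => rw [prod_insert ha, prod_insert ha, ch_mul, ih]

lemma mn_lin {r p : ℕ} (G H : (Fin r → ℤ) → ℝ) (c : ℝ) : mn p (fun u => (G u - c * H u) / 2) = (mn p G - c * mn p H) / 2 := by
  unfold mn rs
  rw [← sum_div, sum_sub_distrib, ← mul_sum]
  ring

open Classical in
lemma mn_rel {r p : ℕ} (hp : p.Prime) (h2 : p ≠ 2) (T : Finset (Fin r)) (hT : T.Nonempty) (k : ℤ) (hk : ¬ (p : ℤ) ∣ k) :
    mn p (fun u : Fin r → ℤ => if Ne p (k * ∏ i ∈ T, u i) then (1 : ℝ) else 0) = (((p : ℝ) - 1) / p) ^ T.card / 2 := by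
  have : Fact p.Prime := ⟨hp⟩
  have hp0 : (p : ℝ) ≠ 0 := by exact_mod_cast hp.ne_zero
  obtain ⟨g, hg⟩ : ∃ g : Fin r → ℤ → ℝ, g = fun (i : Fin r) (a : ℤ) => if i ∈ T then ch p (a : ZMod p) * ch p (a : ZMod p) else 1 := ⟨_, rfl⟩
  obtain ⟨h, hh⟩ : ∃ h : Fin r → ℤ → ℝ, h = fun (i : Fin r) (a : ℤ) => if i ∈ T then ch p (a : ZMod p) else 1 := ⟨_, rfl⟩
  have hk0 : (k : ZMod p) ≠ 0 := fun h => hk ((ZMod.intCast_zmod_eq_zero_iff_dvd _ _).1 h)
  have e : (fun u : Fin r → ℤ => if Ne p (k * ∏ i ∈ T, u i) then (1 : ℝ) else 0) =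
      fun u => ((fun u : Fin r → ℤ => ∏ i, g i (u i)) u - ch p (k : ZMod p) * (fun u : Fin r → ℤ => ∏ i, h i (u i)) u) / 2 := by
    funext u
    rw [ind_ne h2]
    push_cast
    rw [ch_mul, ch_prod]
    have e1 : ∏ i, g i (u i) = (∏ i ∈ T, ch p ((u i : ℤ) : ZMod p)) * (∏ i ∈ T, ch p ((u i : ℤ) : ZMod p)) := by
      rw [hg]
      simp only
      rw [prod_ite, prod_const_one, mul_one, ← prod_mul_distrib]
      apply prod_congr _ (fun _ _ => rfl)
      ext i
      simp
    have e2 : ∏ i, h i (u i) = ∏ i ∈ T, ch p ((u i : ℤ) : ZMod p) := by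
      rw [hh]
      simp only
      rw [prod_ite, prod_const_one, mul_one]
      apply prod_congr _ (fun _ _ => rfl)
      ext i
      simp
    rw [e1, e2]
    have e3 := ch_sq hk0
    linear_combination (1 / 2) * ((∏ i ∈ T, ch p ((u i : ℤ) : ZMod p)) * (∏ i ∈ T, ch p ((u i : ℤ) : ZMod p))) * e3
  rw [e, mn_lin, mn_coord, mn_coord]
  have h1 : ∏ i, ((∑ t ∈ range p, g i (t : ℤ)) / (p : ℝ)) = (((p : ℝ) - 1) / p) ^ T.card := by
    have h3 : ∀ i : Fin r, (∑ t ∈ range p, g i (t : ℤ)) / (p : ℝ) = if i ∈ T then ((p : ℝ) - 1) / p else 1 := by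
      intro i
      rw [hg]
      by_cases hi : i ∈ T
      · simp only [if_pos hi]
        rw [sum_ch2]
      · simp only [if_neg hi]
        rw [sum_const, card_range, nsmul_eq_mul, mul_one, div_self hp0]
    rw [prod_congr rfl (fun i _ => h3 i), prod_ite, prod_const, prod_const_one, mul_one]
    congr 2
    ext i
    simp
  have h2' : ∏ i, ((∑ t ∈ range p, h i (t : ℤ)) / (p : ℝ)) = 0 := by
    obtain ⟨i, hi⟩ := hT
    apply prod_eq_zero (mem_univ i)
    rw [hh]
    simp only [if_pos hi]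
    rw [sum_ch h2, zero_div]
  rw [h1, h2', mul_zero, sub_zero]

lemma card_dvd (k : ℤ) (hk : k ≠ 0) (x : ℕ) : 2 ^ ((prs x).filter (fun p : ℕ => (p : ℤ) ∣ k)).card ≤ k.natAbs := by
  have h0 : k.natAbs ≠ 0 := Int.natAbs_ne_zero.2 hk
  have h1 : (prs x).filter (fun p : ℕ => (p : ℤ) ∣ k) ⊆ k.natAbs.primeFactors := by
    intro p hp
    rw [mem_filter] at hp
    unfold prs at hp
    rw [mem_filter] at hp
    rw [Nat.mem_primeFactors]
    exact ⟨hp.1.2, Int.natCast_dvd.1 hp.2, h0⟩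
  calc 2 ^ ((prs x).filter (fun p : ℕ => (p : ℤ) ∣ k)).card = ∏ _p ∈ (prs x).filter (fun p : ℕ => (p : ℤ) ∣ k), 2 := by rw [prod_const]
    _ ≤ ∏ p ∈ (prs x).filter (fun p : ℕ => (p : ℤ) ∣ k), p := by
        apply prod_le_prod' 
        intro p hp
        exact (Nat.prime_of_mem_primeFactors (h1 hp)).two_le
    _ ≤ ∏ p ∈ k.natAbs.primeFactors, p := by
        apply prod_le_prod_of_subset_of_one_le' h1
        intro p hp _
        exact (Nat.prime_of_mem_primeFactors hp).one_lt.le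
    _ ≤ k.natAbs := Nat.le_of_dvd (Nat.pos_of_ne_zero h0) (Nat.prod_primeFactors_dvd _)

lemma prs_lower (x : ℕ) (hx : 20 ≤ x) : (x : ℝ) / (2 * Real.log x) ≤ ((prs x).card : ℝ) := by
  have h1 := Chebyshev.pi_ge x
  have e : Nat.primeCounting x = (prs x).card := by
    unfold prs Nat.primeCounting Nat.primeCounting'
    rw [Nat.count_eq_card_filter_range]
  rw [e] at h1
  have hxr : (20 : ℝ) ≤ x := by exact_mod_cast hx
  have hlog : 0 < Real.log x := Real.log_pos (by linarith)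
  refine le_trans ?_ h1
  rw [div_le_div_iff₀ (by positivity) hlog]
  have h2 : Real.log (x + 1) ≤ Real.log 21 + ((x : ℝ) - 20) / 21 := by
    have h3 := Real.log_le_sub_one_of_pos (x := ((x : ℝ) + 1) / 21) (by positivity)
    rw [Real.log_div (by positivity) (by norm_num)] at h3
    linarith
  have h21 : Real.log 21 ≤ 3.05 := by
    have h4 : Real.log 21 = Real.log (21 / 16) + 4 * Real.log 2 := by
      rw [← Real.log_rpow (by norm_num), ← Real.log_mul (by norm_num) (by positivity)]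
      norm_num
    have h5 := Real.log_le_sub_one_of_pos (x := (21 / 16 : ℝ)) (by norm_num)
    have h6 := Real.log_two_lt_d9
    rw [h4]
    have h7 : Real.log (21 / 16 : ℝ) ≤ 0.2769 := by
      have h8 : Real.log (21 / 16 : ℝ) = 2 * Real.log (√(21 / 16 : ℝ)) := by
        rw [Real.log_sqrt (by norm_num)]
        ring
      have h9 : √(21 / 16 : ℝ) ≤ 1.1457 := by
        rw [Real.sqrt_le_left (by norm_num)]
        norm_num
      have h10 := Real.log_le_sub_one_of_pos (x := √(21 / 16 : ℝ)) (by positivity)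
      rw [h8]
      have h11 : Real.log (√(21 / 16 : ℝ)) = 2 * Real.log (√(√(21 / 16 : ℝ))) := by
        rw [Real.log_sqrt (x := √(21 / 16 : ℝ)) (by positivity)]
        ring
      have h12 : √(√(21 / 16 : ℝ)) ≤ 1.07038 := by
        rw [Real.sqrt_le_left (by norm_num)]
        linarith
      have h13 := Real.log_le_sub_one_of_pos (x := √(√(21 / 16 : ℝ))) (by positivity)
      have h14 : Real.log (√(√(21 / 16 : ℝ))) = 2 * Real.log (√(√(√(21 / 16 : ℝ)))) := by
        rw [Real.log_sqrt (x := √(√(21 / 16 : ℝ))) (by positivity)]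
        ring
      have h15 : √(√(√(21 / 16 : ℝ))) ≤ 1.0346 := by
        rw [Real.sqrt_le_left (by norm_num)]
        linarith
      have h16 := Real.log_le_sub_one_of_pos (x := √(√(√(21 / 16 : ℝ)))) (by positivity)
      rw [h11, h14]
      linarith
    linarith
  have h2b : 0.6931 < Real.log 2 := by linarith [Real.log_two_gt_d9]
  nlinarith [mul_nonneg (by linarith : (0 : ℝ) ≤ (x : ℝ) - 20) hlog.le]

end Pool.Agent.U471.DQ
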