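import Pool.Agent.U471.DQ.Quad2

set_option autoImplicit false

/-!
Patterns of splitting, and no small relations between the quadratic fields: the theorem.
-/

namespace Pool.Agent.U471.DQ

open Finset Polynomial

open Classical in
/-- the properties -/
def PQ {r : ℕ} : (Finset (Fin r) ⊕ (Finset (Fin r) × ℤ)) → ℕ → (Fin r → ℤ) → Prop
  | Sum.inl S => fun p u => Pat S p u
  | Sum.inr t => fun p u => Ne p (t.2 * ∏ i ∈ t.1, u i)

lemma prod_congr_mod {r p : ℕ} (T : Finset (Fin r)) (k : ℤ) {u u' : Fin r → ℤ} (h : ∀ i, (p : ℤ) ∣ u i - u' i) :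
    (p : ℤ) ∣ k * (∏ i ∈ T, u i) - k * ∏ i ∈ T, u' i := by
  rw [← ZMod.intCast_zmod_eq_zero_iff_dvd]
  push_cast
  rw [prod_congr rfl (fun i _ => cast_congr (h i)), sub_self]

lemma PQ_congr {r : ℕ} (t : Finset (Fin r) ⊕ (Finset (Fin r) × ℤ)) (p : ℕ) {u u' : Fin r → ℤ} (h : ∀ i, (p : ℤ) ∣ u i - u' i) :
    PQ t p u ↔ PQ t p u' := by
  rcases t with S | t
  · exact Pat_congr S h
  · exact Ne_congr (prod_congr_mod t.1 t.2 h)

lemma mdl_eq {r : ℕ} (P : ℕ → (Fin r → ℤ) → Prop) (x : ℕ) [∀ p u, Decidable (P p u)] :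
    mdl P x = ∑ p ∈ prs x, mn p (fun u => if P p u then (1 : ℝ) else 0) := by
  unfold mdl mn rs
  apply sum_congr rfl
  intro p _
  rw [← sum_filter, sum_const, nsmul_eq_mul, mul_one]
  congr!

lemma mdl_le {r : ℕ} (P : ℕ → (Fin r → ℤ) → Prop) (x : ℕ) : mdl P x ≤ x := by
  classical
  rw [mdl_eq]
  have h1 : ∀ p ∈ prs x, mn p (fun u => if P p u then (1 : ℝ) else 0) ≤ 1 := fun p _ => mn_le_one (by
    intro u
    split_ifs <;> norm_num)
  refine (sum_le_card_nsmul _ _ 1 h1).trans ?_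
  rw [nsmul_eq_mul, mul_one]
  have h2 : prs x ⊆ Icc 1 x := by
    intro p hp
    unfold prs at hp
    rw [mem_filter, mem_range] at hp
    rw [mem_Icc]
    exact ⟨hp.2.one_lt.le, by omega⟩
  have h3 := card_le_card h2
  rw [Nat.card_Icc] at h3
  have : (prs x).card ≤ x := by omega
  exact_mod_cast this

lemma mdl_nonneg {r : ℕ} (P : ℕ → (Fin r → ℤ) → Prop) (x : ℕ) : 0 ≤ mdl P x := by
  unfold mdl
  exact sum_nonneg fun p _ => by positivity

/-- the lower bound for the model of a relation -/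
lemma mdl_rel {r : ℕ} (T : Finset (Fin r)) (hT : T.Nonempty) (k : ℤ) (x : ℕ) :
    (2 / 3 : ℝ) ^ r / 2 * (((prs x).card : ℝ) - 1 - (((prs x).filter (fun p : ℕ => (p : ℤ) ∣ k)).card : ℝ)) ≤
      mdl (PQ (Sum.inr (T, k))) x := by
  classical
  rw [mdl_eq]
  obtain ⟨A, hA⟩ : ∃ A : Finset ℕ, A = (prs x).filter (fun p : ℕ => p ≠ 2 ∧ ¬ (p : ℤ) ∣ k) := ⟨_, rfl⟩
  have hcard : (prs x).card ≤ A.card + 1 + ((prs x).filter (fun p : ℕ => (p : ℤ) ∣ k)).card := by
    have h1 : prs x ⊆ (A ∪ {2}) ∪ (prs x).filter (fun p : ℕ => (p : ℤ) ∣ k) := by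
      intro p hp
      rw [mem_union, mem_union, mem_singleton, mem_filter, hA, mem_filter]
      tauto
    refine (card_le_card h1).trans ((card_union_le _ _).trans ?_)
    have := card_union_le A {2}
    rw [card_singleton] at this
    omega
  have hc : (0 : ℝ) ≤ (2 / 3 : ℝ) ^ r / 2 := by positivity
  have hmain : ∑ p ∈ A, (2 / 3 : ℝ) ^ r / 2 ≤ ∑ p ∈ prs x, mn p (fun u => if PQ (Sum.inr (T, k)) p u then (1 : ℝ) else 0) := by
    refine (sum_le_sum ?_).trans (sum_le_sum_of_subset_of_nonneg (t := prs x) (by rw [hA]; exact filter_subset _ _) ?_)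
    · intro p hp
      rw [hA, mem_filter] at hp
      unfold prs at hp
      rw [mem_filter] at hp
      have hpp := hp.1.2
      have h3 : 3 ≤ p := by
        have := hpp.two_le
        omega
      have e : (fun u : Fin r → ℤ => if PQ (Sum.inr (T, k)) p u then (1 : ℝ) else 0) =
          fun u : Fin r → ℤ => if Ne p (k * ∏ i ∈ T, u i) then (1 : ℝ) else 0 := by
        funext u
        unfold PQ
        simp only
      rw [e, mn_rel hpp hp.2.1 T hT k hp.2.2]
      have h4 : (2 / 3 : ℝ) ≤ ((p : ℝ) - 1) / p := by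
        have h5 : (3 : ℝ) ≤ p := by exact_mod_cast h3
        rw [le_div_iff₀ (by linarith)]
        linarith
      have h6 : ((p : ℝ) - 1) / p ≤ 1 := by
        have h5 : (3 : ℝ) ≤ p := by exact_mod_cast h3
        rw [div_le_one (by linarith)]
        linarith
      have h7 : T.card ≤ r := by
        have := card_le_univ T
        rwa [Fintype.card_fin] at this
      apply div_le_div_of_nonneg_right _ (by norm_num)
      calc (2 / 3 : ℝ) ^ r ≤ (2 / 3 : ℝ) ^ T.card := pow_le_pow_of_le_one (by norm_num) (by norm_num) h7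
        _ ≤ _ := pow_le_pow_left₀ (by norm_num) h4 _
    · intro p _ _
      exact mn_nonneg (by
        intro u
        split_ifs <;> norm_num)
  rw [sum_const, nsmul_eq_mul] at hmain
  refine le_trans ?_ hmain
  rw [mul_comm]
  apply mul_le_mul_of_nonneg_right _ hc
  have : ((prs x).card : ℝ) ≤ A.card + 1 + ((prs x).filter (fun p : ℕ => (p : ℤ) ∣ k)).card := by exact_mod_cast hcard
  linarith

lemma sum_inv_prs (x : ℕ) : ∑ p ∈ prs x, 1 / (p : ℝ) ≤ 1 + Real.log x := by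
  have h1 : prs x ⊆ Icc 1 x := by
    intro p hp
    unfold prs at hp
    rw [mem_filter, mem_range] at hp
    rw [mem_Icc]
    exact ⟨hp.2.one_lt.le, by omega⟩
  have h2 : ∑ p ∈ prs x, 1 / (p : ℝ) ≤ ∑ p ∈ Icc 1 x, 1 / (p : ℝ) :=
    sum_le_sum_of_subset_of_nonneg h1 (fun p _ _ => by positivity)
  have h3 := harmonic_le_one_add_log x
  have e : ((harmonic x : ℚ) : ℝ) = ∑ p ∈ Icc 1 x, 1 / (p : ℝ) := by
    rw [harmonic_eq_sum_Icc]
    push_cast
    apply sum_congr rfl
    intro p _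
    rw [one_div]
  rw [e] at h3
  exact h2.trans h3

/-- the model of a pattern -/
lemma mdl_pat {r : ℕ} (hr : 1 ≤ r) (S : Finset (Fin r)) (x : ℕ) (hx : 1 ≤ x) :
    |mdl (PQ (Sum.inl S)) x - ((prs x).card : ℝ) / 2 ^ r| ≤ (r + 1) * (1 + Real.log x) := by
  classical
  rw [mdl_eq]
  have hterm : ∀ p ∈ prs x, |mn p (fun u => if PQ (Sum.inl S) p u then (1 : ℝ) else 0) - 1 / 2 ^ r| ≤
      (if p = 2 then 1 else 0) + r * (1 / (p : ℝ)) := by
    intro p hp
    unfold prs at hp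
    rw [mem_filter] at hp
    have hpp := hp.2
    have e : (fun u : Fin r → ℤ => if PQ (Sum.inl S) p u then (1 : ℝ) else 0) =
        fun u : Fin r → ℤ => if Pat S p u then (1 : ℝ) else 0 := by
      funext u
      unfold PQ
      simp only
    rw [e]
    have hpow : (0 : ℝ) < 1 / 2 ^ r := by positivity
    have hpow1 : (1 : ℝ) / 2 ^ r ≤ 1 := by
      rw [div_le_one (by positivity)]
      exact one_le_pow₀ (by norm_num)
    have hp0 : (0 : ℝ) < p := by exact_mod_cast hpp.pos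
    by_cases h2 : p = 2
    · subst h2
      have e2 : (fun u : Fin r → ℤ => if Pat S 2 u then (1 : ℝ) else 0) = fun _ => 0 := by
        funext u
        rw [if_neg (Pat_two hr S u)]
      have e3 : mn 2 (fun _ : Fin r → ℤ => (0 : ℝ)) = 0 := by
        unfold mn rs
        simp
      rw [e2, e3, if_pos rfl, zero_sub, abs_neg, abs_of_pos hpow]
      have : (0 : ℝ) ≤ r * (1 / ((2 : ℕ) : ℝ)) := by positivity
      linarith
    · rw [mn_pat hpp h2 S, if_neg h2, zero_add]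
      have h3 : (2 : ℝ) ≤ p := by exact_mod_cast hpp.two_le
      have e4 : (((p : ℝ) - 1) / (2 * p)) ^ r = (1 - 1 / (p : ℝ)) ^ r * (1 / 2 ^ r) := by
        rw [← one_div_pow, ← mul_pow]
        congr 1
        field_simp
      have h5 : 1 / (p : ℝ) ≤ 1 := by
        rw [div_le_one hp0]
        linarith
      have h6 : 1 - r * (1 / (p : ℝ)) ≤ (1 - 1 / (p : ℝ)) ^ r := by
        have := one_add_mul_le_pow (a := -(1 / (p : ℝ))) (by linarith) r
        have e7 : (1 : ℝ) + r * -(1 / (p : ℝ)) = 1 - r * (1 / (p : ℝ)) := by ring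
        have e8 : (1 : ℝ) + -(1 / (p : ℝ)) = 1 - 1 / (p : ℝ) := by ring
        rwa [e7, e8] at this
      have h7 : (1 - 1 / (p : ℝ)) ^ r ≤ 1 := pow_le_one₀ (by linarith) (by have : 0 ≤ 1 / (p : ℝ) := by positivity
                                                                           linarith)
      rw [e4]
      have e9 : (1 - 1 / (p : ℝ)) ^ r * (1 / 2 ^ r) - 1 / 2 ^ r = -((1 - (1 - 1 / (p : ℝ)) ^ r) * (1 / 2 ^ r)) := by ring
      rw [e9, abs_neg, abs_of_nonneg (mul_nonneg (by linarith) hpow.le)]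
      calc (1 - (1 - 1 / (p : ℝ)) ^ r) * (1 / 2 ^ r) ≤ (r * (1 / (p : ℝ))) * 1 := by
            apply mul_le_mul _ hpow1 hpow.le (by positivity)
            linarith
        _ = _ := mul_one _
  have e1 : ∑ p ∈ prs x, mn p (fun u => if PQ (Sum.inl S) p u then (1 : ℝ) else 0) - ((prs x).card : ℝ) / 2 ^ r =
      ∑ p ∈ prs x, (mn p (fun u => if PQ (Sum.inl S) p u then (1 : ℝ) else 0) - 1 / 2 ^ r) := by
    rw [sum_sub_distrib, sum_const, nsmul_eq_mul]
    ring
  rw [e1]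
  refine (abs_sum_le_sum_abs _ _).trans ((sum_le_sum hterm).trans ?_)
  rw [sum_add_distrib, ← mul_sum, sum_ite_eq' (prs x) 2]
  have h8 := sum_inv_prs x
  have hlog : 0 ≤ Real.log x := Real.log_natCast_nonneg x
  have h9 : (if 2 ∈ prs x then (1 : ℝ) else 0) ≤ 1 := by split_ifs <;> norm_num
  have hr0 : (0 : ℝ) ≤ r := Nat.cast_nonneg r
  nlinarith [mul_le_mul_of_nonneg_left h8 hr0]


/-- **patterns of splitting, and no small relations**, for the integers close to real polynomials -/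
theorem near_quad (r d : ℕ) (hr : 1 ≤ r) (hd : 1 ≤ d) (δ : ℝ) (hδ : 0 < δ) (hδ1 : δ ≤ 1 / 4) : ∃ κ C : ℝ, 0 < κ ∧ κ ≤ 1 ∧ 1 ≤ C ∧
    ∀ (N : ℕ) (R : ℝ) (f : Fin r → ℝ[X]), 1 ≤ N → 1 ≤ R → (∀ i, (f i).natDegree ≤ d) → Gen d N R f →
    ∃ E : Finset ℕ, E ⊆ range N ∧ (E.card : ℝ) ≤ C * (N * R ^ (-κ)) ∧ ∀ n ∈ range N, n ∉ E →
      ∀ z : Fin r → ℤ, Cl (R ^ κ) (fun i => (f i).eval (n : ℝ)) z →
        (∀ (S : Finset (Fin r)) (x : ℕ), (x : ℝ) ≤ R ^ κ →
          |(cnt (Pat S) z x : ℝ) - ((prs x).card : ℝ) / 2 ^ r| ≤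
            C * ((x : ℝ) ^ δ * (√(x * (1 + Real.log R)) + (1 + Real.log R)))) ∧
        ∀ T : Finset (Fin r), T.Nonempty → ∀ k : ℤ, k ≠ 0 → ((|k| : ℤ) : ℝ) ≤ R ^ κ → ¬ IsSquare (k * ∏ i ∈ T, z i) := by
  classical
  obtain ⟨κ, C0, hκ0, hκ1, hC0, H⟩ := near_count_fin r d hd (2 ^ (r + 2)) (one_le_pow₀ (by norm_num)) δ hδ
  obtain ⟨c, hc⟩ : ∃ c : ℝ, c = (2 / 3 : ℝ) ^ r / 2 := ⟨_, rfl⟩
  have hc0 : 0 < c := by rw [hc]; positivity
  obtain ⟨K1, hK1⟩ : ∃ K1 : ℝ, K1 = 32 / c * (17 * c + 2 * C0 ^ 2 * (1 + 8 / κ)) := ⟨_, rfl⟩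
  have hK10 : 0 < K1 := by rw [hK1]; positivity
  have hK1big : 17 * 32 ≤ K1 := by
    have : 32 / c * (17 * c) = 17 * 32 := by field_simp
    have h2 : 0 ≤ 32 / c * (2 * C0 ^ 2 * (1 + 8 / κ)) := by positivity
    rw [hK1, mul_add]
    linarith
  have hCbig : 1 ≤ (K1 + 1) ^ 4 := one_le_pow₀ (by linarith)
  refine ⟨κ, (C0 + (r + 1)) * (K1 + 1) ^ 4, hκ0, hκ1, by nlinarith, ?_⟩
  intro N R f hN hR hf hgen
  have hR0 : 0 < R := by linarith
  have hN0 : (0 : ℝ) ≤ N := Nat.cast_nonneg _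
  obtain ⟨q, hq⟩ : ∃ q : ℝ, q = R ^ (κ / 8) := ⟨_, rfl⟩
  have hq1 : 1 ≤ q := by rw [hq]; exact Real.one_le_rpow hR (by positivity)
  have hq8 : q ^ 8 = R ^ κ := by
    rw [hq, ← Real.rpow_natCast, ← Real.rpow_mul hR0.le]
    congr 1
    push_cast
    ring
  have hL0 : 0 ≤ Real.log R := Real.log_nonneg hR
  have hL : Real.log R ≤ 8 * q / κ := by
    have h1 : Real.log q ≤ q - 1 := Real.log_le_sub_one_of_pos (by linarith)
    have h2 : Real.log q = κ / 8 * Real.log R := by rw [hq, Real.log_rpow hR0]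
    rw [le_div_iff₀ hκ0]
    nlinarith
  have hr0 : (0 : ℝ) ≤ r := Nat.cast_nonneg r
  rcases le_or_gt (q ^ 2) K1 with hsmall | hbig
  · refine ⟨range N, Finset.Subset.refl _, ?_, fun n hn hnE => absurd hn hnE⟩
    rw [card_range]
    have h1 : R ^ κ ≤ (K1 + 1) ^ 4 := by
      rw [← hq8]
      calc q ^ 8 = (q ^ 2) ^ 4 := by ring
        _ ≤ (K1 + 1) ^ 4 := pow_le_pow_left₀ (by positivity) (by linarith) 4
    have h2 : 1 ≤ (C0 + (r + 1)) * (K1 + 1) ^ 4 * R ^ (-κ) := by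
      rw [Real.rpow_neg hR0.le, ← div_eq_mul_inv, le_div_iff₀ (Real.rpow_pos_of_pos hR0 _)]
      nlinarith
    calc (N : ℝ) = N * 1 := (mul_one _).symm
      _ ≤ N * ((C0 + (r + 1)) * (K1 + 1) ^ 4 * R ^ (-κ)) := mul_le_mul_of_nonneg_left h2 hN0
      _ = _ := by ring
  -- the main case
  obtain ⟨K, hK⟩ : ∃ K : ℕ, K = ⌊R ^ κ⌋₊ := ⟨_, rfl⟩
  have hRκ1 : 1 ≤ R ^ κ := Real.one_le_rpow hR hκ0.le
  have hKR : (K : ℝ) ≤ R ^ κ := by rw [hK]; exact Nat.floor_le (by positivity)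
  obtain ⟨S, hS⟩ : ∃ S : Finset (Finset (Fin r) ⊕ (Finset (Fin r) × ℤ)), S = (univ : Finset (Finset (Fin r))).disjSum
      ((univ : Finset (Finset (Fin r))) ×ˢ Icc (-(K : ℤ)) K) := ⟨_, rfl⟩
  have hSc : (S.card : ℝ) ≤ 2 ^ (r + 2) * R ^ κ := by
    rw [hS, card_disjSum, card_product, card_univ, Fintype.card_finset, Fintype.card_fin, Int.card_Icc]
    have e1 : ((K : ℤ) + 1 - -(K : ℤ)).toNat = 2 * K + 1 := by omega
    rw [e1]
    push_cast
    have h2r : (0 : ℝ) < 2 ^ r := by positivity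
    calc (2 : ℝ) ^ r + 2 ^ r * (2 * K + 1) = 2 ^ r * (2 + 2 * K) := by ring
      _ ≤ 2 ^ r * (2 * R ^ κ + 2 * R ^ κ) := by
          apply mul_le_mul_of_nonneg_left _ h2r.le
          linarith
      _ = _ := by ring
  obtain ⟨E, hE1, hE2, hE3⟩ := H N R f hN hR hf hgen _ S hSc (fun t => PQ t) (fun t p _ u u' hu => PQ_congr t p hu)
  refine ⟨E, hE1, ?_, ?_⟩
  · refine hE2.trans ?_
    apply mul_le_mul_of_nonneg_right _ (by positivity)
    nlinarith
  intro n hn hnE z hz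
  constructor
  · intro S' x hx
    have hmem : Sum.inl S' ∈ S := by
      rw [hS, Finset.inl_mem_disjSum]
      exact mem_univ _
    have h1 := hE3 n hn hnE z hz (Sum.inl S') hmem x hx
    have e1 : cnt (PQ (Sum.inl S')) z x = cnt (Pat S') z x := by
      unfold PQ
      rfl
    rw [e1] at h1
    rcases Nat.eq_zero_or_pos x with hx0 | hxpos
    · subst hx0
      have e3 : prs 0 = ∅ := by
        unfold prs
        simp [Nat.not_prime_zero]
      have e2 : cnt (Pat S') z 0 = 0 := by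
        unfold cnt
        rw [e3, filter_empty, card_empty]
      rw [e2, e3, card_empty, Nat.cast_zero, zero_div, sub_zero, abs_zero]
      positivity
    have hx1 : (1 : ℝ) ≤ x := by exact_mod_cast hxpos
    have h2 := mdl_pat hr S' x hxpos
    have hlogx : Real.log x ≤ Real.log R := by
      refine Real.log_le_log (by linarith) (hx.trans ?_)
      calc R ^ κ ≤ R ^ (1 : ℝ) := Real.rpow_le_rpow_of_exponent_le hR hκ1
        _ = R := Real.rpow_one R
    have hxδ : 1 ≤ (x : ℝ) ^ δ := Real.one_le_rpow hx1 hδ.le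
    have h3 : er δ R (mdl (PQ (Sum.inl S')) x) x ≤ (x : ℝ) ^ δ * (√(x * (1 + Real.log R)) + (1 + Real.log R)) := by
      unfold er
      apply mul_le_mul_of_nonneg_left _ (by positivity)
      have h4 : (1 + Real.log R) * (1 + Real.log R + mdl (PQ (Sum.inl S')) x) ≤ x * (1 + Real.log R) + (1 + Real.log R) ^ 2 := by
        have := mdl_le (PQ (Sum.inl S')) x
        nlinarith
      refine (Real.sqrt_le_sqrt h4).trans ?_
      have h5 : 0 ≤ (x : ℝ) * (1 + Real.log R) := by positivity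
      refine Real.sqrt_le_iff.mpr ⟨by positivity, ?_⟩
      have h6 := Real.sq_sqrt h5
      have h7 := Real.sqrt_nonneg ((x : ℝ) * (1 + Real.log R))
      have h8 : 0 ≤ √((x : ℝ) * (1 + Real.log R)) * (1 + Real.log R) := by positivity
      linarith [h6, h8, sq_nonneg (1 + Real.log R), add_sq (√((x : ℝ) * (1 + Real.log R))) (1 + Real.log R)]
    have h5 : |(cnt (Pat S') z x : ℝ) - ((prs x).card : ℝ) / 2 ^ r| ≤
        |(cnt (Pat S') z x : ℝ) - mdl (PQ (Sum.inl S')) x| + |mdl (PQ (Sum.inl S')) x - ((prs x).card : ℝ) / 2 ^ r| := by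
      have := abs_add_le ((cnt (Pat S') z x : ℝ) - mdl (PQ (Sum.inl S')) x) (mdl (PQ (Sum.inl S')) x - ((prs x).card : ℝ) / 2 ^ r)
      have e : (cnt (Pat S') z x : ℝ) - mdl (PQ (Sum.inl S')) x + (mdl (PQ (Sum.inl S')) x - ((prs x).card : ℝ) / 2 ^ r) =
        (cnt (Pat S') z x : ℝ) - ((prs x).card : ℝ) / 2 ^ r := by ring
      rwa [e] at this
    obtain ⟨W, hW⟩ : ∃ W : ℝ, W = (x : ℝ) ^ δ * (√(x * (1 + Real.log R)) + (1 + Real.log R)) := ⟨_, rfl⟩
    rw [← hW] at h3 ⊢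
    have hW1 : 1 + Real.log x ≤ W := by
      rw [hW]
      have : 0 ≤ √(x * (1 + Real.log R)) := Real.sqrt_nonneg _
      nlinarith
    have hW0 : 0 ≤ W := by
      have := Real.log_nonneg hx1
      linarith
    calc _ ≤ C0 * W + (r + 1) * W := by
          refine h5.trans (add_le_add (h1.trans (mul_le_mul_of_nonneg_left h3 (by linarith))) (h2.trans ?_))
          exact mul_le_mul_of_nonneg_left hW1 (by linarith)
      _ = (C0 + (r + 1)) * W * 1 := by ring
      _ ≤ (C0 + (r + 1)) * W * (K1 + 1) ^ 4 := mul_le_mul_of_nonneg_left hCbig (by positivity)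
      _ = _ := by ring
  · intro T hT k hk0 hkR hsq
    have hmem : Sum.inr (T, k) ∈ S := by
      rw [hS, Finset.inr_mem_disjSum, mem_product, mem_Icc]
      refine ⟨mem_univ _, ?_⟩
      rw [← abs_le, hK]
      have h1 : (k.natAbs : ℝ) ≤ R ^ κ := by
        rw [Nat.cast_natAbs]
        exact hkR
      have h3 := Nat.le_floor h1
      rw [← Int.natCast_natAbs]
      exact_mod_cast h3
    have h1 := hE3 n hn hnE z hz (Sum.inr (T, k)) hmem K hKR
    have e1 : cnt (PQ (Sum.inr (T, k))) z K = 0 := by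
      unfold cnt
      rw [card_eq_zero]
      apply filter_false_of_mem
      intro p _ hcon
      unfold PQ Ne at hcon
      obtain ⟨m, hm⟩ := hsq
      apply hcon.2
      simp only
      rw [hm]
      push_cast
      exact ⟨_, rfl⟩
    rw [e1, Nat.cast_zero, zero_sub, abs_neg] at h1
    obtain ⟨M, hM⟩ : ∃ M : ℝ, M = mdl (PQ (Sum.inr (T, k))) K := ⟨_, rfl⟩
    have hM0 : 0 ≤ M := by rw [hM]; exact mdl_nonneg _ _
    have hlow := mdl_rel T hT k K
    rw [← hM] at h1 hlow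
    rw [abs_of_nonneg hM0] at h1
    have hq8' : q ^ 8 = R ^ κ := hq8
    have hq2 : 17 * 32 < q ^ 2 := by linarith
    have hq8big : (544 : ℝ) ≤ q ^ 8 := by
      calc (544 : ℝ) ≤ q ^ 2 := by linarith
        _ ≤ q ^ 8 := pow_le_pow_right₀ hq1 (by norm_num)
    have hKlow : q ^ 8 / 2 ≤ K := by
      have := Nat.lt_floor_add_one (R ^ κ)
      rw [← hK, ← hq8] at this
      linarith
    have hK20 : 20 ≤ K := by
      have : (20 : ℝ) ≤ K := by linarith
      exact_mod_cast this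
    have hKr : (20 : ℝ) ≤ K := by exact_mod_cast hK20
    -- the upper bound for the model
    have hKδ : (K : ℝ) ^ δ * (K : ℝ) ^ δ ≤ q ^ 4 := by
      rw [← Real.rpow_add (by linarith)]
      calc (K : ℝ) ^ (δ + δ) ≤ (K : ℝ) ^ (1 / 2 : ℝ) := Real.rpow_le_rpow_of_exponent_le (by linarith) (by linarith)
        _ ≤ (R ^ κ) ^ (1 / 2 : ℝ) := Real.rpow_le_rpow (by linarith) hKR (by norm_num)
        _ = q ^ 4 := by
            rw [← hq8, ← Real.rpow_natCast, ← Real.rpow_mul (by linarith), ← Real.rpow_natCast]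
            congr 1
            norm_num
    obtain ⟨B, hB⟩ : ∃ B : ℝ, B = 1 + Real.log R := ⟨_, rfl⟩
    have hB1 : 1 ≤ B := by rw [hB]; linarith
    have hBq : B ≤ q * (1 + 8 / κ) := by
      rw [hB]
      have e : q * (1 + 8 / κ) = q + 8 * q / κ := by ring
      rw [e]
      linarith
    have hMsq : M ^ 2 ≤ C0 ^ 2 * q ^ 4 * B * (B + M) := by
      unfold er at h1
      rw [← hB] at h1
      have h2 : M ^ 2 ≤ (C0 * ((K : ℝ) ^ δ * √(B * (B + M)))) ^ 2 := pow_le_pow_left₀ hM0 h1 2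
      refine h2.trans (le_of_eq_of_le ?_ (mul_le_mul_of_nonneg_right (mul_le_mul_of_nonneg_right
        (mul_le_mul_of_nonneg_left hKδ (sq_nonneg C0)) (by linarith)) (by linarith)))
      rw [mul_pow, mul_pow, Real.sq_sqrt (by positivity)]
      ring
    have hA1 : 1 ≤ C0 ^ 2 * q ^ 4 := by
      have h2 : 1 ≤ C0 ^ 2 := one_le_pow₀ hC0
      have h3 : 1 ≤ q ^ 4 := one_le_pow₀ hq1
      nlinarith
    have hMup : M ≤ 2 * (C0 ^ 2 * q ^ 4 * B) := by
      by_contra hcon
      push Not at hcon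
      obtain ⟨A, hA⟩ : ∃ A : ℝ, A = C0 ^ 2 * q ^ 4 * B := ⟨_, rfl⟩
      rw [← hA] at hcon hMsq
      have hAB : B ≤ A := by
        rw [hA]
        nlinarith
      have hA0 : 0 < A := by linarith
      have h2 : A * B ≤ A * A := mul_le_mul_of_nonneg_left hAB hA0.le
      nlinarith
    -- the number of the primes
    have hlogK : 0 < Real.log K := Real.log_pos (by linarith)
    have hlogKq : Real.log K ≤ 8 * q := by
      calc Real.log K ≤ Real.log (q ^ 8) := Real.log_le_log (by linarith) (by rw [hq8]; exact hKR)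
        _ = 8 * Real.log q := by rw [Real.log_pow]; norm_num
        _ ≤ 8 * q := by
            have := Real.log_le_sub_one_of_pos (x := q) (by linarith)
            linarith
    have hπ : q ^ 7 / 32 ≤ ((prs K).card : ℝ) := by
      refine le_trans ?_ (prs_lower K hK20)
      rw [div_le_div_iff₀ (by norm_num) (by positivity)]
      calc q ^ 7 * (2 * Real.log K) ≤ q ^ 7 * (2 * (8 * q)) := by
            apply mul_le_mul_of_nonneg_left _ (by positivity)
            linarith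
        _ = q ^ 8 / 2 * 32 := by ring
        _ ≤ K * 32 := mul_le_mul_of_nonneg_right hKlow (by norm_num)
    have hdv : (((prs K).filter (fun p : ℕ => (p : ℤ) ∣ k)).card : ℝ) ≤ 16 * q := by
      have h2 := card_dvd k hk0 K
      obtain ⟨m, hm⟩ : ∃ m : ℕ, m = ((prs K).filter (fun p : ℕ => (p : ℤ) ∣ k)).card := ⟨_, rfl⟩
      rw [← hm] at h2 ⊢
      have h3 : (2 : ℝ) ^ m ≤ q ^ 8 := by
        calc (2 : ℝ) ^ m ≤ (k.natAbs : ℝ) := by exact_mod_cast h2
          _ = ((|k| : ℤ) : ℝ) := Nat.cast_natAbs k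
          _ ≤ q ^ 8 := by rw [hq8]; exact hkR
      have h4 : (m : ℝ) * Real.log 2 ≤ 8 * Real.log q := by
        have := Real.log_le_log (by positivity) h3
        rw [Real.log_pow, Real.log_pow] at this
        exact_mod_cast this
      have h5 := Real.log_le_sub_one_of_pos (x := q) (by linarith)
      have h6 := Real.log_two_gt_d9
      have hm0 : (0 : ℝ) ≤ m := Nat.cast_nonneg m
      nlinarith
    rw [← hc] at hlow
    have hfin : c * (q ^ 7 / 32) ≤ q ^ 5 * (17 * c + 2 * C0 ^ 2 * (1 + 8 / κ)) := by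
      have h2 : c * (q ^ 7 / 32 - 1 - 16 * q) ≤ M := by
        refine le_trans ?_ hlow
        apply mul_le_mul_of_nonneg_left _ hc0.le
        linarith
      have h3 : M ≤ 2 * C0 ^ 2 * (1 + 8 / κ) * q ^ 5 := by
        refine hMup.trans ?_
        calc 2 * (C0 ^ 2 * q ^ 4 * B) ≤ 2 * (C0 ^ 2 * q ^ 4 * (q * (1 + 8 / κ))) := by
              apply mul_le_mul_of_nonneg_left _ (by norm_num)
              apply mul_le_mul_of_nonneg_left hBq (by positivity)
          _ = _ := by ring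
      have h4 : q ≤ q ^ 5 := le_self_pow₀ hq1 (by norm_num)
      have h5 : 1 ≤ q ^ 5 := one_le_pow₀ hq1
      have h6 : c * (1 + 16 * q) ≤ c * (17 * q ^ 5) := by
        apply mul_le_mul_of_nonneg_left _ hc0.le
        linarith
      nlinarith
    have hq5 : 0 < q ^ 5 := by positivity
    have h7 : q ^ 2 ≤ K1 := by
      rw [hK1]
      have e : q ^ 7 = q ^ 5 * q ^ 2 := by ring
      rw [e] at hfin
      have h8 : c * (q ^ 2 / 32) ≤ 17 * c + 2 * C0 ^ 2 * (1 + 8 / κ) := by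
        by_contra hcon
        push Not at hcon
        have := mul_lt_mul_of_pos_left hcon hq5
        nlinarith
      have h9 : q ^ 2 = 32 / c * (c * (q ^ 2 / 32)) := by field_simp
      rw [h9]
      exact mul_le_mul_of_nonneg_left h8 (by positivity)
    linarith

end Pool.Agent.U471.DQ
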