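import Pool.Agent.U471.DQ.Quad3

set_option autoImplicit false

/-!
Splitting of the primes in quadratic fields, in terms of discriminants.
-/

namespace Pool.Agent.U471.DQ

open Finset Polynomial

/-- fundamental discriminants, and `1` -/
def Fund (D : ℤ) : Prop :=
  (D % 4 = 1 ∧ Squarefree D) ∨ (∃ m : ℤ, D = 4 * m ∧ (m % 4 = 2 ∨ m % 4 = 3) ∧ Squarefree m)

/-- `p` splits in the field with the discriminant `D` -/
def Splits (D : ℤ) (p : ℕ) : Prop := ¬ (p : ℤ) ∣ D ∧ ∃ t : ℤ, (4 * (p : ℤ)) ∣ t ^ 2 - D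

/-- `p` is inert in the field with the discriminant `D` -/
def Inert (D : ℤ) (p : ℕ) : Prop := ¬ (p : ℤ) ∣ D ∧ ¬ ∃ t : ℤ, (4 * (p : ℤ)) ∣ t ^ 2 - D

/-- `p` splits in the fields with the discriminants `D i`, `i ∈ S`, and is inert in the others -/
def DPat {r : ℕ} (S : Finset (Fin r)) (D : Fin r → ℤ) (p : ℕ) : Prop :=
  ∀ i, (i ∈ S → Splits (D i) p) ∧ (i ∉ S → Inert (D i) p)

lemma Fund.sq_not_dvd {D : ℤ} (h : Fund D) {p : ℕ} (hp : p.Prime) (h2 : p ≠ 2) : ¬ ((p : ℤ) * p) ∣ D := by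
  intro hd
  have hpi : Prime (p : ℤ) := Nat.prime_iff_prime_int.1 hp
  rcases h with ⟨_, h⟩ | ⟨m, hm, _, h⟩
  · exact hpi.not_unit (h _ hd)
  · apply hpi.not_unit
    apply h
    rw [hm] at hd
    have hc : IsCoprime ((p : ℤ) * p) 4 := by
      have h1 : IsCoprime (p : ℤ) 4 := by
        rw [Int.isCoprime_iff_gcd_eq_one]
        have : Nat.Coprime p 4 := by
          rw [show 4 = 2 ^ 2 by norm_num]
          exact Nat.Coprime.pow_right 2 ((Nat.coprime_primes hp Nat.prime_two).2 h2)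
        exact this
      exact IsCoprime.mul_left h1 h1
    exact hc.dvd_of_dvd_mul_left hd

lemma Fund.mod4 {D : ℤ} (h : Fund D) : D % 4 = 0 ∨ D % 4 = 1 := by
  rcases h with ⟨h, _⟩ | ⟨m, hm, _, _⟩
  · right; exact h
  · left
    omega

lemma not_dvd_disc {D z : ℤ} (h : Fund D) (hs : IsSquare (D * z)) {p : ℕ} (hp : p.Prime) (h2 : p ≠ 2) (hz : ¬ (p : ℤ) ∣ z) :
    ¬ (p : ℤ) ∣ D := by
  intro hd
  obtain ⟨m, hm⟩ := hs
  have hpi : Prime (p : ℤ) := Nat.prime_iff_prime_int.1 hp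
  have h1 : (p : ℤ) ∣ m * m := by rw [← hm]; exact hd.mul_right _
  have h3 : (p : ℤ) ∣ m := by
    rcases hpi.dvd_or_dvd h1 with h | h <;> exact h
  have h4 : (p : ℤ) * p ∣ D * z := by
    rw [hm]
    exact mul_dvd_mul h3 h3
  have hc : IsCoprime ((p : ℤ) * p) z := by
    have h5 : IsCoprime (p : ℤ) z := (Prime.coprime_iff_not_dvd hpi).2 hz
    exact IsCoprime.mul_left h5 h5
  exact h.sq_not_dvd hp h2 (hc.dvd_of_dvd_mul_right h4)

lemma square_iff {D z : ℤ} (h : Fund D) (hs : IsSquare (D * z)) {p : ℕ} (hp : p.Prime) (h2 : p ≠ 2) (hz : ¬ (p : ℤ) ∣ z) :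
    (∃ t : ℤ, (4 * (p : ℤ)) ∣ t ^ 2 - D) ↔ IsSquare (z : ZMod p) := by
  haveI : Fact p.Prime := ⟨hp⟩
  have hD := not_dvd_disc h hs hp h2 hz
  have hD0 : (D : ZMod p) ≠ 0 := fun h0 => hD ((ZMod.intCast_zmod_eq_zero_iff_dvd _ _).1 h0)
  have hz0 : (z : ZMod p) ≠ 0 := fun h0 => hz ((ZMod.intCast_zmod_eq_zero_iff_dvd _ _).1 h0)
  obtain ⟨m, hm⟩ := hs
  have hmp : (D : ZMod p) * z = m * m := by
    have := congrArg (fun a : ℤ => (a : ZMod p)) hm
    simpa using this
  constructor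
  · rintro ⟨t, ht⟩
    have h1 : (p : ℤ) ∣ t ^ 2 - D := (Dvd.intro_left 4 rfl).trans ht
    have h3 : (t : ZMod p) ^ 2 = D := by
      have := (ZMod.intCast_zmod_eq_zero_iff_dvd _ _).2 h1
      push_cast at this
      exact sub_eq_zero.1 this
    have ht0 : (t : ZMod p) ≠ 0 := by
      intro h0
      rw [h0] at h3
      apply hD0
      rw [← h3]
      ring
    refine ⟨(m : ZMod p) / t, ?_⟩
    field_simp
    calc (z : ZMod p) * t ^ 2 = D * z := by rw [h3]; ring
      _ = m ^ 2 := by rw [hmp]; ring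
  · rintro ⟨s, hs'⟩
    have hs0 : s ≠ 0 := by
      intro h0
      rw [h0] at hs'
      apply hz0
      rw [hs']
      ring
    -- D is a square mod p
    have hDs : (D : ZMod p) = (m / s) ^ 2 := by
      field_simp
      calc (D : ZMod p) * s ^ 2 = D * z := by rw [hs']; ring
        _ = m ^ 2 := by rw [hmp]; ring
    obtain ⟨u, hu⟩ : ∃ u : ℤ, (u : ZMod p) = m / s := ZMod.intCast_surjective _
    have hpu : (p : ℤ) ∣ u ^ 2 - D := by
      rw [← ZMod.intCast_zmod_eq_zero_iff_dvd]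
      push_cast
      rw [hu, hDs, sub_self]
    obtain ⟨k, hk⟩ : ∃ k : ℤ, (u + p * k - D) % 2 = 0 := by
      have hodd : (p : ℤ) % 2 = 1 := by
        have := hp.eq_two_or_odd
        omega
      by_cases hu2 : (u - D) % 2 = 0
      · exact ⟨0, by simpa using hu2⟩
      · exact ⟨1, by omega⟩
    refine ⟨u + p * k, ?_⟩
    have h4 : (4 : ℤ) ∣ (u + p * k) ^ 2 - D := by
      obtain ⟨t, ht⟩ : ∃ t : ℤ, t = u + p * k := ⟨_, rfl⟩
      rw [← ht] at hk ⊢
      rcases h.mod4 with h0 | h0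
      · have : t % 2 = 0 := by omega
        obtain ⟨w, hw⟩ : ∃ w, t = 2 * w := ⟨t / 2, by omega⟩
        rw [hw]
        have e : (2 * w) ^ 2 - D = 4 * (w ^ 2) - D := by ring
        rw [e]
        exact dvd_sub (Dvd.intro _ rfl) (Int.dvd_of_emod_eq_zero h0)
      · have : t % 2 = 1 := by omega
        obtain ⟨w, hw⟩ : ∃ w, t = 2 * w + 1 := ⟨t / 2, by omega⟩
        rw [hw]
        have e : (2 * w + 1) ^ 2 - D = 4 * (w ^ 2 + w) - (D - 1) := by ring
        rw [e]
        exact dvd_sub (Dvd.intro _ rfl) (by omega)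
    have h5 : (p : ℤ) ∣ (u + p * k) ^ 2 - D := by
      have e : (u + p * k) ^ 2 - D = (u ^ 2 - D) + p * (2 * u * k + p * k ^ 2) := by ring
      rw [e]
      exact dvd_add hpu (Dvd.intro _ rfl)
    have hc : IsCoprime (4 : ℤ) p := by
      rw [Int.isCoprime_iff_gcd_eq_one]
      have : Nat.Coprime 4 p := by
        rw [show 4 = 2 ^ 2 by norm_num]
        exact Nat.Coprime.pow_left 2 ((Nat.coprime_primes Nat.prime_two hp).2 (Ne.symm h2))
      exact this
    exact hc.mul_dvd h4 h5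

lemma DPat_of_Pat {r : ℕ} {S : Finset (Fin r)} {D z : Fin r → ℤ} (h : ∀ i, Fund (D i)) (hs : ∀ i, IsSquare (D i * z i))
    {p : ℕ} (hp : p.Prime) (hP : Pat S p z) : DPat S D p := by
  intro i
  have hi := hP i
  constructor
  · intro hS
    rw [if_pos hS] at hi
    exact ⟨not_dvd_disc (h i) (hs i) hp hi.1 hi.2.1, (square_iff (h i) (hs i) hp hi.1 hi.2.1).2 hi.2.2⟩
  · intro hS
    rw [if_neg hS] at hi
    have hz : ¬ (p : ℤ) ∣ z i := by
      intro hd
      apply hi.2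
      rw [(ZMod.intCast_zmod_eq_zero_iff_dvd _ _).2 hd]
      exact IsSquare.zero
    exact ⟨not_dvd_disc (h i) (hs i) hp hi.1 hz, fun h' => hi.2 ((square_iff (h i) (hs i) hp hi.1 hz).1 h')⟩

lemma DPat_unique {r : ℕ} {S S' : Finset (Fin r)} {D : Fin r → ℤ} {p : ℕ} (h : DPat S D p) (h' : DPat S' D p) : S = S' := by
  ext i
  constructor
  · intro hi
    by_contra hn
    exact ((h' i).2 hn).2 ((h i).1 hi).2
  · intro hi
    by_contra hn
    exact ((h i).2 hn).2 ((h' i).1 hi).2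

open Classical in
/-- the number of the primes `p ≤ x` with a pattern -/
noncomputable def dcount {r : ℕ} (S : Finset (Fin r)) (D : Fin r → ℤ) (x : ℕ) : ℕ := ((prs x).filter (DPat S D)).card

lemma dcount_sum {r : ℕ} (D : Fin r → ℤ) (x : ℕ) : ∑ S : Finset (Fin r), dcount S D x ≤ (prs x).card := by
  classical
  unfold dcount
  rw [← card_biUnion]
  · apply card_le_card
    intro p hp
    rw [mem_biUnion] at hp
    obtain ⟨S, _, h⟩ := hp
    exact (mem_filter.1 h).1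
  · intro S _ S' _ hne
    rw [Function.onFun, disjoint_left]
    intro p hp hp'
    exact hne (DPat_unique (mem_filter.1 hp).2 (mem_filter.1 hp').2)

lemma dcount_ge {r : ℕ} (S : Finset (Fin r)) {D z : Fin r → ℤ} (h : ∀ i, Fund (D i)) (hs : ∀ i, IsSquare (D i * z i)) (x : ℕ) :
    cnt (Pat S) z x ≤ dcount S D x := by
  classical
  unfold cnt dcount
  apply card_le_card
  intro p hp
  rw [mem_filter] at hp ⊢
  refine ⟨hp.1, DPat_of_Pat h hs ?_ hp.2⟩
  have := hp.1
  unfold prs at this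
  exact (mem_filter.1 this).2

/-- all patterns have the expected frequency, up to a constant factor in the error -/
lemma dcount_close {r : ℕ} {D z : Fin r → ℤ} (h : ∀ i, Fund (D i)) (hs : ∀ i, IsSquare (D i * z i)) (x : ℕ) (W : ℝ)
    (hW : ∀ S : Finset (Fin r), |(cnt (Pat S) z x : ℝ) - ((prs x).card : ℝ) / 2 ^ r| ≤ W) (S : Finset (Fin r)) :
    |(dcount S D x : ℝ) - ((prs x).card : ℝ) / 2 ^ r| ≤ 2 ^ r * W := by
  classical
  have hW0 : 0 ≤ W := (abs_nonneg _).trans (hW S)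
  have hlow : ∀ S : Finset (Fin r), ((prs x).card : ℝ) / 2 ^ r - W ≤ dcount S D x := by
    intro S
    have h1 := (abs_le.1 (hW S)).1
    have h2 : (cnt (Pat S) z x : ℝ) ≤ dcount S D x := by exact_mod_cast dcount_ge S h hs x
    linarith
  have hsum : ∑ S : Finset (Fin r), (dcount S D x : ℝ) ≤ (prs x).card := by exact_mod_cast dcount_sum D x
  rw [← add_sum_erase _ _ (mem_univ S)] at hsum
  have hrest : ((2 : ℝ) ^ r - 1) * (((prs x).card : ℝ) / 2 ^ r - W) ≤ ∑ S' ∈ univ.erase S, (dcount S' D x : ℝ) := by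
    have hc : ((univ.erase S : Finset (Finset (Fin r))).card : ℝ) = 2 ^ r - 1 := by
      rw [card_erase_of_mem (mem_univ S), card_univ, Fintype.card_finset, Fintype.card_fin, Nat.cast_sub Nat.one_le_two_pow]
      push_cast
      ring
    rw [← hc, ← nsmul_eq_mul, ← sum_const]
    exact sum_le_sum fun S' _ => hlow S'
  have h2r : (1 : ℝ) ≤ 2 ^ r := one_le_pow₀ (by norm_num)
  have hmul : (2 : ℝ) ^ r * (((prs x).card : ℝ) / 2 ^ r) = (prs x).card := by field_simp
  rw [abs_le]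
  constructor
  · have := hlow S
    nlinarith
  · have : (dcount S D x : ℝ) ≤ (prs x).card - ((2 : ℝ) ^ r - 1) * (((prs x).card : ℝ) / 2 ^ r - W) := by linarith
    have e : ((prs x).card : ℝ) - ((2 : ℝ) ^ r - 1) * (((prs x).card : ℝ) / 2 ^ r - W) =
      (prs x).card - (2 : ℝ) ^ r * (((prs x).card : ℝ) / 2 ^ r) + ((prs x).card : ℝ) / 2 ^ r + (2 ^ r - 1) * W := by ring
    rw [e, hmul] at this
    nlinarith

end Pool.Agent.U471.DQ
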