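import Pool.Agent.U471.DQ.Quad4

set_option autoImplicit false

/-!
Splitting of the primes in quadratic fields, down to a power of the logarithm of the discriminant.
-/

namespace Pool.Agent.U471.DQ

open Finset Polynomial

lemma sq_cancel {a b : ℤ} (ha : a ≠ 0) (h : IsSquare (a * a * b)) : IsSquare b := by
  obtain ⟨m, hm⟩ := h
  have h1 : a ^ 2 ∣ m ^ 2 := ⟨b, by rw [pow_two, pow_two, ← hm]⟩
  have h2 : a ∣ m := (Int.pow_dvd_pow_iff two_ne_zero).1 h1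
  obtain ⟨c, hc⟩ := h2
  refine ⟨c, ?_⟩
  have h3 : a * a * b = a * a * (c * c) := by
    rw [hm, hc]
    ring
  exact mul_left_cancel₀ (mul_ne_zero ha ha) h3

lemma Fund.ne_zero {D : ℤ} (h : Fund D) : D ≠ 0 := by
  rcases h with ⟨h, _⟩ | ⟨m, hm, h, _⟩ <;> omega

/-- the number of primes is at least `√x / 4` -/
lemma prs_sqrt (x : ℕ) (hx : 20 ≤ x) : √(x : ℝ) / 4 ≤ ((prs x).card : ℝ) := by
  refine le_trans ?_ (prs_lower x hx)
  have hx0 : (20 : ℝ) ≤ x := by exact_mod_cast hx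
  have hs0 : 0 < √(x : ℝ) := Real.sqrt_pos.2 (by linarith)
  have hl0 : 0 < Real.log x := Real.log_pos (by linarith)
  have h1 : Real.log x ≤ 2 * √(x : ℝ) := by
    have h2 := Real.log_le_sub_one_of_pos hs0
    have h3 : Real.log x = 2 * Real.log (√(x : ℝ)) := by
      rw [Real.log_sqrt (by linarith)]
      ring
    rw [h3]
    linarith
  rw [div_le_div_iff₀ (by norm_num) (by positivity)]
  have h4 : √(x : ℝ) * √(x : ℝ) = x := Real.mul_self_sqrt (by linarith)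
  nlinarith [mul_le_mul_of_nonneg_left h1 hs0.le]

/-- the main estimate -/
theorem quad_range (r d : ℕ) (hr : 1 ≤ r) (hd : 1 ≤ d) (f : Fin r → ℝ[X]) (hf : ∀ i, (f i).natDegree ≤ d)
    (β₀ : ℝ) (hβ₀ : 0 < β₀) (N₀ : ℕ) (hg : ∀ N : ℕ, N₀ ≤ N → Gen d N ((N : ℝ) ^ β₀) f) (ε : ℝ) (hε : 0 < ε) :
    ∃ κ : ℝ, 0 < κ ∧ ∀ η : ℝ, 0 < η → ∃ N₁ : ℕ, ∀ N : ℕ, N₁ ≤ N → ∃ E : Finset ℕ, E ⊆ range N ∧
      (E.card : ℝ) ≤ (N : ℝ) ^ (1 - κ / 2) ∧ ∀ n ∈ range N, n ∉ E →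
      ∀ z : Fin r → ℤ, (∀ i, |(z i : ℝ) - (f i).eval (n : ℝ)| ≤ (N : ℝ) ^ κ) → ∀ D : Fin r → ℤ, (∀ i, Fund (D i)) →
        (∀ i, IsSquare (D i * z i)) →
        (∀ T : Finset (Fin r), T.Nonempty → ∀ k : ℤ, k ≠ 0 → ((|k| : ℤ) : ℝ) ≤ (N : ℝ) ^ κ → ¬ IsSquare (k * ∏ i ∈ T, D i)) ∧
        (∀ i, (N : ℝ) ^ κ < ((|D i| : ℤ) : ℝ)) ∧
        ∀ (S : Finset (Fin r)) (x : ℕ), (κ * Real.log N) ^ (1 + ε) ≤ x → (x : ℝ) ≤ (N : ℝ) ^ κ →
          |(dcount S D x : ℝ) - ((prs x).card : ℝ) / 2 ^ r| ≤ η * (prs x).card := by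
  classical
  obtain ⟨θ, hθ⟩ : ∃ θ : ℝ, θ = 1 / (1 + ε) := ⟨_, rfl⟩
  have hθ0 : 0 < θ := by rw [hθ]; positivity
  have hθ1 : θ < 1 := by
    rw [hθ, div_lt_one (by positivity)]
    linarith
  have hθε : θ * (1 + ε) = 1 := by
    rw [hθ]
    field_simp
  obtain ⟨δ, hδ⟩ : ∃ δ : ℝ, δ = (1 - θ) / 4 := ⟨_, rfl⟩
  have hδ0 : 0 < δ := by rw [hδ]; linarith
  have hδ1 : δ ≤ 1 / 4 := by rw [hδ]; linarith
  obtain ⟨γ, hγ⟩ : ∃ γ : ℝ, γ = (1 - θ) / 4 := ⟨_, rfl⟩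
  have hγ0 : 0 < γ := by rw [hγ]; linarith
  have hexp : δ + (1 + θ) / 2 = 1 - γ := by rw [hδ, hγ]; ring
  obtain ⟨κ₁, C, hκ₁, _, hC, H⟩ := near_quad r d hr hd δ hδ0 hδ1
  obtain ⟨κ, hκ⟩ : ∃ κ : ℝ, κ = β₀ * κ₁ := ⟨_, rfl⟩
  have hκ0 : 0 < κ := by rw [hκ]; positivity
  refine ⟨κ, hκ0, fun η hη => ?_⟩
  obtain ⟨A, hA⟩ : ∃ A : ℝ, A = (1 + β₀) / κ := ⟨_, rfl⟩
  have hA0 : 0 < A := by rw [hA]; positivity
  obtain ⟨B, hB⟩ : ∃ B : ℝ, B = 2 ^ r * (C * (√A + A)) := ⟨_, rfl⟩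
  have hB0 : 0 < B := by rw [hB]; positivity
  obtain ⟨X0, hX0⟩ : ∃ X0 : ℝ, X0 = (4 * B / (γ * η)) ^ (2 / γ) := ⟨_, rfl⟩
  have hX00 : 0 < X0 := by rw [hX0]; positivity
  -- large N
  have ev1 : ∀ᶠ N : ℕ in Filter.atTop, C ≤ (N : ℝ) ^ (κ / 2) := by
    have := (tendsto_rpow_atTop (y := κ / 2) (by positivity)).comp (tendsto_natCast_atTop_atTop (R := ℝ))
    exact this.eventually_ge_atTop C
  have ev2 : ∀ᶠ N : ℕ in Filter.atTop, max 1 ((X0 + 20) / κ) ≤ Real.log N := by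
    have := Real.tendsto_log_atTop.comp (tendsto_natCast_atTop_atTop (R := ℝ))
    exact this.eventually_ge_atTop _
  obtain ⟨N₁, hN₁⟩ := Filter.eventually_atTop.1 (ev1.and ev2)
  refine ⟨max N₀ (max N₁ 1), fun N hN => ?_⟩
  have hNN₀ : N₀ ≤ N := (le_max_left _ _).trans hN
  have hNN₁ : N₁ ≤ N := ((le_max_left _ _).trans (le_max_right _ _)).trans hN
  have hN1 : 1 ≤ N := ((le_max_right _ _).trans (le_max_right _ _)).trans hN
  obtain ⟨hCN, hLN⟩ := hN₁ N hNN₁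
  have hL1 : 1 ≤ Real.log N := (le_max_left _ _).trans hLN
  have hL2 : X0 + 20 ≤ κ * Real.log N := by
    have h1 := (le_max_right 1 ((X0 + 20) / κ)).trans hLN
    rwa [div_le_iff₀ hκ0, mul_comm] at h1
  have hNr : (1 : ℝ) ≤ N := by exact_mod_cast hN1
  have hN0 : (0 : ℝ) < N := by linarith
  obtain ⟨R, hR⟩ : ∃ R : ℝ, R = (N : ℝ) ^ β₀ := ⟨_, rfl⟩
  have hR1 : 1 ≤ R := by rw [hR]; exact Real.one_le_rpow hNr hβ₀.le
  have hRκ : R ^ κ₁ = (N : ℝ) ^ κ := by rw [hR, ← Real.rpow_mul hN0.le, hκ]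
  have hRκ' : R ^ (-κ₁) = (N : ℝ) ^ (-κ) := by
    rw [hR, ← Real.rpow_mul hN0.le, hκ]
    congr 1
    ring
  have hlogR : Real.log R = β₀ * Real.log N := by rw [hR, Real.log_rpow hN0]
  obtain ⟨E, hE1, hE2, hE3⟩ := H N R f hN1 hR1 hf (by rw [hR]; exact hg N hNN₀)
  refine ⟨E, hE1, ?_, ?_⟩
  · refine hE2.trans ?_
    rw [hRκ']
    have e1 : (N : ℝ) ^ (1 - κ / 2) = (N : ℝ) ^ (κ / 2) * (N * (N : ℝ) ^ (-κ)) := by
      have : (N : ℝ) * (N : ℝ) ^ (-κ) = (N : ℝ) ^ (1 + -κ) := by rw [Real.rpow_add hN0, Real.rpow_one]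
      rw [this, ← Real.rpow_add hN0]
      congr 1
      ring
    rw [e1]
    exact mul_le_mul_of_nonneg_right hCN (by positivity)
  intro n hn hnE z hz D hD hDz
  obtain ⟨h1, h2⟩ := hE3 n hn hnE z (by
    intro i
    rw [hRκ]
    exact hz i)
  have hrel : ∀ T : Finset (Fin r), T.Nonempty → ∀ k : ℤ, k ≠ 0 → ((|k| : ℤ) : ℝ) ≤ (N : ℝ) ^ κ →
      ¬ IsSquare (k * ∏ i ∈ T, D i) := by
    intro T hT k hk hkR hsq
    apply h2 T hT k hk (by rw [hRκ]; exact hkR)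
    have hprod : IsSquare ((∏ i ∈ T, D i) * ∏ i ∈ T, z i) := by
      rw [← prod_mul_distrib]
      choose m hm using hDz
      exact ⟨∏ i ∈ T, m i, by rw [← prod_mul_distrib]; exact prod_congr rfl fun i _ => hm i⟩
    have h3 : IsSquare ((∏ i ∈ T, D i) * (∏ i ∈ T, D i) * (k * ∏ i ∈ T, z i)) := by
      have e : (∏ i ∈ T, D i) * (∏ i ∈ T, D i) * (k * ∏ i ∈ T, z i) =
        (k * ∏ i ∈ T, D i) * ((∏ i ∈ T, D i) * ∏ i ∈ T, z i) := by ring
      rw [e]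
      exact hsq.mul hprod
    exact sq_cancel (prod_ne_zero_iff.2 fun i _ => (hD i).ne_zero) h3
  refine ⟨hrel, ?_, ?_⟩
  · intro i
    by_contra hcon
    push Not at hcon
    apply hrel {i} (singleton_nonempty i) (D i) (hD i).ne_zero hcon
    rw [prod_singleton]
    exact ⟨D i, rfl⟩
  intro S x hx1 hx2
  have hΛ : 20 ≤ κ * Real.log N := by linarith
  have hxΛ : κ * Real.log N ≤ x := by
    refine le_trans ?_ hx1
    calc κ * Real.log N = (κ * Real.log N) ^ (1 : ℝ) := (Real.rpow_one _).symm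
      _ ≤ (κ * Real.log N) ^ (1 + ε) := Real.rpow_le_rpow_of_exponent_le (by linarith) (by linarith)
  have hx20 : (20 : ℝ) ≤ x := hΛ.trans hxΛ
  have hx20' : 20 ≤ x := by exact_mod_cast hx20
  have hx0 : (0 : ℝ) < x := by linarith
  have hx1' : (1 : ℝ) ≤ x := by linarith
  have hxX : X0 ≤ x := by linarith
  -- 1 + log R ≤ A x ^ θ
  have hΛθ : κ * Real.log N ≤ (x : ℝ) ^ θ := by
    calc κ * Real.log N = ((κ * Real.log N) ^ (1 + ε)) ^ θ := by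
          rw [← Real.rpow_mul (by linarith), mul_comm (1 + ε) θ, hθε, Real.rpow_one]
      _ ≤ (x : ℝ) ^ θ := Real.rpow_le_rpow (by positivity) hx1 hθ0.le
  have hBR : 1 + Real.log R ≤ A * (x : ℝ) ^ θ := by
    rw [hlogR]
    calc 1 + β₀ * Real.log N ≤ (1 + β₀) * Real.log N := by nlinarith
      _ = A * (κ * Real.log N) := by rw [hA]; field_simp
      _ ≤ _ := mul_le_mul_of_nonneg_left hΛθ hA0.le
  have hlR0 : 0 ≤ Real.log R := Real.log_nonneg hR1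
  have hxθ : (x : ℝ) ^ θ ≤ (x : ℝ) ^ ((1 + θ) / 2) := Real.rpow_le_rpow_of_exponent_le hx1' (by linarith)
  have hsq : √((x : ℝ) * (1 + Real.log R)) ≤ √A * (x : ℝ) ^ ((1 + θ) / 2) := by
    have h3 : (x : ℝ) * (1 + Real.log R) ≤ A * (x : ℝ) ^ (1 + θ) := by
      rw [Real.rpow_add hx0, Real.rpow_one]
      nlinarith
    refine (Real.sqrt_le_sqrt h3).trans (le_of_eq ?_)
    rw [Real.sqrt_mul hA0.le, Real.sqrt_eq_rpow ((x : ℝ) ^ (1 + θ)), ← Real.rpow_mul hx0.le]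
    congr 2
    ring
  have herr : C * ((x : ℝ) ^ δ * (√(x * (1 + Real.log R)) + (1 + Real.log R))) ≤ C * (√A + A) * (x : ℝ) ^ (1 - γ) := by
    rw [← hexp, Real.rpow_add hx0]
    have h3 : √(x * (1 + Real.log R)) + (1 + Real.log R) ≤ (√A + A) * (x : ℝ) ^ ((1 + θ) / 2) := by
      have := mul_le_mul_of_nonneg_left hxθ hA0.le
      linarith
    calc _ ≤ C * ((x : ℝ) ^ δ * ((√A + A) * (x : ℝ) ^ ((1 + θ) / 2))) :=
          mul_le_mul_of_nonneg_left (mul_le_mul_of_nonneg_left h3 (by positivity)) (by linarith)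
      _ = _ := by ring
  have hmain := dcount_close hD hDz x (C * ((x : ℝ) ^ δ * (√(x * (1 + Real.log R)) + (1 + Real.log R))))
    (fun S => h1 S x (by rw [hRκ]; exact hx2)) S
  refine hmain.trans ?_
  calc _ ≤ 2 ^ r * (C * (√A + A) * (x : ℝ) ^ (1 - γ)) := mul_le_mul_of_nonneg_left herr (by positivity)
    _ = B * (x : ℝ) ^ (1 - γ) := by rw [hB]; ring
    _ ≤ η * (x / (2 * Real.log x)) := by
        have hlx : 0 < Real.log x := Real.log_pos (by linarith)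
        have hlog : Real.log x ≤ (x : ℝ) ^ (γ / 2) / (γ / 2) := Real.log_le_rpow_div hx0.le (by positivity)
        have hbig : 4 * B / (γ * η) ≤ (x : ℝ) ^ (γ / 2) := by
          calc 4 * B / (γ * η) = X0 ^ (γ / 2) := by
                rw [hX0, ← Real.rpow_mul (by positivity)]
                have : 2 / γ * (γ / 2) = 1 := by field_simp
                rw [this, Real.rpow_one]
            _ ≤ _ := Real.rpow_le_rpow hX00.le hxX (by positivity)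
        rw [div_le_iff₀ (by positivity)] at hbig
        have hxγ : (x : ℝ) ^ (1 - γ) * ((x : ℝ) ^ (γ / 2) * (x : ℝ) ^ (γ / 2)) = x := by
          rw [← Real.rpow_add hx0, ← Real.rpow_add hx0]
          have : 1 - γ + (γ / 2 + γ / 2) = 1 := by ring
          rw [this, Real.rpow_one]
        rw [mul_div_assoc', le_div_iff₀ (by positivity)]
        rw [le_div_iff₀ (by positivity)] at hlog
        obtain ⟨y, hy⟩ : ∃ y : ℝ, y = (x : ℝ) ^ (γ / 2) := ⟨_, rfl⟩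
        rw [← hy] at hbig hxγ hlog
        have hy0 : 0 < y := by rw [hy]; positivity
        obtain ⟨w, hw⟩ : ∃ w : ℝ, w = (x : ℝ) ^ (1 - γ) := ⟨_, rfl⟩
        rw [← hw] at hxγ ⊢
        have hw0 : 0 < w := by rw [hw]; positivity
        -- B * w * (2 * log x) ≤ η * x,  log x * (γ/2) ≤ y, 4 B ≤ y * (γ * η)
        have h5 : B * w * (2 * Real.log x) * γ ≤ η * x * γ := by
          calc B * w * (2 * Real.log x) * γ = 4 * B * w * (Real.log x * (γ / 2)) := by ring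
            _ ≤ 4 * B * w * y := mul_le_mul_of_nonneg_left hlog (by positivity)
            _ = 4 * B * (w * y) := by ring
            _ ≤ y * (γ * η) * (w * y) := mul_le_mul_of_nonneg_right hbig (by positivity)
            _ = η * (w * (y * y)) * γ := by ring
            _ = η * x * γ := by rw [hxγ]
        exact le_of_mul_le_mul_right h5 hγ0
    _ ≤ _ := mul_le_mul_of_nonneg_left (prs_lower x hx20') hη.le

end Pool.Agent.U471.DQ
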